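import Pool.Agent.MP_ee8c61_ag.H95.Kit

/-! Holomorphic charts attached to etale coordinates. -/

namespace Pool.Agent.MP_ee8c61_ag.H95

open Set Filter Topology MvPolynomial

variable {N : ℕ} {A : Type} [CommRing A] [Algebra ℂ A] {z : Fin N → A}

/-- A derivation at a point that kills the etale coordinates vanishes. -/
theorem unr (h : (ev z).toRingHom.Etale) (φ : A →ₐ[ℂ] ℂ) (δ : A → ℂ)
    (h1 : ∀ a b, δ (a + b) = δ a + δ b) (h2 : ∀ a b, δ (a * b) = φ a * δ b + φ b * δ a)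
    (h3 : ∀ c, δ (algebraMap ℂ A c) = 0) (h4 : ∀ l, δ (z l) = 0) (a : A) : δ a = 0 := by
  let Φ : A →ₐ[ℂ] DualNumber ℂ :=
    { toFun := fun a => (φ a, δ a)
      map_one' := TrivSqZeroExt.ext (map_one φ) (by simpa using h3 1)
      map_mul' := fun a b => TrivSqZeroExt.ext (map_mul φ a b) (by simp [h2, mul_comm])
      map_zero' := TrivSqZeroExt.ext (map_zero φ) (by simpa using h3 0)
      map_add' := fun a b => TrivSqZeroExt.ext (map_add φ a b) (h1 a b)
      commutes' := fun c => TrivSqZeroExt.ext (φ.commutes c) (h3 c) }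
  let Φ' := (TrivSqZeroExt.inlAlgHom ℂ ℂ ℂ).comp φ
  have e : Φ.comp (ev z) = Φ'.comp (ev z) :=
    algHom_ext fun l => TrivSqZeroExt.ext (by simp [Φ, Φ']) (by simp [Φ, Φ', h4])
  let := (ev z).toRingHom.toAlgebra
  let := (Φ'.comp (ev z)).toRingHom.toAlgebra
  have : Algebra.Etale (Pol (Fin N)) A := h
  have := Algebra.FormallyUnramified.ext' (R := Pol (Fin N))
    (TrivSqZeroExt.fstHom ℂ ℂ ℂ).toRingHom ⟨2, TrivSqZeroExt.kerIdeal_sq ℂ ℂ⟩
    ⟨Φ.toRingHom, DFunLike.congr_fun e⟩ ⟨Φ'.toRingHom, fun _ => rfl⟩ fun _ => rfl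
  exact congrArg TrivSqZeroExt.snd (DFunLike.congr_fun this a)

/-- An etale algebra has a presentation with as many relations as new generators. -/
theorem pres (h : (ev z).toRingHom.Etale) : ∃ (ι : Type) (_ : Fintype ι) (y : ι → A)
    (g : ι → Pol (ι ⊕ Fin N)), Function.Surjective (ev (Sum.elim y z)) ∧
      RingHom.ker (ev (Sum.elim y z)) = Ideal.span (range g) := by
  let := (ev z).toRingHom.toAlgebra
  have : IsScalarTower ℂ (Pol (Fin N)) A := .of_algHom (ev z)
  obtain ⟨ι, σ, _, _, P, hP⟩ :=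
    (Algebra.Etale.iff_isStandardSmoothOfRelativeDimension_zero.1 h).out
  obtain ⟨e⟩ := Finite.card_eq.1 (le_antisymm (Nat.sub_eq_zero_iff_le.1 hP)
    P.card_relations_le_card_vars_of_isFinite)
  have e1 : ev (Sum.elim P.val z) = ((aeval P.val).restrictScalars ℂ).comp
      (sumAlgEquiv ℂ ι (Fin N)).toAlgHom :=
    algHom_ext (Sum.rec (by simp) (by simp [RingHom.algebraMap_toAlgebra]))
  refine ⟨ι, Fintype.ofFinite ι, P.val, fun i => (sumAlgEquiv ℂ ι (Fin N)).symm (P.relation (e i)),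
    e1 ▸ P.aeval_val_surjective.comp (AlgEquiv.surjective _), ?_⟩
  have e2 := P.span_range_relation_eq_ker
  rw [P.ker_eq_ker_aeval_val] at e2
  rw [show (range fun i => _) = (sumAlgEquiv ℂ ι (Fin N)).symm '' range P.relation by
    rw [← range_comp, ← e.surjective.range_comp]; rfl, ← Ideal.map_span, e2, e1]
  exact (Ideal.map_symm (I := RingHom.ker (aeval P.val))
    (sumAlgEquiv ℂ ι (Fin N)).toRingEquiv).symm

theorem an_ev {E κ : Type} [NormedAddCommGroup E] [NormedSpace ℂ E] [Fintype κ] {x : E → κ → ℂ}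
    {τ : E} (h : AnalyticAt ℂ x τ) (q : Pol κ) : AnalyticAt ℂ (fun t => ev (x t) q) τ :=
  .aeval_mvPolynomial (fun i => (analyticAt_pi_iff.1 h) i) q

/-- The derivative along a family of points is a derivation. -/
theorem der_fam {E B : Type} [NormedAddCommGroup E] [NormedSpace ℂ E] [CommRing B] [Algebra ℂ B]
    {Ψ : E → B →ₐ[ℂ] ℂ} {τ : E} (h : ∀ s, AnalyticAt ℂ (Ψ · s) τ) (v : E) :
    (∀ a b, fderiv ℂ (Ψ · (a + b)) τ v = fderiv ℂ (Ψ · a) τ v + fderiv ℂ (Ψ · b) τ v) ∧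
    (∀ a b, fderiv ℂ (Ψ · (a * b)) τ v =
      Ψ τ a * fderiv ℂ (Ψ · b) τ v + Ψ τ b * fderiv ℂ (Ψ · a) τ v) ∧
    ∀ c, fderiv ℂ (Ψ · (algebraMap ℂ B c)) τ v = 0 := by
  refine ⟨fun a b => ?_, fun a b => ?_, fun c => by simp⟩
  · simp only [map_add]
    rw [fderiv_fun_add (h a).differentiableAt (h b).differentiableAt]
    rfl
  · simp only [map_mul]
    rw [fderiv_fun_mul (h a).differentiableAt (h b).differentiableAt]
    rfl

/-- The chart at a point. -/
theorem chart_at (h : (ev z).toRingHom.Etale) (φ : A →ₐ[ℂ] ℂ) :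
    ∃ Ψ : (Fin N → ℂ) → A →ₐ[ℂ] ℂ, Ψ 0 = φ ∧
      (∀ᶠ τ in 𝓝 0, (∀ l, Ψ τ (z l) = φ (z l) + τ l) ∧ ∀ s, AnalyticAt ℂ (Ψ · s) τ) ∧
      ∀ {α : Type} (F : Filter α) (p : α → A →ₐ[ℂ] ℂ), (∀ s, Tendsto (p · s) F (𝓝 (φ s))) →
        ∀ᶠ a in F, Ψ (fun l => p a (z l) - φ (z l)) = p a := by
  classical
  obtain ⟨ι, _, y, g, hs, hk⟩ := pres h
  let x0 : ι ⊕ Fin N → ℂ := φ ∘ Sum.elim y z
  let G : (ι ⊕ Fin N → ℂ) → ι ⊕ Fin N → ℂ := fun x v => ev x (Sum.elim g (X ∘ Sum.inr) v)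
  have aG : AnalyticAt ℂ G x0 := analyticAt_pi_iff.2 fun v => an_ev analyticAt_id _
  have e0 : ∀ (p : A →ₐ[ℂ] ℂ) q, ev (p ∘ Sum.elim y z) q = p (ev (Sum.elim y z) q) :=
    fun p q => (comp_aeval_apply _ _ _).symm
  have g0 : ∀ i, ev (Sum.elim y z) (g i) = 0 := fun i =>
    (hk.ge (Ideal.subset_span ⟨i, rfl⟩) :)
  have inj : Function.Injective (fderiv ℂ G x0).toLinearMap := by
    refine (injective_iff_map_eq_zero _).2 fun v hv => ?_
    obtain ⟨d1, d2, d3⟩ := der_fam (Ψ := fun x : ι ⊕ Fin N → ℂ => ev x) (τ := x0)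
      (fun q => an_ev analyticAt_id q) v
    have k1 : ∀ w, fderiv ℂ (fun x => ev x (Sum.elim g (X ∘ Sum.inr) w)) x0 v = 0 := fun w => by
      have := congrFun hv w
      rwa [ContinuousLinearMap.coe_coe,
        fderiv_pi fun w => (analyticAt_pi_iff.1 aG w).differentiableAt] at this
    have k2 : ∀ q ∈ Ideal.span (range g), fderiv ℂ (fun x => ev x q) x0 v = 0 := fun q hq => by
      suffices ev x0 q = 0 ∧ fderiv ℂ (fun x => ev x q) x0 v = 0 from this.2
      induction hq using Submodule.span_induction with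
      | mem _ h =>
        obtain ⟨i, rfl⟩ := h
        exact ⟨by rw [e0, g0, map_zero], k1 (.inl i)⟩
      | zero => simp
      | add a b _ _ ha hb => rw [d1, map_add, ha.1, ha.2, hb.1, hb.2, add_zero, and_self]
      | smul a b _ hb => rw [smul_eq_mul, d2, map_mul, hb.1, hb.2]; simp
    let δ : A → ℂ := fun a => fderiv ℂ (fun x => ev x (Function.surjInv hs a)) x0 v
    have k3 : ∀ q, δ (ev (Sum.elim y z) q) = fderiv ℂ (fun x => ev x q) x0 v := fun q => by
      have := k2 (Function.surjInv hs (ev (Sum.elim y z) q) - q) (hk.le (by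
        rw [RingHom.mem_ker, map_sub, Function.surjInv_eq hs, sub_self]))
      rw [← add_zero (fderiv ℂ _ x0 v), ← this, ← d1, add_sub_cancel]
    funext w
    have := unr h φ δ (hs.forall₂.2 fun a b => by rw [← map_add, k3, k3, k3, d1])
      (hs.forall₂.2 fun a b => by rw [← map_mul, k3, k3, k3, d2, e0, e0])
      (fun c => by rw [← (ev (Sum.elim y z)).commutes, k3, d3])
      (fun l => by
        rw [show z l = ev (Sum.elim y z) (X (.inr l)) by simp, k3]
        exact k1 (.inr l)) (ev (Sum.elim y z) (X w))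
    rw [k3] at this
    simp only [aeval_X, (hasFDerivAt_apply w x0).fderiv] at this
    exact this
  let f' := (LinearEquiv.ofInjectiveEndo _ inj).toContinuousLinearEquiv
  have hG : HasStrictFDerivAt G f'.toContinuousLinearMap x0 := aG.hasStrictFDerivAt
  have aH : AnalyticAt ℂ (hG.localInverse G f' x0) (G x0) := ContDiffAt.analyticAt
    ((aG.contDiffAt (n := ⊤)).to_localInverse hG.hasFDerivAt (by simp))
  let w : (Fin N → ℂ) → ι ⊕ Fin N → ℂ := fun τ => Sum.elim 0 fun l => φ (z l) + τ l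
  have aw : AnalyticAt ℂ w 0 := analyticAt_pi_iff.2 (Sum.rec (fun _ => analyticAt_const) fun l =>
    analyticAt_const.add (analyticAt_pi_iff.1 analyticAt_id l))
  have eG : ∀ p : A →ₐ[ℂ] ℂ, G (p ∘ Sum.elim y z) = w fun l => p (z l) - φ (z l) := fun p =>
    funext (Sum.rec (fun i => (e0 p _).trans (by simp [w, g0])) fun l => by simp [G, w])
  have w0 : G x0 = w 0 := (eG φ).trans (congrArg w (funext fun l => sub_self _))
  let x := fun τ => hG.localInverse G f' x0 (w τ)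
  have hl : ∀ τ, G (x τ) = w τ → RingHom.ker (ev (Sum.elim y z)).toRingHom ≤
      RingHom.ker (ev (x τ)).toRingHom := fun τ e => hk.trans_le (Ideal.span_le.2 (by
    rintro _ ⟨i, rfl⟩
    exact congrFun e (.inl i)))
  let Ψ : (Fin N → ℂ) → A →ₐ[ℂ] ℂ := fun τ =>
    if e : G (x τ) = w τ then AlgHom.liftOfSurjective _ hs _ (hl τ e) else φ
  have hΨ : ∀ τ, G (x τ) = w τ → ∀ q, Ψ τ (ev (Sum.elim y z) q) = ev (x τ) q := fun τ e q => by
    simp only [Ψ, dif_pos e, AlgHom.liftOfSurjective_apply]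
  have key : ∀ p : A →ₐ[ℂ] ℂ, hG.localInverse G f' x0 (G (p ∘ Sum.elim y z)) = p ∘ Sum.elim y z →
      Ψ (fun l => p (z l) - φ (z l)) = p := fun p e => AlgHom.ext (hs.forall.2 fun q => by
    have e' : x (fun l => p (z l) - φ (z l)) = p ∘ Sum.elim y z := by rw [← e, eG]
    rw [hΨ _ (by rw [e', eG]), e', e0])
  have ev1 : ∀ᶠ τ in 𝓝 0, G (x τ) = w τ :=
    aw.continuousAt.eventually (w0 ▸ hG.eventually_right_inverse)
  refine ⟨Ψ, by simpa [Pi.zero_def] using key φ hG.localInverse_apply_image, ?_, fun F p hp => ?_⟩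
  · filter_upwards [ev1.eventually_nhds, (aH.comp_of_eq aw w0.symm).eventually_analyticAt]
      with τ h1 h2
    refine ⟨fun l => ?_, hs.forall.2 fun q => (an_ev h2 q).congr (h1.mono fun t e => ?_)⟩
    · simpa [G, w] using (hΨ τ h1.self_of_nhds (X (.inr l))).trans
        (congrFun h1.self_of_nhds (.inr l))
    · exact (hΨ t e q).symm
  · exact ((tendsto_pi_nhds.2 fun v => hp _).eventually hG.eventually_left_inverse).mono
      fun a => key (p a)

end Pool.Agent.MP_ee8c61_ag.H95
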