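import Pool.Agent.MP_ee8c61_ag.H95.Kit

/-! Points of a scheme with values in a ring, and limits of complex points along ultrafilters. -/

namespace Pool.Agent.MP_ee8c61_ag.H95

open Set Filter Topology AlgebraicGeometry CategoryTheory

section Val

variable {Y : Scheme.{0}} {R S : Type} [CommRing R] [CommRing S] {U V : Y.Opens}

/-- Points with values in `R`. -/
abbrev Pt (R : Type) [CommRing R] (Y : Scheme.{0}) : Type := Spec (CommRingCat.of R) ⟶ Y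

/-- The point lies in `U`. -/
abbrev In (l : Pt R Y) (U : Y.Opens) : Prop := ⊤ ≤ l ⁻¹ᵁ U

/-- The values of the functions on `U`. -/
noncomputable def pl (l : Pt R Y) (h : In l U) : Γ(Y, U) →+* R :=
  (l.appLE U ⊤ h ≫ (Scheme.ΓSpecIso (.of R)).hom).hom

open Classical in
/-- The value of a function, with a default. -/
noncomputable def vl (l : Pt R Y) (s : Γ(Y, U)) : R := if h : In l U then pl l h s else 0

/-- The point given by a homomorphism. -/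
noncomputable def mk (hU : IsAffineOpen U) (γ : Γ(Y, U) →+* R) : Pt R Y :=
  Spec.map (CommRingCat.ofHom γ) ≫ hU.fromSpec

/-- Change of the ring of values. -/
noncomputable def pm (l : Pt R Y) (ρ : R →+* S) : Pt S Y := Spec.map (CommRingCat.ofHom ρ) ≫ l

variable {l : Pt R Y}

theorem vl_eq (h : In l U) (s : Γ(Y, U)) : vl l s = pl l h s := dif_pos h

theorem in_mono (h : In l U) (i : U ≤ V) : In l V := fun _ hx => i (h hx)

theorem in_top : In l ⊤ := fun _ _ => trivial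

theorem in_map (h : In l U) (ρ : R →+* S) : In (pm l ρ) U := fun _ _ => h trivial

theorem in_iff [IsLocalRing R] : In l U ↔ l (IsLocalRing.closedPoint R) ∈ U :=
  ⟨fun h => h trivial, fun h =>
    (Scheme.preimage_eq_top_of_closedPoint_mem (R := CommRingCat.of R) l h).ge⟩

theorem vl_res (h : In l U) (i : U ≤ V) (s : Γ(Y, V)) :
    vl l (Y.presheaf.map (homOfLE i).op s) = vl l s := by
  rw [vl_eq h, vl_eq (in_mono h i), pl, pl, ← Scheme.Hom.map_appLE l h (homOfLE i).op]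
  rfl

theorem vl_map (h : In l U) (ρ : R →+* S) (s : Γ(Y, U)) : vl (pm l ρ) s = ρ (vl l s) := by
  have := Scheme.ΓSpecIso_naturality (CommRingCat.ofHom ρ)
  rw [Scheme.Hom.appTop, Scheme.Hom.app_eq_appLE] at this
  rw [vl_eq h, vl_eq (in_map h ρ)]
  exact (congrArg (fun F => (F ≫ (Scheme.ΓSpecIso (.of S)).hom).hom s)
    (Scheme.Hom.appLE_comp_appLE (Spec.map (CommRingCat.ofHom ρ)) l U ⊤ ⊤ h le_rfl).symm).trans
    (congrArg (fun F => (l.appLE U ⊤ h ≫ F).hom s) this)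

theorem in_basic (h : In l U) (s : Γ(Y, U)) : In l (Y.basicOpen s) ↔ IsUnit (vl l s) := by
  have := Scheme.basicOpen_appLE l ⊤ U h s
  rw [top_inf_eq] at this
  rw [In, ← this, vl_eq h, pl, CommRingCat.hom_comp, RingHom.comp_apply, top_le_iff]
  refine .trans ?_
    (isUnit_map_iff (Scheme.ΓSpecIso (.of R)).commRingCatIsoToRingEquiv _).symm
  exact ⟨fun e => RingedSpace.isUnit_of_isUnit_germ _ _ _ fun x hx =>
    (Scheme.mem_basicOpen _ _ x hx).1 (e.ge hx), fun e => Scheme.basicOpen_of_isUnit _ e⟩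

theorem mk_pl (hU : IsAffineOpen U) (h : In l U) : mk hU (pl l h) = l := by
  have := hU.SpecMap_appLE_fromSpec l (isAffineOpen_top _) h
  rw [mk, pl, CommRingCat.ofHom_hom, Spec.map_comp, Category.assoc, this,
    IsAffineOpen.fromSpec_top, Scheme.isoSpec_Spec_inv, ← Spec.map_comp_assoc, Iso.inv_hom_id,
    Spec.map_id, Category.id_comp]

theorem in_mk (hU : IsAffineOpen U) (γ : Γ(Y, U) →+* R) : In (mk hU γ) U :=
  fun _ _ => hU.range_fromSpec.le ⟨_, rfl⟩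

theorem vl_mk (hU : IsAffineOpen U) (γ : Γ(Y, U) →+* R) (s : Γ(Y, U)) : vl (mk hU γ) s = γ s := by
  rw [vl_eq (in_mk hU γ)]
  exact DFunLike.congr_fun (congrArg CommRingCat.Hom.hom
    (Spec.map_injective ((cancel_mono _).1 (mk_pl hU (in_mk hU γ))))) s

theorem pt_ext (hU : IsAffineOpen U) {l' : Pt R Y} (h : In l U) (h' : In l' U)
    (e : ∀ s : Γ(Y, U), vl l s = vl l' s) : l = l' := by
  rw [← mk_pl hU h, ← mk_pl hU h']
  exact congrArg (mk hU) (RingHom.ext fun s => (vl_eq h s).symm.trans ((e s).trans (vl_eq h' s)))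

theorem map_mk (hU : IsAffineOpen U) (γ : Γ(Y, U) →+* R) (ρ : R →+* S) :
    pm (mk hU γ) ρ = mk hU (ρ.comp γ) :=
  pt_ext hU (in_map (in_mk hU γ) ρ) (in_mk hU _) fun s => by
    rw [vl_map (in_mk hU γ), vl_mk, vl_mk, RingHom.comp_apply]

theorem loc (hU : IsAffineOpen U) {h : Γ(Y, U)} (i : Y.basicOpen h ≤ V) (s : Γ(Y, V)) :
    ∃ (n : ℕ) (t : Γ(Y, U)), ∀ (R : Type) [CommRing R] (l : Pt R Y), In l (Y.basicOpen h) →
      vl l s * vl l h ^ n = vl l t := by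
  have := hU.isLocalization_basicOpen h
  obtain ⟨n, t, e⟩ := IsLocalization.Away.surj h (Y.presheaf.map (homOfLE i).op s)
  refine ⟨n, t, fun R _ l hl => ?_⟩
  rw [← vl_res hl i, ← vl_res hl (Y.basicOpen_le h), ← vl_res hl (Y.basicOpen_le h), vl_eq hl,
    vl_eq hl, vl_eq hl, ← map_pow, ← map_mul]
  exact congrArg _ e

theorem vl_pb {N : ℕ} (π : Y ⟶ Aff N) (h : In l U) (p : Pol (Fin N)) :
    vl l (pb π U p) = vl l (pb π ⊤ p) := by
  rw [← vl_res h le_top, pb, pb, ← Scheme.Hom.appLE_map π le_top (homOfLE (le_top (a := U))).op]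
  rfl

theorem comp_eq {N : ℕ} (π : Y ⟶ Aff N) (l : Pt R Y) :
    l ≫ π = Spec.map (CommRingCat.ofHom ((pl l in_top).comp (pb π ⊤))) := by
  rw [← mk_pl (isAffineOpen_top _) (in_top (l := l ≫ π)), mk, IsAffineOpen.fromSpec_top,
    Scheme.isoSpec_Spec_inv, ← Spec.map_comp, pl, pl, pb,
    ← Scheme.Hom.appLE_comp_appLE l π ⊤ ⊤ ⊤ le_top in_top]
  rfl

end Val

section Germ

variable {α : Type} (𝒰 : Ultrafilter α)

/-- The germs that have a limit. -/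
def OO : ValuationSubring (Germ (𝒰 : Filter α) ℂ) where
  carrier := {g | ∃ c, g.Tendsto (𝓝 c)}
  mul_mem' {a b} := Germ.inductionOn₂ a b fun _ _ ⟨_, h⟩ ⟨_, h'⟩ => ⟨_, Tendsto.mul h h'⟩
  add_mem' {a b} := Germ.inductionOn₂ a b fun _ _ ⟨_, h⟩ ⟨_, h'⟩ => ⟨_, Tendsto.add h h'⟩
  one_mem' := ⟨1, tendsto_const_nhds⟩
  zero_mem' := ⟨0, tendsto_const_nhds⟩
  neg_mem' {a} := Germ.inductionOn a fun _ ⟨_, h⟩ => ⟨_, Tendsto.neg h⟩
  mem_or_inv_mem' a := Germ.inductionOn a fun f => by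
    have k : ∀ f : α → ℂ, (∀ᶠ x in 𝒰, ‖f x‖ ≤ 1) → ∃ c, Tendsto f 𝒰 (𝓝 c) := fun f h =>
      ((isCompact_closedBall 0 1).ultrafilter_le_nhds' (𝒰.map f)
        (h.mono fun _ => mem_closedBall_zero_iff.2)).imp
        fun _ h => h.2
    exact (𝒰.em fun x => ‖f x‖ ≤ 1).imp (k f) fun h => k f⁻¹ (h.mono fun x hx => by
      simpa using inv_le_one_of_one_le₀ (not_le.1 hx).le)

theorem lim_uniq {g : Germ (𝒰 : Filter α) ℂ} {c c' : ℂ} :
    g.Tendsto (𝓝 c) → g.Tendsto (𝓝 c') → c = c' :=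
  Germ.inductionOn g fun f h h' => tendsto_nhds_unique (f := f) h h'

/-- The limit. -/
noncomputable def st : OO 𝒰 →+* ℂ where
  toFun g := g.2.choose
  map_one' := lim_uniq 𝒰 (1 : OO 𝒰).2.choose_spec tendsto_const_nhds
  map_zero' := lim_uniq 𝒰 (0 : OO 𝒰).2.choose_spec tendsto_const_nhds
  map_mul' a b := lim_uniq 𝒰 (a * b).2.choose_spec (Germ.inductionOn₂ a.1 b.1 (p := fun a b =>
    a.Tendsto _ → b.Tendsto _ → (a * b).Tendsto _) (fun _ _ => Tendsto.mul) a.2.choose_spec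
      b.2.choose_spec)
  map_add' a b := lim_uniq 𝒰 (a + b).2.choose_spec (Germ.inductionOn₂ a.1 b.1 (p := fun a b =>
    a.Tendsto _ → b.Tendsto _ → (a + b).Tendsto _) (fun _ _ => Tendsto.add) a.2.choose_spec
      b.2.choose_spec)

theorem st_lim (g : OO 𝒰) : g.1.Tendsto (𝓝 (st 𝒰 g)) := g.2.choose_spec

instance : IsLocalHom (st 𝒰) := .of_surjective _ fun c =>
  ⟨⟨↑fun _ : α => c, c, tendsto_const_nhds⟩, lim_uniq 𝒰 (st_lim _ _) tendsto_const_nhds⟩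

variable {𝒰} {Y : Scheme.{0}} {U : Y.Opens} {l : α → Pt ℂ Y} {y y' : Pt ℂ Y}

/-- Convergence of complex points. -/
def Conv (F : Filter α) (l : α → Pt ℂ Y) (y : Pt ℂ Y) : Prop :=
  ∀ U, In y U → (∀ᶠ a in F, In (l a) U) ∧
    ∀ s : Γ(Y, U), Tendsto (fun a => vl (l a) s) F (𝓝 (vl y s))

variable (𝒰) in
/-- The point with values in the ultrapower that represents a family of points. -/
def Rep (l : α → Pt ℂ Y) (η : Pt (Germ (𝒰 : Filter α) ℂ) Y) : Prop :=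
  ∀ U, In η U → (∀ᶠ a in 𝒰, In (l a) U) ∧ ∀ s : Γ(Y, U), vl η s = ↑fun a => vl (l a) s

theorem exists_rep (hU : IsAffineOpen U) (h : ∀ᶠ a in 𝒰, In (l a) U) :
    ∃ η, Rep 𝒰 l η ∧ In η U := by
  let γ : Γ(Y, U) →+* Germ (𝒰 : Filter α) ℂ :=
    { toFun := fun s => ↑fun a => vl (l a) s
      map_one' := Germ.coe_eq.2 (h.mono fun a ha => by simp [vl_eq ha])
      map_zero' := Germ.coe_eq.2 (h.mono fun a ha => by simp [vl_eq ha])
      map_mul' := fun _ _ => Germ.coe_eq.2 (h.mono fun a ha => by simp [vl_eq ha])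
      map_add' := fun _ _ => Germ.coe_eq.2 (h.mono fun a ha => by simp [vl_eq ha]) }
  refine ⟨mk hU γ, fun V hV => ?_, in_mk hU γ⟩
  obtain ⟨f, h1, h2⟩ := hU.exists_basicOpen_le ⟨_, in_iff.1 hV⟩ (in_iff.1 (in_mk hU γ))
  have h3 := ((in_basic (in_mk hU γ) f).1 (in_iff.2 h2)).ne_zero
  have h4 : ∀ᶠ a in 𝒰, In (l a) (Y.basicOpen f) := by
    rw [vl_mk] at h3
    filter_upwards [h, Ultrafilter.eventually_not.2 (mt Germ.coe_eq.2 h3)] with a k1 k2
    exact (in_basic k1 f).2 (IsUnit.mk0 _ k2)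
  refine ⟨h4.mono fun a ha => in_mono ha h1, fun s => ?_⟩
  obtain ⟨n, t, e⟩ := loc hU h1 s
  refine mul_right_cancel₀ (pow_ne_zero n h3) ((e _ _ (in_iff.2 h2)).trans ?_)
  rw [vl_mk, vl_mk]
  exact Germ.coe_eq.2 (h4.mono fun a ha => (e _ _ ha).symm)

theorem rep_uniq [QuasiSeparatedSpace Y] {η η' : Pt (Germ (𝒰 : Filter α) ℂ) Y} (h : Rep 𝒰 l η)
    (h' : Rep 𝒰 l η') : η = η' := by
  obtain ⟨_, ⟨U, hU, rfl⟩, h1, -⟩ := Y.isBasis_affineOpens.exists_subset_of_mem_open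
    (mem_univ (η (IsLocalRing.closedPoint _))) isOpen_univ
  obtain ⟨_, ⟨V, hV, rfl⟩, h2, -⟩ := Y.isBasis_affineOpens.exists_subset_of_mem_open
    (mem_univ (η' (IsLocalRing.closedPoint _))) isOpen_univ
  replace h1 := in_iff.2 h1
  replace h2 := in_iff.2 h2
  choose f g e hx using fun x : (U ⊓ V : Y.Opens) => exists_basicOpen_le_affine_inter hU hV x.1 x.2
  obtain ⟨t, ht⟩ := (hU.isCompact.inter_of_isOpen hV.isCompact U.2 V.2).elim_finite_subcover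
    (fun x => (Y.basicOpen (f x) : Set Y)) (fun x => (Y.basicOpen (f x)).2)
    fun x hx' => mem_iUnion.2 ⟨⟨x, hx'⟩, hx _⟩
  obtain ⟨x, -, k⟩ := (Ultrafilter.eventually_exists_mem_iff t.finite_toSet
    (P := fun x a => In (l a) (Y.basicOpen (f x))) (f := 𝒰)).1 (by
      filter_upwards [(h U h1).1, (h' V h2).1] with a k1 k2
      exact (mem_iUnion₂.1 (ht ⟨in_iff.1 k1, in_iff.1 k2⟩)).imp fun _ h => ⟨h.1, in_iff.2 h.2⟩)
  have key : ∀ {η : Pt (Germ (𝒰 : Filter α) ℂ) Y} {U : Y.Opens} (f : Γ(Y, U)), Rep 𝒰 l η →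
      In η U → (∀ᶠ a in 𝒰, In (l a) (Y.basicOpen f)) → In η (Y.basicOpen f) :=
    fun f h h1 k => (in_basic h1 f).2 (IsUnit.mk0 _ fun e => by
      obtain ⟨a, k1, k2⟩ := (k.and (Germ.coe_eq.1 (((h _ h1).2 f).symm.trans e))).exists
      exact ((in_basic (in_mono k1 (Y.basicOpen_le f)) f).1 k1).ne_zero k2)
  have k1 := key (f x) h h1 k
  have k2 := e x ▸ key (g x) h' h2 (e x ▸ k)
  exact pt_ext (hU.basicOpen _) k1 k2 fun s => ((h _ k1).2 s).trans ((h' _ k2).2 s).symm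

theorem conv_of_rep {m : Pt (OO 𝒰) Y} (h : Rep 𝒰 l (pm m (algebraMap _ _))) :
    Conv 𝒰 l (pm m (st 𝒰)) := fun U hU => by
  have h1 : In m U := in_iff.2 (IsLocalRing.comap_closedPoint (st 𝒰) ▸ in_iff.1 hU)
  refine ⟨(h U (in_map h1 _)).1, fun s => ?_⟩
  rw [vl_map h1, ← Germ.coe_tendsto, ← (h U (in_map h1 _)).2, vl_map h1]
  exact st_lim _ _

theorem exists_lift (hU : IsAffineOpen U) (hy : In y U) (h : ∀ᶠ a in 𝒰, In (l a) U)
    (h' : ∀ s : Γ(Y, U), Tendsto (fun a => vl (l a) s) 𝒰 (𝓝 (vl y s))) :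
    ∃ m : Pt (OO 𝒰) Y, Rep 𝒰 l (pm m (algebraMap _ _)) ∧ pm m (st 𝒰) = y := by
  obtain ⟨η, h1, h2⟩ := exists_rep hU h
  have h3 : ∀ s, (pl η h2 s).Tendsto (𝓝 (vl y s)) := fun s => by
    rw [← vl_eq h2, (h1 U h2).2]
    exact h' s
  refine ⟨mk hU ((pl η h2).codRestrict (OO 𝒰) fun s => ⟨_, h3 s⟩), ?_, ?_⟩
  · rw [map_mk]
    exact (mk_pl hU h2).symm ▸ h1
  · rw [map_mk]
    exact pt_ext hU (in_mk _ _) hy fun s => (vl_mk _ _ _).trans (lim_uniq 𝒰 (st_lim _ _) (h3 s))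

theorem conv_of_affine {F : Filter α} (hU : IsAffineOpen U) (hy : In y U)
    (h : ∀ᶠ a in F, In (l a) U) (h' : ∀ s : Γ(Y, U), Tendsto (fun a => vl (l a) s) F (𝓝 (vl y s))) :
    Conv F l y := by
  have key : ∀ 𝒰 : Ultrafilter α, ↑𝒰 ≤ F → Conv 𝒰 l y := fun 𝒰 e => by
    obtain ⟨m, h1, rfl⟩ := exists_lift hU hy (e h) fun s => (h' s).mono_left e
    exact conv_of_rep h1
  exact fun V hV => ⟨mem_iff_ultrafilter.2 fun 𝒰 e => (key 𝒰 e V hV).1,
    fun s => (tendsto_iff_ultrafilter _ _ _).2 fun 𝒰 e => (key 𝒰 e V hV).2 s⟩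

theorem conv_uniq [Y.IsSeparated] (h : Conv 𝒰 l y) (h' : Conv 𝒰 l y') : y = y' := by
  have key : ∀ y, Conv 𝒰 l y →
      ∃ m : Pt (OO 𝒰) Y, Rep 𝒰 l (pm m (algebraMap _ _)) ∧ pm m (st 𝒰) = y := fun y h => by
    obtain ⟨_, ⟨U, hU, rfl⟩, h1, -⟩ := Y.isBasis_affineOpens.exists_subset_of_mem_open
      (mem_univ (y (IsLocalRing.closedPoint _))) isOpen_univ
    exact exists_lift hU (in_iff.2 h1) (h U (in_iff.2 h1)).1 (h U (in_iff.2 h1)).2
  obtain ⟨m, h1, rfl⟩ := key y h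
  obtain ⟨m', h2, rfl⟩ := key y' h'
  have : IsDominant (Spec.map (CommRingCat.ofHom (algebraMap (OO 𝒰) (Germ (𝒰 : Filter α) ℂ)))) :=
    ⟨(PrimeSpectrum.denseRange_comap_iff_ker_le_nilRadical _).2
      (((RingHom.injective_iff_ker_eq_bot _).1 Subtype.val_injective).trans_le bot_le)⟩
  rw [ext_of_isDominant _ (rep_uniq h1 h2)]

theorem exists_conv {N : ℕ} (π : Y ⟶ Aff N) [IsProper π]
    (h : ∀ p, ∃ c, Tendsto (fun a => vl (l a) (pb π ⊤ p)) 𝒰 (𝓝 c)) : ∃ y, Conv 𝒰 l y := by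
  have : CompactSpace Y := QuasiCompact.compactSpace_of_compactSpace π
  obtain ⟨t, ht⟩ := CompactSpace.isCompact_univ.elim_finite_subcover
    (fun U : Y.affineOpens => (U.1 : Set Y)) (fun U => U.1.2) fun x _ => by
      simpa using (iSup_affineOpens_eq_top Y).ge (trivial : x ∈ (⊤ : Y.Opens))
  obtain ⟨U, -, k⟩ := (Ultrafilter.eventually_exists_mem_iff t.finite_toSet
    (P := fun U a => In (l a) U.1) (f := 𝒰)).1 (.of_forall fun a =>
      (mem_iUnion₂.1 (ht (mem_univ _))).imp fun _ h => ⟨h.1, in_iff.2 h.2⟩)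
  obtain ⟨η, h1, -⟩ := exists_rep U.2 k
  have hV : ValuativeCriterion π := (IsProper.eq_valuativeCriterion.le _ _ π ‹_›).1.1.1
  have h2 : ∀ p, (pl η in_top).comp (pb π ⊤) p ∈ OO 𝒰 := fun p => by
    rw [RingHom.comp_apply, ← vl_eq, (h1 ⊤ in_top).2]
    exact h p
  have w : η ≫ π = Spec.map (CommRingCat.ofHom (algebraMap (OO 𝒰) (Germ (𝒰 : Filter α) ℂ))) ≫
      Spec.map (CommRingCat.ofHom (RingHom.codRestrict _ (OO 𝒰) h2)) := by
    rw [comp_eq, ← Spec.map_comp]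
    rfl
  obtain ⟨⟨m⟩⟩ := hV.existence
    { R := OO 𝒰, K := Germ (𝒰 : Filter α) ℂ, i₁ := η, commSq := ⟨w⟩, .. }
  have e : pm m.l (algebraMap (OO 𝒰) _) = η := m.fac_left
  exact ⟨_, conv_of_rep (by rwa [e])⟩

end Germ

end Pool.Agent.MP_ee8c61_ag.H95
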