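import Pool.Agent.MP_ee8c61_ag.H95.Kit

/-! The strata of a log resolution. -/

namespace Pool.Agent.MP_ee8c61_ag.H95

open Set AlgebraicGeometry CategoryTheory MvPolynomial
open Pool.Agent.MP_4f1c5b_al.H95 (IsEuler ConE)

theorem cof {A ι : Type} [CommRing A] {w : A} (hw : IsLeftRegular w) {x : ι → A}
    (h : Ideal.span (range x) = Ideal.span {w}) :
    ∃ u : ι → A, (∀ j, x j = w * u j) ∧ ∀ φ : A →+* ℂ, ∃ j, φ (u j) ≠ 0 := by
  have h1 : ∀ j, ∃ u, x j = w * u := fun j =>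
    Ideal.mem_span_singleton.1 (h ▸ Ideal.subset_span (mem_range_self j))
  choose u hu using h1
  refine ⟨u, hu, fun φ => by_contra fun hn => ?_⟩
  push Not at hn
  have h2 : Ideal.span (range x) ≤ Ideal.span {w} * RingHom.ker φ := Ideal.span_le.2 <| by
    rintro _ ⟨j, rfl⟩
    exact Ideal.mem_span_singleton_mul.2 ⟨u j, hn j, (hu j).symm⟩
  obtain ⟨t, ht, e⟩ := Ideal.mem_span_singleton_mul.1
    (h2 (h ▸ Ideal.mem_span_singleton_self w))
  rw [hw (e.trans (mul_one w).symm)] at ht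
  simp at ht

theorem regular_of_etale {A ι : Type} [CommRing A] {c : ℂ →+* A} {N : ℕ} {z : Fin N → A}
    (h : (eval₂Hom c z).Etale) (T : Finset ι) (j : ι → Fin N) (a : ι → ℕ) :
    IsLeftRegular (∏ i ∈ T, z (j i) ^ a i) := by
  let := (eval₂Hom c z).toAlgebra
  have : Algebra.Etale (Pol (Fin N)) A := h
  have := Module.Flat.isSMulRegular_of_nonZeroDivisors (M := A)
    (r := (∏ i ∈ T, X (j i) ^ a i : Pol (Fin N))) (mem_nonZeroDivisors_of_ne_zero
      (Finset.prod_ne_zero_iff.2 fun i _ => pow_ne_zero _ (X_ne_zero _)))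
  intro x y e
  refine this ?_
  simpa [Algebra.smul_def, RingHom.algebraMap_toAlgebra] using e

theorem gens_of_etale {A : Type} [CommRing A] {c : ℂ →+* A} {N : ℕ} {z : Fin N → A}
    (h : (eval₂Hom c z).Etale) :
    ∃ (n : ℕ) (y : Fin n → A), Subring.closure (range c ∪ range y) = ⊤ := by
  let := c.toAlgebra
  have h1 : (eval₂Hom c z).FiniteType := by
    let := (eval₂Hom c z).toAlgebra
    have : Algebra.Etale (Pol (Fin N)) A := h
    exact (inferInstance : Algebra.FiniteType (Pol (Fin N)) A)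
  have h2 := h1.comp (RingHom.finiteType_algebraMap.2
    (inferInstance : Algebra.FiniteType ℂ (Pol (Fin N))))
  rw [show (eval₂Hom c z).comp (algebraMap ℂ (Pol (Fin N))) = c from RingHom.ext fun t => by simp]
    at h2
  obtain ⟨n, f, hf⟩ := Algebra.FiniteType.iff_quotient_mvPolynomial''.1 h2
  refine ⟨n, f ∘ X, ?_⟩
  have h3 := Algebra.adjoin_eq_ring_closure (R := ℂ) (range (f ∘ X))
  rw [Algebra.adjoin_range_eq_range_aeval, ← aeval_unique, (AlgHom.range_eq_top f).2 hf] at h3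
  exact h3.symm

variable {N : ℕ} {J' J : Type} {g : J' → Pol (Fin N)} {Y : Scheme.{0}} {π : Y ⟶ Aff N}
  {E : J → Set Y} {a k : J → ℕ}

variable (g π E a k) in
/-- A local chart of a log resolution. -/
structure LC where
  /-- the open set -/
  U : Y.Opens
  aff : IsAffineOpen U
  /-- the number of generators -/
  M : ℕ
  /-- the generators -/
  y : Fin M → Γ(Y, U)
  gen : Subring.closure (range ((pb π U).comp C) ∪ range y) = ⊤
  /-- the coordinates -/
  zc : Fin N → Fin M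
  /-- the components of the map -/
  fc : Fin N → Fin M
  hf : ∀ i, y (fc i) = pb π U (X i)
  et : (eval₂Hom ((pb π U).comp C) (y ∘ zc)).Etale
  /-- the derivations -/
  D : Fin N → Γ(Y, U) → Γ(Y, U)
  der : ∀ l, IsDer ((pb π U).comp C) (D l) ∧ ∀ m, D l (y (zc m)) = if l = m then 1 else 0
  /-- the divisors that meet the chart -/
  T : Finset J
  /-- their coordinates -/
  ι : J → Fin N
  inj : InjOn ι T
  mem : ∀ j, ∀ x ∈ U, x ∈ E j ↔ j ∈ T ∧ x ∉ Y.basicOpen (y (zc (ι j)))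
  /-- the cofactors -/
  u : J' → Γ(Y, U)
  fac : ∀ j, pb π U (g j) = (∏ i ∈ T, y (zc (ι i)) ^ a i) * u j
  unit : ∀ φ : Γ(Y, U) →+* ℂ, ∃ j, φ (u j) ≠ 0
  /-- the cofactor of the Jacobian -/
  v : Γ(Y, U)
  jac : (Matrix.of fun i l => D l (pb π U (X i))).det = (∏ i ∈ T, y (zc (ι i)) ^ k i) * v
  unitv : ∀ φ : Γ(Y, U) →+* ℂ, φ v ≠ 0

theorem exists_lc (h : IsLogRes (Ideal.span (range g)) π E a k) (x : Y) :
    ∃ L : LC g π E a k, x ∈ L.U := by
  obtain ⟨U, z, T, ι, D, hx, hU, het, hι, hE, hI, hD, hJ⟩ := h.snc x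
  obtain ⟨n, y, hy⟩ := gens_of_etale het
  rw [Ideal.map_span, ← range_comp] at hI
  obtain ⟨u, hu, hu'⟩ := cof (regular_of_etale het T ι a) hI
  rw [← range_const (ι := Unit)] at hJ
  obtain ⟨v, hv, hv'⟩ := cof (regular_of_etale het T ι k) hJ
  have hz : ∀ l, Fin.append y (Fin.append z fun i => pb π U (X i))
      (Fin.natAdd n (Fin.castAdd N l)) = z l := fun l => by simp
  refine ⟨⟨U, hU, n + (N + N), Fin.append y (Fin.append z fun i => pb π U (X i)), ?_,
    fun l => Fin.natAdd n (Fin.castAdd N l), fun i => Fin.natAdd n (Fin.natAdd N i),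
    fun i => by rw [Fin.append_right, Fin.append_right], ?_, D, ?_, T, ι, hι, ?_, u, ?_, hu', v (), ?_,
    fun φ => (hv' φ).elim fun _ h => h⟩, hx⟩
  · refine top_unique (hy ▸ Subring.closure_mono (union_subset_union_right _ ?_))
    rintro _ ⟨i, rfl⟩
    exact ⟨Fin.castAdd _ i, by simp⟩
  · simpa only [Function.comp_def, hz] using het
  · simpa only [hz] using hD
  · simpa only [hz] using hE
  · simpa only [hz, Function.comp_def] using hu
  · simpa only [hz] using hv ()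

namespace LC

variable (L : LC g π E a k)

/-- The chart. -/
noncomputable def chart : Chart N :=
  letI := ((pb π L.U).comp C).toAlgebra
  { A := Γ(Y, L.U)
    κ := Fin L.M
    y := L.y
    gen := by
      rw [← AlgHom.range_eq_top, ← Algebra.adjoin_range_eq_range_aeval]
      exact Subalgebra.toSubring_injective ((Algebra.adjoin_eq_ring_closure _).trans L.gen)
    zc := L.zc
    fc := L.fc
    et := L.et.toAlgebra.formallyEtale
    D := fun l => Derivation.mk'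
      { toFun := L.D l
        map_add' := (L.der l).1.1
        map_smul' := fun c x => by
          simp only [Algebra.smul_def, RingHom.algebraMap_toAlgebra, RingHom.id_apply,
            (L.der l).1.2.1, (L.der l).1.2.2, mul_zero, add_zero] } (L.der l).1.2.1
    dual := fun l m => (L.der l).2 m }

theorem ev_f (p : Pol (Fin N)) : ev L.chart.f p = pb π L.U p :=
  DFunLike.congr_fun (MvPolynomial.ringHom_ext (f := (ev L.chart.f).toRingHom) (g := pb π L.U)
    (fun r => aeval_C _ r) fun i => (aeval_X _ i).trans (L.hf i)) p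

theorem mem_coords (W : Set Y) (φ : L.chart.A →ₐ[ℂ] ℂ) : φ ∘ L.y ∈ coords π L.U L.y W ↔
    ∃ x ∈ W, ∀ s, φ s ≠ 0 ↔ x ∈ Y.basicOpen (U := L.U) s := by
  refine ⟨fun ⟨ψ, h1, h2, h3⟩ => ?_, fun h => ⟨φ.toRingHom, φ.commutes, h, fun _ => rfl⟩⟩
  have := L.chart.hom_ext (γ := ⟨ψ, h1⟩) (γ' := φ) (funext h3)
  subst this
  exact h2

open Classical in
/-- The multiplicities, indexed by the coordinates. -/
noncomputable def idx (b : J → ℕ) (l : Fin N) : ℕ := ∑ j ∈ L.T with L.ι j = l, b j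

theorem idx_eq (b : J → ℕ) {j : J} (h : j ∈ L.T) : L.idx b (L.ι j) = b j := by
  classical
  rw [idx, Finset.sum_filter, Finset.sum_eq_single_of_mem j h fun i hi hij =>
    if_neg fun e => hij (L.inj hi h e), if_pos rfl]

open Classical in
theorem prod_idx {B : Type} [CommMonoid B] (I : Finset J) (F : Fin N → ℕ → ℕ → B)
    (b c : J → ℕ) : ∏ l ∈ (L.T ∩ I).image L.ι, F l (L.idx b l) (L.idx c l) =
      ∏ j ∈ L.T ∩ I, F (L.ι j) (b j) (c j) := by
  rw [Finset.prod_image (L.inj.mono (by simp))]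
  exact Finset.prod_congr rfl fun j hj => by
    rw [L.idx_eq b (Finset.mem_inter.1 hj).1, L.idx_eq c (Finset.mem_inter.1 hj).1]

open Classical in
theorem split (I : Finset J) (b : J → ℕ) (u : Γ(Y, L.U)) :
    (∏ i ∈ L.T, L.y (L.zc (L.ι i)) ^ b i) * u =
      (∏ l ∈ (L.T ∩ I).image L.ι, L.y (L.zc l) ^ L.idx b l) *
        ((∏ i ∈ L.T \ I, L.y (L.zc (L.ι i)) ^ b i) * u) := by
  rw [L.prod_idx I (fun l n _ => L.y (L.zc l) ^ n) b b, ← mul_assoc,
    Finset.prod_inter_mul_prod_sdiff]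

open Classical in
theorem ne_zero {I : Finset J} {W : Set Y} (hW : W ⊆ stratum E I ∩ L.U) (φ : Γ(Y, L.U) →+* ℂ)
    (h : ∃ x ∈ W, ∀ s, φ s ≠ 0 ↔ x ∈ Y.basicOpen s) (b : J → ℕ) {u : Γ(Y, L.U)}
    (hu : φ u ≠ 0) : φ ((∏ i ∈ L.T \ I, L.y (L.zc (L.ι i)) ^ b i) * u) ≠ 0 := by
  obtain ⟨x, hx, h⟩ := h
  rw [map_mul, map_prod]
  refine mul_ne_zero (Finset.prod_ne_zero_iff.2 fun i hi => ?_) hu
  rw [map_pow]
  refine pow_ne_zero _ ((h _).2 (by_contra fun hn => (hW hx).1.2 ?_))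
  obtain ⟨h1, h2⟩ := Finset.mem_sdiff.1 hi
  exact mem_iUnion₂.2 ⟨i, h2, (L.mem i x (hW hx).2).2 ⟨h1, hn⟩⟩

open Classical in
/-- The stratum. -/
noncomputable def str (ha : ∀ j, 0 < a j) (I : Finset J) (W : Set Y)
    (hW : W ⊆ stratum E I ∩ L.U) (hc : ConE ⊤ (coords π L.U L.y W)) : Str N g where
  toChart := L.chart
  P := coords π L.U L.y W
  con := hc
  pts := fun _ ⟨φ, h1, _, h3⟩ => ⟨⟨φ, h1⟩, funext h3⟩
  S := (L.T ∩ I).image L.ι
  a := L.idx a
  k := L.idx k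
  u := fun j => ((∏ i ∈ L.T \ I, L.y (L.zc (L.ι i)) ^ a i) * L.u j : Γ(Y, L.U))
  v := ((∏ i ∈ L.T \ I, L.y (L.zc (L.ι i)) ^ k i) * L.v : Γ(Y, L.U))
  van := fun φ h l hl => by
    obtain ⟨x, hx, h⟩ := (L.mem_coords W φ).1 h
    obtain ⟨j, hj, rfl⟩ := Finset.mem_image.1 hl
    exact by_contra fun hn => ((L.mem j x (hW hx).2).1
      (mem_iInter₂.1 (hW hx).1.1 j (Finset.mem_inter.1 hj).2)).2 ((h _).1 hn)
  fac := fun j => (L.ev_f _).trans ((L.fac j).trans (L.split I a _))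
  unit := fun φ h => (L.unit φ.toRingHom).imp fun _ hj =>
    L.ne_zero hW φ.toRingHom ((L.mem_coords W φ).1 h) a hj
  jac := by
    refine .trans (congrArg Matrix.det ?_) (L.jac.trans (L.split I k _))
    exact Matrix.ext fun i l => congrArg (L.D l) (L.hf i)
  unitv := fun φ h =>
    L.ne_zero hW φ.toRingHom ((L.mem_coords W φ).1 h) k (L.unitv φ.toRingHom)
  esc := fun l hl h0 => by
    obtain ⟨j, hj, rfl⟩ := Finset.mem_image.1 hl
    rw [L.idx_eq a (Finset.mem_inter.1 hj).1] at h0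
    exact absurd h0 (ha j).ne'

end LC

theorem Str.Fin'.ne {s : Str N g} {γ : s.A →ₐ[ℂ] PS} (h : s.Fin' γ) :
    ∃ j, γ (ev s.f (g j)) ≠ 0 := by
  obtain ⟨j, hj⟩ := s.unit (s.pt γ) h.1
  refine ⟨j, ?_⟩
  rw [s.fac, map_mul, map_prod]
  refine mul_ne_zero (Finset.prod_ne_zero_iff.2 fun l hl => ?_) fun e => hj (by simp [e])
  rw [map_pow]
  exact pow_ne_zero _ (h.2 l hl)

namespace LC

variable (L : LC g π E a k)

/-- The arc on the scheme. -/
noncomputable def arc (γ : L.chart.A →ₐ[ℂ] PS) : Spec (CommRingCat.of PS) ⟶ Y :=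
  Spec.map (CommRingCat.ofHom (γ.toRingHom : Γ(Y, L.U) →+* PS)) ≫ L.aff.fromSpec

theorem arc_comp (hA : StmtAFF) (γ : L.chart.A →ₐ[ℂ] PS) :
    L.arc γ ≫ π = Spec.map (CommRingCat.ofHom (ev (γ ∘ L.chart.f)).toRingHom) := by
  refine (hA.comp N Y π L.U L.aff _).trans (congrArg (fun β : Pol (Fin N) →+* PS =>
    Spec.map (CommRingCat.ofHom β)) (RingHom.ext fun p => ?_))
  exact (congrArg γ (L.ev_f p).symm).trans (L.chart.map_ev γ _ p)

theorem arc_mem (hA : StmtAFF) {W : Set Y} (hW : W ⊆ L.U) (γ : L.chart.A →ₐ[ℂ] PS) :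
    L.chart.base γ ∈ coords π L.U L.y W ↔ L.arc γ (IsLocalRing.closedPoint PS) ∈ W := by
  refine (L.mem_coords W (L.chart.pt γ)).trans ⟨fun ⟨x, hx, h⟩ => ?_, fun h =>
    ⟨_, h, ((hA.pt Y L.U L.aff _ _).1 rfl).2⟩⟩
  exact ((hA.pt Y L.U L.aff γ.toRingHom x).2 ⟨hW hx, h⟩).symm ▸ hx

theorem exists_arc (hA : StmtAFF) {b : Fin N → PS} {l : Spec (CommRingCat.of PS) ⟶ Y}
    (hl : l ≫ π = Spec.map (CommRingCat.ofHom (ev b).toRingHom))
    (h : l (IsLocalRing.closedPoint PS) ∈ L.U) :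
    ∃ γ : L.chart.A →ₐ[ℂ] PS, L.arc γ = l ∧ γ ∘ L.chart.f = b := by
  obtain ⟨γ, hγ⟩ := hA.ex Y L.U L.aff l h
  have h2 := hA.comp N Y π L.U L.aff γ
  rw [hγ, hl, Spec.map_inj] at h2
  have h3 : (ev b).toRingHom = γ.comp (pb π L.U) := congrArg CommRingCat.Hom.hom h2
  have e : ∀ p, γ (pb π L.U p) = ev b p := fun p => (DFunLike.congr_fun h3 p).symm
  refine ⟨⟨γ, fun c => (e (C c)).trans (aeval_C b c)⟩, ?_, funext fun i => ?_⟩
  · exact hγ
  · exact (congrArg γ (L.hf i)).trans ((e (X i)).trans (aeval_X b i))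

end LC

theorem chi_empty {χ : Set Y → ℤ} (h : IsChi π χ) : χ ∅ = 0 := by
  simpa using h.add ∅ ∅ isClosed_empty.isLocallyClosed isOpen_empty

theorem lc_diff {W V : Set Y} (h : IsLocallyClosed W) (hV : IsOpen V) : IsLocallyClosed (W \ V) :=
  h.inter hV.isClosed_compl.isLocallyClosed

theorem chi_sum {χ : Set Y → ℤ} (h : IsChi π χ) {ρ : Type} [LinearOrder ρ] (V : ρ → Set Y)
    (hV : ∀ r, IsOpen (V r)) {W : Set Y} (hW : IsLocallyClosed W) (s : Finset ρ) :
    χ W = ∑ r ∈ s, χ ((W ∩ V r) \ ⋃ r' ∈ s, ⋃ _ : r' < r, V r') + χ (W \ ⋃ r ∈ s, V r) := by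
  induction s using Finset.induction_on_max with
  | empty => simp
  | insert c s hc ih =>
    rw [Finset.sum_insert fun e => (hc c e).false, ih, h.add (W \ ⋃ r ∈ s, V r) (V c)
      (lc_diff hW (isOpen_biUnion fun r _ => hV r)) (hV c), add_comm (χ (_ \ _)), add_assoc]
    congr 1
    · refine Finset.sum_congr rfl fun r hr => ?_
      simp [(hc r hr).le]
    · congr 2
      · ext x
        simp only [mem_inter_iff, mem_sdiff, mem_iUnion, Finset.mem_insert]
        refine ⟨fun ⟨⟨h1, h2⟩, h3⟩ => ⟨⟨h1, h3⟩, ?_⟩, fun ⟨⟨h1, h2⟩, h3⟩ =>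
          ⟨⟨h1, fun ⟨r, hr, h4⟩ => h3 ⟨r, .inr hr, hc r hr, h4⟩⟩, h2⟩⟩
        rintro ⟨r, rfl | hr, h4, h5⟩
        exacts [h4.false, h2 ⟨r, hr, h5⟩]
      · rw [Finset.set_biUnion_insert, Set.sdiff_sdiff, union_comm]

theorem lc_stratum [Finite J] (h : ∀ j, IsClosed (E j)) (I : Finset J) :
    IsLocallyClosed (stratum E I) :=
  (isClosed_biInter fun j _ => h j).isLocallyClosed.inter
    (isClosed_iUnion_of_finite fun j =>
      isClosed_iUnion_of_finite fun _ => h j).isOpen_compl.isLocallyClosed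

theorem mem_stratum {I : Finset J} {x : Y} : x ∈ stratum E I ↔ ∀ j, j ∈ I ↔ x ∈ E j := by
  simp only [stratum, mem_sdiff, mem_iInter, mem_iUnion, not_exists]
  exact ⟨fun h j => ⟨h.1 j, fun e => by_contra fun n => h.2 j n e⟩,
    fun h => ⟨fun j => (h j).1, fun j n e => n ((h j).2 e)⟩⟩

theorem exists_cover (h : IsLogRes (Ideal.span (range g)) π E a k) :
    ∃ (m : ℕ) (L : Fin m → LC g π E a k), ∀ x, ∃ r, x ∈ (L r).U := by
  choose L hL using exists_lc h
  have := h.proper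
  have : CompactSpace Y := QuasiCompact.compactSpace_of_compactSpace π
  obtain ⟨t, ht⟩ := CompactSpace.isCompact_univ.elim_finite_subcover
    (fun x => ((L x).U : Set Y)) (fun x => (L x).U.2) fun x _ => mem_iUnion.2 ⟨x, hL x⟩
  refine ⟨t.card, fun r => L (t.equivFin.symm r), fun x => ?_⟩
  obtain ⟨y, hy, hx⟩ := mem_iUnion₂.1 (ht (mem_univ x))
  exact ⟨t.equivFin ⟨y, hy⟩, by simpa using hx⟩

section Cover

variable {m : ℕ} (L : Fin m → LC g π E a k)

/-- The pieces of the strata. -/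
def piece (p : Fin m × Finset J) : Set Y := (stratum E p.2 ∩ (L p.1).U) \
  ⋃ r' ∈ (Finset.univ : Finset (Fin m)), ⋃ _ : r' < p.1, ((L r').U : Set Y)

theorem mem_piece {p : Fin m × Finset J} {x : Y} : x ∈ piece L p ↔
    ((∀ j, j ∈ p.2 ↔ x ∈ E j) ∧ x ∈ (L p.1).U) ∧ ∀ r < p.1, x ∉ (L r).U := by
  simp [piece, mem_stratum]

theorem piece_sub (p : Fin m × Finset J) : piece L p ⊆ (L p.1).U := fun _ hx => hx.1.2

theorem piece_lc [Finite J] (h : ∀ j, IsClosed (E j)) (p : Fin m × Finset J) :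
    IsLocallyClosed (piece L p) :=
  lc_diff ((lc_stratum h _).inter (L _).U.2.isLocallyClosed)
    (isOpen_biUnion fun r _ => isOpen_iUnion fun _ => (L r).U.2)

theorem piece_inj {p p' : Fin m × Finset J} {x : Y} (h : x ∈ piece L p) (h' : x ∈ piece L p') :
    p = p' := by
  rw [mem_piece] at h h'
  exact Prod.ext (le_antisymm (not_lt.1 fun e => h.2 _ e h'.1.2) (not_lt.1 fun e => h'.2 _ e h.1.2))
    (Finset.ext fun j => (h.1.1 j).trans (h'.1.1 j).symm)

variable (ha : ∀ j, 0 < a j) (hc : ∀ p, ConE ⊤ (coords π (L p.1).U (L p.1).y (piece L p)))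

/-- The strata. -/
noncomputable def strs (p : Fin m × Finset J) : Str N g :=
  (L p.1).str ha p.2 (piece L p) sdiff_subset (hc p)

theorem arc_eq (hV : StmtVAL) (hA : StmtAFF) (h : IsLogRes (Ideal.span (range g)) π E a k)
    (p p' : Fin m × Finset J) (γ : (strs L ha hc p).A →ₐ[ℂ] PS)
    (γ' : (strs L ha hc p').A →ₐ[ℂ] PS) (h1 : (strs L ha hc p).Fin' γ)
    (e : γ ∘ (strs L ha hc p).f = γ' ∘ (strs L ha hc p').f) :
    (L p.1).arc γ = (L p'.1).arc γ' := by
  obtain ⟨j, hj⟩ := h1.ne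
  rw [Chart.map_ev] at hj
  refine (hV N Y π _ h.proper h.iso (ev (γ ∘ (strs L ha hc p).f)).toRingHom ⟨g j,
    Ideal.subset_span (mem_range_self j), hj⟩).unique ((L p.1).arc_comp hA γ) ?_
  rw [e]
  exact (L p'.1).arc_comp hA γ'

/-- The family of strata. -/
noncomputable def dat [Fintype J] (hV : StmtVAL) (hA : StmtAFF)
    (h : IsLogRes (Ideal.span (range g)) π E a k) (hL : ∀ x, ∃ r, x ∈ (L r).U) : Dat N g where
  R := Fin m × Finset J
  s := strs L ha hc
  ex := fun b _ ⟨j, hj⟩ => by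
    classical
    obtain ⟨l, hl, -⟩ := hV N Y π _ h.proper h.iso (ev b).toRingHom
      ⟨g j, Ideal.subset_span (mem_range_self j), hj⟩
    obtain ⟨r, hr, hm⟩ := wellFounded_lt.has_min {r | l (IsLocalRing.closedPoint PS) ∈ (L r).U}
      (hL _)
    obtain ⟨γ, e', e⟩ := (L r).exists_arc hA hl hr
    refine ⟨(r, Finset.univ.filter fun i => l (IsLocalRing.closedPoint PS) ∈ E i), γ,
      ((L r).arc_mem hA (piece_sub L (r, _)) γ).2 ?_, e⟩
    rw [e', mem_piece]
    exact ⟨⟨fun i => by simp, hr⟩, fun r' h2 h3 => hm r' h3 h2⟩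
  ua := fun p γ γ' h1 _ e => AlgHom.coe_ringHom_injective
    (hA.inj Y _ (L p.1).aff _ _ (arc_eq L ha hc hV hA h p p γ γ' h1 e))
  ur := fun p p' γ γ' h1 h2 e => by
    refine piece_inj L (((L p.1).arc_mem hA (piece_sub L p) γ).1 h1.1) ?_
    rw [arc_eq L ha hc hV hA h p p' γ γ' h1 e]
    exact ((L p'.1).arc_mem hA (piece_sub L p') γ').1 h2.1

end Cover

theorem res (hV : StmtVAL) (hA : StmtAFF) (hC : StmtCON) : StmtRES := by
  classical
  intro N J' g Y π J _ E a k χ h hχ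
  obtain ⟨m, L, hL⟩ := exists_cover h
  have hW := piece_lc L fun j => (h.comp j).1
  have hc : ∀ p, ConE ⊤ (coords π (L p.1).U (L p.1).y (piece L p)) := fun p =>
    hC N Y π (L p.1).U _ (L p.1).y _ (L p.1).aff (L p.1).gen (hW p)
  obtain ⟨χ₀, h0, h1⟩ := hχ.aff
  refine ⟨dat L (fun j => (h.comp j).2.2) hc hV hA h hL, χ₀, h0, fun χ' h' => ?_⟩
  change ∑ p : Fin m × Finset J,
    (χ' (Fin (L p.1).M) (coords π (L p.1).U (L p.1).y (piece L p)) : RatFunc ℂ) *
      ∏ l ∈ ((L p.1).T ∩ p.2).image (L p.1).ι, 1 / (((L p.1).idx a l : RatFunc ℂ) * RatFunc.X +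
        (((L p.1).idx k l + 1 : ℕ) : RatFunc ℂ)) = _
  rw [zeta, Fintype.sum_prod_type_right]
  refine Finset.sum_congr rfl fun I _ => ?_
  rw [chi_sum hχ (fun r => ((L r).U : Set Y)) (fun r => (L r).U.2)
    (lc_stratum (fun j => (h.comp j).1) I) Finset.univ,
    sdiff_eq_empty.2 fun x _ => (hL x).elim fun r hr => mem_iUnion₂.2 ⟨r, Finset.mem_univ _, hr⟩,
    chi_empty hχ, add_zero, Int.cast_sum, Finset.sum_mul]
  refine Finset.sum_congr rfl fun r _ => ?_
  rw [h' _ _ (hc (r, I)), ← h1 _ _ _ _ (L r).aff (L r).gen (piece_sub L (r, I)) (hW _),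
    (L r).prod_idx I (fun _ n c => 1 / ((n : RatFunc ℂ) * RatFunc.X +
      ((c + 1 : ℕ) : RatFunc ℂ))) a k]
  change _ = (χ (piece L (r, I)) : RatFunc ℂ) * _
  rcases (piece L (r, I)).eq_empty_or_nonempty with e' | ⟨x, hx⟩
  · simp [e', chi_empty hχ]
  · rw [Finset.inter_eq_right.2 fun j hj =>
      (((L r).mem j x hx.1.2).1 ((mem_stratum.1 hx.1.1 j).1 hj)).1]
    simp only [Nat.cast_add, Nat.cast_one, add_assoc]

end Pool.Agent.MP_ee8c61_ag.H95
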