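import Pool.Agent.MP_ee8c61_ag.H95.Kit

/-!
Arcs lift uniquely through a proper morphism that is an isomorphism off a closed set.
-/

namespace Pool.Agent.MP_ee8c61_ag.H95

open Set AlgebraicGeometry CategoryTheory

namespace ValA

/-- A morphism that factors through an open set over which `π` is an isomorphism lifts uniquely. -/
theorem lift_gen {T Y X : Scheme.{0}} (π : Y ⟶ X) (U : X.Opens) [IsIso (π ∣_ U)] (k : T ⟶ U) :
    ∃! i : T ⟶ Y, i ≫ π = k ≫ U.ι := by
  refine ⟨k ≫ inv (π ∣_ U) ≫ (π ⁻¹ᵁ U).ι, ?_, ?_⟩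
  · simp only [Category.assoc]
    rw [← morphismRestrict_ι, IsIso.inv_hom_id_assoc]
  · intro i hi
    have P := isPullback_morphismRestrict π U
    have h1 := P.lift_fst k i hi.symm
    have h2 := P.lift_snd k i hi.symm
    rw [← h2]
    conv_rhs => rw [← h1]
    simp only [Category.assoc, IsIso.hom_inv_id_assoc]

/-- The generic point of an arc that does not kill `I` lands off the zero set of `I`. -/
theorem range_sub {N : ℕ} (I : Ideal (Pol (Fin N))) (β : Pol (Fin N) →+* PS)
    (h : ∃ p ∈ I, β p ≠ 0) :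
    Set.range (Spec.map (CommRingCat.ofHom (algebraMap PS (FractionRing PS))) ≫
      Spec.map (CommRingCat.ofHom β)) ⊆ Set.range (off I).ι := by
  obtain ⟨p, hp, h0⟩ := h
  rintro _ ⟨x, rfl⟩
  rw [Scheme.Opens.range_ι]
  intro hx
  have h1 := (PrimeSpectrum.mem_zeroLocus _ _).1 hx hp
  have h2 : algebraMap PS (FractionRing PS) (β p) ∈ (x : PrimeSpectrum (FractionRing PS)).asIdeal :=
    h1
  have h3 : algebraMap PS (FractionRing PS) (β p) ≠ 0 := fun e =>
    h0 ((IsFractionRing.to_map_eq_zero_iff (K := FractionRing PS)).1 e)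
  exact (x : PrimeSpectrum (FractionRing PS)).isPrime.ne_top
    (Ideal.eq_top_of_isUnit_mem _ h2 (Ne.isUnit h3))

end ValA

theorem val : StmtVAL := by
  intro N Y π I hp hi β hβ
  have hV : ValuativeCriterion π := by
    have h : (ValuativeCriterion ⊓ @QuasiCompact ⊓ @QuasiSeparated ⊓ @LocallyOfFiniteType :
        MorphismProperty Scheme.{0}) π := by
      rw [← IsProper.eq_valuativeCriterion]
      exact hp
    exact h.1.1.1
  let g := Spec.map (CommRingCat.ofHom (algebraMap PS (FractionRing PS)))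
  let k := IsOpenImmersion.lift (off I).ι (g ≫ Spec.map (CommRingCat.ofHom β))
    (ValA.range_sub I β hβ)
  have hk : k ≫ (off I).ι = g ≫ Spec.map (CommRingCat.ofHom β) := IsOpenImmersion.lift_fac _ _ _
  obtain ⟨i, hi1, hi2⟩ := ValA.lift_gen π (off I) k
  have w : i ≫ π = g ≫ Spec.map (CommRingCat.ofHom β) := hi1.trans hk
  obtain ⟨u⟩ := hV { R := PS, K := FractionRing PS, i₁ := i, commSq := ⟨w⟩, .. }
  refine ⟨u.default.l, u.default.fac_right, fun l hl => ?_⟩
  have hl' : l ≫ π = Spec.map (CommRingCat.ofHom β) := hl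
  have e0 : (g ≫ l) ≫ π = k ≫ (off I).ι := by rw [Category.assoc, hl', hk]
  have e : g ≫ l = i := hi2 _ e0
  exact congrArg (·.l) (u.uniq ⟨l, e, hl⟩)

end Pool.Agent.MP_ee8c61_ag.H95
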