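import Pool.Agent.MP_ee8c61_ag.H95.ADefs
import Pool.Agent.MP_ee8c61_ag.H95.APts
import Pool.Agent.MP_ee8c61_ag.H95.AChart
import Pool.Agent.MP_ee8c61_ag.H95.Res
import Pool.Agent.MP_ee8c61_ag.H95.Val
import Pool.Agent.MP_ee8c61_ag.H10.ResDefs

/-! The complex manifold attached to a log resolution. -/

namespace Pool.Agent.MP_ee8c61_ag.H95

open Set Filter Topology AlgebraicGeometry CategoryTheory MvPolynomial

variable {N : ℕ} {Y : Scheme.{0}} {π : Y ⟶ Aff N} {U : Y.Opens}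

variable (π) in
/-- The complex points. -/
def CP : Type := {l : Pt ℂ Y // ∀ c, vl l (pb π ⊤ (C c)) = c}

instance : TopologicalSpace (CP π) := .generateFrom
  {S | ∃ (U : Y.Opens) (s : Γ(Y, U)) (O : Set ℂ), IsOpen O ∧ S = {l | In l.1 U ∧ vl l.1 s ∈ O}}

theorem tendsto_cp {α : Type} {F : Filter α} {l : α → CP π} {y : CP π} :
    Tendsto l F (𝓝 y) ↔ Conv F (fun a => (l a).1) y.1 := by
  refine TopologicalSpace.tendsto_nhds_generateFrom_iff.trans ⟨fun h U hU => ⟨?_, fun s => ?_⟩, ?_⟩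
  · exact mem_of_superset (h _ ⟨U, 0, univ, isOpen_univ, rfl⟩ ⟨hU, trivial⟩) fun _ h => h.1
  · exact tendsto_nhds.2 fun O hO hs =>
      mem_of_superset (h _ ⟨U, s, O, hO, rfl⟩ ⟨hU, hs⟩) fun _ h => h.2
  · rintro h _ ⟨U, s, O, hO, rfl⟩ hy
    exact (h U hy.1).1.and ((h U hy.1).2 s (hO.mem_nhds hy.2))

namespace CP

/-- The underlying point. -/
noncomputable def pos (l : CP π) : Y := l.1 (IsLocalRing.closedPoint ℂ)

/-- The image in affine space. -/
noncomputable def an (l : CP π) (i : Fin N) : ℂ := vl l.1 (pb π ⊤ (X i))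

theorem hom_eq (l : CP π) : (pl l.1 in_top).comp (pb π ⊤) = eval l.an :=
  ringHom_ext (fun c => (vl_eq in_top _).symm.trans ((l.2 c).trans (eval_C c).symm))
    fun i => (vl_eq in_top _).symm.trans (eval_X (f := l.an) i).symm

theorem vl_eval {l : CP π} (h : In l.1 U) (p : Pol (Fin N)) : vl l.1 (pb π U p) = eval l.an p := by
  rw [vl_pb π h, vl_eq in_top, ← hom_eq, RingHom.comp_apply]

theorem comp (l : CP π) : l.1 ≫ π = Spec.map (CommRingCat.ofHom (eval l.an)) := by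
  rw [comp_eq, hom_eq]

theorem mem_basic {l : CP π} (h : In l.1 U) (s : Γ(Y, U)) :
    l.pos ∈ Y.basicOpen s ↔ vl l.1 s ≠ 0 :=
  in_iff.symm.trans ((in_basic h s).trans isUnit_iff_ne_zero)

theorem cont_pos : Continuous (pos (π := π)) := continuous_iff_continuousAt.2 fun _ =>
  tendsto_nhds.2 fun O hO h => ((tendsto_cp.1 tendsto_id ⟨O, hO⟩ (in_iff.2 h)).1.mono
    fun _ => in_iff.1 :)

theorem proper [IsProper π] : IsProperMap (an (π := π)) := by
  refine isProperMap_iff_ultrafilter_of_t2.2 ⟨continuous_pi fun i =>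
    continuous_iff_continuousAt.2 fun l => (tendsto_cp.1 tendsto_id ⊤ in_top).2 _,
    fun 𝒰 z h => ?_⟩
  obtain ⟨y, hy⟩ := exists_conv (𝒰 := 𝒰) (l := fun l => l.1) π fun p => ⟨eval z p, by
    simp only [vl_eval in_top]
    exact ((continuous_eval p).tendsto z).comp h⟩
  refine ⟨⟨y, fun c => tendsto_nhds_unique ((hy ⊤ in_top).2 _) ?_⟩, tendsto_cp.2 hy⟩
  simp [vl_eval in_top]

theorem t2 [IsSeparated π] : T2Space (CP π) := by
  have : Y.IsSeparated := ⟨Limits.terminal.comp_from π ▸ inferInstance⟩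
  exact t2_iff_ultrafilter.2 fun 𝒰 h h' =>
    Subtype.ext (conv_uniq (tendsto_cp.1 (tendsto_id'.2 h)) (tendsto_cp.1 (tendsto_id'.2 h')))

/-- The point given by a homomorphism. -/
noncomputable def of (hU : IsAffineOpen U) (φ : Γ(Y, U) →+* ℂ) (h : ∀ c, φ (pb π U (C c)) = c) :
    CP π := ⟨mk hU φ, fun c => by rw [← vl_pb π (in_mk hU φ), vl_mk, h]⟩

end CP

theorem proj_iff {κ : Type} [Fintype κ] {w w' : κ → ℂ} (h : w ≠ 0) (h' : w' ≠ 0) :
    Projectivization.mk ℂ w h = Projectivization.mk ℂ w' h' ↔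
      ∀ c : κ → ℂ, ∑ j, c j * w j ≠ 0 ↔ ∑ j, c j * w' j ≠ 0 := by
  classical
  refine ⟨fun e c => ?_, fun e => ?_⟩
  · obtain ⟨t, rfl⟩ := (Projectivization.mk_eq_mk_iff _ _ _ _ _).1 e
    simp [Units.smul_def, mul_left_comm _ (t : ℂ), ← Finset.mul_sum]
  · obtain ⟨i, hi⟩ := Function.ne_iff.1 h'
    refine (Projectivization.mk_eq_mk_iff' _ _ _ _ _).2 ⟨w i / w' i, funext fun j => ?_⟩
    have := not_iff_not.1 (e (Pi.single j (w' i) - Pi.single i (w' j)))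
    simp only [Pi.sub_apply, sub_mul, Finset.sum_sub_distrib, Pi.single_apply, ite_mul, zero_mul,
      Finset.sum_ite_eq', Finset.mem_univ, if_true, mul_comm (w' i), sub_self, iff_true] at this
    rw [Pi.smul_apply, smul_eq_mul, div_mul_eq_mul_div, div_eq_iff hi]
    linear_combination -this

variable {κ J : Type} [Fintype κ] {f : κ → Pol (Fin N)} {E : J → Set Y} {a k : J → ℕ}

namespace LC

variable (L : LC f π E a k) {l : CP π}

omit [Fintype κ] in
theorem u_ne (h : In l.1 L.U) : (fun j => vl l.1 (L.u j)) ≠ 0 :=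
  Function.ne_iff.2 ((L.unit (pl l.1 h)).imp fun _ hj => (vl_eq h _).trans_ne hj)

omit [Fintype κ] in
theorem mem_iff (h : In l.1 L.U) (j : J) :
    l.pos ∈ E j ↔ j ∈ L.T ∧ vl l.1 (L.y (L.zc (L.ι j))) = 0 := by
  rw [L.mem j l.pos (in_iff.1 h), CP.mem_basic h, not_not]

theorem gen_iff (h : In l.1 L.U) (g : κ → Pol (Fin N)) :
    Gen π (Ideal.span (range f)) l.pos (∑ j, g j * f j) ↔
      ∑ j, eval l.an (g j) * vl l.1 (L.u j) ≠ 0 := by
  have hx : l.pos ∈ L.U := in_iff.1 h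
  let γ := (Y.presheaf.germ L.U l.pos hx).hom
  have e : ∀ p, gm π l.pos p = γ (pb π L.U p) := fun p => by
    rw [pb, ← Scheme.Hom.appLE_map π le_top (homOfLE (le_top (a := L.U))).op]
    exact (Y.presheaf.germ_res_apply (homOfLE le_top) _ hx _).symm
  have hu : ∀ s, IsUnit (γ s) ↔ vl l.1 s ≠ 0 := fun s =>
    (Y.mem_basicOpen s _ hx).symm.trans (CP.mem_basic h s)
  let := TopCat.Presheaf.algebra_section_stalk Y.presheaf (⟨_, hx⟩ : L.U)
  have := L.aff.isLocalization_stalk ⟨_, hx⟩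
  have hm : γ (∏ i ∈ L.T, L.y (L.zc (L.ι i)) ^ a i) ∈ nonZeroDivisors _ :=
    IsLocalization.nonZeroDivisors_le_comap (L.aff.primeIdealOf ⟨_, hx⟩).asIdeal.primeCompl
      (Y.presheaf.stalk (⟨_, hx⟩ : L.U).1) (isRegular_iff_mem_nonZeroDivisors.1
        (isLeftRegular_iff_isRegular.1 (regular_of_etale L.et L.T L.ι a)))
  have e1 : ∀ j, gm π l.pos (f j) = _ * γ (L.u j) := fun j => by rw [e, L.fac, map_mul]
  have e2 : gm π l.pos (∑ j, g j * f j) =
      γ (∏ i ∈ L.T, L.y (L.zc (L.ι i)) ^ a i) * γ (∑ j, pb π L.U (g j) * L.u j) := by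
    rw [e, ← map_mul, map_sum, Finset.mul_sum]
    exact congrArg γ (Finset.sum_congr rfl fun j _ => by rw [map_mul, L.fac, mul_left_comm])
  have e3 : ∑ j, eval l.an (g j) * vl l.1 (L.u j) = vl l.1 (∑ j, pb π L.U (g j) * L.u j) := by
    simp only [← CP.vl_eval h, vl_eq h, map_sum, map_mul]
  obtain ⟨j, hj⟩ := Function.ne_iff.1 (L.u_ne h)
  rw [Gen, e2, e3, ← hu, Ideal.map_span, show Ideal.span (gm π l.pos '' range f) =
    Ideal.span {γ (∏ i ∈ L.T, L.y (L.zc (L.ι i)) ^ a i)} from le_antisymm (Ideal.span_le.2 (by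
      rintro _ ⟨_, ⟨i, rfl⟩, rfl⟩
      exact Ideal.mem_span_singleton.2 ⟨_, e1 i⟩)) (by
      rw [← Ideal.span_singleton_mul_right_unit ((hu _).2 hj), ← e1]
      exact Ideal.span_mono (singleton_subset_iff.2 ⟨_, ⟨j, rfl⟩, rfl⟩))]
  refine ⟨fun e => ?_, fun e => (Ideal.span_singleton_mul_right_unit e _).symm⟩
  obtain ⟨t, ht⟩ := Ideal.mem_span_singleton.1 (e.le (Ideal.mem_span_singleton_self _))
  exact IsUnit.of_mul_eq_one t ((mul_cancel_left_mem_nonZeroDivisors hm).1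
    (by rw [← mul_assoc, ← ht, mul_one]))

omit [Fintype κ] in
theorem exists_cp {x : Y} (hx : x ∈ L.U) (hc : IsClosed {x}) : ∃ l : CP π, l.pos = x := by
  let := ((pb π L.U).comp C).toAlgebra
  have : Algebra.FiniteType ℂ Γ(Y, L.U) := .of_surjective _ L.chart.gen
  have := L.aff.primeIdealOf_isMaximal_of_isClosed ⟨x, hx⟩ hc
  let := Ideal.Quotient.field (L.aff.primeIdealOf ⟨x, hx⟩).asIdeal
  have := finite_of_finite_type_of_isJacobsonRing ℂ (_ ⧸ (L.aff.primeIdealOf ⟨x, hx⟩).asIdeal)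
  let e := AlgEquiv.ofBijective (Algebra.ofId ℂ (_ ⧸ (L.aff.primeIdealOf ⟨x, hx⟩).asIdeal))
    IsAlgClosed.algebraMap_bijective_of_isIntegral
  let φ := e.symm.toAlgHom.comp (Ideal.Quotient.mkₐ ℂ _)
  refine ⟨.of L.aff φ.toRingHom φ.commutes, (congrArg L.aff.fromSpec (PrimeSpectrum.ext
    (Ideal.ext fun s => ?_))).trans (L.aff.fromSpec_primeIdealOf ⟨x, hx⟩)⟩
  change φ s ∈ IsLocalRing.maximalIdeal ℂ ↔ _
  simp [φ, Ideal.Quotient.eq_zero_iff_mem]

end LC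

variable (h : IsLogRes (Ideal.span (range f)) π E a k)

/-- The map to projective space. -/
noncomputable def beta (l : CP π) : Projectivization ℂ (κ → ℂ) :=
  .mk ℂ _ ((exists_lc h l.pos).choose.u_ne (in_iff.2 (exists_lc h l.pos).choose_spec))

theorem beta_eq (L : LC f π E a k) {l : CP π} (hl : In l.1 L.U) :
    beta h l = .mk ℂ _ (L.u_ne hl) :=
  (proj_iff _ _).2 fun c => by
    simpa using ((exists_lc h l.pos).choose.gen_iff (in_iff.2 (exists_lc h l.pos).choose_spec)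
      fun j => C (c j)).symm.trans (L.gen_iff hl _)

theorem fibre_sub (l : CP π) :
    CP.pos '' H10.fibre CP.an (beta h) l ⊆ fib π (Ideal.span (range f)) l.pos := by
  refine (CP.cont_pos.continuousOn.image_connectedComponentIn_subset (by exact ⟨rfl, rfl⟩)).trans
    (connectedComponentIn_mono _ ?_)
  rintro _ ⟨l', ⟨h1, h2⟩, rfl⟩
  refine ⟨?_, fun p hp => ?_⟩
  · exact congrArg (fun F : Pt ℂ (Aff N) => F (IsLocalRing.closedPoint ℂ))
      (l'.comp.trans (h1 ▸ l.comp.symm))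
  · obtain ⟨g, rfl⟩ := Ideal.mem_span_range_iff_exists_fun.1 hp
    rw [(exists_lc h l.pos).choose.gen_iff (in_iff.2 (exists_lc h l.pos).choose_spec),
      (exists_lc h l'.pos).choose.gen_iff (in_iff.2 (exists_lc h l'.pos).choose_spec), h1]
    exact (proj_iff _ _).1 h2 _

theorem isRes : H10.IsRes f CP.an (beta h) (fun j => CP.pos ⁻¹' E j) a k := by
  classical
  have := h.proper
  have := h.iso
  refine ⟨CP.proper, fun l hl l' _ e => ?_, fun j => (h.comp j).2.2, fun y => ?_⟩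
  · obtain ⟨L, hL⟩ := exists_lc h l.pos
    replace hL := in_iff.2 hL
    obtain ⟨j, hj⟩ := Function.ne_iff.1 (L.u_ne hL)
    have h1 : eval l.an (f j) ≠ 0 := by
      rw [← CP.vl_eval hL, L.fac, vl_eq hL, map_mul, map_prod, ← vl_eq hL]
      refine mul_ne_zero (Finset.prod_ne_zero_iff.2 fun i hi => ?_) hj
      rw [map_pow, ← vl_eq hL]
      exact pow_ne_zero _ fun e => hl (mem_iUnion.2 ⟨i, (L.mem_iff hL i).2 ⟨hi, e⟩⟩)
    have h2 : range (l.1 ≫ π) ⊆ range (off (Ideal.span (range f))).ι := by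
      rintro _ ⟨x, rfl⟩
      rw [Scheme.Opens.range_ι, l.comp]
      exact fun hx => x.isPrime.ne_top (Ideal.eq_top_of_isUnit_mem _
        ((PrimeSpectrum.mem_zeroLocus _ _).1 hx (Ideal.subset_span ⟨j, rfl⟩)) h1.isUnit)
    exact Subtype.ext ((ValA.lift_gen π _ (IsOpenImmersion.lift _ _ h2)).unique
      (IsOpenImmersion.lift_fac _ _ h2).symm
      (by rw [IsOpenImmersion.lift_fac, l.comp, l'.comp, e]))
  obtain ⟨L, hL⟩ := exists_lc h y.pos
  replace hL := in_iff.2 hL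
  let := ((pb π L.U).comp C).toAlgebra
  let hom : ∀ l : CP π, In l.1 L.U → Γ(Y, L.U) →ₐ[ℂ] ℂ := fun l hl =>
    ⟨pl l.1 hl, fun c => (vl_eq hl _).symm.trans ((CP.vl_eval hl _).trans (eval_C c))⟩
  obtain ⟨Ψ, h0, h1, h2⟩ := chart_at (z := L.y ∘ L.zc) L.et (hom y hL)
  let ψ : (Fin N → ℂ) → CP π := fun τ => .of L.aff (Ψ τ).toRingHom (Ψ τ).commutes
  have i1 : ∀ τ, In (ψ τ).1 L.U := fun τ => in_mk _ _
  have i2 : ∀ τ s, vl (ψ τ).1 s = Ψ τ s := fun τ => vl_mk _ _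
  have i3 : ∀ τ l hl, Ψ τ = hom l hl → ψ τ = l := fun τ l hl e =>
    Subtype.ext (pt_ext L.aff (i1 τ) hl fun s => by rw [i2, e, vl_eq hl]; rfl)
  have i4 : ∀ s, vl y.1 s = Ψ 0 s := fun s => by rw [h0, vl_eq hL]; rfl
  have i5 : CP.an ∘ ψ = fun τ i => Ψ τ (pb π L.U (X i)) := funext fun τ => funext fun i => by
    rw [← i2, CP.vl_eval (i1 τ), eval_X]; rfl
  have a0 := h1.self_of_nhds.2
  let I := L.T.filter fun j => y.pos ∈ E j
  have hI : L.T ∩ I = I := Finset.inter_eq_right.2 (Finset.filter_subset _ _)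
  have z0 : ∀ j ∈ I, hom y hL (L.y (L.zc (L.ι j))) = 0 := fun j hj =>
    (vl_eq hL _).symm.trans ((L.mem_iff hL j).1 (Finset.mem_filter.1 hj).2).2
  have z1 : ∀ᶠ τ in 𝓝 0, ∀ j ∈ L.T \ I, Ψ τ (L.y (L.zc (L.ι j))) ≠ 0 :=
    (eventually_all_finset _).2 fun j hj => (a0 _).continuousAt.eventually_ne fun e =>
      (Finset.mem_sdiff.1 hj).2 (Finset.mem_filter.2 ⟨(Finset.mem_sdiff.1 hj).1,
        (L.mem_iff hL j).2 ⟨(Finset.mem_sdiff.1 hj).1, (i4 _).trans e⟩⟩)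
  let m : (J → ℕ) → Γ(Y, L.U) := fun b => ∏ i ∈ L.T \ I, L.y (L.zc (L.ι i)) ^ b i
  have m1 : ∀ᶠ τ in 𝓝 0, ∀ b, Ψ τ (m b) ≠ 0 := z1.mono fun τ e b => by
    simpa only [m, map_prod, map_pow] using
      Finset.prod_ne_zero_iff.2 fun i hi => pow_ne_zero _ (e i hi)
  refine ⟨ψ, I, L.ι, fun τ j => Ψ τ (m a * L.u j), fun τ => Ψ τ (m k * L.v), i3 0 y hL h0,
    le_antisymm ?_ fun S hS => ?_, ⟨_, h1, 1, fun l => encard_le_one_iff.2 ?_⟩,
    L.inj.mono (Finset.filter_subset _ _), i5 ▸ analyticAt_pi_iff.2 fun i => a0 _,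
    analyticAt_pi_iff.2 fun j => a0 _, a0 _, ?_, ?_⟩
  · refine tendsto_cp.2 (conv_of_affine L.aff hL (.of_forall i1) fun s => ?_)
    simpa only [i2, i4] using (a0 s).continuousAt.tendsto
  · obtain ⟨k1, k2⟩ := tendsto_cp.1 (tendsto_id (x := 𝓝 y)) L.U hL
    let p : CP π → Γ(Y, L.U) →ₐ[ℂ] ℂ := fun l => if hl : In l.1 L.U then hom l hl else hom y hL
    have k3 : ∀ s, Tendsto (p · s) (𝓝 y) (𝓝 (hom y hL s)) := fun s =>
      (vl_eq hL s ▸ k2 s).congr' (k1.mono fun l hl => by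
        simp only [p, dif_pos (show In l.1 L.U from hl)]
        exact vl_eq hl s)
    filter_upwards [k1, h2 _ p k3, (tendsto_pi_nhds.2 fun i => by
      simpa using (k3 ((L.y ∘ L.zc) i)).sub_const (hom y hL ((L.y ∘ L.zc) i))).eventually hS]
      with l hl e1 e2
    exact i3 _ l hl (e1.trans (dif_pos hl)) ▸ e2
  · rintro τ τ' ⟨k1, k2⟩ ⟨k3, k4⟩
    funext i
    have e := k1.1 i
    rw [← i2, show ψ τ = ψ τ' from k2.trans k4.symm, i2, k3.1 i] at e
    exact (add_left_cancel e).symm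
  · exact (map_mul _ _ _).trans_ne (mul_ne_zero (m1.self_of_nhds k) (L.unitv (Ψ 0).toRingHom))
  filter_upwards [h1.eventually_nhds, z1, m1] with τ k0 k3 k4
  obtain ⟨k1, k2⟩ := k0.self_of_nhds
  have k5 : ∀ j ∈ I, Ψ τ (L.y (L.zc (L.ι j))) = τ (L.ι j) := fun j hj =>
    (k1 _).trans (by rw [Function.comp_apply, z0 j hj, zero_add])
  have k6 : ∀ (b : J → ℕ) u, Ψ τ ((∏ i ∈ L.T, L.y (L.zc (L.ι i)) ^ b i) * u) =
      (∏ i ∈ I, τ (L.ι i) ^ b i) * Ψ τ (m b * u) := fun b u => by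
    rw [← Finset.prod_inter_mul_prod_sdiff L.T I, hI, mul_assoc, map_mul, map_prod]
    exact congrArg (· * _) (Finset.prod_congr rfl fun j hj => by rw [map_pow, k5 j hj])
  refine ⟨fun j => (L.mem_iff (i1 τ) j).trans ⟨fun e => ?_, fun e => ?_⟩, ?_, fun j => ?_, ?_⟩
  · have := by_contra fun n : j ∉ I => k3 j (Finset.mem_sdiff.2 ⟨e.1, n⟩) ((i2 _ _).symm.trans e.2)
    exact ⟨this, by rw [← k5 j this, ← i2, e.2]⟩
  · exact ⟨(Finset.mem_filter.1 e.1).1, by rw [i2, k5 j e.1, e.2]⟩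
  · rw [← k6, ← L.jac, AlgHom.map_det, ContinuousLinearMap.det, ← LinearMap.det_toMatrix', i5,
      fderiv_pi fun i => (k2 _).differentiableAt]
    refine congrArg Matrix.det (Matrix.ext fun i l => sub_eq_zero.1 ?_)
    obtain ⟨d1, d2, d3⟩ := der_fam k2 (Pi.single l 1)
    obtain ⟨⟨D1, D2, D3⟩, D4⟩ := L.der l
    simpa using unr (z := L.y ∘ L.zc) L.et (Ψ τ)
      (fun s => fderiv ℂ (Ψ · s) τ (Pi.single l 1) - Ψ τ (L.D l s))
      (fun a b => by rw [d1, D1, map_add]; ring)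
      (fun a b => by rw [d2, D2, map_add, map_mul, map_mul]; ring)
      (fun c => by rw [d3, zero_sub, neg_eq_zero]; exact (congrArg _ (D3 c)).trans (map_zero _))
      (fun i => by
        rw [EventuallyEq.fderiv_eq (k0.mono fun t e => e.1 i), fderiv_const_add,
          (hasFDerivAt_apply i τ).fderiv, Function.comp_apply, D4]
        simp [Pi.single_apply, eq_comm]) (pb π L.U (X i))
  · rw [← CP.vl_eval (i1 τ), i2, L.fac, k6]
  · have k7 : (fun j => Ψ τ (m a * L.u j)) = Ψ τ (m a) • fun j => vl (ψ τ).1 (L.u j) :=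
      funext fun j => by simp [i2]
    refine ⟨k7 ▸ smul_ne_zero (k4 a) (L.u_ne (i1 τ)), (beta_eq h L (i1 τ)).trans
      ((Projectivization.mk_eq_mk_iff' _ _ _ _ _).2 ⟨_, k7.symm⟩).symm⟩

end Pool.Agent.MP_ee8c61_ag.H95
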