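import Pool.Agent.MP_ee8c61_ag.H36.Stmt
import Pool.Agent.MP_4f1c5b_al.H95.Defs

/-!
Log resolutions of an ideal, the Euler characteristic on a variety, and the topological zeta
function.
-/

namespace Pool.Agent.MP_ee8c61_ag.H95

open AlgebraicGeometry CategoryTheory MvPolynomial
open Pool.Agent.MP_4f1c5b_al.H95 (IsEuler)

/-- Complex affine space. -/
noncomputable abbrev Aff (N : ℕ) : Scheme.{0} := Spec (CommRingCat.of (MvPolynomial (Fin N) ℂ))

variable {N : ℕ} {Y : Scheme.{0}} {J : Type}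

/-- The pull-back of polynomials to functions on the open set `U`. -/
noncomputable def pb (π : Y ⟶ Aff N) (U : Y.Opens) : MvPolynomial (Fin N) ℂ →+* Γ(Y, U) :=
  ((Scheme.ΓSpecIso (CommRingCat.of (MvPolynomial (Fin N) ℂ))).inv ≫ π.appLE ⊤ U le_top).hom

/-- The complement of the zero set of `I`. -/
def off (I : Ideal (MvPolynomial (Fin N) ℂ)) : (Aff N).Opens :=
  ⟨(PrimeSpectrum.zeroLocus (I : Set (MvPolynomial (Fin N) ℂ)))ᶜ,
    (PrimeSpectrum.isClosed_zeroLocus _).isOpen_compl⟩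

/-- `D` is a derivation that kills the constants. -/
def IsDer {A : Type} [CommRing A] (c : ℂ →+* A) (D : A → A) : Prop :=
  (∀ x y, D (x + y) = D x + D y) ∧ (∀ x y, D (x * y) = x * D y + y * D x) ∧ ∀ t, D (c t) = 0

/-- `π` is a log resolution of `I` with divisors `E = ∑ a j E j` and `K = ∑ k j E j`: it is proper
and an isomorphism off the zero set of `I`, and every point has an affine neighbourhood with etale
coordinates `z` in which the `E j` are coordinate hyperplanes, `I` is generated by the monomial with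
exponents `a j`, and the Jacobian determinant is a unit times the monomial with exponents `k j`. -/
structure IsLogRes (I : Ideal (MvPolynomial (Fin N) ℂ)) (π : Y ⟶ Aff N) (E : J → Set Y)
    (a k : J → ℕ) : Prop where
  proper : IsProper π
  iso : IsIso (π ∣_ off I)
  comp : ∀ j, IsClosed (E j) ∧ IsIrreducible (E j) ∧ 0 < a j
  inj : E.Injective
  snc : ∀ x : Y, ∃ (U : Y.Opens) (z : Fin N → Γ(Y, U)) (T : Finset J) (ι : J → Fin N)
    (D : Fin N → Γ(Y, U) → Γ(Y, U)), x ∈ U ∧ IsAffineOpen U ∧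
    (eval₂Hom ((pb π U).comp C) z).Etale ∧ Set.InjOn ι T ∧
    (∀ j, ∀ y ∈ U, y ∈ E j ↔ j ∈ T ∧ y ∉ Y.basicOpen (z (ι j))) ∧
    I.map (pb π U) = Ideal.span {∏ j ∈ T, z (ι j) ^ a j} ∧
    (∀ l, IsDer ((pb π U).comp C) (D l) ∧ ∀ m, D l (z m) = if l = m then 1 else 0) ∧
    Ideal.span {(Matrix.of fun i l => D l (pb π U (X i))).det} =
      Ideal.span {∏ j ∈ T, z (ι j) ^ k j}

/-- The coordinate vectors of the complex points of `U` that lie in `W`. -/
def coords (π : Y ⟶ Aff N) (U : Y.Opens) {m : ℕ} (y : Fin m → Γ(Y, U)) (W : Set Y) :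
    Set (Fin m → ℂ) :=
  {c | ∃ φ : Γ(Y, U) →+* ℂ, (∀ t, φ (pb π U (C t)) = t) ∧
    (∃ x ∈ W, ∀ s, φ s ≠ 0 ↔ x ∈ Y.basicOpen s) ∧ ∀ l, φ (y l) = c l}

/-- `χ` is the Euler characteristic of locally closed subsets of `Y`: it is additive, and in affine
charts it is the Euler characteristic of the set of coordinate vectors. -/
structure IsChi (π : Y ⟶ Aff N) (χ : Set Y → ℤ) : Prop where
  add : ∀ W V : Set Y, IsLocallyClosed W → IsOpen V → χ W = χ (W ∩ V) + χ (W \ V)
  aff : ∃ χ₀, IsEuler χ₀ ∧ ∀ (U : Y.Opens) (m : ℕ) (y : Fin m → Γ(Y, U)) (W : Set Y),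
    IsAffineOpen U → Subring.closure (Set.range ((pb π U).comp C) ∪ Set.range y) = ⊤ →
    W ⊆ U → IsLocallyClosed W → χ W = χ₀ m (coords π U y W)

/-- The points that lie on `E i` exactly for `i` in `I`. -/
def stratum (E : J → Set Y) (I : Finset J) : Set Y := (⋂ i ∈ I, E i) \ ⋃ i ∉ I, E i

/-- The topological zeta function. -/
noncomputable def zeta [Fintype J] (E : J → Set Y) (a k : J → ℕ) (χ : Set Y → ℤ) : RatFunc ℂ :=
  ∑ I : Finset J, (χ (stratum E I) : RatFunc ℂ) *
    ∏ i ∈ I, 1 / ((a i : RatFunc ℂ) * RatFunc.X + (k i : RatFunc ℂ) + 1)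

end Pool.Agent.MP_ee8c61_ag.H95
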