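import Pool.Agent.MP_ee8c61_ag.H95.Kit

/-!
Arcs in an affine chart.
-/

namespace Pool.Agent.MP_ee8c61_ag.H95

open Set AlgebraicGeometry CategoryTheory

namespace AffA

theorem mem {Y : Scheme.{0}} {U : Y.Opens} (hU : IsAffineOpen U) (p : PrimeSpectrum Γ(Y, U))
    (s : Γ(Y, U)) : hU.fromSpec p ∈ Y.basicOpen s ↔ s ∉ p.asIdeal := by
  change p ∈ hU.fromSpec ⁻¹ᵁ Y.basicOpen s ↔ _
  rw [hU.fromSpec_preimage_basicOpen]
  exact PrimeSpectrum.mem_basicOpen _ _

theorem cl {R : CommRingCat.{0}} (γ : R →+* PS) (s : R) :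
    s ∉ (PrimeSpectrum.comap γ (IsLocalRing.closedPoint PS)).asIdeal ↔
      PowerSeries.constantCoeff (γ s) ≠ 0 := by
  change ¬ γ s ∈ IsLocalRing.maximalIdeal PS ↔ _
  rw [IsLocalRing.mem_maximalIdeal, mem_nonunits_iff, not_not, PowerSeries.isUnit_iff_constantCoeff,
    isUnit_iff_ne_zero]

end AffA

theorem aff : StmtAFF where
  ex Y U hU l h := by
    have h1 : range l ⊆ range hU.fromSpec := by
      rw [hU.range_fromSpec]
      rintro _ ⟨x, rfl⟩
      exact (Scheme.preimage_eq_top_of_closedPoint_mem (R := CommRingCat.of PS) l h).ge trivial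
    obtain ⟨f, hf⟩ := Spec.map_surjective (IsOpenImmersion.lift hU.fromSpec l h1)
    refine ⟨f.hom, ?_⟩
    rw [CommRingCat.ofHom_hom, hf, IsOpenImmersion.lift_fac]
  inj Y U hU γ γ' h := congrArg CommRingCat.Hom.hom (Spec.map_injective ((cancel_mono _).1 h))
  comp N Y π U hU γ := by
    have := (isAffineOpen_top (Aff N)).SpecMap_appLE_fromSpec π hU (le_top : U ≤ π ⁻¹ᵁ ⊤)
    rw [Category.assoc, ← this, IsAffineOpen.fromSpec_top, Scheme.isoSpec_Spec_inv,
      ← Spec.map_comp, ← Spec.map_comp]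
    rfl
  pt Y U hU γ x := by
    have e : (Spec.map (CommRingCat.ofHom γ) ≫ hU.fromSpec) (IsLocalRing.closedPoint PS) =
        hU.fromSpec (PrimeSpectrum.comap γ (IsLocalRing.closedPoint PS)) := rfl
    rw [e]
    constructor
    · rintro rfl
      refine ⟨?_, fun s => ((AffA.mem hU _ s).trans (AffA.cl γ s)).symm⟩
      exact hU.range_fromSpec.le ⟨_, rfl⟩
    · rintro ⟨hx, h⟩
      obtain ⟨p, rfl⟩ := hU.range_fromSpec.ge hx
      congr 1
      refine PrimeSpectrum.ext (Ideal.ext fun s => not_iff_not.1 ?_)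
      exact (AffA.cl γ s).trans ((h s).trans (AffA.mem hU p s))

end Pool.Agent.MP_ee8c61_ag.H95
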