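import Pool.Agent.MP_ee8c61_ag.H95.Kit

/-! Lifting of arcs through etale coordinates. -/

namespace Pool.Agent.MP_ee8c61_ag.H95

namespace ArcA

theorem uniq {R A B : Type} [CommRing R] [CommRing A] [CommRing B] (f : R →+* A)
    (hf : f.FormallyEtale) (g₁ g₂ : A →+* B) (h : g₁.comp f = g₂.comp f) (I : Ideal B)
    (hI : IsNilpotent I) (H : ∀ x, g₁ x - g₂ x ∈ I) : g₁ = g₂ := by
  letI := f.toAlgebra
  letI := (g₁.comp f).toAlgebra
  haveI : Algebra.FormallyEtale R A := hf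
  let G₁ : A →ₐ[R] B := { g₁ with commutes' := fun _ => rfl }
  let G₂ : A →ₐ[R] B := { g₂ with commutes' := fun r => (RingHom.congr_fun h r).symm }
  have e : G₁ = G₂ := Algebra.FormallyUnramified.ext I hI fun x => Ideal.Quotient.eq.2 (H x)
  exact RingHom.ext fun x => AlgHom.congr_fun e x

theorem exl {R A S : Type} [CommRing R] [CommRing A] [CommRing S] (f : R →+* A)
    (hf : f.FormallyEtale) (s : R →+* S) (I : Ideal S) [IsAdicComplete I S] (φ : A →+* S ⧸ I)
    (h : φ.comp f = (Ideal.Quotient.mk I).comp s) :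
    ∃ g : A →+* S, g.comp f = s ∧ ∀ x, Ideal.Quotient.mk I (g x) = φ x := by
  letI := f.toAlgebra
  letI := s.toAlgebra
  haveI : Algebra.FormallyEtale R A := hf
  let Φ : A →ₐ[R] S ⧸ I := { φ with commutes' := fun r => RingHom.congr_fun h r }
  obtain ⟨g, hg⟩ := Algebra.FormallySmooth.exists_mkₐ_comp_eq_of_isAdicComplete Φ
  exact ⟨g.toRingHom, RingHom.ext fun r => g.commutes r, fun x => AlgHom.congr_fun hg x⟩

/-- power series modulo `tt ^ c` -/
abbrev Q (c : ℕ) : Type := PS ⧸ Ideal.span {tt ^ c}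

/-- the reduction -/
noncomputable abbrev mk (c : ℕ) : PS →ₐ[ℂ] Q c := Ideal.Quotient.mkₐ ℂ _

theorem mk_eq {c : ℕ} {x y : PS} : mk c x = mk c y ↔ tt ^ c ∣ x - y :=
  Ideal.Quotient.eq.trans Ideal.mem_span_singleton

variable {N : ℕ} (C : Chart N)

theorem uq (c : ℕ) (g₁ g₂ : C.A →ₐ[ℂ] Q c) (hz : ∀ l, g₁ (C.z l) = g₂ (C.z l))
    (H : ∀ x, ∃ a b : PS, g₁ x = mk c a ∧ g₂ x = mk c b ∧ tt ∣ a - b) : g₁ = g₂ := by
  have e : g₁.comp (ev (C.y ∘ C.zc)) = g₂.comp (ev (C.y ∘ C.zc)) :=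
    MvPolynomial.algHom_ext fun l => by simpa [Chart.z] using hz l
  have h := uniq _ C.et g₁.toRingHom g₂.toRingHom
    (RingHom.ext fun p => AlgHom.congr_fun e p) (Ideal.span {mk c tt})
    ⟨c, by
      rw [Ideal.span_singleton_pow, ← map_pow, Ideal.zero_eq_bot, Ideal.span_singleton_eq_bot,
        ← map_zero (mk c), mk_eq, sub_zero]⟩
    (fun x => by
      obtain ⟨a, b, ha, hb, hd⟩ := H x
      change g₁ x - g₂ x ∈ _
      rw [ha, hb, ← map_sub, Ideal.mem_span_singleton]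
      exact map_dvd _ hd)
  exact AlgHom.ext fun x => RingHom.congr_fun h x

theorem tt_dvd {a b : PS} (h : PowerSeries.constantCoeff a = PowerSeries.constantCoeff b) :
    tt ∣ a - b := PowerSeries.X_dvd_iff.2 (by rw [map_sub, h, sub_self])

theorem lift (φ : C.A →ₐ[ℂ] ℂ) (ζ : Fin N → PS)
    (h : ∀ l, PowerSeries.constantCoeff (ζ l) = φ (C.z l)) :
    ∃ γ : C.A →ₐ[ℂ] PS, C.pt γ = φ ∧ ∀ l, γ (C.z l) = ζ l := by
  obtain ⟨g, h1, h2⟩ := exl _ C.et (ev ζ).toRingHom (Ideal.span {tt})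
    ((Ideal.Quotient.mk _).comp ((PowerSeries.C (R := ℂ)).comp φ.toRingHom))
    (RingHom.ext fun p => Ideal.Quotient.eq.2 (Ideal.mem_span_singleton.2 (tt_dvd (by
      change PowerSeries.constantCoeff (PowerSeries.C (φ (ev (C.y ∘ C.zc) p))) =
        PowerSeries.constantCoeff (ev ζ p)
      rw [bs_ev, PowerSeries.constantCoeff_C, C.map_ev, MvPolynomial.aeval_eq_eval]
      congr 2
      exact funext fun l => (h l).symm))))
  refine ⟨{ g with commutes' := fun r => ?_ }, AlgHom.ext fun x => ?_, fun l => ?_⟩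
  · simpa using RingHom.congr_fun h1 (MvPolynomial.C r)
  · have := PowerSeries.X_dvd_iff.1 (Ideal.mem_span_singleton.1 (Ideal.Quotient.eq.1 (h2 x)))
    rw [map_sub, sub_eq_zero] at this
    exact this.trans (PowerSeries.constantCoeff_C _)
  · simpa [Chart.z] using RingHom.congr_fun h1 (MvPolynomial.X l)

theorem congr (γ γ' : C.A →ₐ[ℂ] PS) (c : ℕ) (hb : C.base γ = C.base γ')
    (hz : ∀ l, tt ^ c ∣ γ' (C.z l) - γ (C.z l)) (h : C.A) : tt ^ c ∣ γ' h - γ h := by
  have e : C.pt γ' = C.pt γ := C.hom_ext (by rw [C.pt_y, C.pt_y, hb])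
  exact mk_eq.1 (AlgHom.congr_fun (uq C c ((mk c).comp γ') ((mk c).comp γ)
    (fun l => mk_eq.2 (hz l)) fun x => ⟨_, _, rfl, rfl, tt_dvd (AlgHom.congr_fun e x)⟩) h)

theorem desc {B : Type} [CommRing B] [Algebra ℂ B] (g : Pol C.κ →ₐ[ℂ] B)
    (h : ∀ p, ev C.y p = 0 → g p = 0) : ∃ ψ : C.A →ₐ[ℂ] B, ∀ p, ψ (ev C.y p) = g p :=
  ⟨(Ideal.Quotient.liftₐ (RingHom.ker (ev C.y)) g h).comp
    (Ideal.quotientKerAlgEquivOfSurjective C.gen).symm.toAlgHom, fun p => by
      have e : (Ideal.quotientKerAlgEquivOfSurjective C.gen).symm (ev C.y p) =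
          Ideal.Quotient.mk _ p := by
        rw [AlgEquiv.symm_apply_eq]
        rfl
      change Ideal.Quotient.liftₐ (RingHom.ker (ev C.y)) g h
        ((Ideal.quotientKerAlgEquivOfSurjective C.gen).symm (ev C.y p)) = _
      rw [e]
      rfl⟩

theorem jet (m : ℕ) (w : C.κ → PS) (h : ∀ p, ev C.y p = 0 → tt ^ (m + 1) ∣ ev w p) :
    ∃ γ : C.A →ₐ[ℂ] PS, ∀ k, tt ^ (m + 1) ∣ γ (C.y k) - w k := by
  obtain ⟨ψ, hψ⟩ := desc C ((mk (m + 1)).comp (ev w)) fun p hp => by
    change mk (m + 1) (ev w p) = 0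
    rw [← map_zero (mk (m + 1)), mk_eq, sub_zero]
    exact h p hp
  obtain ⟨φ, hφ⟩ := desc C (ev (bs w)) fun p hp => by
    rw [MvPolynomial.aeval_eq_eval, ← bs_ev]
    exact PowerSeries.X_dvd_iff.1 ((dvd_pow_self tt m.succ_ne_zero).trans (h p hp))
  have hy : ∀ k, ψ (C.y k) = mk (m + 1) (w k) := fun k => by
    simpa using hψ (MvPolynomial.X k)
  obtain ⟨γ, h1, h2⟩ := lift C φ (w ∘ C.zc) fun l => by
    simpa [bs, Chart.z] using (hφ (MvPolynomial.X (C.zc l))).symm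
  have e := uq C (m + 1) ((mk (m + 1)).comp γ) ψ
    (fun l => (congrArg (mk (m + 1)) (h2 l)).trans (hy _).symm) fun x => by
      obtain ⟨p, rfl⟩ := C.gen x
      refine ⟨γ (ev C.y p), ev w p, rfl, hψ p, tt_dvd ?_⟩
      rw [← C.pt_apply, h1, hφ, bs_ev, MvPolynomial.aeval_eq_eval]
  exact ⟨γ, fun k => mk_eq.1 ((AlgHom.congr_fun e (C.y k)).trans (hy k))⟩

theorem taylor (γ γ' : C.A →ₐ[ℂ] PS) (c : ℕ) (hd : ∀ h, tt ^ c ∣ γ' h - γ h) (h : C.A) :
    tt ^ (2 * c) ∣ γ' h - γ h - ∑ l, γ (C.D l h) * (γ' (C.z l) - γ (C.z l)) := by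
  rcases Nat.eq_zero_or_pos c with rfl | hc
  · simp
  set δ : C.A → PS := fun h => ∑ l, γ (C.D l h) * (γ' (C.z l) - γ (C.z l)) with hδ
  have d1 : ∀ x, tt ^ c ∣ δ x := fun x =>
    Finset.dvd_sum fun l _ => (hd _).mul_left _
  have dadd : ∀ x y, δ (x + y) = δ x + δ y := fun x y => by
    simp only [hδ, map_add, add_mul, Finset.sum_add_distrib]
  have dmul : ∀ x y, δ (x * y) = γ x * δ y + γ y * δ x := fun x y => by
    simp only [hδ, Derivation.leibniz, smul_eq_mul, map_add, map_mul, add_mul,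
      Finset.sum_add_distrib, Finset.mul_sum, mul_assoc]
  have dc : ∀ r : ℂ, δ (algebraMap ℂ C.A r) = 0 := fun r => by
    simp only [hδ, Derivation.map_algebraMap, map_zero, zero_mul, Finset.sum_const_zero]
  let τ : C.A →ₐ[ℂ] Q (2 * c) :=
    { toFun := fun x => mk (2 * c) (γ x + δ x)
      map_one' := by
        rw [← map_one (algebraMap ℂ C.A), dc, add_zero, map_one, map_one, map_one]
      map_mul' := fun x y => by
        rw [← map_mul (mk (2 * c)), eq_comm, mk_eq, dmul, map_mul,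
          show (γ x + δ x) * (γ y + δ y) - (γ x * γ y + (γ x * δ y + γ y * δ x)) = δ x * δ y by
            ring, two_mul, pow_add]
        exact mul_dvd_mul (d1 x) (d1 y)
      map_zero' := by
        rw [← map_zero (algebraMap ℂ C.A), dc, add_zero, map_zero, map_zero, map_zero]
      map_add' := fun x y => by
        rw [← map_add (mk (2 * c)), dadd, map_add γ, add_add_add_comm]
      commutes' := fun r => by
        rw [dc, add_zero, γ.commutes, (mk (2 * c)).commutes] }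
  have e := uq C (2 * c) ((mk (2 * c)).comp γ') τ
    (fun m => congrArg (mk (2 * c)) (by
      have : δ (C.z m) = γ' (C.z m) - γ (C.z m) := by
        simp only [hδ, Chart.z, C.dual, apply_ite γ, map_one, map_zero, ite_mul, one_mul, zero_mul,
          Finset.sum_ite_eq', Finset.mem_univ, if_true]
      rw [this, add_sub_cancel]
      rfl))
    fun x => ⟨_, _, rfl, rfl, by
      rw [← sub_sub]
      exact (dvd_pow_self tt hc.ne').trans ((hd x).sub (d1 x))⟩
  have := mk_eq.1 (AlgHom.congr_fun e h)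
  rwa [← sub_sub] at this

end ArcA

theorem arc : StmtARC :=
  ⟨fun _ C => ArcA.lift C, fun _ C => ArcA.congr C, fun _ C => ArcA.jet C,
    fun _ C => ArcA.taylor C⟩

end Pool.Agent.MP_ee8c61_ag.H95
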