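import Pool.Agent.MP_ee8c61_ag.H95.Kit

/-! The contact loci of the Cayley polynomial. -/

namespace Pool.Agent.MP_ee8c61_ag.H95

open Set
open Pool.Agent.MP_4f1c5b_al.H95 (ConE)

namespace CayA

variable {r n m : ℕ} {f : Fin r → Pol (Fin n)}

/-- The coordinates of the base. -/
def bb (r n m : ℕ) : Fin n × Fin (m + 1) → Fin (r + n) × Fin (m + 1) :=
  Prod.map (Fin.natAdd r) id

theorem ev_cay (β : Fin (r + n) → PS) :
    ev β (H36.cayley f) = ∑ i, β (Fin.castAdd n i) * ev (β ∘ Fin.natAdd r) (f i) := by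
  simp only [H36.cayley, map_sum, map_mul, MvPolynomial.aeval_X, MvPolynomial.aeval_rename]

theorem ser_bb (x : Fin (r + n) × Fin (m + 1) → ℂ) : ser x ∘ Fin.natAdd r = ser (x ∘ bb r n m) :=
  rfl

theorem polyE_cay {E : Subfield ℂ} (h : ∀ j, PolyE E (f j)) : PolyE E (H36.cayley f) :=
  PolyE.sum _ fun j _ => (PolyE.X _).mul ((h j).rename _)

theorem card_free (j₀ : Fin r) {s : ℕ} (hs : s ≤ m + 1) :
    Nat.card {p : Fin r × Fin (m + 1) // ¬(p.1 = j₀ ∧ (p.2 : ℕ) < s)} = r * (m + 1) - s := by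
  classical
  let e : {p : Fin r × Fin (m + 1) // p.1 = j₀ ∧ (p.2 : ℕ) < s} ≃ Fin s :=
    ⟨fun p => ⟨p.1.2, p.2.2⟩, fun c => ⟨(j₀, ⟨c, c.2.trans_le hs⟩), rfl, c.2⟩,
      fun p => Subtype.ext (Prod.ext p.2.1.symm rfl), fun _ => rfl⟩
  rw [Nat.card_eq_fintype_card, Fintype.card_subtype_compl, Fintype.card_congr e]
  simp

/-- The jets over the contact locus of order `j` on which the Cayley polynomial has order at
least `c`. -/
def AA (f : Fin r → Pol (Fin n)) (m j c : ℕ) : Set (Fin (r + n) × Fin (m + 1) → ℂ) :=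
  {x | x ∘ bb r n m ∈ tr m '' Cont f j ∧ tt ^ c ∣ ev (ser x) (H36.cayley f)}

theorem con_AA (hJ : StmtJET) {E : Subfield ℂ} (h : ∀ j, PolyE E (f j)) {j : ℕ} (hj : j ≤ m)
    (c : ℕ) : ConE E (AA f m j c) :=
  conE_and ((hJ.cont E n _ f j m h hj).comp _) (hJ.poly E _ m c _ (polyE_cay h))

theorem tt_cancel {j s : ℕ} {a : PS} : tt ^ (j + s) ∣ tt ^ j * a ↔ tt ^ s ∣ a := by
  rw [pow_add]
  exact mul_dvd_mul_iff_left (pow_ne_zero j PowerSeries.X_ne_zero)

/-- The fibres are affine spaces. -/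
theorem bij {j s : ℕ} (hc : j + s ≤ m + 1) {y : Fin n × Fin (m + 1) → ℂ}
    (hy : y ∈ tr m '' Cont f j) {u : Fin r → PS} (hu : ∀ i, ev (ser y) (f i) = tt ^ j * u i)
    {j₀ : Fin r} (h₀ : IsUnit (u j₀)) :
    BijOn (· ∘ fun p : {p : Fin r × Fin (m + 1) // ¬(p.1 = j₀ ∧ (p.2 : ℕ) < s)} =>
      ((Fin.castAdd n p.1.1, p.1.2) : Fin (r + n) × Fin (m + 1)))
      {x ∈ AA f m j (j + s) | x ∘ bb r n m = y} univ := by
  classical
  have key : ∀ β : Fin (r + n) → PS, β ∘ Fin.natAdd r = ser y →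
      (tt ^ (j + s) ∣ ev β (H36.cayley f) ↔ tt ^ s ∣ ∑ i, β (Fin.castAdd n i) * u i) :=
    fun β hβ => by
      rw [ev_cay, hβ, ← tt_cancel (j := j) (s := s), Finset.mul_sum]
      simp only [hu, mul_left_comm]
  refine ⟨mapsTo_univ _ _, fun x hx x' hx' e => ?_, fun w _ => ?_⟩
  · have e' : ∀ (i : Fin r) (c : Fin (m + 1)), ¬(i = j₀ ∧ (c : ℕ) < s) →
        x (Fin.castAdd n i, c) = x' (Fin.castAdd n i, c) := fun i c h => congrFun e ⟨(i, c), h⟩
    have a := (key _ ((ser_bb x).trans (congrArg ser hx.2))).1 hx.1.2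
    have a' := (key _ ((ser_bb x').trans (congrArg ser hx'.2))).1 hx'.1.2
    have b := a.sub a'
    rw [← Finset.sum_sub_distrib, Finset.sum_eq_single j₀ (fun i _ hi => by
      have : ser x (Fin.castAdd n i) = ser x' (Fin.castAdd n i) := by
        ext c
        simp only [ser, PowerSeries.coeff_mk]
        split_ifs with h
        · exact e' i _ fun h' => hi h'.1
        · rfl
      rw [this, sub_self]) (fun h => absurd (Finset.mem_univ _) h), ← sub_mul,
      h₀.dvd_mul_right, PowerSeries.X_pow_dvd_iff] at b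
    funext ⟨k, c⟩
    refine Fin.addCases (fun i => ?_) (fun i => ?_) k
    · by_cases h : i = j₀ ∧ (c : ℕ) < s
      · have := b c h.2
        rw [map_sub, sub_eq_zero] at this
        rw [h.1]
        exact (congrFun (tr_ser x) (_, c)).symm.trans (this.trans (congrFun (tr_ser x') (_, c)))
      · exact e' i c h
    · exact congrFun (hx.2.trans hx'.2.symm) (i, c)
  · let x₀ : Fin r × Fin (m + 1) → ℂ := fun p =>
      if h : ¬(p.1 = j₀ ∧ (p.2 : ℕ) < s) then w ⟨p, h⟩ else 0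
    obtain ⟨v, hv⟩ := h₀.exists_left_inv
    let Z : PS := -(∑ i, ser x₀ i * u i) * v
    let T : PS := PowerSeries.mk fun c => if c < s then PowerSeries.coeff c Z else 0
    have hT : tt ^ s ∣ T - Z := PowerSeries.X_pow_dvd_iff.2 fun c hc => by
      rw [map_sub, PowerSeries.coeff_mk, if_pos hc, sub_self]
    let β : Fin (r + n) → PS := Fin.addCases (fun i => ser x₀ i + if i = j₀ then T else 0) (ser y)
    have h1 : β ∘ Fin.natAdd r = ser y := funext fun i => by
      simp only [β, Function.comp, Fin.addCases_right]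
    have h2 : ∀ i, β (Fin.castAdd n i) = ser x₀ i + if i = j₀ then T else 0 := fun i =>
      Fin.addCases_left i
    have h3 : tr m β ∘ bb r n m = y := (tr_comp β _).trans (by rw [h1, tr_ser])
    have h4 : tt ^ (j + s) ∣ ev β (H36.cayley f) := by
      rw [key β h1]
      simp only [h2, add_mul, ite_mul, zero_mul, Finset.sum_add_distrib, Finset.sum_ite_eq',
        Finset.mem_univ, if_true]
      have : ∑ i, ser x₀ i * u i + T * u j₀ = (T - Z) * u j₀ := by
        simp only [Z]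
        linear_combination (-∑ i, ser x₀ i * u i) * hv
      rw [this]
      exact hT.mul_right _
    refine ⟨tr m β, ⟨⟨h3 ▸ hy, ?_⟩, h3⟩, funext fun p => ?_⟩
    · have := ((pow_dvd_pow tt hc).trans (dvd_ev (ser_tr (m := m) β) (H36.cayley f))).add h4
      rwa [sub_add_cancel] at this
    · change PowerSeries.coeff p.1.2 (β (Fin.castAdd n p.1.1)) = w p
      have h5 : PowerSeries.coeff p.1.2 (ser x₀ p.1.1) = w p :=
        (congrFun (tr_ser x₀) p.1).trans (dif_pos p.2)
      rw [h2, map_add, h5, add_eq_left]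
      split_ifs with h
      · rw [PowerSeries.coeff_mk, if_neg fun h' => p.2 ⟨h, h'⟩]
      · exact map_zero _

theorem mu_AA (hJ : StmtJET) (M : MM) (h : ∀ j, PolyE M.E (f j)) {j s : ℕ} (hj : j ≤ m)
    (hc : j + s ≤ m + 1) :
    M.μ (AA f m j (j + s)) * M.L ^ s = M.L ^ (r * (m + 1)) * M.μ (tr m '' Cont f j) := by
  have hs : s ≤ m + 1 := (Nat.le_add_left _ _).trans hc
  rw [M.fib (bb r n m) (r * (m + 1) - s) (con_AA hJ h hj _) (hJ.cont _ n _ f j m h hj)
    (fun x hx => hx.1) fun y hy => ?_]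
  · rcases (tr m '' Cont f j).eq_empty_or_nonempty with e | ⟨y, hy⟩
    · rw [e, M.empty]
      simp
    · obtain ⟨j₀, -⟩ := ((hJ.mem n _ f j m y hj).1 hy).2
      have : s ≤ r * (m + 1) := hs.trans (Nat.le_mul_of_pos_left _ j₀.pos)
      rw [mul_right_comm, ← pow_add, Nat.sub_add_cancel this]
  · obtain ⟨h1, j₀, h2⟩ := (hJ.mem n _ f j m y hj).1 hy
    choose u hu using h1
    have h₀ : IsUnit (u j₀) := by
      rw [hu, tt_cancel, pow_one, PowerSeries.X_dvd_iff] at h2
      exact PowerSeries.isUnit_iff_constantCoeff.2 (Ne.isUnit h2)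
    let e := (Finite.equivFinOfCardEq (card_free j₀ hs)).symm
    exact ⟨fun q => (Fin.castAdd n (e q).1.1, (e q).1.2),
      ((e.arrowCongr (Equiv.refl ℂ)).symm.bijective.bijOn_univ).comp (bij hc hy hu h₀)⟩

theorem cont_disj {j j' : ℕ} {b : Fin n → PS} (h : b ∈ Cont f j) (h' : b ∈ Cont f j') : j = j' := by
  have k : ∀ {j j' : ℕ}, b ∈ Cont f j → b ∈ Cont f j' → j ≤ j' := fun h h' => by
    by_contra hl
    obtain ⟨i, hi⟩ := h'.2
    exact hi ((pow_dvd_pow tt (not_le.1 hl)).trans (h.1 i))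
  exact (k h h').antisymm (k h' h)

theorem decomp (hJ : StmtJET) (d : ℕ) : tr d '' Cont (fun _ : Unit => H36.cayley f) d =
    ⋃ j ∈ Finset.range (d + 1), AA f d j d \ AA f d j (d + 1) := by
  classical
  ext x
  rw [hJ.mem _ _ _ d d x le_rfl]
  simp only [mem_iUnion, Finset.mem_range, exists_prop]
  constructor
  · rintro ⟨h1, _, h2⟩
    have hd : ¬∀ i, tt ^ (d + 1) ∣ ev (ser (x ∘ bb r n d)) (f i) := fun hh => h2 (by
      rw [ev_cay, ser_bb]
      exact Finset.dvd_sum fun i _ => (hh i).mul_left _)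
    have ex : ∃ j, ¬∀ i, tt ^ (j + 1) ∣ ev (ser (x ∘ bb r n d)) (f i) := ⟨d, hd⟩
    have le : Nat.find ex ≤ d := Nat.find_min' ex hd
    have hm : x ∘ bb r n d ∈ tr d '' Cont f (Nat.find ex) := by
      refine (hJ.mem n _ f _ d _ le).2 ⟨fun i => ?_, not_forall.1 (Nat.find_spec ex)⟩
      rcases Nat.eq_zero_or_pos (Nat.find ex) with e | e
      · rw [e, pow_zero]
        exact one_dvd _
      · have := not_not.1 (Nat.find_min ex (Nat.sub_one_lt e.ne')) i
        rwa [Nat.sub_add_cancel e] at this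
    exact ⟨_, Nat.lt_succ_of_le le, ⟨hm, h1 ()⟩, fun hh => h2 hh.2⟩
  · rintro ⟨j, -, h1, h2⟩
    exact ⟨fun _ => h1.2, (), fun hh => h2 ⟨h1.1, hh⟩⟩

theorem mes_eq (hJ : StmtJET) (M : MM) (h : ∀ j, PolyE M.E (f j)) (d : ℕ) :
    M.mes (fun _ : Unit => H36.cayley f) d =
      ∑ j ∈ Finset.range (d + 1), M.L ^ r * ((M.L - 1) / M.L) * M.mes f j / M.L ^ (d - j) := by
  have ne := M.ne
  rw [MM.mes, decomp hJ, M.biUnion _ (fun j hj => (con_AA hJ h (Finset.mem_range_succ_iff.1 hj) _).diff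
    (con_AA hJ h (Finset.mem_range_succ_iff.1 hj) _)) fun j hj j' hj' e =>
      disjoint_left.2 fun x hx hx' => e (cont_disj
        ((hJ.mem n _ f j d _ (Finset.mem_range_succ_iff.1 hj)).1 hx.1.1)
        ((hJ.mem n _ f j' d _ (Finset.mem_range_succ_iff.1 hj')).1 hx'.1.1)), Finset.sum_div]
  refine Finset.sum_congr rfl fun j hj => ?_
  obtain ⟨s, rfl⟩ := Nat.exists_eq_add_of_le (Finset.mem_range_succ_iff.1 hj)
  have le := Nat.le_add_right j s
  have a := mu_AA hJ M h (s := s) le (Nat.le_succ _)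
  have b := mu_AA hJ M h (s := s + 1) le le_rfl
  have c := M.split (con_AA hJ h le (j + s)) (con_AA hJ h le (j + s + 1))
  have sub : AA f (j + s) j (j + s + 1) ⊆ AA f (j + s) j (j + s) := fun x hx =>
    ⟨hx.1, (pow_dvd_pow tt (Nat.le_succ _)).trans hx.2⟩
  rw [inter_eq_right.2 sub] at c
  rw [hJ.stab M n _ f j _ h le] at a b
  rw [← add_assoc] at b
  rw [eq_sub_of_add_eq' c.symm, eq_div_of_mul_eq (pow_ne_zero _ ne) a,
    eq_div_of_mul_eq (pow_ne_zero _ ne) b, Nat.add_sub_cancel_left]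
  field_simp
  ring

end CayA

open CayA in
theorem cay (hJ : StmtJET) : StmtCAY := by
  intro M r n f h
  have ne := M.ne
  have k : (1 - PowerSeries.C (1 / M.L) * PowerSeries.X) *
      PowerSeries.mk (M.mes fun _ : Unit => H36.cayley f) =
      PowerSeries.C (M.L ^ r) * PowerSeries.C ((M.L - 1) / M.L) * PowerSeries.mk (M.mes f) := by
    ext d
    rw [sub_mul, one_mul, map_sub, mul_assoc, ← map_mul, PowerSeries.coeff_C_mul,
      PowerSeries.coeff_C_mul, PowerSeries.coeff_mk, PowerSeries.coeff_mk, mes_eq hJ M h,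
      Finset.sum_range_succ, Nat.sub_self, pow_zero, div_one]
    cases d with
    | zero => simp
    | succ d =>
      rw [PowerSeries.coeff_succ_X_mul, PowerSeries.coeff_mk, mes_eq hJ M h, Finset.mul_sum,
        add_sub_right_comm, ← Finset.sum_sub_distrib, Finset.sum_eq_zero fun j hj => ?_, zero_add]
      rw [Nat.succ_sub (Finset.mem_range_succ_iff.1 hj), pow_succ]
      field_simp
      ring
  have u : (1 - PowerSeries.C (1 / M.L) * PowerSeries.X : PowerSeries Hyperreal)⁻¹ *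
      (1 - PowerSeries.C (1 / M.L) * PowerSeries.X) = 1 :=
    PowerSeries.inv_mul_cancel _ (by simp)
  rw [MM.phi, pow_one, pow_one]
  linear_combination (PowerSeries.X * (1 - PowerSeries.C (1 / M.L) * PowerSeries.X)⁻¹) * k -
    (PowerSeries.X * PowerSeries.mk (M.mes fun _ : Unit => H36.cayley f)) * u

end Pool.Agent.MP_ee8c61_ag.H95
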