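import Pool.Agent.MP_ee8c61_ag.H95.Kit

/-! The measure of the jets with given orders. -/

namespace Pool.Agent.MP_ee8c61_ag.H95

open Set
open Pool.Agent.MP_4f1c5b_al.H95 (ConE)

namespace CntA

theorem card_pair {N m : ℕ} (S : Finset (Fin N)) (Q : Fin N → Fin m → Prop)
    [∀ l c, Decidable (Q l c)] :
    (Finset.univ.filter fun p : Fin N × Fin m => p.1 ∈ S ∧ Q p.1 p.2).card =
      ∑ l ∈ S, (Finset.univ.filter (Q l)).card := by
  rw [Finset.card_filter, Fintype.sum_prod_type, ← Finset.sum_subset S.subset_univ]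
  · refine Finset.sum_congr rfl fun l hl => ?_
    rw [Finset.card_filter]
    simp only [hl, true_and]
  · intro l _ hl
    simp [hl]

theorem card_eq {m n : ℕ} (h1 : 1 ≤ n) (h2 : n ≤ m) :
    (Finset.univ.filter fun c : Fin m => (c : ℕ) + 1 = n).card = 1 := by
  refine Finset.card_eq_one.2 ⟨⟨n - 1, by omega⟩, Finset.ext fun c => ?_⟩
  simp only [Finset.mem_filter, Finset.mem_univ, true_and, Finset.mem_singleton, Fin.ext_iff]
  omega

theorem card_lt {m n : ℕ} (h1 : 1 ≤ n) (h2 : n ≤ m) :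
    (Finset.univ.filter fun c : Fin m => (c : ℕ) + 1 < n).card + 1 = n := by
  have h : (Finset.univ.filter fun c : Fin m => (c : ℕ) + 1 < n) =
      Finset.univ.filter fun c : Fin m => (c : ℕ) < n - 1 :=
    Finset.filter_congr fun c _ => by omega
  rw [h, Fin.card_filter_val_lt]
  omega

variable {N : ℕ} {J : Type} {g : J → Pol (Fin N)} (s : Str N g) (m : ℕ) (ν : Fin N → ℕ)

/-- The free coordinates on the jets. -/
def bb : s.κ ⊕ (Fin N × Fin m) → s.κ × Fin (m + 1) :=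
  Sum.elim (fun k => (k, 0)) fun p => (s.zc p.1, p.2.succ)

/-- The coefficients that vanish. -/
def ZZ : Finset (Fin N × Fin m) :=
  Finset.univ.filter fun p => p.1 ∈ s.S ∧ (p.2 : ℕ) + 1 < ν p.1

/-- The leading coefficients. -/
def UU : Finset (Fin N × Fin m) :=
  Finset.univ.filter fun p => p.1 ∈ s.S ∧ (p.2 : ℕ) + 1 = ν p.1

/-- The image of the jets. -/
def TT : Set (s.κ ⊕ (Fin N × Fin m) → ℂ) :=
  {x | x ∘ Sum.inl ∈ s.P ∧ (∀ j ∈ ZZ s m ν, x (Sum.inr j) = 0) ∧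
    ∀ j ∈ UU s m ν, x (Sum.inr j) ≠ 0}

theorem bb_inl (γ : s.A →ₐ[ℂ] PS) : (tr m (γ ∘ s.y) ∘ bb s m) ∘ Sum.inl = s.base γ :=
  funext fun k => tr_zero (γ ∘ s.y) k

theorem bb_inr (γ : s.A →ₐ[ℂ] PS) (p : Fin N × Fin m) :
    (tr m (γ ∘ s.y) ∘ bb s m) (Sum.inr p) = PowerSeries.coeff (p.2 + 1) (γ (s.z p.1)) := rfl

theorem maps : MapsTo (· ∘ bb s m) (s.JD m ν) (TT s m ν) := by
  rintro _ ⟨γ, hγ, rfl⟩
  refine ⟨by rw [bb_inl]; exact hγ.1, fun j hj => ?_, fun j hj => ?_⟩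
  · obtain ⟨h1, h2⟩ := (Finset.mem_filter.1 hj).2
    exact (PowerSeries.order_eq_nat.1 (hγ.2 _ h1)).2 _ h2
  · obtain ⟨h1, h2⟩ := (Finset.mem_filter.1 hj).2
    have h := (PowerSeries.order_eq_nat.1 (hγ.2 _ h1)).1
    rw [← h2] at h
    exact h

theorem inj (hA : StmtARC) : InjOn (· ∘ bb s m) (s.JD m ν) := by
  rintro _ ⟨γ, -, rfl⟩ _ ⟨γ', -, rfl⟩ (e : _ ∘ _ = _ ∘ _)
  have hb : s.base γ = s.base γ' := by rw [← bb_inl s m γ, ← bb_inl s m γ', e]
  have h := hA.congr N s.toChart γ γ' (m + 1) hb fun l => by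
    rw [PowerSeries.X_pow_dvd_iff]
    intro c hc
    rw [map_sub, sub_eq_zero]
    rcases c with _ | c
    · simpa [Chart.base, bs, Chart.z] using (congrFun hb (s.zc l)).symm
    · exact (congrFun e (Sum.inr (l, ⟨c, by omega⟩))).symm
  exact (tr_eq_iff.2 fun k => h (s.y k)).symm

theorem surj (hA : StmtARC) (hν : ∀ l ∈ s.S, 1 ≤ ν l ∧ ν l ≤ m) :
    SurjOn (· ∘ bb s m) (s.JD m ν) (TT s m ν) := by
  rintro w ⟨hP, hZ, hU⟩
  obtain ⟨φ, hφ⟩ := s.pts _ hP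
  let ζ : Fin N → PS := fun l => PowerSeries.mk fun c => Nat.casesOn c (φ (s.z l))
    fun c => if h : c < m then w (Sum.inr (l, ⟨c, h⟩)) else 0
  have h0 : ∀ l, PowerSeries.coeff 0 (ζ l) = φ (s.z l) := fun l => PowerSeries.coeff_mk _ _
  have h1 : ∀ l (c : Fin m), PowerSeries.coeff (c + 1) (ζ l) = w (Sum.inr (l, c)) := fun l c =>
    (PowerSeries.coeff_mk _ _).trans (dif_pos c.2)
  obtain ⟨γ, hγ, hz⟩ := hA.lift N s.toChart φ ζ fun l => by
    rw [← h0, PowerSeries.coeff_zero_eq_constantCoeff]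
  have hb : s.base γ = w ∘ Sum.inl := by rw [← Chart.pt_y, hγ, hφ]
  refine ⟨_, ⟨γ, ⟨hb ▸ hP, fun l hl => ?_⟩, rfl⟩, funext fun j => ?_⟩
  · obtain ⟨h2, h3⟩ := hν l hl
    rw [hz, PowerSeries.order_eq_nat]
    refine ⟨?_, fun c hc => ?_⟩
    · have h := h1 l ⟨ν l - 1, by omega⟩
      rw [show ((⟨ν l - 1, by omega⟩ : Fin m) : ℕ) + 1 = ν l from Nat.sub_add_cancel h2] at h
      rw [h]
      exact hU _ (Finset.mem_filter.2 ⟨Finset.mem_univ _, hl, Nat.sub_add_cancel h2⟩)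
    · rcases c with _ | c
      · rw [h0]
        exact s.van φ (hφ ▸ hP) l hl
      · exact (h1 l ⟨c, by omega⟩).trans
          (hZ _ (Finset.mem_filter.2 ⟨Finset.mem_univ _, hl, hc⟩))
  · rcases j with k | p
    · exact congrFun ((bb_inl s m γ).trans hb) k
    · exact (bb_inr s m γ p).trans (by rw [hz, h1])

end CntA

open CntA in
theorem cnt (hA : StmtARC) (hJ : StmtJET) (hP : StmtPROD) : StmtCNT := by
  intro M N J g s m ν hE hν
  have hd : Disjoint (ZZ s m ν) (UU s m ν) :=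
    Finset.disjoint_filter.2 fun p _ h h' => h.2.ne h'.2
  obtain ⟨hc, hm⟩ := hP M s.κ (Fin N × Fin m) s.P (ZZ s m ν) (UU s m ν) hE.2 hd
  have hU : (UU s m ν).card = ∑ _l ∈ s.S, 1 :=
    (card_pair s.S fun l (c : Fin m) => (c : ℕ) + 1 = ν l).trans
      (Finset.sum_congr rfl fun l hl => card_eq (hν l hl).1 (hν l hl).2)
  have hZ : (ZZ s m ν).card + (UU s m ν).card = ∑ l ∈ s.S, ν l := by
    rw [hU, ZZ, card_pair s.S fun l (c : Fin m) => (c : ℕ) + 1 < ν l, ← Finset.sum_add_distrib]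
    exact Finset.sum_congr rfl fun l hl => card_lt (hν l hl).1 (hν l hl).2
  rw [hZ, hU, ← Finset.card_eq_sum_ones, Fintype.card_prod, Fintype.card_fin,
    Fintype.card_fin] at hm
  rw [M.bij (bb s m) (hJ.del M.E N J g s m ν hE fun l hl => (hν l hl).2) hc
    ⟨maps s m ν, inj s m ν hA, surj s m ν hA hν⟩]
  exact hm

end Pool.Agent.MP_ee8c61_ag.H95
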