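import Pool.Agent.MP_ee8c61_ag.H95.Kit

/-! The coordinates of a locally closed set form a constructible set. -/

namespace Pool.Agent.MP_ee8c61_ag.H95

open Set AlgebraicGeometry CategoryTheory MvPolynomial
open Pool.Agent.MP_4f1c5b_al.H95 (ConE)

namespace ConA

theorem zl {m : ℕ} (S : Set (Pol (Fin m))) : ConE ⊤ {c | ∀ p ∈ S, eval c p = 0} := by
  obtain ⟨G, hG⟩ := (isNoetherianRing_iff_ideal_fg _).1 inferInstance (Ideal.span S)
  have : {c | ∀ p ∈ S, eval c p = 0} = {c : Fin m → ℂ | ∀ p ∈ G, eval c p = 0} := by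
    ext c
    have k : ∀ T : Set (Pol (Fin m)), (∀ p ∈ T, eval c p = 0) ↔
        Ideal.span T ≤ RingHom.ker (eval c) := fun T =>
      (Ideal.span_le (s := T) (I := RingHom.ker (eval c))).symm
    exact (k S).trans (hG ▸ (k G).symm)
  rw [this]
  exact conE_ball G fun p _ => (PolyE.top p).con

variable {Y : Scheme.{0}} {U : Y.Opens} {m : ℕ}

/-- The polynomials that vanish on `W`. -/
def vs (e : Pol (Fin m) →+* Γ(Y, U)) (W : Set Y) : Set (Pol (Fin m)) :=
  {p | ∀ x ∈ W, x ∉ Y.basicOpen (e p)}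

theorem mem_iff (hU : IsAffineOpen U) {e : Pol (Fin m) →+* Γ(Y, U)} (he : Function.Surjective e)
    {φ : Γ(Y, U) →+* ℂ} {c : Fin m → ℂ} (hc : ∀ p, φ (e p) = eval c p) {x : Y}
    (hx : ∀ s, φ s ≠ 0 ↔ x ∈ Y.basicOpen s) {W : Set Y} (hW : IsClosed W) :
    (∀ p ∈ vs e W, eval c p = 0) ↔ x ∈ W := by
  refine ⟨fun h => by_contra fun hn => ?_, fun h p hp => ?_⟩
  · obtain ⟨s, hs, hxs⟩ := hU.exists_basicOpen_le (V := ⟨Wᶜ, hW.isOpen_compl⟩) ⟨x, hn⟩
      (Y.basicOpen_le 1 ((hx 1).1 (by simp)))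
    obtain ⟨p, rfl⟩ := he s
    exact (hx _).2 hxs ((hc p).trans (h p fun z hz hz' => hs hz' hz))
  · rw [← hc]
    exact by_contra fun hn => hp x h ((hx _).1 hn)

end ConA

open ConA

theorem con : StmtCON := by
  rintro N Y π U m y _ hU hy ⟨V, F, hV, hF, rfl⟩
  let e : Pol (Fin m) →+* Γ(Y, U) := eval₂Hom ((pb π U).comp C) y
  have he : Function.Surjective e := by
    rw [← RingHom.range_eq_top, eq_top_iff, ← hy, Subring.closure_le]
    rintro _ (⟨t, rfl⟩ | ⟨l, rfl⟩)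
    · exact ⟨C t, eval₂Hom_C _ _ _⟩
    · exact ⟨X l, eval₂Hom_X' _ _ _⟩
  have : coords π U y (V ∩ F) =
      {c | (∀ p ∈ vs e F, eval c p = 0) ∧ ¬∀ p ∈ vs e Vᶜ, eval c p = 0} := by
    ext c
    constructor
    · rintro ⟨φ, h1, ⟨x, hxW, hx⟩, h2⟩
      have hc : ∀ p, φ (e p) = eval c p := fun p =>
        RingHom.congr_fun (show φ.comp e = eval c from ringHom_ext (fun t => by simp [e, h1])
          fun l => by simp [e, h2]) p
      exact ⟨(mem_iff hU he hc hx hF).2 hxW.2,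
        fun h => (mem_iff hU he hc hx hV.isClosed_compl).1 h hxW.1⟩
    · rintro ⟨h1, h2⟩
      let φ := e.liftOfSurjective he ⟨eval c, fun p hp => h1 p fun x _ => by
        rw [RingHom.mem_ker.1 hp, Scheme.basicOpen_zero]
        exact id⟩
      have hc : ∀ p, φ (e p) = eval c p := fun p => RingHom.liftOfSurjective_comp_apply _ _ _ p
      have hx : ∀ s, φ s ≠ 0 ↔
          hU.fromSpec ⟨RingHom.ker φ, RingHom.ker_isPrime φ⟩ ∈ Y.basicOpen s := fun s =>
        (SetLike.ext_iff.1 (hU.fromSpec_preimage_basicOpen s)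
          ⟨RingHom.ker φ, RingHom.ker_isPrime φ⟩).symm
      refine ⟨φ, fun t => ?_, ⟨_, ⟨by_contra fun hn => h2 ((mem_iff hU he hc hx
        hV.isClosed_compl).2 hn), (mem_iff hU he hc hx hF).1 h1⟩, hx⟩, fun l => ?_⟩
      · simpa [e] using hc (C t)
      · simpa [e] using hc (X l)
  rw [this]
  exact conE_and (zl _) (conE_not (zl _))

end Pool.Agent.MP_ee8c61_ag.H95
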