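import Pool.Agent.MP_ee8c61_ag.H95.Kit

/-! The estimate for the measure of the contact locus. -/

namespace Pool.Agent.MP_ee8c61_ag.H95

open Set
open Pool.Agent.MP_4f1c5b_al.H95 (IsEuler ConE)

namespace EstA

theorem zero_set (M : MM) {ι : Type} [Fintype ι] (Z : Finset ι) :
    M.μ {x : ι → ℂ | ∀ j ∈ Z, x j = 0} * M.L ^ Z.card = M.L ^ Fintype.card ι := by
  classical
  rw [M.fib' (κ := Fin 0) Fin.elim0 {p // p ∉ Z} (conE_ball Z fun j _ => conE_coord j) ConE.univ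
    (mapsTo_univ _ _) fun y _ => ⟨Subtype.val, mapsTo_univ _ _, fun x hx x' hx' e => ?_,
      fun w _ => ⟨fun p => if h : p ∈ Z then 0 else w ⟨p, h⟩,
        ⟨fun j hj => dif_pos hj, Subsingleton.elim _ _⟩, funext fun p => dif_neg p.2⟩⟩,
    M.pt, mul_one, ← pow_add, Nat.card_eq_fintype_card, Fintype.card_subtype_compl,
    Fintype.card_coe, Nat.sub_add_cancel Z.card_le_univ]
  funext p
  by_cases h : p ∈ Z
  · rw [hx.1 p h, hx'.1 p h]
  · exact congrFun e ⟨p, h⟩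

theorem small (M : MM) {N m K : ℕ} (h : K ≤ m) (i : Fin N) :
    ConE M.E {x : Fin N × Fin (m + 1) → ℂ | ∀ c : Fin (m + 1), (c : ℕ) ≤ K → x (i, c) = 0} ∧
    M.μ {x : Fin N × Fin (m + 1) → ℂ | ∀ c : Fin (m + 1), (c : ℕ) ≤ K → x (i, c) = 0} *
      M.L ^ (K + 1) = M.L ^ (N * (m + 1)) := by
  refine ⟨conE_all fun c => conE_imp fun _ => conE_coord _, ?_⟩
  let f : Fin (K + 1) ↪ Fin N × Fin (m + 1) := ⟨fun c => (i, Fin.castLE (Nat.succ_le_succ h) c),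
    fun c c' e => Fin.castLE_injective (Nat.succ_le_succ h) (congrArg Prod.snd e)⟩
  have := zero_set M (Finset.univ.map f)
  rw [Finset.card_map, Finset.card_univ, Fintype.card_fin, Fintype.card_prod, Fintype.card_fin,
    Fintype.card_fin] at this
  rw [← this]
  congr 2
  ext x
  simp only [mem_ofPred_eq, Finset.mem_map, Finset.mem_univ, true_and]
  constructor
  · rintro H _ ⟨c, rfl⟩
    exact H _ (Nat.lt_succ_iff.1 c.2)
  · intro H c hc
    exact H _ ⟨⟨c, Nat.lt_succ_iff.2 hc⟩, rfl⟩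

end EstA

theorem est (hJ : StmtJET) (_hP : StmtPROD) (hC : StmtCNT) (hF : StmtFIB) (hR : StmtPAR) :
    StmtEST := by
  intro M N J _ g D n K hD hnK
  classical
  obtain ⟨m, hKm, hB⟩ : ∃ m, K ≤ m ∧ ∀ r, ∀ ν ∈ FF (D.s r).S (D.s r).a n K, (D.s r).Big m ν := by
    refine ⟨K + 2 * ∑ r, ∑ l ∈ (D.s r).S, (D.s r).k l * K, by omega, fun r ν hν => ?_⟩
    have h1 := (mem_FF.1 hν).1.1
    have h2 : (D.s r).ee ν ≤ ∑ l ∈ (D.s r).S, (D.s r).k l * K :=
      Finset.sum_le_sum fun l hl => Nat.mul_le_mul_left _ (h1 l hl).2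
    have h3 : ∑ l ∈ (D.s r).S, (D.s r).k l * K ≤ ∑ r, ∑ l ∈ (D.s r).S, (D.s r).k l * K :=
      Finset.single_le_sum (f := fun r => ∑ l ∈ (D.s r).S, (D.s r).k l * K)
        (fun _ _ => Nat.zero_le _) (Finset.mem_univ r)
    exact ⟨by omega, fun l hl => by have := (h1 l hl).2; omega⟩
  let A : Finset (Σ _ : D.R, Fin N → ℕ) :=
    Finset.univ.sigma fun r => FF (D.s r).S (D.s r).a n K
  have mA : ∀ p ∈ A, p.2 ∈ FF (D.s p.1).S (D.s p.1).a n K := fun p hp => (Finset.mem_sigma.1 hp).2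
  have fA : ∀ p ∈ A, _ := fun p hp => hF M N J g (D.s p.1) m p.2 (hD.2 _) (D.ua _) (hB _ _ (mA p hp))
  have cT := hJ.cont M.E N J g n m hD.1 (hnK.trans hKm)
  have cU : ConE M.E (⋃ p ∈ A, (D.s p.1).Im m p.2) := conE_biUnion A fun p hp => (fA p hp).1
  have sU : (⋃ p ∈ A, (D.s p.1).Im m p.2) ⊆ tr m '' Cont g n :=
    iUnion₂_subset fun p hp => hR.sub N J g _ m n _ (mem_FF.1 (mA p hp)).2
  have e1 := M.split cT cU
  rw [inter_eq_right.2 sU, M.biUnion A (fun p hp => (fA p hp).1) (fun p hp q hq ne => ?_),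
    hJ.stab M N J g n m hD.1 (hnK.trans hKm)] at e1
  swap
  · refine Set.disjoint_left.2 fun x hx hx' => ne ?_
    have hp' := mA p hp
    have hq' := mA q hq
    obtain ⟨r, ν⟩ := p
    obtain ⟨r', ν'⟩ := q
    dsimp only at hp' hq' hx hx'
    obtain ⟨rfl, e⟩ := hR.disj N J g D m r r' ν ν' x (hB r ν hp') hx hx'
    congr 1
    funext l
    by_cases hl : l ∈ (D.s r).S
    · exact e l hl
    · rw [(mem_FF.1 hp').1.2 l hl, (mem_FF.1 hq').1.2 l hl]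
  have e2 : ∑ p ∈ A, M.μ ((D.s p.1).Im m p.2) =
      (∑ r, M.μ (D.s r).P * (M.L - 1) ^ (D.s r).S.card * ∑ ν ∈ FF (D.s r).S (D.s r).a n K,
        (M.L ^ ∑ l ∈ (D.s r).S, ((D.s r).k l + 1) * ν l)⁻¹) * M.L ^ (N * m) := by
    rw [Finset.sum_sigma, Finset.sum_mul]
    refine Finset.sum_congr rfl fun r _ => ?_
    rw [Finset.mul_sum, Finset.sum_mul]
    refine Finset.sum_congr rfl fun ν hν => ?_
    have h1 := (mem_FF.1 hν).1.1
    have h2 := hC M N J g (D.s r) m ν (hD.2 r) fun l hl => ⟨(h1 l hl).1, (h1 l hl).2.trans hKm⟩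
    rw [(hF M N J g (D.s r) m ν (hD.2 _) (D.ua _) (hB _ _ hν)).2] at h2
    have h3 : ∑ l ∈ (D.s r).S, ((D.s r).k l + 1) * ν l
        = (D.s r).ee ν + ∑ l ∈ (D.s r).S, ν l := by
      simp only [Str.ee, add_mul, one_mul, Finset.sum_add_distrib]
    rw [h3, pow_add, mul_right_comm, ← h2]
    have := pow_ne_zero ((D.s r).ee ν) M.ne
    have := pow_ne_zero (∑ l ∈ (D.s r).S, ν l) M.ne
    field_simp
  rw [e2] at e1
  have cW := fun i : Fin N => EstA.small M hKm i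
  have e3 : M.μ (tr m '' Cont g n \ ⋃ p ∈ A, (D.s p.1).Im m p.2) * M.L ^ (K + 1)
      ≤ M.L ^ N * M.L ^ (N * (m + 1)) := by
    have s3 : (tr m '' Cont g n \ ⋃ p ∈ A, (D.s p.1).Im m p.2) ⊆ ⋃ i ∈ (Finset.univ : Finset (Fin N)),
        {x : Fin N × Fin (m + 1) → ℂ | ∀ c : Fin (m + 1), (c : ℕ) ≤ K → x (i, c) = 0} := by
      intro x hx
      rcases hR.cov N J g D m n K hnK hKm x hx.1 with ⟨r, ν, hν, h⟩ | ⟨i, h⟩
      · exact absurd (mem_iUnion₂.2 ⟨⟨r, ν⟩, Finset.mem_sigma.2 ⟨Finset.mem_univ _, hν⟩, h⟩) hx.2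
      · exact mem_iUnion₂.2 ⟨i, Finset.mem_univ _, h⟩
    have h1 := (M.mono (cT.diff cU) (conE_biUnion _ fun i _ => (cW i).1) s3).trans
      (M.biUnion_le _ fun i _ => (cW i).1)
    refine (mul_le_mul_of_nonneg_right h1 (pow_pos M.pos _).le).trans ?_
    rw [Finset.sum_mul, Finset.sum_congr rfl fun i _ => (cW i).2, Finset.sum_const,
      Finset.card_univ, Fintype.card_fin, nsmul_eq_mul]
    exact mul_le_mul_of_nonneg_right (M.nat_le N) (pow_pos M.pos _).le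
  have e0 := M.nonneg (tr m '' Cont g n \ ⋃ p ∈ A, (D.s p.1).Im m p.2)
  generalize M.μ (tr m '' Cont g n \ ⋃ p ∈ A, (D.s p.1).Im m p.2) = w at e1 e3 e0
  generalize (∑ r, M.μ (D.s r).P * (M.L - 1) ^ (D.s r).S.card *
    ∑ ν ∈ FF (D.s r).S (D.s r).a n K,
      (M.L ^ ∑ l ∈ (D.s r).S, ((D.s r).k l + 1) * ν l)⁻¹) = s at e1 ⊢
  have p1 := pow_pos M.pos (N * m)
  have p2 := pow_pos M.pos K
  have e4 : M.mes g n - s = w / M.L ^ (N * m) := by
    rw [eq_div_iff p1.ne', sub_mul, e1, add_sub_cancel_left]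
  rw [e4, abs_of_nonneg (div_nonneg e0 p1.le), div_le_div_iff₀ p1 p2]
  calc w * M.L ^ K ≤ w * M.L ^ (K + 1) :=
        mul_le_mul_of_nonneg_left (pow_le_pow_right₀ M.one_lt.le K.le_succ) e0
    _ ≤ M.L ^ N * M.L ^ (N * (m + 1)) := e3
    _ = M.L ^ (2 * N) * M.L ^ (N * m) := by ring

end Pool.Agent.MP_ee8c61_ag.H95
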