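import Pool.Agent.MP_ee8c61_ag.H95.Kit

/-! The Euler characteristic on arbitrary finite index types. -/

namespace Pool.Agent.MP_ee8c61_ag.H95

open Set MvPolynomial
open Pool.Agent.MP_4f1c5b_al.H95 (IsEuler ConE)

namespace EulA

open Classical in
/-- The transport to arbitrary finite index types. -/
noncomputable def chi (χ : ∀ n : ℕ, Set (Fin n → ℂ) → ℤ) : H36.Chi := fun ι S =>
  if _h : Finite ι then χ (Nat.card ι) {x | x ∘ (Finite.equivFin ι) ∈ S} else 0

variable {χ : ∀ n : ℕ, Set (Fin n → ℂ) → ℤ}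

theorem eps (h : IsEuler χ) (M : MM) (ι : Type) [i : Finite ι] (S : Set (ι → ℂ))
    (hS : ConE M.E S) : M.ε ⟨M.μ S, M.mem S⟩ = chi χ ι S := by
  let e := Finite.equivFin ι
  rw [chi, dif_pos i, ← M.chi χ h _ _ (hS.comp e)]
  exact congrArg M.ε (Subtype.ext (M.bij e (hS.comp e) hS ⟨fun _ hx => hx,
    fun _ _ _ _ k => e.surjective.injective_comp_right k, fun y hy =>
      ⟨y ∘ e.symm, by simpa [Function.comp_assoc] using hy, by simp [Function.comp_assoc]⟩⟩).symm)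

theorem eq_of {ι κ : Type} [Finite ι] [Finite κ] (h : IsEuler χ) (M : MM) {S : Set (ι → ℂ)}
    {T : Set (κ → ℂ)} (hS : ConE M.E S) (hT : ConE M.E T) (e : M.μ S = M.μ T) :
    chi χ ι S = chi χ κ T := by
  refine Int.cast_injective (α := ℂ) ?_
  rw [← eps h M ι S hS, ← eps h M κ T hT]
  exact congrArg M.ε (Subtype.ext e)

/-- The property holds for all fields that contain some finite set. -/
def Fi (P : Subfield ℂ → Prop) : Prop := ∃ A : Set ℂ, A.Finite ∧ ∀ E : Subfield ℂ, A ⊆ E → P E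

theorem Fi.and {P Q : Subfield ℂ → Prop} (h : Fi P) (h' : Fi Q) : Fi fun E => P E ∧ Q E := by
  obtain ⟨A, a, b⟩ := h
  obtain ⟨B, c, d⟩ := h'
  exact ⟨A ∪ B, a.union c, fun E hE =>
    ⟨b E (subset_union_left.trans hE), d E (subset_union_right.trans hE)⟩⟩

theorem Fi.all {κ : Type} [Finite κ] {P : κ → Subfield ℂ → Prop} (h : ∀ k, Fi (P k)) :
    Fi fun E => ∀ k, P k E := by
  choose A a b using h
  exact ⟨⋃ k, A k, finite_iUnion a, fun E hE k => b k E ((subset_iUnion A k).trans hE)⟩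

theorem Fi.ex {P : Subfield ℂ → Prop} (h : Fi P) (hM : StmtMM) : ∃ M : MM, P M.E := by
  obtain ⟨A, a, b⟩ := h
  exact (hM A a.countable).imp fun M => b M.E

theorem fi {ι : Type} {X : Set (ι → ℂ)} (h : H36.Con X) : Fi fun E => ConE E X :=
  (conE_iff.2 h).exists_finite

theorem euler (hM : StmtMM) (h : IsEuler χ) : H36.IsEuler (chi χ) where
  add ι _ X Y hX hY d := by
    obtain ⟨M, a, b⟩ := ((fi hX).and (fi hY)).ex hM
    refine Int.cast_injective (α := ℂ) ?_
    rw [Int.cast_add, ← eps h M ι _ a, ← eps h M ι _ b, ← eps h M ι _ (a.union b), ← map_add]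
    exact congrArg M.ε (Subtype.ext (M.add a b d))
  bij ι κ _ _ φ X hX i := by
    obtain ⟨M, a, b⟩ := ((fi hX).and (Fi.all fun k => polyE_finite (φ k))).ex hM
    have hG : ConE M.E {x : ι ⊕ κ → ℂ | x ∘ Sum.inl ∈ X ∧
        ∀ k, x (Sum.inr k) = eval (x ∘ Sum.inl) (φ k)} :=
      conE_and (a.comp _) (conE_all fun k => by
        simpa only [map_sub, eval_X, eval_rename, sub_eq_zero] using
          ((PolyE.X (Sum.inr k)).sub ((b k).rename Sum.inl)).con)
    have ext : ∀ x y : ι ⊕ κ → ℂ, (∀ k, x (Sum.inr k) = eval (x ∘ Sum.inl) (φ k)) →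
        (∀ k, y (Sum.inr k) = eval (y ∘ Sum.inl) (φ k)) → x ∘ Sum.inl = y ∘ Sum.inl → x = y :=
      fun x y hx hy e => funext fun s => s.casesOn (congrFun e) fun k => by rw [hx, hy, e]
    have b2 : BijOn (· ∘ Sum.inr) {x : ι ⊕ κ → ℂ | x ∘ Sum.inl ∈ X ∧
        ∀ k, x (Sum.inr k) = eval (x ∘ Sum.inl) (φ k)} ((fun x k => eval x (φ k)) '' X) := by
      refine ⟨fun x hx => ⟨_, hx.1, (funext hx.2).symm⟩, fun x hx y hy e => ext x y hx.2 hy.2
        (i hx.1 hy.1 ((funext hx.2).symm.trans (e.trans (funext hy.2)))), ?_⟩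
      rintro _ ⟨x, hx, rfl⟩
      exact ⟨Sum.elim x fun k => eval x (φ k), ⟨hx, fun _ => rfl⟩, rfl⟩
    have hI : ConE M.E ((fun x k => eval x (φ k)) '' X) := b2.image_eq ▸ M.proj Sum.inr hG
    exact eq_of h M hI a ((M.bij _ hG hI b2).symm.trans (M.bij Sum.inl hG a ⟨fun x hx => hx.1,
      fun x hx y hy e => ext x y hx.2 hy.2 e,
      fun x hx => ⟨Sum.elim x fun k => eval x (φ k), ⟨hx, fun _ => rfl⟩, rfl⟩⟩))
  line ι _ X hX := by
    obtain ⟨M, a⟩ := (fi hX).ex hM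
    have hS : ConE M.E {y : Option ι → ℂ | (fun i => y (some i)) ∈ X} := a.comp some
    have e := M.fib some 1 hS a (fun _ hx => hx) fun y hy => ⟨fun _ => none, mapsTo_univ _ _,
      fun x hx x' hx' k => funext fun o => o.casesOn (congrFun k 0) (congrFun (hx.2.trans hx'.2.symm)),
      fun w _ => ⟨fun o => o.elim (w 0) y, ⟨hy, rfl⟩, funext fun j => by
        rw [Subsingleton.elim j 0]
        rfl⟩⟩
    refine Int.cast_injective (α := ℂ) ?_
    rw [← eps h M _ _ hS, ← eps h M ι _ a, ← one_mul (M.ε ⟨M.μ X, _⟩), ← M.εL, ← map_mul]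
    exact congrArg M.ε (Subtype.ext (e.trans (by rw [pow_one]; rfl)))

end EulA

theorem eul (hM : StmtMM) : StmtEUL := fun χ h =>
  ⟨EulA.chi χ, EulA.euler hM h, fun n S hS => by
    obtain ⟨M, a⟩ := (EulA.fi (conE_iff.1 hS)).ex hM
    exact Int.cast_injective (α := ℂ) ((EulA.eps h M _ S a).symm.trans (M.chi χ h n S a)),
    fun M ι _ S => EulA.eps h M ι S⟩

end Pool.Agent.MP_ee8c61_ag.H95
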