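import Pool.Agent.MP_ee8c61_ag.H95.Kit

/-! Existence of unimodular fans: repeated subdivision at the sum of two rays. -/

set_option autoImplicit false

namespace Pool.Agent.MP_ee8c61_ag.H95

open Finset Matrix H36

namespace FanA

variable {N : ℕ} {G C : Cone N → Prop} {X : (Fin N → ℕ) → Prop}

/-- Lattice points of the open cone. -/
def In (p : Cone N) (w : Fin N → ℕ) : Prop :=
  ∃ t : Fin N → ℕ, (∀ l, 0 < t l ↔ l ∈ p.2) ∧ w = vecMul t p.1

/-- `X` has a partition into cones with the property `G`. -/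
def Par (G : Cone N → Prop) (X : (Fin N → ℕ) → Prop) : Prop :=
  ∃ Ψ : Finset (Cone N), (∀ q ∈ Ψ, G q ∧ ∀ w, In q w → X w) ∧ ∀ w, X w → ∃! q, q ∈ Ψ ∧ In q w

def Uni (p : Cone N) : Prop := IsUnit (p.1.map (Nat.cast : ℕ → ℤ)).det

/-- The row `i` is replaced by the sum of the rows `i` and `j`. -/
def mv (M : Matrix (Fin N) (Fin N) ℕ) (i j : Fin N) : Matrix (Fin N) (Fin N) ℕ :=
  M.updateRow i (M i + M j)

/-- Properties of unimodular cones that are kept by subdivision. -/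
def Cl (C : Cone N → Prop) : Prop :=
  ∀ p, C p → Uni p ∧ ∀ i ∈ p.2, ∀ j ∈ p.2, i ≠ j → ∀ S ⊆ p.2, C (mv p.1 i j, S)

def Sgn (lam : (Fin N → ℕ) → ℤ) (p : Cone N) : Prop :=
  (∀ l ∈ p.2, 0 ≤ lam (p.1 l)) ∨ ∀ l ∈ p.2, lam (p.1 l) ≤ 0

theorem Par.union {ι : Type} [Fintype ι] {Y : ι → (Fin N → ℕ) → Prop} (h : ∀ i, Par G (Y i))
    (hX : ∀ w, X w ↔ ∃ i, Y i w) (hu : ∀ w i j, Y i w → Y j w → i = j) : Par G X := by
  classical
  choose Ψ h1 h2 using h
  refine ⟨univ.biUnion Ψ, fun q hq => ?_, fun w hw => ?_⟩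
  · obtain ⟨i, -, hi⟩ := mem_biUnion.1 hq
    exact ⟨(h1 i q hi).1, fun w hw => (hX w).2 ⟨i, (h1 i q hi).2 w hw⟩⟩
  · obtain ⟨i, hi⟩ := (hX w).1 hw
    obtain ⟨q, a, b⟩ := h2 i w hi
    refine ⟨q, ⟨mem_biUnion.2 ⟨i, mem_univ _, a.1⟩, a.2⟩, fun q' hq => ?_⟩
    obtain ⟨j, -, hj⟩ := mem_biUnion.1 hq.1
    obtain rfl := hu w i j hi ((h1 j q' hj).2 w hq.2)
    exact b q' ⟨hj, hq.2⟩

theorem Uni.inj {p : Cone N} (h : Uni p) {t t' : Fin N → ℕ} (e : vecMul t p.1 = vecMul t' p.1) :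
    t = t' := by
  have := vecMul_injective_of_isUnit ((isUnit_iff_isUnit_det _).2 h)
    (a₁ := (Nat.castRingHom ℤ) ∘ t) (a₂ := (Nat.castRingHom ℤ) ∘ t') (funext fun i =>
      ((Nat.castRingHom ℤ).map_vecMul p.1 t i).symm.trans
        (e ▸ (Nat.castRingHom ℤ).map_vecMul p.1 t' i))
  exact funext fun i => Nat.cast_injective (R := ℤ) (congrFun this i)

theorem cl_uni : Cl (N := N) Uni := fun p h => ⟨h, fun i _ j _ e _ _ => by
  have := det_updateRow_add_self (p.1.map (Nat.cast : ℕ → ℤ)) e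
  rw [Uni, ← this] at h
  rw [Uni, mv, map_updateRow]
  convert h using 3
  ext c
  simp⟩

theorem mv_row (M : Matrix (Fin N) (Fin N) ℕ) (i j l : Fin N) :
    mv M i j l = if l = i then M i + M j else M l := by
  split_ifs with h
  · rw [h, mv, updateRow_self]
  · rw [mv, updateRow_ne h]

theorem Cl.sgn (h : Cl C) {lam : (Fin N → ℕ) → ℤ} (ha : ∀ u v, lam (u + v) = lam u + lam v) :
    Cl fun p => C p ∧ Sgn lam p := fun p hp => ⟨(h p hp.1).1, fun i hi j hj e S hS =>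
  ⟨(h p hp.1).2 i hi j hj e S hS, hp.2.imp
    (fun k l hl => by
      simp only [mv_row]
      split_ifs
      exacts [ha _ _ ▸ add_nonneg (k i hi) (k j hj), k l (hS hl)])
    fun k l hl => by
      simp only [mv_row]
      split_ifs
      exacts [ha _ _ ▸ add_nonpos (k i hi) (k j hj), k l (hS hl)]⟩⟩

theorem vec_mv (M : Matrix (Fin N) (Fin N) ℕ) (i j : Fin N) (s : Fin N → ℕ) :
    vecMul s (mv M i j) = vecMul (s + Pi.single j (s i)) M := by
  have : mv M i j = M + of (Pi.single i (M j)) := by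
    ext l c
    rw [mv_row]
    split_ifs with h <;> simp [h]
  rw [this, vecMul_add, add_vecMul, single_vecMul]
  ext c
  simp [vecMul, dotProduct, Pi.single_apply, ite_apply]

theorem piece {M : Matrix (Fin N) (Fin N) ℕ} {S S' : Finset (Fin N)} {i j : Fin N} (e : i ≠ j)
    (hi : i ∈ S) (hj : j ∈ S) (hS : ∀ l, l ≠ j → (l ∈ S' ↔ l ∈ S)) (w : Fin N → ℕ) :
    In (mv M i j, S') w ↔ ∃ t : Fin N → ℕ, ((∀ l, 0 < t l ↔ l ∈ S) ∧ w = vecMul t M) ∧
      t i ≤ t j ∧ (t i < t j ↔ j ∈ S') := by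
  simp only [In, vec_mv]
  constructor
  · rintro ⟨s, h, rfl⟩
    refine ⟨_, ⟨fun l => ?_, rfl⟩, by simp [e], by simp [e, h]⟩
    by_cases k : l = j
    · simp [k, hj, h i, hS i e, hi]
    · simp [k, h, hS l k]
  · rintro ⟨t, ⟨h, rfl⟩, a, b⟩
    refine ⟨t - Pi.single j (t i), fun l => ?_, congrArg (vecMul · M) (funext fun l => ?_)⟩
    · by_cases k : l = j
      · simp [k, b]
      · simp [k, h, hS l k]
    · by_cases k : l = j
      · simp [k, e, a]
      · simp [k]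

theorem split {p : Cone N} (h : Uni p) {i j : Fin N} (e : i ≠ j) (hi : i ∈ p.2) (hj : j ∈ p.2)
    (h1 : Par G (In (mv p.1 i j, p.2))) (h2 : Par G (In (mv p.1 i j, p.2.erase j)))
    (h3 : Par G (In (mv p.1 j i, p.2))) : Par G (In p) := by
  refine Par.union (Y := fun o w => ∃ t : Fin N → ℕ,
    ((∀ l, 0 < t l ↔ l ∈ p.2) ∧ w = vecMul t p.1) ∧ compare (t i) (t j) = o) (fun o => ?_)
    (fun w => ⟨fun ⟨t, a⟩ => ⟨_, t, a, rfl⟩, fun ⟨_, t, a, _⟩ => ⟨t, a⟩⟩) ?_
  · cases o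
    · convert h1 using 2
      simp [piece e hi hj fun _ _ => Iff.rfl, hj, compare_lt_iff_lt, and_iff_right_of_imp le_of_lt]
    · convert h2 using 2
      simp [piece e hi hj (S' := p.2.erase j) fun l k => by simp [k], ← le_antisymm_iff]
    · convert h3 using 2
      simp [piece e.symm hj hi fun _ _ => Iff.rfl, hi, compare_gt_iff_gt,
        and_iff_right_of_imp le_of_lt]
  · rintro w _ _ ⟨t, a, rfl⟩ ⟨t', b, rfl⟩
    rw [h.inj (a.2.symm.trans b.2)]

theorem sgn (hC : Cl C) {lam : (Fin N → ℕ) → ℤ} (ha : ∀ u v, lam (u + v) = lam u + lam v)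
    (h : ∀ q, C q → Sgn lam q → Par G (In q)) (p : Cone N) (hp : C p) : Par G (In p) := by
  suffices ∀ n a b : ℕ, a + b = n → ∀ k : ℕ, ∀ p, C p →
      (∀ l ∈ p.2, -(b : ℤ) ≤ lam (p.1 l) ∧ lam (p.1 l) ≤ a) →
      #{l ∈ p.2 | lam (p.1 l) = a ∨ lam (p.1 l) = -b} = k → Par G (In p) by
    refine this _ (univ.sup fun l => (lam (p.1 l)).natAbs) (univ.sup fun l => (lam (p.1 l)).natAbs)
      rfl _ p hp (fun l _ => ?_) rfl
    have := le_sup (f := fun l => (lam (p.1 l)).natAbs) (mem_univ l)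
    omega
  intro n
  induction n using Nat.strong_induction_on with | _ n ih => ?_
  rintro a b rfl k
  induction k using Nat.strong_induction_on with | _ k ik => ?_
  rintro p hp hb rfl
  rcases a with _ | a
  · exact h p hp (Or.inr fun l hl => (hb l hl).2)
  rcases b with _ | b
  · exact h p hp (Or.inl fun l hl => (hb l hl).1)
  by_cases h1 : ∀ l ∈ p.2, lam (p.1 l) ≠ (a + 1 : ℕ)
  · exact ih _ (by omega) a (b + 1) rfl _ p hp
      (fun l hl => by have := hb l hl; have := h1 l hl; omega) rfl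
  by_cases h2 : ∀ l ∈ p.2, lam (p.1 l) ≠ -(b + 1 : ℕ)
  · exact ih _ (by omega) (a + 1) b rfl _ p hp
      (fun l hl => by have := hb l hl; have := h2 l hl; omega) rfl
  push Not at h1 h2
  obtain ⟨i, hi, ei⟩ := h1
  obtain ⟨j, hj, ej⟩ := h2
  have key : ∀ i ∈ p.2, ∀ j ∈ p.2, i ≠ j → lam (p.1 i) + lam (p.1 j) = a - b →
      lam (p.1 i) = (a + 1 : ℕ) ∨ lam (p.1 i) = -(b + 1 : ℕ) → ∀ S ⊆ p.2,
      Par G (In (mv p.1 i j, S)) := fun i hi j hj e e1 e2 S hS => by
    refine ik _ (card_lt_card ⟨fun l hl => ?_, fun k => ?_⟩) _ ((hC p hp).2 i hi j hj e S hS)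
      (fun l hl => ?_) rfl
    · simp only [mem_filter, mv_row] at hl ⊢
      split_ifs at hl
      · rw [ha] at hl
        omega
      · exact ⟨hS hl.1, hl.2⟩
    · have := (mem_filter.1 (k (mem_filter.2 ⟨hi, e2⟩))).2
      simp only [mv_row, if_true, ha] at this
      omega
    · simp only [mv_row]
      split_ifs
      · rw [ha]
        omega
      · exact hb l (hS hl)
  have e : i ≠ j := fun e => by rw [e] at ei; omega
  exact split (hC p hp).1 e hi hj (key i hi j hj e (by omega) (Or.inl ei) _ Subset.rfl)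
    (key i hi j hj e (by omega) (Or.inl ei) _ (erase_subset _ _))
    (key j hj i hi e.symm (by omega) (Or.inr ej) _ Subset.rfl)

theorem sgns {ι : Type} (lam : ι → (Fin N → ℕ) → ℤ)
    (ha : ∀ x u v, lam x (u + v) = lam x u + lam x v) (F : Finset ι) (hC : Cl C)
    (h : ∀ q, C q → (∀ x ∈ F, Sgn (lam x) q) → Par G (In q)) (p : Cone N) (hp : C p) :
    Par G (In p) := by
  classical
  induction F using Finset.induction_on generalizing C p with
  | empty => exact h p hp (by simp)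
  | insert x F _ ih =>
    exact sgn hC (ha x) (fun q a b => ih (hC.sgn (ha x))
      (fun q c d => h q c.1 (forall_mem_insert _ _ _ |>.2 ⟨c.2, d⟩)) q ⟨a, b⟩) p hp

end FanA

open FanA in
theorem fan : StmtFAN := by
  intro N g hg
  have ne := MvPolynomial.support_nonempty.2 hg
  obtain ⟨Φ, h1, h2⟩ : Par (fun p : Cone N => Uni p ∧
      ∃ a ∈ g.support, ∀ l ∈ p.2, ∑ i, p.1 l i * a i = ord g (p.1 l)) fun _ => True := by
    refine Par.union (Y := fun S => In (1, S)) (fun S => sgns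
      (fun (x : (Fin N →₀ ℕ) × (Fin N →₀ ℕ)) w => (∑ i, w i * x.1 i : ℕ) - (∑ i, w i * x.2 i : ℕ))
      (fun x u v => ?_) (g.support ×ˢ g.support) cl_uni (fun q a b => ⟨{q}, fun q' hq => ?_,
        fun w hw => ⟨q, ⟨mem_singleton_self q, hw⟩, fun _ c => mem_singleton.1 c.1⟩⟩) _ ?_)
      (fun w => iff_of_true trivial ⟨univ.filter (0 < w ·), w, by simp, by simp⟩) ?_
    · simp only [Pi.add_apply, add_mul, sum_add_distrib]
      omega
    · obtain rfl := mem_singleton.1 hq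
      obtain ⟨x, hx, hm⟩ := exists_min_image g.support (fun x => ∑ l ∈ q'.2, ∑ i, q'.1 l i * x i) ne
      refine ⟨⟨a, x, hx, fun l hl => le_antisymm ?_
        (ciInf_le (OrderBot.bddBelow _) (⟨x, hx⟩ : g.support))⟩, fun _ => id⟩
      have := ne.to_subtype
      refine le_ciInf fun y => ?_
      rcases b (x, y) (mem_product.2 ⟨hx, y.2⟩) with c | c
      · refine not_lt.1 fun k => (hm y y.2).not_gt (sum_lt_sum (fun l hl => ?_) ⟨l, hl, k⟩)
        have := c l hl
        dsimp only at this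
        omega
      · have := c l hl
        dsimp only at this
        omega
    · simp [Uni]
    · rintro w S S' ⟨t, a, b⟩ ⟨t', a', b'⟩
      rw [vecMul_one] at b b'
      exact Finset.ext fun l => (a l).symm.trans (b.symm.trans b' ▸ a' l)
  exact ⟨Φ, fun p hp => (h1 p hp).1, fun w => h2 w trivial⟩

end Pool.Agent.MP_ee8c61_ag.H95
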