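import Pool.Agent.MP_ee8c61_ag.H95.Kit

/-! The change of variables formula for jets. -/

namespace Pool.Agent.MP_ee8c61_ag.H95

open Set
open Pool.Agent.MP_4f1c5b_al.H95 (ConE)

namespace FibA

theorem tr_sub {ι : Type} (m : ℕ) (b b' : ι → PS) : tr m b - tr m b' = tr m (b - b') :=
  funext fun p => by simp [tr]

theorem cancel {d w : PS} {e m : ℕ} (hd : d.order = e) (he : e ≤ m + 1)
    (h : tt ^ (m + 1) ∣ d * w) : tt ^ (m + 1 - e) ∣ w := by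
  obtain ⟨⟨u, rfl⟩, h2⟩ := order_eq_iff.1 hd
  have hu : IsUnit u := by
    rw [PowerSeries.isUnit_iff_constantCoeff, isUnit_iff_ne_zero]
    intro h0
    exact h2 (by rw [pow_succ]; exact mul_dvd_mul_left _ (PowerSeries.X_dvd_iff.2 h0))
  rw [← Nat.add_sub_cancel' he, pow_add, mul_assoc,
    mul_dvd_mul_iff_left (pow_ne_zero _ PowerSeries.X_ne_zero)] at h
  exact hu.dvd_mul_left.1 h

theorem ker_dvd {N : ℕ} {A : Matrix (Fin N) (Fin N) PS} {w : Fin N → PS} {e m : ℕ}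
    (hd : A.det.order = e) (he : e ≤ m + 1) (h : ∀ i, tt ^ (m + 1) ∣ ∑ l, A i l * w l)
    (l : Fin N) : tt ^ (m + 1 - e) ∣ w l := by
  refine cancel hd he ?_
  have h1 : A.adjugate.mulVec (A.mulVec w) l = A.det * w l := by
    rw [Matrix.mulVec_mulVec, Matrix.adjugate_mul, Matrix.smul_mulVec, Matrix.one_mulVec]
    rfl
  rw [← h1, Matrix.mulVec, dotProduct]
  exact Finset.dvd_sum fun i _ => (h i).mul_left _

theorem base_eq {N : ℕ} (C : Chart N) {γ γ' : C.A →ₐ[ℂ] PS} {c : ℕ} (hc : c ≠ 0)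
    (h : ∀ x, tt ^ c ∣ γ' x - γ x) : C.base γ' = C.base γ := funext fun k => by
  have h1 := PowerSeries.X_dvd_iff.1 ((dvd_pow_self tt hc).trans (h (C.y k)))
  rw [map_sub, sub_eq_zero] at h1
  exact h1

variable {N : ℕ} {J : Type} {g : J → Pol (Fin N)} {s : Str N g} {m : ℕ} {ν : Fin N → ℕ}

theorem close (hN : StmtNEAR) (hU : s.UA) (hB : s.Big m ν) {γ γ' : s.A →ₐ[ℂ] PS}
    (hγ : γ ∈ s.Del ν) (hγ' : γ' ∈ s.Del ν) (e : tr m (γ' ∘ s.f) = tr m (γ ∘ s.f)) (x : s.A) :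
    tt ^ (m + 1 - s.ee ν) ∣ γ' x - γ x := by
  obtain ⟨-, γ'', h1, h2, h3⟩ := hN N J g s m ν γ (γ' ∘ s.f) hB hγ e.symm
  rw [← hU γ'' γ' (Str.Del.fin' s h1) (Str.Del.fin' s hγ') h3]
  exact h2 x

theorem lin (hA : StmtARC) (hB : s.Big m ν) {γ γ' : s.A →ₐ[ℂ] PS}
    (h : ∀ x, tt ^ (m + 1 - s.ee ν) ∣ γ' x - γ x) (i : Fin N) :
    tt ^ (m + 1) ∣ γ' (s.f i) - γ (s.f i) -
      ∑ l, (s.Jm.map γ) i l * (γ' (s.z l) - γ (s.z l)) :=
  (pow_dvd_pow tt (by have := hB.1; omega)).trans (hA.taylor N s.toChart γ γ' _ h (s.f i))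

theorem bij (hA : StmtARC) (hN : StmtNEAR) (hU : s.UA) (hB : s.Big m ν) {γ : s.A →ₐ[ℂ] PS}
    (hγ : γ ∈ s.Del ν) (hd : (s.Jm.map γ).det.order = s.ee ν) :
    BijOn (fun x : s.κ × Fin (m + 1) → ℂ => x ∘ Prod.map s.zc id - tr m (γ ∘ s.z))
      {x ∈ s.JD m ν | x ∘ Prod.map s.fc id = tr m (γ ∘ s.f)}
      {x | ∀ i, tt ^ (m + 1) ∣ ∑ l, (s.Jm.map γ) i l * ser x l} := by
  have hc : m + 1 - s.ee ν ≠ 0 := by have := hB.1; omega
  refine ⟨?_, ?_, ?_⟩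
  · rintro _ ⟨⟨γ', hγ', rfl⟩, e⟩ i
    have e' : tr m (γ' ∘ s.f) = tr m (γ ∘ s.f) := e
    have h1 := (tr_eq_iff.1 e' i).sub (lin hA hB (close hN hU hB hγ hγ' e') i)
    have h2 : tt ^ (m + 1) ∣ ∑ l, (s.Jm.map γ) i l *
        (ser (tr m (γ' ∘ s.z - γ ∘ s.z)) l - (γ' (s.z l) - γ (s.z l))) :=
      Finset.dvd_sum fun l _ => (ser_tr (γ' ∘ s.z - γ ∘ s.z) l).mul_left _
    have h3 : (tr m (γ' ∘ s.y) ∘ Prod.map s.zc id - tr m (γ ∘ s.z)) =
        tr m (γ' ∘ s.z - γ ∘ s.z) := tr_sub m (γ' ∘ s.z) (γ ∘ s.z)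
    simp only [h3]
    have h4 := h1.add h2
    simp only [mul_sub (s.Jm.map γ i _) (ser _ _), Finset.sum_sub_distrib, Function.comp_apply,
      sub_sub_cancel, add_sub_cancel] at h4
    exact h4
  · rintro _ ⟨⟨γ₁, h₁, rfl⟩, e₁⟩ _ ⟨⟨γ₂, h₂, rfl⟩, e₂⟩ e
    have e' : tr m (γ₁ ∘ s.z) = tr m (γ₂ ∘ s.z) := sub_left_injective e
    have hb : s.base γ₂ = s.base γ₁ :=
      (base_eq s.toChart hc (close hN hU hB hγ h₂ e₂)).trans
        (base_eq s.toChart hc (close hN hU hB hγ h₁ e₁)).symm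
    exact tr_eq_iff.2 fun k => hA.congr N s.toChart γ₂ γ₁ _ hb (tr_eq_iff.1 e') _
  · intro x hx
    have hw := ker_dvd hd (by have := hB.1; omega) hx
    obtain ⟨γ', hp, hz⟩ := hA.lift N s.toChart (s.pt γ) (fun l => γ (s.z l) + ser x l) fun l => by
      rw [map_add, PowerSeries.X_dvd_iff.1 ((dvd_pow_self tt hc).trans (hw l)), add_zero]
      rfl
    have hb : s.base γ = s.base γ' := by rw [← Chart.pt_y, ← Chart.pt_y, hp]
    have hz' : ∀ l, γ' (s.z l) - γ (s.z l) = ser x l := fun l => by rw [hz, add_sub_cancel_left]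
    have hcl := hA.congr N s.toChart γ γ' _ hb fun l => by rw [hz']; exact hw l
    refine ⟨tr m (γ' ∘ s.y), ⟨⟨γ', ⟨hb ▸ hγ.1, fun l hl =>
      order_congr (hγ.2 l hl) (by have := hB.2 l hl; omega) (hcl _)⟩, rfl⟩, ?_⟩, ?_⟩
    · refine (tr_eq_iff (b := γ' ∘ s.f)).2 fun i => ?_
      have h1 := lin hA hB hcl i
      simp only [hz'] at h1
      simpa only [sub_add_cancel, Function.comp_apply] using h1.add (hx i)
    · refine (tr_sub m (γ' ∘ s.z) (γ ∘ s.z)).trans ?_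
      rw [show γ' ∘ s.z - γ ∘ s.z = ser x from funext hz', tr_ser]

end FibA

theorem fibr (hA : StmtARC) (hK : StmtKER) (hJ : StmtJET) (hN : StmtNEAR) : StmtFIB := by
  intro M N J g s m ν hO hU hB
  have hS : ConE M.E (s.JD m ν) :=
    hJ.del M.E N J g s m ν hO fun l hl => le_trans (Nat.le_add_right _ _) (hB.2 l hl)
  have hI : ConE M.E (s.Im m ν) := s.image_JD m ν ▸ M.proj _ hS
  refine ⟨hI, M.fib (Prod.map s.fc id) _ hS hI
    (fun x hx => s.image_JD m ν ▸ mem_image_of_mem _ hx) ?_⟩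
  rintro _ ⟨γ, hγ, rfl⟩
  have hd : (s.Jm.map γ).det.order = s.ee ν := by
    rw [← (hN N J g s m ν γ _ hB hγ rfl).1, AlgHom.map_det]
    rfl
  obtain ⟨c, hc⟩ := hK N _ _ m hd (by have := hB.1; omega)
  refine ⟨Prod.map s.zc id ∘ c, ?_⟩
  refine ((Equiv.addRight (tr m (γ ∘ s.z) ∘ c)).bijective.bijOn_univ.comp
    (hc.comp (FibA.bij hA hN hU hB hγ hd))).congr fun x _ => funext fun k => ?_
  simp

end Pool.Agent.MP_ee8c61_ag.H95
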