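import Pool.Agent.MP_ee8c61_ag.H95.Kit

/-! Point counts in a family of affine spaces. -/

namespace Pool.Agent.MP_ee8c61_ag.H95

open Set Filter
open Pool.Agent.MP_4f1c5b_al.H95 (ConE Ctx Fx uf kk pr UT fix_card)

namespace FxA

theorem card_fix {K : Type} (s : K → K) (hs : {x | s x = x}.Finite) (e : ℕ) :
    {w : Fin e → K | s ∘ w = w}.ncard = {x | s x = x}.ncard ^ e := by
  classical
  have h : {w : Fin e → K | s ∘ w = w} = ↑(Fintype.piFinset fun _ : Fin e => hs.toFinset) := by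
    ext w
    simp [funext_iff]
  rw [h, ncard_coe_finset, Fintype.card_piFinset, Finset.prod_const, Finset.card_univ,
    Fintype.card_fin, ncard_eq_toFinset_card _ hs]

theorem count {K ι κ : Type} (s : K → K) (hs : {x | s x = x}.Finite) (W : Set (ι → K))
    (V : Set (κ → K)) (b : κ → ι) (e : ℕ) (hW : (Fx s 1 W).Finite) (hV : (Fx s 1 V).Finite)
    (hm : MapsTo (· ∘ b) W V) (hi : MapsTo (s ∘ ·) W W)
    (hf : ∀ y ∈ V, ∃ c : Fin e → ι, BijOn (· ∘ c) {x ∈ W | x ∘ b = y} univ) :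
    (Fx s 1 W).ncard = {x | s x = x}.ncard ^ e * (Fx s 1 V).ncard := by
  classical
  rw [ncard_eq_toFinset_card _ hW, ncard_eq_toFinset_card _ hV,
    Finset.card_eq_sum_card_fiberwise (f := fun x => x ∘ b) (t := hV.toFinset) fun x hx => ?_,
    Finset.sum_congr rfl (g := fun _ => {x | s x = x}.ncard ^ e) fun y hy => ?_,
    Finset.sum_const, smul_eq_mul, mul_comm]
  · have hy' : y ∈ Fx s 1 V := hV.mem_toFinset.1 hy
    have hy2 : s ∘ y = y := hy'.2
    obtain ⟨c, hc⟩ := hf y hy'.1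
    rw [← card_fix s hs e, ← ncard_coe_finset]
    refine BijOn.ncard_eq (f := (· ∘ c)) ⟨fun x hx => ?_, fun x hx x' hx' h => ?_, fun w hw => ?_⟩
    · have h1 : x ∈ Fx s 1 W := hW.mem_toFinset.1 (Finset.mem_filter.1 hx).1
      have h2 : s ∘ x = x := h1.2
      exact congrArg (· ∘ c) h2
    · exact hc.injOn ⟨(hW.mem_toFinset.1 (Finset.mem_filter.1 hx).1).1, (Finset.mem_filter.1 hx).2⟩
        ⟨(hW.mem_toFinset.1 (Finset.mem_filter.1 hx').1).1, (Finset.mem_filter.1 hx').2⟩ h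
    · obtain ⟨x, hx, rfl⟩ := hc.surjOn (mem_univ w)
      refine ⟨x, Finset.mem_filter.2 ⟨hW.mem_toFinset.2 ⟨hx.1, ?_⟩, hx.2⟩, rfl⟩
      have h1 : (s ∘ x) ∘ b = y := (congrArg (s ∘ ·) hx.2).trans hy2
      exact hc.injOn ⟨hi hx.1, h1⟩ hx hw
  · have h1 : x ∈ Fx s 1 W := hW.mem_toFinset.1 hx
    have h2 : s ∘ x = x := h1.2
    exact hV.mem_toFinset.2 ⟨hm h1.1, congrArg (· ∘ b) h2⟩

end FxA

theorem fx : StmtFX := by
  intro c ι κ _ _ S B b e W V hS hm hf hW hV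
  have h1 := hW.mapsTo hV (c.u.hom_comp b S) hm
  have h2 := c.σ_inv hS.inv hW
  have h3 := hV.forall
    (P := fun i y => ∃ c : Fin e → ι, BijOn (· ∘ c) {x ∈ W i | x ∘ b = y} univ) fun y hy => by
      obtain ⟨d, hd⟩ := hf _ hy
      have h4 := hW.sep_eq (c.u.hom_comp b S) (f' := fun _ => (c.u.v κ).m y)
        (g' := fun i _ => y i) fun _ _ => rfl
      exact (h4.bijOn (c.u.v (Fin e)).rep_univ (c.u.hom_comp d _) hd).mono fun i hi => ⟨d, hi⟩
  filter_upwards [h1, h2, h3] with i h1 h2 h3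
  have h5 := fix_card i (c.e_pos i)
  rw [← h5.2]
  exact FxA.count (c.σ i) h5.1 (W i) (V i) b e (c.fx_finite i 1 _) (c.fx_finite i 1 _) h1 h2 h3

end Pool.Agent.MP_ee8c61_ag.H95
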