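import Pool.Agent.MP_ee8c61_ag.H95.Kit

/-! Sets of jets are constructible. -/

namespace Pool.Agent.MP_ee8c61_ag.H95

open Set MvPolynomial
open Pool.Agent.MP_4f1c5b_al.H95 (ConE)

namespace JetA

variable {E : Subfield ℂ} {ι : Type} {m n : ℕ}

theorem polyE_zero : PolyE E (0 : Pol ι) := fun _ => zero_mem E

theorem coefs {p : Pol ι} (hp : PolyE E p) : ∃ q : ℕ → Pol (ι × Fin (m + 1)),
    (∀ j, PolyE E (q j)) ∧ ∀ x j, PowerSeries.coeff j (ev (ser x) p) = eval x (q j) := by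
  refine hp.induction (Q := fun p => ∃ q : ℕ → Pol (ι × Fin (m + 1)),
    (∀ j, PolyE E (q j)) ∧ ∀ x j, PowerSeries.coeff j (ev (ser x) p) = eval x (q j))
    (fun c hc => ?_) ?_ ?_
  · refine ⟨fun j => if j = 0 then C c else 0, fun j => ?_, fun x j => ?_⟩
    · dsimp only
      split_ifs
      exacts [PolyE.C hc, polyE_zero]
    · rw [aeval_C, PowerSeries.algebraMap_apply, PowerSeries.coeff_C]
      dsimp only
      split_ifs <;> simp
  · rintro p p' ⟨q, h1, h2⟩ ⟨q', h1', h2'⟩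
    exact ⟨fun j => q j + q' j, fun j => (h1 j).add (h1' j), fun x j => by
      rw [map_add, map_add, map_add, h2, h2']⟩
  · rintro p k ⟨q, h1, h2⟩
    refine ⟨fun j => ∑ a ∈ Finset.HasAntidiagonal.antidiagonal j,
      q a.1 * if h : a.2 < m + 1 then X (k, ⟨a.2, h⟩) else 0,
      fun j => PolyE.sum _ fun a _ => (h1 _).mul ?_, fun x j => ?_⟩
    · split_ifs
      exacts [PolyE.X _, polyE_zero]
    · rw [map_mul, aeval_X, PowerSeries.coeff_mul, map_sum]
      refine Finset.sum_congr rfl fun a _ => ?_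
      rw [map_mul, h2, ser, PowerSeries.coeff_mk]
      split_ifs <;> simp

theorem poly (c : ℕ) {p : Pol ι} (hp : PolyE E p) :
    ConE E {x : ι × Fin (m + 1) → ℂ | tt ^ c ∣ ev (ser x) p} := by
  obtain ⟨q, h1, h2⟩ := coefs (m := m) hp
  simpa only [PowerSeries.X_pow_dvd_iff, h2, Finset.mem_range] using
    conE_ball (Finset.range c) fun j _ => (h1 j).con

theorem dvd_congr {b b' : ι → PS} (h : ∀ k, tt ^ (m + 1) ∣ b k - b' k) {c : ℕ} (hc : c ≤ m + 1)
    (p : Pol ι) : tt ^ c ∣ ev b p ↔ tt ^ c ∣ ev b' p :=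
  dvd_iff_dvd_of_dvd_sub ((pow_dvd_pow tt hc).trans (dvd_ev h p))

variable {N : ℕ} {J : Type} {g : J → Pol (Fin N)}

theorem cont_congr {b b' : Fin N → PS} (h : ∀ k, tt ^ (m + 1) ∣ b k - b' k) (hn : n ≤ m) :
    b ∈ Cont g n ↔ b' ∈ Cont g n :=
  and_congr (forall_congr' fun _ => dvd_congr h (by omega) _)
    (exists_congr fun _ => not_congr (dvd_congr h (by omega) _))

theorem mem {x : Fin N × Fin (m + 1) → ℂ} (hn : n ≤ m) :
    x ∈ tr m '' Cont g n ↔ ser x ∈ Cont g n :=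
  ⟨by
    rintro ⟨b, hb, rfl⟩
    exact (cont_congr (ser_tr b) hn).2 hb, fun h => ⟨_, h, tr_ser x⟩⟩

theorem cont [Finite J] (hg : ∀ j, PolyE E (g j)) (hn : n ≤ m) : ConE E (tr m '' Cont g n) := by
  rw [show tr m '' Cont g n = {x | ser x ∈ Cont g n} from Set.ext fun _ => mem hn]
  exact conE_and (conE_all fun j => poly _ (hg j)) (conE_ex fun j => conE_not (poly _ (hg j)))

theorem del (h : StmtARC) (s : Str N g) (ν : Fin N → ℕ) (hs : s.Over E)
    (hν : ∀ l ∈ s.S, ν l ≤ m) : ConE E (s.JD m ν) := by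
  obtain ⟨⟨G, hG, hk⟩, hP⟩ := hs
  have e : s.JD m ν = {x | (x ∘ fun k => (k, 0)) ∈ s.P ∧
      (∀ p ∈ G, tt ^ (m + 1) ∣ ev (ser x) p) ∧ ∀ l ∈ s.S, tt ^ ν l ∣ ev (ser x) (X (s.zc l)) ∧
        ¬tt ^ (ν l + 1) ∣ ev (ser x) (X (s.zc l))} := by
    ext x
    simp only [mem_ofPred_eq, aeval_X, ← order_eq_iff]
    constructor
    · rintro ⟨γ, hγ, rfl⟩
      refine ⟨(funext fun k => tr_zero _ k : (tr m (γ ∘ s.y) ∘ fun k => (k, 0)) = s.base γ) ▸ hγ.1,
        fun p hp => (dvd_congr (ser_tr _) le_rfl p).2 ?_, fun l hl =>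
        order_congr (hγ.2 l hl) (Nat.lt_succ_of_le (hν l hl)) (ser_tr (γ ∘ s.y) _)⟩
      have h0 : ev s.y p = 0 := (hk ▸ Ideal.subset_span hp : p ∈ RingHom.ker (ev s.y))
      rw [← s.map_ev, h0, map_zero]
      exact dvd_zero _
    · rintro ⟨h1, h2, h3⟩
      obtain ⟨γ, hγ⟩ := h.jet N s.toChart m (ser x) fun p hp => by
        have h4 : Ideal.span (G : Set (Pol s.κ)) ≤
            (Ideal.span {tt ^ (m + 1)}).comap (ev (ser x)) :=
          Ideal.span_le.2 fun q hq => Ideal.mem_span_singleton.2 (h2 q hq)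
        exact Ideal.mem_span_singleton.1 (h4 (hk ▸ hp))
      have e : tr m (γ ∘ s.y) = x := (tr_eq_iff.2 hγ).trans (tr_ser x)
      refine ⟨γ, ⟨?_, fun l hl => order_congr (h3 l hl) (Nat.lt_succ_of_le (hν l hl)) (hγ _)⟩, e⟩
      rw [← e] at h1
      exact (funext fun k => tr_zero _ k : (tr m (γ ∘ s.y) ∘ fun k => (k, 0)) = s.base γ) ▸ h1
  rw [e]
  exact conE_and (hP.comp _) (conE_and (conE_ball G fun p hp => poly _ (hG p hp))
    (conE_ball s.S fun l _ => conE_and (poly _ (PolyE.X _)) (conE_not (poly _ (PolyE.X _)))))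

theorem stab (M : MM) [Finite J] (hg : ∀ j, PolyE M.E (g j)) (hn : n ≤ m) :
    M.μ (tr m '' Cont g n) = M.mes g n * M.L ^ (N * m) := by
  obtain ⟨d, rfl⟩ := Nat.exists_eq_add_of_le hn
  let b : Fin N × Fin (n + 1) → Fin N × Fin (n + d + 1) := fun p => (p.1, ⟨p.2, by omega⟩)
  have key : ∀ x, x ∈ tr (n + d) '' Cont g n ↔ x ∘ b ∈ tr n '' Cont g n := fun x => by
    have e : x ∘ b = tr n (ser x) := funext fun p => (congrFun (tr_ser x) (b p)).symm
    rw [mem hn, e, mem le_rfl, cont_congr (ser_tr _) le_rfl]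
  rw [M.fib' b (Fin N × Fin d) (cont hg hn) (cont hg le_rfl) (fun x => (key x).1) fun y hy =>
    ⟨fun p => (p.1, ⟨n + 1 + p.2, by omega⟩), mapsTo_univ _ _, fun x hx x' hx' e => ?_,
      fun w _ => ?_⟩, MM.mes, Nat.card_prod, Nat.card_fin, Nat.card_fin, mul_add, pow_add]
  · have := M.ne
    field_simp
  · funext ⟨i, c, hc⟩
    by_cases h : c < n + 1
    · exact congrFun (hx.2.trans hx'.2.symm) (i, ⟨c, h⟩)
    · obtain ⟨c, rfl⟩ := Nat.exists_eq_add_of_le (not_lt.1 h)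
      exact congrFun e (i, ⟨c, by omega⟩)
  · have e : (fun p : Fin N × Fin (n + d + 1) => if h : (p.2 : ℕ) < n + 1 then y (p.1, ⟨p.2, h⟩)
        else w (p.1, ⟨p.2 - (n + 1), by omega⟩)) ∘ b = y := funext fun p => dif_pos p.2.2
    refine ⟨_, ⟨(key _).2 (e.symm ▸ hy), e⟩, funext fun p => (dif_neg (by dsimp only; omega)).trans ?_⟩
    simp

theorem defd [Finite J] (D : Dat N g) :
    ∃ A : Set ℂ, A.Finite ∧ ∀ E : Subfield ℂ, A ⊆ E → D.Over E := by
  choose A hA hA' using fun j => polyE_finite (g j)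
  choose G hG using fun r => IsNoetherian.noetherian (RingHom.ker (ev (D.s r).y))
  choose B hB hB' using fun r (p : Pol (D.s r).κ) => polyE_finite p
  choose F hF hF' using fun r => (D.s r).con.exists_finite
  refine ⟨(⋃ j, A j) ∪ ⋃ r, (⋃ p ∈ G r, B r p) ∪ F r, (finite_iUnion hA).union
    (finite_iUnion fun r => ((G r).finite_toSet.biUnion fun p _ => hB r p).union (hF r)),
    fun E hE => ?_⟩
  simp only [union_subset_iff, iUnion_subset_iff] at hE
  exact ⟨fun j => hA' j E (hE.1 j), fun r =>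
    ⟨⟨G r, fun p hp => hB' r p E ((hE.2 r).1 p hp), hG r⟩, hF' r E (hE.2 r).2⟩⟩

end JetA

theorem jet (h : StmtARC) : StmtJET where
  poly _ _ _ c _ hp := JetA.poly c hp
  mem _ _ _ _ _ _ hn := JetA.mem hn
  cont _ _ _ _ _ _ _ hg hn := JetA.cont hg hn
  del _ _ _ _ s _ ν hs hν := JetA.del h s ν hs hν
  stab M _ _ _ _ _ _ hg hn := JetA.stab M hg hn
  defd _ _ _ _ D := JetA.defd D

end Pool.Agent.MP_ee8c61_ag.H95
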