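import Pool.Agent.MP_ee8c61_ag.H95.Kit

/-! The kernel of a matrix on jets. -/

namespace Pool.Agent.MP_ee8c61_ag.H95

open Set Module

namespace KerA

/-- A subspace of dimension `e` is parametrised by `e` of the coordinates. -/
theorem param {ι : Type} [Finite ι] (V : Submodule ℂ (ι → ℂ)) {e : ℕ} (h : finrank ℂ V = e) :
    ∃ c : Fin e → ι, BijOn (· ∘ c) (V : Set (ι → ℂ)) univ := by
  let φ : ι → Dual ℂ V := fun i => (LinearMap.proj i).comp V.subtype
  have h1 : Submodule.span ℂ (range φ) = ⊤ := Submodule.span_eq_top_of_ne_zero fun z hz => by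
    by_contra hn
    exact hz (Subtype.ext (funext fun i => not_not.1 fun hi => hn ⟨φ i, mem_range_self i, hi⟩))
  obtain ⟨κ, a, ha, h2, h3⟩ := exists_linearIndependent' ℂ φ
  have : Finite κ := Finite.of_injective a ha
  have : Fintype κ := Fintype.ofFinite κ
  have h4 : Fintype.card κ = e := by
    rw [← h, ← Subspace.dual_finrank_eq,
      finrank_eq_card_basis (Basis.mk h3 (h2.trans h1).ge)]
  let σ := (Fintype.equivFinOfCardEq h4).symm
  let L : V →ₗ[ℂ] (Fin e → ℂ) := (LinearMap.funLeft ℂ ℂ (a ∘ σ)).comp V.subtype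
  have inj : Function.Injective L := (injective_iff_map_eq_zero L).2 fun z hz => by
    have : Submodule.span ℂ (range (φ ∘ a)) ≤ LinearMap.ker (Dual.eval ℂ V z) :=
      Submodule.span_le.2 (by
        rintro _ ⟨k, rfl⟩
        simpa [L, φ, LinearMap.funLeft_apply] using congrFun hz (σ.symm k))
    exact Subtype.ext (funext fun i => this (x := φ i) ((h2.trans h1).ge trivial))
  have sur := (LinearMap.injective_iff_surjective_of_finrank_eq_finrank
    (by rw [h, finrank_fin_fun])).1 inj
  refine ⟨a ∘ σ, mapsTo_univ _ _, fun x hx y hy hxy => ?_, fun y _ => ?_⟩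
  · exact congrArg Subtype.val (inj (a₁ := ⟨x, hx⟩) (a₂ := ⟨y, hy⟩) hxy)
  · obtain ⟨x, hx⟩ := sur y
    exact ⟨x, x.2, hx⟩

/-- Smith normal form. -/
theorem smith {N : ℕ} (A : Matrix (Fin N) (Fin N) PS) (h : A.det ≠ 0) :
    ∃ (E F : (Fin N → PS) ≃ₗ[PS] (Fin N → PS)) (a : Fin N → PS),
      Associated A.det (∏ i, a i) ∧ ∀ s, A.mulVec s = E fun i => a i * F s i := by
  have inj : Function.Injective (Matrix.toLin' A) :=
    (injective_iff_map_eq_zero _).2 fun s hs => Matrix.eq_zero_of_mulVec_eq_zero h hs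
  let e := LinearEquiv.ofInjective _ inj
  have r := e.symm.finrank_eq
  let b := Pi.basisFun PS (Fin N)
  let E := (Submodule.smithNormalFormTopBasis b r).equivFun.symm
  let F := e.trans (Submodule.smithNormalFormBotBasis b r).equivFun
  have k : ∀ s, A.mulVec s = E fun i => Submodule.smithNormalFormCoeffs b r i * F s i := fun s => by
    have := congrArg Subtype.val ((Submodule.smithNormalFormBotBasis b r).sum_equivFun (e s))
    rw [Basis.equivFun_symm_apply]
    refine this.symm.trans ?_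
    rw [Submodule.coe_sum]
    refine Finset.sum_congr rfl fun i _ => ?_
    rw [Submodule.coe_smul, Submodule.smithNormalFormBotBasis_def, smul_smul, mul_comm]
    rfl
  refine ⟨E, F, _, ?_, k⟩
  have : Matrix.toLin' A = E.toLinearMap ∘ₗ Matrix.toLin'
      (Matrix.diagonal (Submodule.smithNormalFormCoeffs b r)) ∘ₗ F.toLinearMap :=
    LinearMap.ext fun s => (k s).trans (congrArg E (funext fun i =>
      (Matrix.mulVec_diagonal _ _ i).symm))
  have d := congrArg LinearMap.det this
  rw [LinearMap.det_toLin', LinearMap.det_comp, LinearMap.det_comp, LinearMap.det_toLin',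
    Matrix.det_diagonal] at d
  rw [d]
  exact (associated_unit_mul_left _ _ E.isUnit_det').trans
    (associated_mul_unit_left _ _ F.isUnit_det')

theorem dvd_map {ι : Type} (E : (ι → PS) →ₗ[PS] (ι → PS)) {c : PS} {s : ι → PS}
    (h : ∀ i, c ∣ s i) (i : ι) : c ∣ E s i := by
  choose u hu using h
  rw [show s = c • u from funext hu, map_smul]
  exact Dvd.intro _ rfl

theorem dvd_iff {ι : Type} (E : (ι → PS) ≃ₗ[PS] (ι → PS)) {c : PS} {s : ι → PS} :
    (∀ i, c ∣ E s i) ↔ ∀ i, c ∣ s i :=
  ⟨fun h i => by simpa using dvd_map E.symm.toLinearMap h i, dvd_map E.toLinearMap⟩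

/-- The action on jets. -/
noncomputable def act {ι : Type} (m : ℕ) (F : (ι → PS) →ₗ[PS] (ι → PS)) :
    (ι × Fin (m + 1) → ℂ) →ₗ[ℂ] (ι × Fin (m + 1) → ℂ) where
  toFun x := tr m (F (ser x))
  map_add' x y := by
    have : ser (x + y) = ser x + ser y := funext fun k => PowerSeries.ext fun c => by
      by_cases h : c ≤ m <;> simp [ser, h]
    rw [this, map_add]
    exact funext fun p => map_add _ _ _
  map_smul' t x := by
    have : ser (t • x) = t • ser x := funext fun k => PowerSeries.ext fun c => by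
      by_cases h : c ≤ m <;> simp [ser, h]
    rw [this, LinearMap.map_smul_of_tower]
    exact funext fun p => by simp [tr]

theorem tr_eq_zero {ι : Type} {m : ℕ} {s : ι → PS} : tr m s = 0 ↔ ∀ i, tt ^ (m + 1) ∣ s i := by
  simpa only [Pi.zero_apply, sub_zero, show tr m (0 : ι → PS) = 0 from funext fun _ => map_zero _]
    using tr_eq_iff (m := m) (b := s) (b' := 0)

theorem act_inj {ι : Type} (m : ℕ) (F : (ι → PS) ≃ₗ[PS] (ι → PS)) :
    Function.Injective (act m F.toLinearMap) :=
  (injective_iff_map_eq_zero _).2 fun x hx =>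
    (tr_ser x).symm.trans (tr_eq_zero.2 ((dvd_iff F).1 (tr_eq_zero.1 hx)))

theorem card_top {N n : ℕ} (k : Fin N → ℕ) (h : ∀ i, k i ≤ n) :
    Fintype.card {p : Fin N × Fin n | n ≤ p.2 + k p.1} = ∑ i, k i := by
  refine ((Fintype.card_congr (Equiv.subtypeProdEquivSigmaSubtype
    fun (i : Fin N) (c : Fin n) => n ≤ c + k i)).trans Fintype.card_sigma).trans
    (Finset.sum_congr rfl fun i _ => ?_)
  have := h i
  exact (Fintype.card_congr (β := Fin (k i))
    { toFun := fun c => ⟨c.1 + k i - n, by omega⟩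
      invFun := fun d => ⟨⟨d + n - k i, by omega⟩, show n ≤ d + n - k i + k i by omega⟩
      left_inv := fun c => Subtype.ext (Fin.ext (show c.1 + k i - n + n - k i = c.1 by omega))
      right_inv := fun d => Fin.ext (show d + n - k i + k i - n = d by omega) }).trans
    (Fintype.card_fin _)

end KerA

open KerA in
theorem ker : StmtKER := by
  intro N A e m he hm
  rw [order_eq_iff] at he
  have h0 : A.det ≠ 0 := fun h => he.2 (h ▸ dvd_zero _)
  obtain ⟨E, F, a, h1, h2⟩ := smith A h0
  choose k hk using fun i => IsDiscreteValuationRing.associated_pow_irreducible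
    (Finset.prod_ne_zero_iff.1 (h1.ne_zero_iff.1 h0) i (Finset.mem_univ i))
    (PowerSeries.X_irreducible (R := ℂ))
  have h3 : Associated A.det (tt ^ ∑ i, k i) := by
    rw [← Finset.prod_pow_eq_pow_sum]
    exact h1.trans (Associated.prod _ _ _ fun i _ => hk i)
  rw [h3.dvd_iff_dvd_right, h3.dvd_iff_dvd_right,
    pow_dvd_pow_iff PowerSeries.X_ne_zero PowerSeries.X_irreducible.not_isUnit,
    pow_dvd_pow_iff PowerSeries.X_ne_zero PowerSeries.X_irreducible.not_isUnit] at he
  have h4 : ∀ i, k i ≤ m + 1 := fun i =>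
    (Finset.single_le_sum (fun _ _ => Nat.zero_le _) (Finset.mem_univ i)).trans (by omega)
  let I : Set (Fin N × Fin (m + 1)) := {p | m + 1 ≤ p.2 + k p.1}
  let K : Submodule ℂ (Fin N × Fin (m + 1) → ℂ) := ⨅ p ∈ Iᶜ, LinearMap.ker (LinearMap.proj p)
  let T := LinearEquiv.ofInjectiveEndo _ (act_inj m F)
  obtain ⟨c, hc⟩ := param (K.comap T.toLinearMap) (e := e) (by
    rw [(T.ofSubmodule' K).finrank_eq, (LinearMap.iInfKerProjEquiv ℂ (fun _ => ℂ)
      disjoint_compl_right (union_compl_self I).ge).finrank_eq, finrank_fintype_fun_eq_card,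
      card_top k h4]
    omega)
  refine ⟨c, (congrArg (BijOn _ · _) (Set.ext fun x => ?_)).mpr hc⟩
  have h5 : ∀ i (y : PS), tt ^ (m + 1) ∣ a i * y ↔ tt ^ (m + 1 - k i) ∣ y := fun i y => by
    rw [((hk i).mul_right y).dvd_iff_dvd_right, ← mul_dvd_mul_iff_left (b := tt ^ (m + 1 - k i))
      (pow_ne_zero (k i) PowerSeries.X_ne_zero : tt ^ k i ≠ 0), ← pow_add, Nat.add_sub_cancel' (h4 i)]
  change (∀ i, tt ^ (m + 1) ∣ A.mulVec (ser x) i) ↔ tr m (F (ser x)) ∈ K
  rw [h2, dvd_iff E]
  simp only [h5]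
  simp only [K, Submodule.mem_iInf, LinearMap.mem_ker, LinearMap.proj_apply,
    PowerSeries.X_pow_dvd_iff, I, mem_compl_iff, mem_ofPred_eq, not_le]
  exact ⟨fun h p hp => h p.1 p.2 (by omega), fun h i c hc => h (i, ⟨c, by omega⟩) (by
    simp only; omega)⟩

end Pool.Agent.MP_ee8c61_ag.H95
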