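import Pool.Agent.MP_ee8c61_ag.H95.Kit

/-! The limit of a series for `L → 1` is unique. -/

namespace Pool.Agent.MP_ee8c61_ag.H95

open Polynomial

namespace LimA

variable {M : MM}

/-- `z` is the specialisation of the fraction `x`. -/
def Val (M : MM) (x : Hyperreal) (z : ℂ) : Prop :=
  ∃ d n : M.Λ, M.ε d ≠ 0 ∧ x * d = n ∧ M.ε n = z * M.ε d

theorem Val.add {x x' : Hyperreal} {z z' : ℂ} (h : Val M x z) (h' : Val M x' z') :
    Val M (x + x') (z + z') := by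
  obtain ⟨d, n, a, b, c⟩ := h
  obtain ⟨d', n', a', b', c'⟩ := h'
  refine ⟨d * d', n * d' + n' * d, by simp [a, a'], ?_, ?_⟩
  · push_cast
    rw [← b, ← b']
    ring
  · simp only [map_add, map_mul, c, c']
    ring

theorem Val.mul {x x' : Hyperreal} {z z' : ℂ} (h : Val M x z) (h' : Val M x' z') :
    Val M (x * x') (z * z') := by
  obtain ⟨d, n, a, b, c⟩ := h
  obtain ⟨d', n', a', b', c'⟩ := h'
  refine ⟨d * d', n * n', by simp [a, a'], ?_, ?_⟩
  · push_cast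
    rw [← b, ← b']
    ring
  · simp only [map_mul, c, c']
    ring

theorem Val.uniq {x : Hyperreal} {z z' : ℂ} (h : Val M x z) (h' : Val M x z') : z = z' := by
  obtain ⟨d, n, a, b, c⟩ := h
  obtain ⟨d', n', a', b', c'⟩ := h'
  have e : n * d' = n' * d := Subtype.ext (by
    push_cast
    rw [← b, ← b']
    ring)
  have e' := congrArg M.ε e
  rw [map_mul, map_mul, c, c'] at e'
  exact mul_right_cancel₀ (mul_ne_zero a a') (by linear_combination e')

/-- The invariant. -/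
def Inv (M : MM) (F : PowerSeries Hyperreal) (Z : RatFunc ℂ) : Prop :=
  ∃ (P D : Hyperreal[X]) (p q : ℂ[X]), (D : PowerSeries Hyperreal) * F = P ∧
    Z * algebraMap ℂ[X] (RatFunc ℂ) q = algebraMap ℂ[X] (RatFunc ℂ) p ∧
    ∀ s : ℕ, D.eval (M.L ^ s)⁻¹ ≠ 0 ∧ q.eval (s : ℂ) ≠ 0 ∧
      Val M (P.eval (M.L ^ s)⁻¹ / D.eval (M.L ^ s)⁻¹) (p.eval (s : ℂ) / q.eval (s : ℂ))

theorem eL (M : MM) (s : ℕ) : M.ε (⟨M.L, M.Lmem⟩ ^ s) = 1 := by rw [map_pow, M.εL, one_pow]

theorem geo (M : MM) {m : ℕ} (hm : 0 < m) : Val M ((M.L - 1) / (M.L ^ m - 1)) (1 / m) := by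
  have h1 : M.L ^ m - 1 ≠ 0 := (sub_pos.2 (one_lt_pow₀ M.one_lt hm.ne')).ne'
  have h2 : M.ε (∑ i ∈ Finset.range m, ⟨M.L, M.Lmem⟩ ^ i) = m := by
    rw [map_sum, Finset.sum_congr rfl fun i _ => eL M i]
    simp
  have h3 : (m : ℂ) ≠ 0 := Nat.cast_ne_zero.2 hm.ne'
  refine ⟨∑ i ∈ Finset.range m, ⟨M.L, M.Lmem⟩ ^ i, 1, h2 ▸ h3, ?_, ?_⟩
  · push_cast
    rw [div_mul_eq_mul_div, mul_geom_sum, div_self h1]
  · rw [h2, map_one, one_div_mul_cancel h3]

theorem inv_phi (M : MM) (a κ : ℕ) (h : 0 < κ) :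
    Inv M (M.phi a κ) (1 / ((a : RatFunc ℂ) * RatFunc.X + (κ : RatFunc ℂ))) := by
  have hq : ∀ s : ℕ, (C (a : ℂ) * X + C (κ : ℂ)).eval (s : ℂ) = ((a * s + κ : ℕ) : ℂ) :=
    fun s => by simp
  have hq' : ∀ s : ℕ, (C (a : ℂ) * X + C (κ : ℂ)).eval (s : ℂ) ≠ 0 := fun s => by
    rw [hq]
    exact Nat.cast_ne_zero.2 (by omega)
  have hL := M.ne
  have hD : ∀ s : ℕ, (1 - C (1 / M.L ^ κ) * X ^ a).eval (M.L ^ s)⁻¹ =
      (M.L ^ (a * s + κ) - 1) / M.L ^ (a * s + κ) := fun s => by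
    simp only [eval_sub, eval_one, eval_mul, eval_C, eval_pow, eval_X, inv_pow, ← pow_mul, pow_add,
      mul_comm s]
    field_simp
  have h1 : ∀ s : ℕ, M.L ^ (a * s + κ) - 1 ≠ 0 := fun s =>
    (sub_pos.2 (one_lt_pow₀ M.one_lt (by omega))).ne'
  refine ⟨C ((M.L - 1) / M.L ^ κ) * X ^ a, 1 - C (1 / M.L ^ κ) * X ^ a, 1,
    C (a : ℂ) * X + C (κ : ℂ), ?_, ?_, fun s => ⟨?_, hq' s, ?_⟩⟩
  · have h0 : PowerSeries.constantCoeff
        (1 - PowerSeries.C (1 / M.L ^ κ) * PowerSeries.X ^ a : PowerSeries Hyperreal) ≠ 0 := by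
      rcases a with _ | a
      · have := h1 0
        simp only [mul_zero, zero_add] at this
        simp only [pow_zero, mul_one, map_sub, map_one, PowerSeries.constantCoeff_C]
        rw [one_sub_div (pow_ne_zero _ hL)]
        exact div_ne_zero this (pow_ne_zero _ hL)
      · simp
    have := PowerSeries.mul_inv_cancel _ h0
    simp only [coe_sub, coe_one, coe_mul, coe_C, coe_pow, coe_X, MM.phi]
    rw [mul_left_comm, this, mul_one]
  · have h2 : algebraMap ℂ[X] (RatFunc ℂ) (C (a : ℂ) * X + C (κ : ℂ)) ≠ 0 :=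
      RatFunc.algebraMap_ne_zero fun e => hq' 0 (by rw [e, eval_zero])
    have h3 : algebraMap ℂ[X] (RatFunc ℂ) (C (a : ℂ) * X + C (κ : ℂ)) =
        (a : RatFunc ℂ) * RatFunc.X + (κ : RatFunc ℂ) := by simp
    rw [← h3, one_div_mul_cancel h2, map_one]
  · rw [hD]
    exact div_ne_zero (h1 s) (pow_ne_zero _ hL)
  · rw [hD, hq, eval_one]
    convert geo M (m := a * s + κ) (by omega) using 1
    have := h1 s
    simp only [eval_mul, eval_C, eval_pow, eval_X, inv_pow, ← pow_mul, mul_comm s]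
    rw [pow_add] at this ⊢
    field_simp

theorem inv {F : PowerSeries Hyperreal} {Z : RatFunc ℂ} (h : M.Lim F Z) : Inv M F Z := by
  induction h with
  | const c =>
    exact ⟨C (c : Hyperreal), 1, C (M.ε c), 1, by simp, by simp,
      fun s => ⟨by simp, by simp, 1, c, by simp, by simp, by simp⟩⟩
  | X =>
    refine ⟨X, 1, 1, 1, by simp, by simp, fun s => ⟨by simp, by simp, ⟨M.L, M.Lmem⟩ ^ s, 1,
      by rw [eL]; simp, ?_, by rw [eL]; simp⟩⟩
    simp [M.ne]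
  | phi a κ h => exact inv_phi M a κ h
  | add _ _ h h' =>
    obtain ⟨P, D, p, q, a, b, c⟩ := h
    obtain ⟨P', D', p', q', a', b', c'⟩ := h'
    refine ⟨P * D' + D * P', D * D', p * q' + q * p', q * q', ?_, ?_, fun s => ?_⟩
    · simp only [coe_mul, coe_add, ← a, ← a']
      ring
    · simp only [map_mul, map_add, ← b, ← b']
      ring
    · obtain ⟨x, y, z⟩ := c s
      obtain ⟨x', y', z'⟩ := c' s
      simp only [eval_mul, eval_add, ← div_add_div _ _ x x', ← div_add_div _ _ y y']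
      exact ⟨mul_ne_zero x x', mul_ne_zero y y', z.add z'⟩
  | mul _ _ h h' =>
    obtain ⟨P, D, p, q, a, b, c⟩ := h
    obtain ⟨P', D', p', q', a', b', c'⟩ := h'
    refine ⟨P * P', D * D', p * p', q * q', ?_, ?_, fun s => ?_⟩
    · simp only [coe_mul, ← a, ← a']
      ring
    · simp only [map_mul, ← b, ← b']
      ring
    · obtain ⟨x, y, z⟩ := c s
      obtain ⟨x', y', z'⟩ := c' s
      simp only [eval_mul, ← div_mul_div_comm]
      exact ⟨mul_ne_zero x x', mul_ne_zero y y', z.mul z'⟩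

end LimA

theorem lim : StmtLIM := by
  intro M F Z Z' h h'
  obtain ⟨P, D, p, q, a, b, c⟩ := LimA.inv h
  obtain ⟨P', D', p', q', a', b', c'⟩ := LimA.inv h'
  have e : P * D' = D * P' := Polynomial.coe_injective _ (by
    simp only [coe_mul, ← a, ← a']
    ring)
  have e1 : p * q' = q * p' := by
    refine eq_of_infinite_eval_eq _ _ ((Set.infinite_range_of_injective
      (Nat.cast_injective (R := ℂ))).mono ?_)
    rintro _ ⟨s, rfl⟩
    obtain ⟨x, y, z⟩ := c s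
    obtain ⟨x', y', z'⟩ := c' s
    have e2 := congrArg (eval (M.L ^ s)⁻¹) e
    rw [eval_mul, eval_mul, mul_comm (eval _ D), ← div_eq_div_iff x x'] at e2
    have e3 := (e2 ▸ z).uniq z'
    rw [div_eq_div_iff y y'] at e3
    simp only [Set.mem_ofPred_eq, eval_mul, e3, mul_comm]
  have q0 : algebraMap ℂ[X] (RatFunc ℂ) q ≠ 0 :=
    RatFunc.algebraMap_ne_zero fun e => (c 0).2.1 (by rw [e, eval_zero])
  have q1 : algebraMap ℂ[X] (RatFunc ℂ) q' ≠ 0 :=
    RatFunc.algebraMap_ne_zero fun e => (c' 0).2.1 (by rw [e, eval_zero])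
  have e4 := congrArg (algebraMap ℂ[X] (RatFunc ℂ)) e1
  rw [map_mul, map_mul, ← b, ← b'] at e4
  exact mul_right_cancel₀ (mul_ne_zero q0 q1) (by linear_combination e4)

end Pool.Agent.MP_ee8c61_ag.H95
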