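import Pool.Agent.MP_ee8c61_ag.H95.Kit
import Pool.Agent.MP_4f1c5b_al.H95.All

/-!
Counting measures exist.
-/

namespace Pool.Agent.MP_ee8c61_ag.H95

open Set Filter
open Pool.Agent.MP_4f1c5b_al.H95

namespace MmA

/-- Sequences of integers as hyperreal numbers. -/
noncomputable def io : (ℕ → ℤ) →+* Hyperreal where
  toFun x := Hyperreal.ofSeq fun i => (x i : ℝ)
  map_one' := congrArg Hyperreal.ofSeq (funext fun _ => Int.cast_one)
  map_zero' := congrArg Hyperreal.ofSeq (funext fun _ => Int.cast_zero)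
  map_mul' x y := congrArg Hyperreal.ofSeq (funext fun i => Int.cast_mul (x i) (y i))
  map_add' x y := congrArg Hyperreal.ofSeq (funext fun i => Int.cast_add (x i) (y i))

theorem io_le {x y : ℕ → ℤ} : io x ≤ io y ↔ ∀ᶠ i in (uf : Filter ℕ), x i ≤ y i :=
  Hyperreal.ofSeq_le_ofSeq.trans (eventually_congr (Eventually.of_forall fun _ => Int.cast_le))

theorem io_lt {x y : ℕ → ℤ} : io x < io y ↔ ∀ᶠ i in (uf : Filter ℕ), x i < y i :=
  Hyperreal.ofSeq_lt_ofSeq.trans (eventually_congr (Eventually.of_forall fun _ => Int.cast_lt))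

theorem io_eq {x y : ℕ → ℤ} : io x = io y ↔ ∀ᶠ i in (uf : Filter ℕ), x i = y i := by
  simp only [le_antisymm_iff, io_le, eventually_and]

theorem uniq {R : Type} {f : ℕ → R} {a b : R} (h : ∀ᶠ i in (uf : Filter ℕ), f i = a)
    (h' : ∀ᶠ i in (uf : Filter ℕ), f i = b) : a = b :=
  (h.and h').exists.elim fun _ e => e.1.symm.trans e.2

/-- The limit modulo `l`. -/
noncomputable def lim0 (l : ℕ) [Fact l.Prime] (x : ℕ → ℤ) : ZMod l :=
  (ev_const fun i => (x i : ZMod l)).choose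

theorem lim0_spec (l : ℕ) [Fact l.Prime] (x : ℕ → ℤ) :
    ∀ᶠ i in (uf : Filter ℕ), (x i : ZMod l) = lim0 l x :=
  (ev_const fun i => (x i : ZMod l)).choose_spec

/-- The limit modulo `l` as a homomorphism. -/
noncomputable def lim (l : ℕ) [Fact l.Prime] : (ℕ → ℤ) →+* ZMod l where
  toFun := lim0 l
  map_one' := uniq (lim0_spec l 1) (Eventually.of_forall fun _ => Int.cast_one)
  map_zero' := uniq (lim0_spec l 0) (Eventually.of_forall fun _ => Int.cast_zero)
  map_mul' x y := uniq (lim0_spec l _) (((lim0_spec l x).and (lim0_spec l y)).mono fun i h => by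
    rw [← h.1, ← h.2]; exact Int.cast_mul _ _)
  map_add' x y := uniq (lim0_spec l _) (((lim0_spec l x).and (lim0_spec l y)).mono fun i h => by
    rw [← h.1, ← h.2]; exact Int.cast_add _ _)

/-- The specialisation on sequences. -/
noncomputable def eps0 (u : UP) : (ℕ → ℤ) →+* ℂ :=
  u.π.comp (RingHom.pi fun j => (algebraMap (ZMod (pr j)) (kk j)).comp (lim (pr j)))

theorem eps0_eq (u : UP) {x : ℕ → ℤ} {z : ℤ}
    (h : ∀ j, ∀ᶠ i in (uf : Filter ℕ), (x i : ZMod (pr j)) = z) : eps0 u x = z := by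
  rw [← map_intCast u.π z]
  refine congrArg u.π (funext fun j => ?_)
  change algebraMap (ZMod (pr j)) (kk j) (lim0 (pr j) x) = _
  rw [uniq (lim0_spec (pr j) x) (h j), map_intCast]
  rfl

/-- The specialisation on hyperintegers. -/
noncomputable def eps (u : UP) : io.range →+* ℂ :=
  io.rangeRestrict.liftOfSurjective io.rangeRestrict_surjective ⟨eps0 u, fun x hx => by
    have h : io x = io 0 := (congrArg Subtype.val hx).trans io.map_zero.symm
    exact (eps0_eq u (z := 0) fun _ => (io_eq.1 h).mono fun i hi => by rw [hi]; rfl).trans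
      Int.cast_zero⟩

theorem eps_io (u : UP) (x : ℕ → ℤ) (h : io x ∈ io.range) : eps u ⟨io x, h⟩ = eps0 u x :=
  RingHom.liftOfSurjective_comp_apply _ _ _ x

open Classical in
/-- The point counts of an internal set. -/
noncomputable def sq (c : Ctx) {ι : Type} [Finite ι] (S : Set (ι → ℂ)) : ℕ → ℤ :=
  if h : (c.u.v ι).Int S then fun i => ((Fx (c.σ i) 1 (h.choose i)).ncard : ℕ) else 0

theorem sq_ev (c : Ctx) {ι : Type} [Finite ι] {S : Set (ι → ℂ)} {W : ∀ i, Set (ι → kk i)}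
    (h : (c.u.v ι).Rep S W) :
    ∀ᶠ i in (uf : Filter ℕ), sq c S i = ((Fx (c.σ i) 1 (W i)).ncard : ℕ) := by
  rw [sq, dif_pos h.int]
  exact (h.int.choose_spec.uniq h).mono fun i hi => by rw [← hi]

theorem sq_nonneg (c : Ctx) {ι : Type} [Finite ι] (S : Set (ι → ℂ)) (i : ℕ) : 0 ≤ sq c S i := by
  unfold sq
  split_ifs
  · exact Nat.cast_nonneg _
  · exact le_rfl

end MmA

open MmA

theorem mm (hF : StmtFX) : StmtMM := by
  intro A hA
  let _ : Algebra (NumberField.RingOfIntegers ℚ) ℂ :=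
    ((algebraMap ℚ ℂ).comp (algebraMap (NumberField.RingOfIntegers ℚ) ℚ)).toAlgebra
  obtain ⟨u, -⟩ := uex ℚ
  obtain ⟨c, -, hc⟩ := ctx u A hA
  have := c.cnt
  refine ⟨{
    E := c.E
    Λ := io.range
    L := io fun i => (pr i ^ c.e i : ℕ)
    μ := fun S => io (sq c S)
    ε := eps c.u
    disc := ?_
    Lmem := ⟨_, rfl⟩
    two := ?_
    εL := ?_
    mem := fun S => ⟨_, rfl⟩
    nonneg := fun S => ?_
    proj := fun b h => ?_
    add := fun hS hT h => ?_
    fib := fun b e hS hB h1 h2 => ?_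
    pt := ?_
    chi := fun χ hχ n S hS => ?_ }, hc⟩
  · rintro _ ⟨x, rfl⟩ h
    rw [abs_lt, ← io.map_one, ← map_neg, io_lt, io_lt] at h
    rw [← io.map_zero, io_eq]
    refine (h.1.and h.2).mono fun i hi => ?_
    simp only [Pi.neg_apply, Pi.one_apply, Pi.zero_apply] at hi ⊢
    omega
  · rw [← map_ofNat io 2, io_le]
    refine Eventually.of_forall fun i => ?_
    have : 1 < pr i ^ c.e i := Nat.one_lt_pow (c.e_pos i).ne' (Fact.out : (pr i).Prime).one_lt
    change (2 : ℤ) ≤ _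
    omega
  · rw [eps_io, eps0_eq (z := 1) _ fun j => (c.q_one (pr j)).mono fun i hi => by
      rw [Int.cast_natCast, hi, Int.cast_one], Int.cast_one]
  · rw [← io.map_zero, io_le]
    exact Eventually.of_forall (sq_nonneg c S)
  · obtain ⟨W, hW⟩ := h.int c.u
    refine good typ cnt c.u c.E _ _ (hW.image (c.u.hom_comp b _)).int ?_
    rintro θ hθ _ ⟨x, hx, rfl⟩
    exact ⟨θ ∘ x, h.inv θ hθ x hx, rfl⟩
  · obtain ⟨W, hW⟩ := hS.int c.u
    obtain ⟨V, hV⟩ := hT.int c.u
    rw [← map_add, io_eq]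
    filter_upwards [sq_ev c hW, sq_ev c hV, sq_ev c (hW.union hV), (hW.disjoint_iff hV).1 h]
      with i e1 e2 e3 e4
    rw [Pi.add_apply, e1, e2, e3, ← Nat.cast_add, ← ncard_union_eq
      (s := Fx (c.σ i) 1 (W i)) (t := Fx (c.σ i) 1 (V i))
      (e4.mono (sep_subset _ _) (sep_subset _ _)) (c.fx_finite i 1 _) (c.fx_finite i 1 _)]
    exact congrArg (fun s => ((ncard s : ℕ) : ℤ)) sep_union
  · obtain ⟨W, hW⟩ := hS.int c.u
    obtain ⟨V, hV⟩ := hB.int c.u
    rw [← map_pow, ← map_mul, io_eq]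
    filter_upwards [sq_ev c hW, sq_ev c hV, hF c _ _ _ _ b e W V hS h1 h2 hW hV] with i e1 e2 e3
    rw [Pi.mul_apply, Pi.pow_apply, e1, e2, e3, Nat.cast_mul, Nat.cast_pow _ e]
  · rw [← io.map_one, io_eq]
    refine (sq_ev c (c.u.v (Fin 0)).rep_univ).mono fun i hi => ?_
    rw [hi, show Fx (c.σ i) 1 (univ : Set (Fin 0 → kk i)) = {default} from
      Set.ext fun x => ⟨fun _ => Subsingleton.elim _ _, fun _ => ⟨trivial, Subsingleton.elim _ _⟩⟩,
      ncard_singleton]
    rfl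
  · obtain ⟨W, hW⟩ := hS.int c.u
    obtain ⟨z, hz⟩ := uni (good typ cnt) c.E c.u n S hS
    rw [eps_io, hz ℤ _ (hχ.toE _), Int.cast_id]
    refine eps0_eq _ fun j => ?_
    obtain ⟨χl, h1, h2⟩ := euAll c (pr j) Fact.out
    filter_upwards [sq_ev c hW, h2 n S W hW] with i e1 e2
    rw [e1, Int.cast_natCast, e2, hz _ _ h1]

end Pool.Agent.MP_ee8c61_ag.H95
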