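import Pool.Agent.MP_ee8c61_ag.H95.Kit

/-! Arcs whose images have the same jet are close. -/

namespace Pool.Agent.MP_ee8c61_ag.H95

open Set

namespace NearA

theorem order_mon {α : Type} (S : Finset α) (x : α → PS) (k ν : α → ℕ)
    (h : ∀ l ∈ S, (x l).order = ν l) :
    (∏ l ∈ S, x l ^ k l).order = ((∑ l ∈ S, k l * ν l : ℕ) : ℕ∞) := by
  rw [PowerSeries.order_prod, Nat.cast_sum]
  refine Finset.sum_congr rfl fun l hl => ?_
  rw [PowerSeries.order_pow, h l hl, nsmul_eq_mul, Nat.cast_mul]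

theorem order_jac {N : ℕ} {J : Type} {g : J → Pol (Fin N)} (s : Str N g) {ν : Fin N → ℕ}
    {γ : s.A →ₐ[ℂ] PS} (hγ : γ ∈ s.Del ν) : (γ s.Jm.det).order = s.ee ν := by
  have h1 : (γ s.v).order = (0 : ℕ) := order_unit (s.unitv (s.pt γ) hγ.1)
  rw [s.jac, map_mul, PowerSeries.order_mul, h1, map_prod]
  simp only [map_pow]
  rw [order_mon s.S (fun l => γ (s.z l)) s.k ν hγ.2, Nat.cast_zero, add_zero]
  rfl

end NearA

theorem near (h : StmtINV) : StmtNEAR := by
  intro N J g s m ν γ b hB hγ hb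
  have h1 := NearA.order_jac s hγ
  obtain ⟨γ', h2, h3⟩ := h N s.toChart γ (s.ee ν) m b h1 hB.1 (tr_eq_iff.1 hb.symm)
  refine ⟨h1, γ', ⟨?_, fun l hl => order_congr (hγ.2 l hl) ?_ (h2 _)⟩, h2, h3⟩
  · have h4 : s.base γ' = s.base γ := funext fun k => by
      have h5 : tt ∣ γ' (s.y k) - γ (s.y k) :=
        (dvd_pow_self tt (by have := hB.1; omega)).trans (h2 _)
      rw [PowerSeries.X_dvd_iff, map_sub, sub_eq_zero] at h5
      exact h5
    rw [h4]
    exact hγ.1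
  · have := hB.2 l hl
    omega

end Pool.Agent.MP_ee8c61_ag.H95
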