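import Pool.Agent.MP_ee8c61_ag.H95.Kit

/-! The images of the sets of arcs with given orders form a partition, up to a small set. -/

namespace Pool.Agent.MP_ee8c61_ag.H95

open Set

namespace ParA

theorem dvd_iff {x : PS} {n : ℕ} : tt ^ n ∣ x ↔ (n : ℕ∞) ≤ x.order := by
  rw [PowerSeries.X_pow_dvd_iff]
  exact ⟨PowerSeries.nat_le_order _ _, fun h c hc =>
    PowerSeries.coeff_of_lt_order c (lt_of_lt_of_le (by exact_mod_cast hc) h)⟩

theorem le_of_dvd {x y : PS} (h : x ∣ y) : x.order ≤ y.order := by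
  obtain ⟨z, rfl⟩ := h
  rw [PowerSeries.order_mul]
  exact le_self_add

variable {N : ℕ} {J : Type} {g : J → Pol (Fin N)}

theorem key (s : Str N g) {ν : Fin N → ℕ} {γ : s.A →ₐ[ℂ] PS} (h : γ ∈ s.Del ν) :
    γ ∘ s.f ∈ Cont g (∑ l ∈ s.S, s.a l * ν l) := by
  have e : ∀ j, (ev (γ ∘ s.f) (g j)).order =
      (∑ l ∈ s.S, s.a l * ν l : ℕ) + (γ (s.u j)).order := fun j => by
    rw [← Chart.map_ev, s.fac, map_mul, PowerSeries.order_mul, map_prod, PowerSeries.order_prod,
      Nat.cast_sum]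
    refine congrArg (· + _) (Finset.sum_congr rfl fun l hl => ?_)
    rw [map_pow, PowerSeries.order_pow, h.2 l hl, nsmul_eq_mul, Nat.cast_mul]
  obtain ⟨j, hj⟩ := s.unit (s.pt γ) h.1
  refine ⟨fun j => dvd_iff.2 (e j ▸ le_self_add), j, (order_eq_iff.1 ?_).2⟩
  rw [e, order_unit (x := γ (s.u j)) hj, Nat.cast_zero, add_zero]

theorem uniq {b : Fin N → PS} {n n' : ℕ} (h : b ∈ Cont g n) (h' : b ∈ Cont g n') : n = n' := by
  have k : ∀ {n n' : ℕ}, b ∈ Cont g n → b ∈ Cont g n' → n ≤ n' := fun h h' =>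
    not_lt.1 fun c => h'.2.elim fun j hj => hj ((pow_dvd_pow tt c).trans (h.1 j))
  exact (k h h').antisymm (k h' h)

end ParA

open ParA in
theorem par (hN : StmtNEAR) : StmtPAR where
  sub N J g s m n ν e := by
    rintro _ ⟨γ, h, rfl⟩
    exact ⟨_, e ▸ key s h, rfl⟩
  disj N J g D m r r' ν ν' x hB := by
    rintro ⟨γ, h, rfl⟩ ⟨γ', h', e⟩
    obtain ⟨-, δ, h1, -, h2⟩ := hN N J g _ m ν γ _ hB h e.symm
    obtain rfl := D.ur r r' δ γ' (Str.Del.fin' _ h1) (Str.Del.fin' _ h') h2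
    obtain rfl := D.ua r δ γ' (Str.Del.fin' _ h1) (Str.Del.fin' _ h') h2
    exact ⟨rfl, fun l hl => Nat.cast_injective ((h1.2 l hl).symm.trans (h'.2 l hl))⟩
  cov N J g D m n K hn _ := by
    rintro _ ⟨b, hb, rfl⟩
    refine or_iff_not_imp_right.2 fun h => ?_
    push Not at h
    have hK : ∀ i, (b i).order ≤ K := fun i => by
      obtain ⟨c, h1, h2⟩ := h i
      exact (PowerSeries.order_le c h2).trans (by exact_mod_cast h1)
    obtain ⟨j, hj⟩ := hb.2
    obtain ⟨r, γ, h1, rfl⟩ := D.ex b (fun i e => by simpa [e] using hK i)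
      ⟨j, fun e => hj (e ▸ dvd_zero _)⟩
    have ho : ∀ l ∈ (D.s r).S, (γ ((D.s r).z l)).order ≤ K := fun l hl => by
      by_cases ha : (D.s r).a l = 0
      · obtain ⟨i, hi⟩ := (D.s r).esc l hl ha
        exact (le_of_dvd (map_dvd γ hi)).trans (hK i)
      · rw [← Chart.map_ev, (D.s r).fac, dvd_iff, not_le, Nat.cast_succ] at hj
        refine (le_of_dvd (map_dvd γ (((dvd_pow_self _ ha).trans
          (Finset.dvd_prod_of_mem (fun l => (D.s r).z l ^ (D.s r).a l) hl)).mul_right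
            ((D.s r).u j)))).trans ?_
        exact (Order.le_of_lt_add_one hj).trans (by exact_mod_cast hn)
    have e : ∀ l ∈ (D.s r).S, (γ ((D.s r).z l)).order =
        (if l ∈ (D.s r).S then (γ ((D.s r).z l)).order.toNat else 0 : ℕ) := fun l hl => by
      rw [if_pos hl, ENat.natCast_toNat (ne_top_of_le_ne_top (ENat.natCast_ne_top K) (ho l hl))]
    have hD : γ ∈ (D.s r).Del _ := ⟨h1, e⟩
    refine ⟨r, _, mem_FF.2 ⟨⟨fun l hl => ⟨?_, ?_⟩, fun l hl => if_neg hl⟩, uniq (key _ hD) hb⟩,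
      γ, hD, rfl⟩
    · have : 1 ≤ (γ ((D.s r).z l)).order := PowerSeries.one_le_order_iff_constCoeff_eq_zero.2
        ((D.s r).van ((D.s r).pt γ) h1 l hl)
      rw [e l hl] at this
      exact_mod_cast this
    · have := ho l hl
      rw [e l hl] at this
      exact_mod_cast this

end Pool.Agent.MP_ee8c61_ag.H95
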