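import Pool.Agent.MP_ee8c61_ag.H95.Kit

/-! A criterion for etale coordinates, and the chart attached to polynomial coordinates. -/

namespace Pool.Agent.MP_ee8c61_ag.H95

open MvPolynomial

namespace PchA

/-- deformation of a homomorphism by derivations -/
noncomputable def bend {N : ℕ} {A B : Type} [CommRing A] [Algebra ℂ A] [CommRing B] [Algebra ℂ B]
    (D : Fin N → Derivation ℂ A A) (g : A →ₐ[ℂ] B) (ε : Fin N → B) (hε : ∀ l m, ε l * ε m = 0) :
    A →ₐ[ℂ] B where
  toFun h := g h + ∑ m, g (D m h) * ε m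
  map_one' := by simp
  map_zero' := by simp
  map_add' x y := by
    simp only [map_add, add_mul, Finset.sum_add_distrib]
    ring
  map_mul' x y := by
    have h0 : (∑ m, g (D m x) * ε m) * ∑ m, g (D m y) * ε m = 0 := by
      rw [Finset.sum_mul_sum]
      refine Finset.sum_eq_zero fun l _ => Finset.sum_eq_zero fun m _ => ?_
      rw [mul_mul_mul_comm, hε, mul_zero]
    have h1 : ∑ m, g (D m (x * y)) * ε m =
        g x * ∑ m, g (D m y) * ε m + g y * ∑ m, g (D m x) * ε m := by
      rw [Finset.mul_sum, Finset.mul_sum, ← Finset.sum_add_distrib]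
      refine Finset.sum_congr rfl fun m _ => ?_
      rw [Derivation.leibniz, smul_eq_mul, smul_eq_mul, map_add, map_mul, map_mul]
      ring
    rw [h1, map_mul]
    linear_combination -h0
  commutes' c := by simp

variable {N : ℕ} {A : Type} [CommRing A] [Algebra ℂ A]

theorem chain {B : Type} [AddCommGroup B] [Module A B] [Module ℂ B] (j : Pol (Fin N) →ₐ[ℂ] A)
    (δ : Derivation ℂ A B) (p : Pol (Fin N)) :
    δ (j p) = ∑ i, j (pderiv i p) • δ (j (X i)) := by
  induction p using MvPolynomial.induction_on with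
  | C c =>
    have : j (C c) = algebraMap ℂ A c := j.commutes c
    simp [this]
  | add p q hp hq => simp only [map_add, hp, hq, add_smul, Finset.sum_add_distrib]
  | mul_X p k hp =>
    rw [map_mul, δ.leibniz, hp, Finset.smul_sum]
    simp only [Derivation.leibniz, pderiv_X, smul_eq_mul, map_add, map_mul, add_smul,
      Finset.sum_add_distrib, mul_smul]
    congr 1
    rw [Finset.sum_eq_single k]
    · simp
    · intro i _ hi
      simp [Pi.single_eq_of_ne hi.symm]
    · simp

variable [Algebra (Pol (Fin N)) A] [IsScalarTower ℂ (Pol (Fin N)) A] (q : Pol (Fin N))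
  [IsLocalization.Away q A]

include q

theorem hom_ext {B : Type} [Semiring B] [Algebra ℂ B] {γ γ' : A →ₐ[ℂ] B}
    (h : ∀ l, γ (algebraMap (Pol (Fin N)) A (X l)) = γ' (algebraMap (Pol (Fin N)) A (X l))) :
    γ = γ' := by
  have h1 : γ.comp (IsScalarTower.toAlgHom ℂ (Pol (Fin N)) A) =
      γ'.comp (IsScalarTower.toAlgHom ℂ (Pol (Fin N)) A) := MvPolynomial.algHom_ext h
  refine AlgHom.coe_ringHom_injective (IsLocalization.ringHom_ext (Submonoid.powers q) ?_)
  exact RingHom.ext fun p => AlgHom.congr_fun h1 p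

theorem exists_der (v : Fin N → A) :
    ∃ δ : Derivation ℂ A A, ∀ i, δ (algebraMap (Pol (Fin N)) A (X i)) = v i := by
  let Φ₀ : Pol (Fin N) →ₐ[ℂ] DualNumber A := aeval fun i =>
    TrivSqZeroExt.inl (algebraMap (Pol (Fin N)) A (X i)) + TrivSqZeroExt.inr (v i)
  have h1 : (TrivSqZeroExt.fstHom ℂ A A).comp Φ₀ = IsScalarTower.toAlgHom ℂ (Pol (Fin N)) A :=
    MvPolynomial.algHom_ext fun i => by simp [Φ₀]
  have h2 : IsUnit (Φ₀ q) := by
    rw [TrivSqZeroExt.isUnit_iff_isUnit_fst]
    have : (Φ₀ q).fst = algebraMap (Pol (Fin N)) A q := AlgHom.congr_fun h1 q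
    rw [this]
    exact IsLocalization.Away.algebraMap_isUnit q
  let Φ : A →ₐ[ℂ] DualNumber A := IsLocalization.Away.liftAlgHom q h2
  have h3 : ∀ p, Φ (algebraMap (Pol (Fin N)) A p) = Φ₀ p := fun p =>
    IsLocalization.Away.lift_eq q h2 p
  have h4 : (TrivSqZeroExt.fstHom ℂ A A).comp Φ = AlgHom.id ℂ A := hom_ext q fun l => by
    rw [AlgHom.comp_apply, h3]
    exact AlgHom.congr_fun h1 (X l)
  have h5 : ∀ h, (Φ h).fst = h := fun h => AlgHom.congr_fun h4 h
  refine ⟨Derivation.mk' (((TrivSqZeroExt.sndHom A A).restrictScalars ℂ).comp Φ.toLinearMap)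
    fun a b => ?_, fun i => ?_⟩
  · change (Φ (a * b)).snd = a * (Φ b).snd + b * (Φ a).snd
    rw [map_mul, DualNumber.snd_mul, h5, h5, mul_comm _ b]
  · change (Φ _).snd = _
    rw [h3]
    simp [Φ₀]

theorem der_zero {B : Type} [AddCommGroup B] [Module A B] [Module ℂ B] (δ : Derivation ℂ A B)
    (h : ∀ l, δ (algebraMap (Pol (Fin N)) A (X l)) = 0) : δ = 0 := by
  have h1 : ∀ p, δ (algebraMap (Pol (Fin N)) A p) = 0 := fun p =>
    (chain (IsScalarTower.toAlgHom ℂ (Pol (Fin N)) A) δ p).trans
      (Finset.sum_eq_zero fun i _ => by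
        rw [show δ (IsScalarTower.toAlgHom ℂ (Pol (Fin N)) A (X i)) = 0 from h i, smul_zero])
  ext x
  obtain ⟨n, p, e⟩ := IsLocalization.Away.surj q x
  have h2 := δ.leibniz x (algebraMap (Pol (Fin N)) A (q ^ n))
  rw [h1 (q ^ n), smul_zero, zero_add, map_pow, e, h1] at h2
  exact (((IsLocalization.Away.algebraMap_isUnit q).pow n).smul_eq_zero).1 h2.symm

end PchA

theorem et : StmtET := by
  intro N A _ _ z D hs hD hz
  let _ : Algebra (Pol (Fin N)) A := (ev z).toRingHom.toAlgebra
  have : IsScalarTower ℂ (Pol (Fin N)) A :=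
    IsScalarTower.of_algebraMap_eq fun c => ((ev z).commutes c).symm
  have hX : ∀ l, algebraMap (Pol (Fin N)) A (X l) = z l := fun l => aeval_X z l
  have h1 : Algebra.FormallyUnramified (Pol (Fin N)) A := by
    have h2 := hz _ ((KaehlerDifferential.D (Pol (Fin N)) A).restrictScalars ℂ) fun l => by
      rw [← hX]
      exact (KaehlerDifferential.D (Pol (Fin N)) A).map_algebraMap _
    refine ⟨subsingleton_of_forall_eq 0 fun x => ?_⟩
    have h3 : x ∈ Submodule.span A (Set.range (KaehlerDifferential.D (Pol (Fin N)) A)) := by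
      rw [KaehlerDifferential.span_range_derivation]
      trivial
    refine (Submodule.mem_bot A).1 (Submodule.span_le.2 ?_ h3)
    rintro _ ⟨a, rfl⟩
    exact Derivation.congr_fun h2 a
  have h2 : Algebra.FormallySmooth (Pol (Fin N)) A := by
    refine .of_comp_surjective fun B _ _ I hI f => ?_
    let _ : Algebra ℂ B := ((algebraMap (Pol (Fin N)) B).comp (algebraMap ℂ _)).toAlgebra
    have : IsScalarTower ℂ (Pol (Fin N)) B := IsScalarTower.of_algebraMap_eq' rfl
    obtain ⟨g, hg⟩ := Algebra.FormallySmooth.comp_surjective ℂ A I hI (f.restrictScalars ℂ)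
    have hg' : ∀ a, Ideal.Quotient.mk I (g a) = f a := fun a => AlgHom.congr_fun hg a
    have hm : ∀ m, algebraMap (Pol (Fin N)) B (X m) - g (z m) ∈ I := fun m => by
      rw [← Ideal.Quotient.eq, hg', ← hX, f.commutes]
      rfl
    have hε : ∀ l m, (algebraMap (Pol (Fin N)) B (X l) - g (z l)) *
        (algebraMap (Pol (Fin N)) B (X m) - g (z m)) = 0 := fun l m => by
      rw [← Ideal.mem_bot, ← hI, sq]
      exact Ideal.mul_mem_mul (hm l) (hm m)
    have h3 : (PchA.bend D g _ hε).comp (IsScalarTower.toAlgHom ℂ (Pol (Fin N)) A) =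
        IsScalarTower.toAlgHom ℂ (Pol (Fin N)) B := MvPolynomial.algHom_ext fun l => by
      change g (algebraMap _ A (X l)) + ∑ m, g (D m (algebraMap _ A (X l))) *
        (algebraMap (Pol (Fin N)) B (X m) - g (z m)) = algebraMap _ B (X l)
      rw [hX, Finset.sum_eq_single l]
      · rw [hD, if_pos rfl, map_one, one_mul, add_sub_cancel]
      · intro m _ hm
        rw [hD, if_neg hm, map_zero, zero_mul]
      · simp
    refine ⟨{ __ := (PchA.bend D g _ hε).toRingHom, commutes' := fun p => AlgHom.congr_fun h3 p },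
      AlgHom.ext fun a => ?_⟩
    change Ideal.Quotient.mk I (g a + ∑ m, g (D m a) *
      (algebraMap (Pol (Fin N)) B (X m) - g (z m))) = f a
    rw [map_add, hg', Ideal.Quotient.eq_zero_iff_mem.2
      (I.sum_mem fun m _ => I.mul_mem_left _ (hm m)), add_zero]
  exact Algebra.FormallyEtale.of_formallyUnramified_and_formallySmooth

theorem pch (h : StmtET) : StmtPCH := by
  intro N z f d
  obtain ⟨q, hq⟩ : ∃ q, q = jacd z * d := ⟨_, rfl⟩
  let A := Localization.Away q
  let j : Pol (Fin N) →ₐ[ℂ] A := IsScalarTower.toAlgHom ℂ (Pol (Fin N)) A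
  have hu : IsUnit (j (jacd z) * j d) := by
    rw [← map_mul, ← hq]
    exact IsLocalization.Away.algebraMap_isUnit q
  let Jc : (Fin N → Pol (Fin N)) → Matrix (Fin N) (Fin N) A := fun w =>
    Matrix.of fun i l => j (pderiv l (w i))
  have hdet : ∀ w, (Jc w).det = j (jacd w) := fun w => (j.map_det _).symm
  have hJ : IsUnit (Jc z).det := by
    rw [hdet]
    exact isUnit_of_mul_isUnit_left hu
  choose D hD using fun l => PchA.exists_der (A := A) q fun m => (Jc z)⁻¹ m l
  have hDp : ∀ (w : Fin N → Pol (Fin N)) i l, D l (j (w i)) = (Jc w * (Jc z)⁻¹) i l := by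
    intro w i l
    rw [PchA.chain j, Matrix.mul_apply]
    exact Finset.sum_congr rfl fun m _ => congrArg (j (pderiv m (w i)) * ·) (hD l m)
  have hdual : ∀ l m, D l (j (z m)) = if l = m then 1 else 0 := fun l m => by
    rw [hDp, Matrix.mul_nonsing_inv _ hJ, Matrix.one_apply]
    simp only [eq_comm]
  have hs : Algebra.FormallySmooth ℂ A :=
    have := Algebra.FormallySmooth.of_isLocalization (Rₘ := A) (Submonoid.powers q)
    Algebra.FormallySmooth.comp ℂ (Pol (Fin N)) A
  have het := h N A (fun l => j (z l)) D hs hdual fun B _ _ _ _ δ hδ => by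
    refine PchA.der_zero q δ fun l => ?_
    have h1 : ∀ i, ∑ m, Jc z i m • δ (j (X m)) = 0 := fun i =>
      (PchA.chain j δ (z i)).symm.trans (hδ i)
    have h2 : ∑ i, (Jc z)⁻¹ l i • ∑ m, Jc z i m • δ (j (X m)) = δ (j (X l)) := by
      simp only [Finset.smul_sum, smul_smul]
      rw [Finset.sum_comm]
      simp only [← Finset.sum_smul, ← Matrix.mul_apply, Matrix.nonsing_inv_mul _ hJ,
        Matrix.one_apply, ite_smul, one_smul, zero_smul, Finset.sum_ite_eq, Finset.mem_univ,
        if_true]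
    simp only [h1, smul_zero, Finset.sum_const_zero] at h2
    exact h2.symm
  let y : Fin N ⊕ Fin N ⊕ Fin N ⊕ Unit → A := Sum.elim (fun l => j (X l))
    (Sum.elim (fun l => j (z l)) (Sum.elim (fun l => j (f l))
      fun _ => IsLocalization.Away.invSelf q))
  have hgen : Function.Surjective (ev y) := by
    intro x
    obtain ⟨n, p, e⟩ := IsLocalization.Away.surj q x
    have h1 : (ev y).comp (rename Sum.inl) = j := MvPolynomial.algHom_ext fun l => by simp [y]
    refine ⟨rename Sum.inl p * X (Sum.inr (Sum.inr (Sum.inr ()))) ^ n, ?_⟩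
    rw [map_mul, map_pow, aeval_X, show ev y (rename Sum.inl p) = algebraMap _ A p from
      AlgHom.congr_fun h1 p, ← e, mul_assoc, ← mul_pow]
    change x * (algebraMap _ A q * IsLocalization.Away.invSelf q) ^ n = x
    rw [IsLocalization.Away.mul_invSelf, one_pow, mul_one]
  refine ⟨{ A := A, κ := Fin N ⊕ Fin N ⊕ Fin N ⊕ Unit, y := y, gen := hgen
            zc := fun l => Sum.inr (Sum.inl l), fc := fun l => Sum.inr (Sum.inr (Sum.inl l))
            et := het, D := D, dual := hdual }, j, Sum.inl, fun _ => rfl, fun _ => rfl,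
    fun _ => rfl, isUnit_of_mul_isUnit_left hu, isUnit_of_mul_isUnit_right hu, ?_,
    fun B _ _ w h1 h2 => ?_⟩
  · change (Matrix.of fun i l => D l (j (f i))).det * j (jacd z) = j (jacd f)
    have h1 : (Matrix.of fun i l => D l (j (f i))) = Jc f * (Jc z)⁻¹ :=
      Matrix.ext fun i l => hDp f i l
    rw [h1, ← hdet, ← hdet, ← Matrix.det_mul, Matrix.nonsing_inv_mul_cancel_right _ _ hJ]
  · have h3 : IsUnit (ev w q) := by
      rw [hq, map_mul]
      exact h1.mul h2
    have h4 : ∀ l, (IsLocalization.Away.liftAlgHom q h3 : A →ₐ[ℂ] B) (j (X l)) = w l := fun l =>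
      (IsLocalization.Away.lift_eq q h3 (X l)).trans (aeval_X w l)
    exact ⟨IsLocalization.Away.liftAlgHom q h3, h4, fun γ hγ =>
      PchA.hom_ext (A := A) q fun l => (hγ l).trans (h4 l).symm⟩

end Pool.Agent.MP_ee8c61_ag.H95
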