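import Pool.Agent.MP_ee8c61_ag.H95.Kit

/-! From polynomial charts to charts. -/

namespace Pool.Agent.MP_ee8c61_ag.H95

open Set MvPolynomial
open Pool.Agent.MP_4f1c5b_al.H95 (IsEuler ConE)

namespace PdA

variable {N : ℕ}

/-- The points of a chart form a closed set. -/
theorem con_pts (C : Chart N) : ConE ⊤ {x : C.κ → ℂ | ∃ φ : C.A →ₐ[ℂ] ℂ, φ ∘ C.y = x} := by
  obtain ⟨G, hG⟩ := (IsNoetherian.noetherian (RingHom.ker (ev C.y).toRingHom))
  have e : {x : C.κ → ℂ | ∃ φ : C.A →ₐ[ℂ] ℂ, φ ∘ C.y = x} = {x | ∀ p ∈ G, eval x p = 0} := by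
    ext x
    constructor
    · rintro ⟨φ, rfl⟩ p hp
      have h1 : ev C.y p = 0 := (hG ▸ Submodule.subset_span hp : p ∈ RingHom.ker (ev C.y).toRingHom)
      have h2 := C.map_ev φ C.y p
      rw [h1, map_zero] at h2
      exact h2.symm
    · intro h
      have h1 : RingHom.ker (ev C.y).toRingHom ≤ RingHom.ker (ev x).toRingHom := by
        rw [← hG]
        exact Submodule.span_le.2 h
      refine ⟨AlgHom.liftOfSurjective _ C.gen _ h1, funext fun k => ?_⟩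
      have h2 := AlgHom.liftOfSurjective_apply _ C.gen _ h1 (X k)
      simpa using h2
  rw [e]
  exact conE_ball G fun p _ => (PolyE.top p).con

theorem map_j {A B : Type} [CommRing A] [Algebra ℂ A] [CommRing B] [Algebra ℂ B]
    (j : Pol (Fin N) →ₐ[ℂ] A) (γ : A →ₐ[ℂ] B) (p : Pol (Fin N)) :
    γ (j p) = ev (fun l => γ (j (X l))) p := by
  have : γ.comp j = ev fun l => γ (j (X l)) := algHom_ext fun l => by simp
  exact DFunLike.congr_fun this p

theorem str (h : StmtPCH) {J : Type} {g : J → Pol (Fin N)} (s : PStr N g) : ∃ t : Str N g,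
    t.S = s.S ∧ t.a = s.a ∧ t.k = s.k ∧ (∀ χ, H36.IsEuler χ → χ _ t.P = χ _ s.P) ∧
    (∀ w : Fin N → PS, bs w ∈ s.P →
      ∃ γ : t.A →ₐ[ℂ] PS, t.base γ ∈ t.P ∧ ∀ i, γ (t.f i) = ev w (s.f i)) ∧
    ∃ W : (t.A →ₐ[ℂ] PS) → Fin N → PS, W.Injective ∧ ∀ γ, (t.base γ ∈ t.P → bs (W γ) ∈ s.P) ∧
      (∀ l, γ (t.z l) = ev (W γ) (s.z l)) ∧ ∀ i, γ (t.f i) = ev (W γ) (s.f i) := by
  obtain ⟨C, j, yc, hy, hz, hf, ⟨a, ha⟩, ⟨b, hb⟩, hJ, hU⟩ := h N s.z s.f s.d
  let P : Set (C.κ → ℂ) := {x | (∃ φ : C.A →ₐ[ℂ] ℂ, φ ∘ C.y = x) ∧ x ∘ yc ∈ s.P}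
  have hP : ConE ⊤ P := conE_and (con_pts C) (s.con.comp yc)
  have hφ : ∀ (φ : C.A →ₐ[ℂ] ℂ) (p), φ (j p) = eval ((φ ∘ C.y) ∘ yc) p := fun φ p => by
    rw [map_j j φ p]
    exact congrArg (fun w => eval w p) (funext fun l => congrArg φ (hy l).symm)
  have hu : ∀ (φ : C.A →ₐ[ℂ] ℂ) (c : C.Aˣ), φ (c⁻¹ : C.Aˣ) ≠ 0 := fun φ c =>
    ((c⁻¹).isUnit.map φ).ne_zero
  have hinj : ∀ (B : Type) [CommRing B] [Algebra ℂ B] (γ γ' : C.A →ₐ[ℂ] B),
      (fun l => γ (j (X l))) = (fun l => γ' (j (X l))) → γ = γ' := by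
    intro B _ _ γ γ' e
    exact (hU B (fun l => γ (j (X l))) (by rw [← map_j, ← ha]; exact a.isUnit.map γ)
      (by rw [← map_j, ← hb]; exact b.isUnit.map γ)).unique (fun _ => rfl)
      fun l => (congrFun e l).symm
  have hfj : C.f = j ∘ s.f := funext hf
  refine ⟨{ toChart := C
            P := P
            con := hP
            pts := fun x hx => hx.1
            S := s.S
            a := s.a
            k := s.k
            u := fun i => j (s.u i) * (b⁻¹ : C.Aˣ)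
            v := j s.v * (b⁻¹ : C.Aˣ) * (a⁻¹ : C.Aˣ)
            van := fun φ hφ' l hl => by rw [hz, hφ]; exact s.van _ hφ'.2 l hl
            fac := fun i => ?_
            unit := fun φ hφ' => ?_
            jac := ?_
            unitv := fun φ hφ' => ?_
            esc := fun l hl h0 => ?_ }, rfl, rfl, rfl, fun χ H => ?_, fun w hw => ?_,
    fun γ l => γ (j (X l)), fun γ γ' e => hinj PS γ γ' e, fun γ => ⟨fun hγ => ?_,
      fun l => (congrArg γ (hz l)).trans (map_j j γ _),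
      fun i => (congrArg γ (hf i)).trans (map_j j γ _)⟩⟩
  · have h1 := congrArg j (s.fac i)
    rw [map_mul, map_mul, map_prod, comp_aeval_apply, ← hb] at h1
    simp only [map_pow, ← hz] at h1
    rw [← mul_assoc, ← h1, hfj, mul_comm (b : C.A), Units.mul_inv_cancel_right]
    rfl
  · obtain ⟨i, hi⟩ := s.unit _ hφ'.2
    exact ⟨i, by rw [map_mul, hφ]; exact mul_ne_zero hi (hu φ b)⟩
  · have h1 := congrArg j s.jac
    rw [map_mul, map_mul, map_prod, ← hb, ← hJ, ← ha] at h1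
    simp only [map_pow, ← hz] at h1
    rw [← mul_assoc, ← mul_assoc, ← h1, mul_comm (b : C.A), Units.mul_inv_cancel_right,
      Units.mul_inv_cancel_right]
  · rw [map_mul, map_mul, hφ]
    exact mul_ne_zero (mul_ne_zero (s.unitv _ hφ'.2) (hu φ b)) (hu φ a)
  · obtain ⟨i, hi⟩ := s.esc l hl h0
    have h1 := map_dvd j hi
    rw [map_mul, ← hb, ← hz, ← hf] at h1
    exact ⟨i, Units.dvd_mul_left.1 h1⟩
  · refine (H.bijOn (conE_iff.1 hP) (fun l => X (yc l)) ?_).symm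
    simp only [eval_X]
    refine ⟨fun x hx => hx.2, ?_, fun x hx => ?_⟩
    · rintro _ ⟨⟨φ, rfl⟩, -⟩ _ ⟨⟨φ', rfl⟩, -⟩ e
      rw [hinj ℂ φ φ' (funext fun l => by rw [← hy]; exact congrFun e l)]
    · obtain ⟨φ, h1, -⟩ := hU ℂ x (s.et x hx).isUnit (s.den x hx).isUnit
      have e : (φ ∘ C.y) ∘ yc = x := funext fun l => by
        rw [← h1 l, ← hy]; rfl
      exact ⟨φ ∘ C.y, ⟨⟨φ, rfl⟩, by rwa [e]⟩, e⟩
  · have hu' : ∀ p, eval (bs w) p ≠ 0 → IsUnit (ev w p) := fun p hp =>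
      PowerSeries.isUnit_iff_constantCoeff.2 (by rw [bs_ev]; exact hp.isUnit)
    obtain ⟨γ, h1, -⟩ := hU PS w (hu' _ (s.et _ hw)) (hu' _ (s.den _ hw))
    have e : C.base γ ∘ yc = bs w := funext fun l => by
      rw [bs, ← h1 l, ← hy]; rfl
    have e' : C.base γ ∘ yc ∈ s.P := by rwa [e]
    refine ⟨γ, ⟨⟨C.pt γ, rfl⟩, e'⟩, fun i => (congrArg γ (hf i)).trans ?_⟩
    rw [map_j, funext h1]
  · have e : C.base γ ∘ yc = bs fun l => γ (j (X l)) := funext fun l => by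
      rw [bs, ← hy]; rfl
    rw [← e]
    exact hγ.2

end PdA

theorem pd (h : StmtPCH) : StmtPD := by
  intro N J g P
  choose t h1 h2 h3 h4 h5 W h6 h7 using fun r => PdA.str h (P.s r)
  have key : ∀ r r' γ γ', (t r).Fin' γ → (t r').Fin' γ' → γ ∘ (t r).f = γ' ∘ (t r').f →
      r = r' ∧ W r γ = W r' γ' := fun r r' γ γ' a a' e =>
    P.uniq r r' _ _ ((h7 r γ).1 a.1) ((h7 r' γ').1 a'.1)
      (fun l hl => by rw [← (h7 r γ).2.1]; exact a.2 l (h1 r ▸ hl))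
      (fun l hl => by rw [← (h7 r' γ').2.1]; exact a'.2 l (h1 r' ▸ hl))
      fun i => by rw [← (h7 r γ).2.2, ← (h7 r' γ').2.2]; exact congrFun e i
  refine ⟨⟨P.R, t, fun b hb hg => ?_, fun r γ γ' a a' e => h6 r (key r r γ γ' a a' e).2,
    fun r r' γ γ' a a' e => (key r r' γ γ' a a' e).1⟩, fun χ H => ?_⟩
  · obtain ⟨r, w, hw, e⟩ := P.ex b hb hg
    obtain ⟨γ, a, a'⟩ := h5 r w hw
    exact ⟨r, γ, a, funext fun i => by rw [← e i, ← a' i]; rfl⟩
  · simp only [Dat.ztop, PDat.ztop, h1, h2, h3, h4 _ χ H]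

end Pool.Agent.MP_ee8c61_ag.H95
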