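import Pool.Agent.MP_ee8c61_ag.H95.Kit

/-! The measure of products with coordinate subspaces and tori. -/

namespace Pool.Agent.MP_ee8c61_ag.H95

open Set
open Pool.Agent.MP_4f1c5b_al.H95 (ConE)

namespace ProdA

variable {κ ι : Type}

/-- The product of `B` with a coordinate subspace and a torus. -/
def W (B : Set (κ → ℂ)) (Z U : Finset ι) : Set (κ ⊕ ι → ℂ) :=
  {x | x ∘ Sum.inl ∈ B ∧ (∀ j ∈ Z, x (Sum.inr j) = 0) ∧ ∀ j ∈ U, x (Sum.inr j) ≠ 0}

theorem con {E : Subfield ℂ} {B : Set (κ → ℂ)} (hB : ConE E B) (Z U : Finset ι) :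
    ConE E (W B Z U) :=
  conE_and (hB.comp Sum.inl) (conE_and (conE_ball Z fun _ _ => conE_coord _)
    (conE_ball U fun _ _ => conE_not (conE_coord _)))

theorem base (M : MM) [Finite κ] [Fintype ι] {B : Set (κ → ℂ)} (hB : ConE M.E B)
    (Z : Finset ι) : M.μ (W B Z ∅) * M.L ^ Z.card = M.μ B * M.L ^ Fintype.card ι := by
  classical
  have h := M.fib' (S := W B Z ∅) (B := B) Sum.inl {j // j ∉ Z} (con hB Z ∅) hB
    (fun x hx => hx.1) fun y hy => ⟨fun j => Sum.inr j.1, mapsTo_univ _ _, ?_, ?_⟩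
  · have e : Nat.card {j // j ∉ Z} + Z.card = Fintype.card ι := by
      rw [Nat.card_eq_fintype_card, Fintype.card_subtype_compl, Fintype.card_coe]
      exact Nat.sub_add_cancel (Finset.card_le_univ Z)
    rw [h, ← e, pow_add]
    ring
  · intro x hx x' hx' e
    funext k
    rcases k with k | j
    · exact (congrFun hx.2 k).trans (congrFun hx'.2 k).symm
    · by_cases hj : j ∈ Z
      · rw [hx.1.2.1 j hj, hx'.1.2.1 j hj]
      · exact congrFun e ⟨j, hj⟩
  · intro w _
    refine ⟨Sum.elim y fun j => if h : j ∈ Z then 0 else w ⟨j, h⟩, ⟨⟨hy, fun j hj => ?_,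
      fun j hj => absurd hj (Finset.notMem_empty j)⟩, rfl⟩, funext fun j => ?_⟩
    · simp [hj]
    · simp [j.2]

theorem step (M : MM) [Finite κ] [Fintype ι] [DecidableEq ι] {B : Set (κ → ℂ)}
    (hB : ConE M.E B) (Z U : Finset ι) (j : ι) :
    M.μ (W B Z U) = M.μ (W B (insert j Z) U) + M.μ (W B Z (insert j U)) := by
  rw [M.split (con hB Z U) (conE_coord (Sum.inr j))]
  congr 2
  · ext x
    simp only [W, mem_inter_iff, mem_ofPred_eq, Finset.forall_mem_insert]
    tauto
  · ext x
    simp only [W, mem_sdiff, mem_ofPred_eq, Finset.forall_mem_insert]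
    tauto

theorem main (M : MM) [Finite κ] [Fintype ι] {B : Set (κ → ℂ)} (hB : ConE M.E B)
    (U : Finset ι) : ∀ Z : Finset ι, Disjoint Z U → M.μ (W B Z U) * M.L ^ (Z.card + U.card) =
      M.μ B * (M.L - 1) ^ U.card * M.L ^ Fintype.card ι := by
  classical
  induction U using Finset.induction_on with
  | empty => intro Z _; simpa using base M hB Z
  | insert j U hj ih =>
    intro Z hd
    have hjZ : j ∉ Z := fun h => Finset.disjoint_left.1 hd h (Finset.mem_insert_self j U)
    have hd' : Disjoint Z U := hd.mono_right (Finset.subset_insert j U)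
    have h1 := ih Z hd'
    have h2 := ih (insert j Z) (Finset.disjoint_insert_left.2 ⟨hj, hd'⟩)
    rw [Finset.card_insert_of_notMem hjZ] at h2
    rw [step M hB Z U j] at h1
    rw [Finset.card_insert_of_notMem hj]
    linear_combination M.L * h1 - h2

end ProdA

theorem prod : StmtPROD := fun M _ _ _ _ _ Z U hB hd =>
  ⟨ProdA.con hB Z U, ProdA.main M hB U Z hd⟩

end Pool.Agent.MP_ee8c61_ag.H95
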