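import Pool.Agent.MP_ee8c61_ag.H95.Kit

/-!
From the estimates of the truncated sums to the coefficients of the series.
-/

namespace Pool.Agent.MP_ee8c61_ag.H95

open PowerSeries Finset

namespace TailA

variable (M : MM)

/-- The fractions with bounded denominators. -/
def Fr : Subring Hyperreal where
  carrier := {x | ∃ d ∈ M.Λ, ∃ B : ℕ, 0 < d ∧ d ≤ M.L ^ B ∧ d * x ∈ M.Λ}
  one_mem' := ⟨1, one_mem _, 0, one_pos, by simp, by simp⟩
  zero_mem' := ⟨1, one_mem _, 0, one_pos, by simp, by simp⟩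
  mul_mem' := by
    rintro x y ⟨d, h1, B, h2, h3, h4⟩ ⟨d', h1', B', h2', h3', h4'⟩
    refine ⟨d * d', mul_mem h1 h1', B + B', mul_pos h2 h2', ?_, ?_⟩
    · rw [pow_add]; exact mul_le_mul h3 h3' h2'.le (h2.le.trans h3)
    · rw [mul_mul_mul_comm]; exact mul_mem h4 h4'
  add_mem' := by
    rintro x y ⟨d, h1, B, h2, h3, h4⟩ ⟨d', h1', B', h2', h3', h4'⟩
    refine ⟨d * d', mul_mem h1 h1', B + B', mul_pos h2 h2', ?_, ?_⟩
    · rw [pow_add]; exact mul_le_mul h3 h3' h2'.le (h2.le.trans h3)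
    · rw [show d * d' * (x + y) = d' * (d * x) + d * (d' * y) by ring]
      exact add_mem (mul_mem h1' h4) (mul_mem h1 h4')
  neg_mem' := by
    rintro x ⟨d, h1, B, h2, h3, h4⟩
    exact ⟨d, h1, B, h2, h3, by rw [mul_neg]; exact neg_mem h4⟩

theorem of_mem {x : Hyperreal} (h : x ∈ M.Λ) : x ∈ Fr M :=
  ⟨1, one_mem _, 0, one_pos, by simp, by simpa using h⟩

theorem q_pos (κ : ℕ) : 0 < 1 / M.L ^ κ := one_div_pos.2 (pow_pos M.pos κ)

theorem q_le (κ : ℕ) : M.L * (1 / M.L ^ (κ + 1)) ≤ 1 := by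
  rw [mul_one_div, div_le_one (pow_pos M.pos _)]
  exact le_self_pow₀ M.one_lt.le (Nat.succ_ne_zero κ)

theorem q_lt (κ : ℕ) : 1 / M.L ^ (κ + 1) < 1 := by
  rw [div_lt_one (pow_pos M.pos _)]
  exact one_lt_pow₀ M.one_lt (Nat.succ_ne_zero κ)

theorem q_mem (κ : ℕ) : 1 / M.L ^ κ ∈ Fr M :=
  ⟨M.L ^ κ, pow_mem M.Lmem κ, κ, pow_pos M.pos κ, le_rfl, by
    rw [mul_one_div_cancel (pow_pos M.pos κ).ne']; exact one_mem _⟩

theorem q_mem' (κ : ℕ) : (1 - 1 / M.L ^ (κ + 1))⁻¹ ∈ Fr M := by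
  have h := one_lt_pow₀ M.one_lt (Nat.succ_ne_zero κ)
  have h0 := (pow_pos M.pos (κ + 1)).ne'
  have h1 := (sub_pos.2 h).ne'
  refine ⟨M.L ^ (κ + 1) - 1, sub_mem (pow_mem M.Lmem _) (one_mem _), κ + 1, sub_pos.2 h,
    by linarith, ?_⟩
  rw [one_sub_div h0, inv_div, mul_div_cancel₀ _ h1]
  exact pow_mem M.Lmem _

theorem phi_eq (a κ : ℕ) : M.phi a (κ + 1) = C ((M.L - 1) * (1 / M.L ^ (κ + 1))) * X ^ a +
    C (1 / M.L ^ (κ + 1)) * (X ^ a * M.phi a (κ + 1)) := by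
  have h : constantCoeff (1 - C (1 / M.L ^ (κ + 1)) * X ^ a : PowerSeries Hyperreal) ≠ 0 := by
    rcases a with _ | a
    · simpa using (sub_pos.2 (q_lt M κ)).ne'
    · simp
  have := PowerSeries.mul_inv_cancel _ h
  rw [MM.phi, mul_one_div]
  linear_combination (C ((M.L - 1) / M.L ^ (κ + 1)) * X ^ a) * this

theorem coeff_phi (a κ i : ℕ) : coeff i (M.phi a (κ + 1)) =
    (if i = a then (M.L - 1) * (1 / M.L ^ (κ + 1)) else 0) +
    1 / M.L ^ (κ + 1) * if a ≤ i then coeff (i - a) (M.phi a (κ + 1)) else 0 := by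
  conv_lhs => rw [phi_eq]
  rw [map_add, coeff_C_mul, coeff_C_mul, coeff_X_pow, coeff_X_pow_mul', mul_ite, mul_one, mul_zero]

theorem phi_spec (a κ i : ℕ) :
    |coeff i (M.phi a (κ + 1))| ≤ 1 ∧ coeff i (M.phi a (κ + 1)) ∈ Fr M := by
  have h1 := q_pos M (κ + 1)
  have h2 := q_le M κ
  have h3 := q_lt M κ
  have h4 : ∀ i, |if i = a then (M.L - 1) * (1 / M.L ^ (κ + 1)) else 0| ≤
      1 - 1 / M.L ^ (κ + 1) := fun i => by
    split_ifs
    · rw [abs_of_nonneg (mul_nonneg (sub_pos.2 M.one_lt).le h1.le)]; linarith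
    · rw [abs_zero]; linarith
  have h5 : ∀ i, (if i = a then (M.L - 1) * (1 / M.L ^ (κ + 1)) else 0) ∈ Fr M := fun i => by
    split_ifs
    · exact mul_mem (of_mem M (sub_mem M.Lmem (one_mem _))) (q_mem M _)
    · exact zero_mem _
  rcases Nat.eq_zero_or_pos a with rfl | ha
  · have e := coeff_phi M 0 κ i
    rw [if_pos (Nat.zero_le i), Nat.sub_zero] at e
    have h6 := sub_pos.2 h3
    have e' : coeff i (M.phi 0 (κ + 1)) =
        (if i = 0 then (M.L - 1) * (1 / M.L ^ (κ + 1)) else 0) * (1 - 1 / M.L ^ (κ + 1))⁻¹ := by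
      rw [eq_mul_inv_iff_mul_eq₀ h6.ne']
      linear_combination e
    rw [e', abs_mul, abs_of_pos (inv_pos.2 h6), mul_inv_le_iff₀ h6, one_mul]
    exact ⟨h4 i, mul_mem (h5 i) (q_mem' M κ)⟩
  · induction i using Nat.strong_induction_on with
    | _ i ih =>
      rw [coeff_phi]
      have h6 : |if a ≤ i then coeff (i - a) (M.phi a (κ + 1)) else 0| ≤ 1 ∧
          (if a ≤ i then coeff (i - a) (M.phi a (κ + 1)) else 0) ∈ Fr M := by
        split_ifs with h
        · exact ih _ (by omega)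
        · exact ⟨by simp, zero_mem _⟩
      refine ⟨(abs_add_le _ _).trans ?_, add_mem (h5 i) (mul_mem (q_mem M _) h6.2)⟩
      rw [abs_mul, abs_of_pos h1]
      linarith [h4 i, mul_le_mul_of_nonneg_left h6.1 h1.le]

/-- The truncated series. -/
noncomputable def phiK (a κ K : ℕ) : PowerSeries Hyperreal :=
  ∑ ν ∈ Icc 1 K, C ((M.L - 1) * (1 / M.L ^ κ) ^ ν) * X ^ (a * ν)

theorem phi_sub (a κ K : ℕ) : M.phi a (κ + 1) - phiK M a (κ + 1) K =
    C ((1 / M.L ^ (κ + 1)) ^ K) * (X ^ (a * K) * M.phi a (κ + 1)) := by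
  induction K with
  | zero => simp [phiK]
  | succ K ih =>
    rw [phiK, sum_Icc_succ_top (by omega), ← phiK, ← sub_sub, ih]
    have := phi_eq M a κ
    simp only [pow_succ (1 / M.L ^ (κ + 1)) K, mul_add, mul_one, pow_add X, map_mul] at this ⊢
    linear_combination (C ((1 / M.L ^ (κ + 1)) ^ K) * X ^ (a * K)) * this

/-- All coefficients are bounded up to degree `n`. -/
def Bd (n : ℕ) (f : PowerSeries Hyperreal) (b : Hyperreal) : Prop := ∀ i ≤ n, |coeff i f| ≤ b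

theorem Bd.mul {n : ℕ} {f g : PowerSeries Hyperreal} {b c : Hyperreal} (hf : Bd n f b)
    (hg : Bd n g c) : Bd n (f * g) ((n + 1 : ℕ) * (b * c)) := fun i hi => by
  have hb : 0 ≤ b := (abs_nonneg _).trans (hf 0 n.zero_le)
  have hc : 0 ≤ c := (abs_nonneg _).trans (hg 0 n.zero_le)
  rw [coeff_mul]
  refine (abs_sum_le_sum_abs _ _).trans ((sum_le_card_nsmul _ _ (b * c) fun p hp => ?_).trans ?_)
  · have := mem_antidiagonal.1 hp
    rw [abs_mul]
    exact mul_le_mul (hf _ (by omega)) (hg _ (by omega)) (abs_nonneg _) hb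
  · rw [Nat.card_antidiagonal, nsmul_eq_mul]
    exact mul_le_mul_of_nonneg_right (Nat.cast_le.2 (by omega)) (mul_nonneg hb hc)

theorem Bd.add {n : ℕ} {f g : PowerSeries Hyperreal} {b c : Hyperreal} (hf : Bd n f b)
    (hg : Bd n g c) : Bd n (f + g) (b + c) := fun i hi => by
  rw [map_add]
  exact (abs_add_le _ _).trans (add_le_add (hf i hi) (hg i hi))

theorem Bd.mono {n : ℕ} {f : PowerSeries Hyperreal} {b c : Hyperreal} (hf : Bd n f b)
    (h : b ≤ c) : Bd n f c := fun i hi => (hf i hi).trans h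

theorem bd_sub (n a κ K : ℕ) : Bd n (M.phi a (κ + 1) - phiK M a (κ + 1) K) (1 / M.L ^ K) := by
  intro i _
  have h1 := q_pos M (κ + 1)
  have h2 : (1 / M.L ^ (κ + 1)) ^ K ≤ 1 / M.L ^ K := by
    rw [one_div_pow, ← pow_mul]
    exact one_div_le_one_div_of_le (pow_pos M.pos _)
      (pow_le_pow_right₀ M.one_lt.le (by nlinarith))
  rw [phi_sub, coeff_C_mul, coeff_X_pow_mul', abs_mul, abs_of_pos (pow_pos h1 K)]
  refine le_trans (mul_le_of_le_one_right (pow_pos h1 K).le ?_) h2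
  split_ifs
  · exact (phi_spec M _ _ _).1
  · simp

theorem bd_K (n a κ K : ℕ) : Bd n (phiK M a (κ + 1) K) 2 := fun i hi => by
  have h1 := bd_sub M n a κ K i hi
  have h2 := (phi_spec M a κ i).1
  have h3 : 1 / M.L ^ K ≤ 1 := by
    rw [div_le_one (pow_pos M.pos _)]; exact one_le_pow₀ M.one_lt.le
  rw [map_sub] at h1
  rw [abs_le] at h1 h2 ⊢
  constructor <;> linarith [h1.1, h1.2, h2.1, h2.2]

theorem prod_spec {N : ℕ} (n : ℕ) (a k : Fin N → ℕ) (S : Finset (Fin N)) :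
    (∀ i, coeff i (∏ l ∈ S, M.phi (a l) (k l + 1)) ∈ Fr M) ∧ ∃ c : ℕ,
      Bd n (∏ l ∈ S, M.phi (a l) (k l + 1)) c ∧ ∀ K,
      Bd n (∏ l ∈ S, M.phi (a l) (k l + 1) - ∏ l ∈ S, phiK M (a l) (k l + 1) K) (c / M.L ^ K) := by
  induction S using Finset.induction_on with
  | empty =>
    refine ⟨fun i => ?_, 1, fun i _ => ?_, fun K i _ => by simpa using (pow_pos M.pos K).le⟩
    · rw [prod_empty, coeff_one]; split_ifs; exacts [one_mem _, zero_mem _]
    · rw [prod_empty, coeff_one]; split_ifs <;> simp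
  | insert l S hl ih =>
    obtain ⟨h1, c, h2, h3⟩ := ih
    simp only [prod_insert hl]
    have h4 : Bd n (M.phi (a l) (k l + 1)) 1 := fun i _ => (phi_spec M _ _ i).1
    refine ⟨fun i => ?_, 3 * (n + 1) * c, (h4.mul h2).mono ?_, fun K => ?_⟩
    · rw [coeff_mul]
      exact sum_mem fun p _ => mul_mem (phi_spec M _ _ _).2 (h1 _)
    · rw [one_mul]
      exact_mod_cast (by nlinarith : (n + 1) * c ≤ 3 * (n + 1) * c)
    · have := ((bd_sub M n (a l) (k l) K).mul h2).add ((bd_K M n (a l) (k l) K).mul (h3 K))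
      convert this using 1
      · ring
      · push_cast; ring

theorem coeff_K {N : ℕ} (n K : ℕ) (a k : Fin N → ℕ) (S : Finset (Fin N)) :
    coeff n (∏ l ∈ S, phiK M (a l) (k l) K) =
      (M.L - 1) ^ S.card * ∑ ν ∈ FF S a n K, (M.L ^ ∑ l ∈ S, k l * ν l)⁻¹ := by
  have e : ∏ l ∈ S, phiK M (a l) (k l) K = ∏ l, ∑ j ∈ (if l ∈ S then Icc 1 K else {0}),
      if l ∈ S then C ((M.L - 1) * (1 / M.L ^ k l) ^ j) * X ^ (a l * j) else 1 := by
    rw [← prod_ite_mem_eq]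
    refine prod_congr rfl fun l _ => ?_
    split_ifs
    · rfl
    · simp
  rw [e, prod_univ_sum, map_sum, FF, sum_filter, mul_sum]
  refine sum_congr rfl fun ν _ => ?_
  rw [prod_ite_mem_eq, prod_mul_distrib, ← map_prod, prod_pow_eq_pow_sum, coeff_C_mul, coeff_X_pow,
    prod_mul_distrib, prod_const, mul_assoc]
  congr 1
  simp only [one_div, inv_pow, ← pow_mul, prod_inv_distrib, prod_pow_eq_pow_sum, mul_ite, mul_one,
    mul_zero, eq_comm (a := n)]

end TailA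

open TailA in
theorem tail : StmtTAIL := by
  intro M N R _ c S a k y n B hc hy h
  choose h1 b h2 h3 using fun r => prod_spec M n (a r) (k r) (S r)
  have hL := M.pos
  have e : coeff n (∑ r, C (c r) * ∏ l ∈ S r, M.phi (a r l) (k r l + 1)) =
      ∑ r, c r * coeff n (∏ l ∈ S r, M.phi (a r l) (k r l + 1)) := by
    simp only [map_sum, coeff_C_mul]
  rw [e, ← sub_eq_zero]
  obtain ⟨d, d1, B', d2, d3, d4⟩ : y - ∑ r, c r * coeff n (∏ l ∈ S r, M.phi (a r l) (k r l + 1)) ∈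
      Fr M := sub_mem ⟨M.L ^ B, pow_mem M.Lmem B, B, pow_pos hL B, le_rfl, by rwa [mul_comm]⟩
    (sum_mem fun r _ => mul_mem (of_mem M (hc r).1) (h1 r n))
  refine (mul_eq_zero.1 (M.disc _ d4 ?_)).resolve_left d2.ne'
  obtain ⟨K, hK⟩ : ∃ K, K = n + (B' + (B + (1 + ∑ r, b r)) + 1) := ⟨_, rfl⟩
  have a1 := h K (by omega)
  have a2 : |∑ r, c r * coeff n (∏ l ∈ S r, M.phi (a r l) (k r l + 1) -
      ∏ l ∈ S r, phiK M (a r l) (k r l + 1) K)| ≤ ∑ r, M.L ^ B * (b r / M.L ^ K) := by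
    refine (abs_sum_le_sum_abs _ _).trans (sum_le_sum fun r _ => ?_)
    rw [abs_mul, abs_of_nonneg (hc r).2.1]
    exact mul_le_mul (hc r).2.2 (h3 r K n le_rfl) (abs_nonneg _) (pow_pos hL B).le
  simp only [map_sub, coeff_K, mul_sub, sum_sub_distrib, ← mul_assoc] at a2
  rw [← mul_sum, ← sum_div, ← Nat.cast_sum] at a2
  have a3 : |y - ∑ r, c r * coeff n (∏ l ∈ S r, M.phi (a r l) (k r l + 1))| ≤
      M.L ^ B * ((1 + ∑ r, b r : ℕ) : Hyperreal) / M.L ^ K := by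
    rw [Nat.cast_add, Nat.cast_one, mul_add, mul_one, add_div, mul_div_assoc]
    rw [abs_le] at a1 a2 ⊢
    constructor <;> linarith [a1.1, a1.2, a2.1, a2.2]
  have a4 : M.L ^ B * ((1 + ∑ r, b r : ℕ) : Hyperreal) / M.L ^ K ≤
      M.L ^ (B + (1 + ∑ r, b r)) / M.L ^ K := by
    rw [pow_add]
    exact div_le_div_of_nonneg_right
      (mul_le_mul_of_nonneg_left (M.nat_le _) (pow_pos hL B).le) (pow_pos hL K).le
  rw [abs_mul, abs_of_pos d2]
  refine (mul_le_mul d3 (a3.trans a4) (abs_nonneg _) (pow_pos hL _).le).trans_lt ?_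
  rw [← mul_div_assoc, ← pow_add, div_lt_one (pow_pos hL K)]
  exact pow_lt_pow_right₀ M.one_lt (by omega)

end Pool.Agent.MP_ee8c61_ag.H95
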