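import Pool.Agent.MP_ee8c61_ag.H95.Kit

/-!
Lifting of arcs through the toric charts.
-/

namespace Pool.Agent.MP_ee8c61_ag.H95

namespace TorlA

variable {N : ℕ}

theorem dec {x : PS} (h : x ≠ 0) : ∃ (n : ℕ) (u : PSˣ), x = tt ^ n * (u : PS) := by
  obtain ⟨u, hu⟩ := PowerSeries.isUnit_divided_by_X_pow_order h
  exact ⟨x.order.toNat, u, by rw [hu]; exact PowerSeries.X_pow_order_mul_divXPowOrder.symm⟩

theorem cc_unit (u : PSˣ) : PowerSeries.constantCoeff (u : PS) ≠ 0 :=
  (u.isUnit.map PowerSeries.constantCoeff).ne_zero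

theorem cc_zero (n : ℕ) (u : PSˣ) :
    PowerSeries.constantCoeff (tt ^ n * (u : PS)) = 0 ↔ 0 < n := by
  rw [map_mul, map_pow, PowerSeries.constantCoeff_X, mul_eq_zero, or_iff_left (cc_unit u),
    pow_eq_zero_iff', Nat.pos_iff_ne_zero]
  simp

theorem ord_dec (n : ℕ) (u : PSˣ) : (tt ^ n * (u : PS)).order = n := by
  rw [PowerSeries.order_mul, PowerSeries.order_X_pow, order_unit (cc_unit u)]
  simp

theorem dec_uniq {n n' : ℕ} {u u' : PSˣ} (h : tt ^ n * (u : PS) = tt ^ n' * (u' : PS)) :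
    n = n' ∧ u = u' := by
  have e : n = n' := by
    have := ord_dec n u
    rw [h, ord_dec] at this
    exact_mod_cast this.symm
  subst e
  exact ⟨rfl, Units.ext (mul_left_cancel₀ (pow_ne_zero _ PowerSeries.X_ne_zero) h)⟩

theorem ev_mon (M : Matrix (Fin N) (Fin N) ℕ) (t : Fin N → ℕ) (u : Fin N → PSˣ) (i : Fin N) :
    ev (fun l => tt ^ t l * (u l : PS)) (mon M i) =
      tt ^ Matrix.vecMul t M i * ((∏ l, u l ^ M l i : PSˣ) : PS) := by
  simp only [mon, map_prod, map_pow, MvPolynomial.aeval_X, mul_pow, Finset.prod_mul_distrib,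
    ← pow_mul, Finset.prod_pow_eq_pow_sum, Units.coe_prod, Units.val_pow_eq_pow_val,
    Matrix.vecMul, dotProduct]

/-- The action of an integer matrix on tuples in an abelian group. -/
def act {G : Type} [AddCommGroup G] (A : Matrix (Fin N) (Fin N) ℤ) (x : Fin N → G) :
    Fin N → G := fun i => ∑ l, A l i • x l

theorem act_act {G : Type} [AddCommGroup G] (A B : Matrix (Fin N) (Fin N) ℤ) (x : Fin N → G) :
    act B (act A x) = act (A * B) x := by
  funext i
  simp only [act, Finset.smul_sum, Matrix.mul_apply, Finset.sum_smul, smul_smul]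
  rw [Finset.sum_comm]
  exact Finset.sum_congr rfl fun l _ => Finset.sum_congr rfl fun k _ => by rw [mul_comm]

theorem act_one {G : Type} [AddCommGroup G] (x : Fin N → G) : act 1 x = x := by
  funext i
  simp [act, Matrix.one_apply]

theorem act_bij {G : Type} [AddCommGroup G] {A : Matrix (Fin N) (Fin N) ℤ} (h : IsUnit A.det) :
    Function.Bijective (act A : (Fin N → G) → Fin N → G) :=
  Function.bijective_iff_has_inverse.2 ⟨act A⁻¹,
    fun x => by rw [act_act, Matrix.mul_nonsing_inv _ h, act_one],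
    fun x => by rw [act_act, Matrix.nonsing_inv_mul _ h, act_one]⟩

theorem vecMul_inj {M : Matrix (Fin N) (Fin N) ℕ} (h : IsUnit (M.map (Nat.cast : ℕ → ℤ)).det)
    {t t' : Fin N → ℕ} (e : Matrix.vecMul t M = Matrix.vecMul t' M) : t = t' := by
  have key : ∀ s : Fin N → ℕ, act (M.map (Nat.cast : ℕ → ℤ)) (fun l => (s l : ℤ)) =
      fun i => ((Matrix.vecMul s M i : ℕ) : ℤ) := fun s => by
    funext i
    simp [act, Matrix.vecMul, dotProduct, mul_comm]
  have := (act_bij (G := ℤ) h).1 (a₁ := fun l => (t l : ℤ)) (a₂ := fun l => (t' l : ℤ))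
    (by rw [key, key, e])
  funext l
  exact_mod_cast congrFun this l

theorem act_unit (M : Matrix (Fin N) (Fin N) ℕ) (u : Fin N → PSˣ) :
    act (M.map (Nat.cast : ℕ → ℤ)) (fun l => Additive.ofMul (u l)) =
      fun i => Additive.ofMul (∏ l, u l ^ M l i) := by
  funext i
  simp [act, ofMul_prod, ofMul_pow]

theorem unit_inj {M : Matrix (Fin N) (Fin N) ℕ} (h : IsUnit (M.map (Nat.cast : ℕ → ℤ)).det)
    {u u' : Fin N → PSˣ} (e : ∀ i, ∏ l, u l ^ M l i = ∏ l, u' l ^ M l i) : u = u' := by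
  have := (act_bij (G := Additive PSˣ) h).1 (a₁ := fun l => Additive.ofMul (u l))
    (a₂ := fun l => Additive.ofMul (u' l)) (by rw [act_unit, act_unit]; simp only [e])
  funext l
  exact Additive.ofMul.injective (congrFun this l)

theorem unit_surj {M : Matrix (Fin N) (Fin N) ℕ} (h : IsUnit (M.map (Nat.cast : ℕ → ℤ)).det)
    (v : Fin N → PSˣ) : ∃ u : Fin N → PSˣ, ∀ i, ∏ l, u l ^ M l i = v i := by
  obtain ⟨x, hx⟩ := (act_bij (G := Additive PSˣ) h).2 fun i => Additive.ofMul (v i)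
  refine ⟨fun l => (x l).toMul, fun i => Additive.ofMul.injective ?_⟩
  exact (congrFun (act_unit M fun l => (x l).toMul) i).symm.trans (congrFun hx i)

theorem dec_orbit {p : H36.Cone N} {w : Fin N → PS} (hw : bs w ∈ H36.orbit p)
    (h0 : ∀ l ∈ p.2, w l ≠ 0) : ∃ (t : Fin N → ℕ) (u : Fin N → PSˣ),
      (∀ l, 0 < t l ↔ l ∈ p.2) ∧ w = fun l => tt ^ t l * (u l : PS) := by
  have hne : ∀ l, w l ≠ 0 := fun l e => h0 l ((hw l).1 (by simp [bs, e])) e
  choose t u h using fun l => dec (hne l)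
  refine ⟨t, u, fun l => ?_, funext h⟩
  rw [← hw l, ← cc_zero (t l) (u l), ← h l]
  rfl

end TorlA

open TorlA in
theorem torl : StmtTORL where
  ex N g Φ hF b hb := by
    choose n v hv using fun i => dec (hb i)
    obtain ⟨p, ⟨hp, t, ht, e⟩, -⟩ := hF.2 n
    obtain ⟨u, hu⟩ := unit_surj (hF.1 p hp).1 v
    refine ⟨p, hp, fun l => tt ^ t l * (u l : PS), fun l => ?_, fun i => ?_⟩
    · exact (cc_zero (t l) (u l)).trans (ht l)
    · rw [ev_mon, hu, ← e, ← hv]
  uniq N g Φ hF p hp p' hp' w w' hw hw' h0 h0' h := by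
    obtain ⟨t, u, ht, rfl⟩ := dec_orbit hw h0
    obtain ⟨t', u', ht', rfl⟩ := dec_orbit hw' h0'
    simp only [ev_mon] at h
    have e1 : Matrix.vecMul t p.1 = Matrix.vecMul t' p'.1 := funext fun i => (dec_uniq (h i)).1
    have e2 : p = p' :=
      (hF.2 (Matrix.vecMul t p.1)).unique ⟨hp, t, ht, rfl⟩ ⟨hp', t', ht', e1⟩
    subst e2
    have e3 := vecMul_inj (hF.1 p hp).1 e1
    have e4 := unit_inj (hF.1 p hp).1 fun i => (dec_uniq (h i)).2
    subst e3 e4
    exact ⟨rfl, rfl⟩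

end Pool.Agent.MP_ee8c61_ag.H95
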