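import Pool.Agent.MP_ee8c61_ag.H95.Kit

/-! The algebra of the toric charts. -/

namespace Pool.Agent.MP_ee8c61_ag.H95

open MvPolynomial

namespace TorsA

variable {N : ℕ}

theorem mono (a : Fin N →₀ ℕ) (c : ℂ) : (monomial a c : Pol (Fin N)) = C c * ∏ l, X l ^ a l := by
  rw [monomial_eq, Finsupp.prod_fintype _ _ fun _ => pow_zero _]

theorem euler (c : ℂ) (e : Fin N → ℕ) (l : Fin N) :
    X l * pderiv l (C c * ∏ k, X k ^ e k : Pol (Fin N)) = C (e l : ℂ) * (C c * ∏ k, X k ^ e k) := by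
  have h := mono (Finsupp.equivFunOnFinite.symm e) c
  simp only [Finsupp.equivFunOnFinite_symm_apply_apply] at h
  rw [← h, X_mul_pderiv_monomial, nsmul_eq_mul, map_natCast]
  rfl

theorem eulerv {ι : Type} (s : Finset ι) (c : ι → ℂ) (e : ι → Fin N → ℕ) (l : Fin N)
    (y : Fin N → ℂ) : y l * eval y (pderiv l (∑ a ∈ s, C (c a) * ∏ k, X k ^ e a k : Pol (Fin N)))
      = ∑ a ∈ s, (e a l : ℂ) * (c a * ∏ k, y k ^ e a k) := by
  rw [map_sum, map_sum, Finset.mul_sum]
  refine Finset.sum_congr rfl fun a _ => ?_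
  simpa using congrArg (eval y) (euler (c a) (e a) l)

theorem ord_le {g : Pol (Fin N)} (ρ : Fin N → ℕ) {a : Fin N →₀ ℕ} (ha : a ∈ g.support) :
    H36.ord g ρ ≤ ∑ i, ρ i * a i :=
  ciInf_le (f := fun a : g.support => ∑ i, ρ i * a.1 i) (OrderBot.bddBelow _) ⟨a, ha⟩

theorem pw {R : Type} [CommMonoid R] (y : Fin N → R) (M : Matrix (Fin N) (Fin N) ℕ)
    (a : Fin N → ℕ) : ∏ i, (∏ l, y l ^ M l i) ^ a i = ∏ l, y l ^ ∑ i, M l i * a i := by
  simp only [← Finset.prod_pow, ← pow_mul]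
  rw [Finset.prod_comm]
  simp only [Finset.prod_pow_eq_pow_sum]

theorem split {R : Type} [CommMonoid R] (y : Fin N → R) {o s : Fin N → ℕ} (h : ∀ l, o l ≤ s l) :
    ∏ l, y l ^ s l = (∏ l, y l ^ o l) * ∏ l, y l ^ (s l - o l) := by
  rw [← Finset.prod_mul_distrib]
  exact Finset.prod_congr rfl fun l _ => by rw [← pow_add, Nat.add_sub_cancel' (h l)]

theorem detc {M : Matrix (Fin N) (Fin N) ℕ} (h : IsUnit (M.map (Nat.cast : ℕ → ℤ)).det) :
    (M.map (Nat.cast : ℕ → ℂ)).det ≠ 0 := by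
  have := (h.map (Int.castRingHom ℂ)).ne_zero
  rw [RingHom.map_det] at this
  convert this using 2
  ext i j
  simp

theorem jac (M : Matrix (Fin N) (Fin N) ℕ) (h : IsUnit (M.map (Nat.cast : ℕ → ℤ)).det) :
    (∀ l, 0 < ∑ i, M l i) ∧ ∃ c : ℂ, c ≠ 0 ∧
      jacd (mon M) = C c * ∏ l, X l ^ (∑ i, M l i - 1) := by
  have p : ∀ l, 0 < ∑ i, M l i := fun l => Nat.pos_of_ne_zero fun e =>
    h.ne_zero (Matrix.det_eq_zero_of_row_eq_zero l fun j => by
      simp [Finset.sum_eq_zero_iff.1 e j (Finset.mem_univ j)])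
  refine ⟨p, _, detc h, mul_left_cancel₀ (a := ∏ l, (X l : Pol (Fin N)))
    (Finset.prod_ne_zero_iff.2 fun l _ => X_ne_zero l) ?_⟩
  have e : (Matrix.of fun i l => X l * (Matrix.of fun i l => pderiv l (mon M i)) i l)
      = Matrix.of fun i l => mon M i * ((C : ℂ →+* Pol (Fin N)).mapMatrix
        (M.map (Nat.cast : ℕ → ℂ))).transpose i l := by
    ext1 i l
    have := euler 1 (fun k => M k i) l
    simp only [map_one, one_mul] at this
    simp only [Matrix.of_apply, mon, this, Matrix.transpose_apply, RingHom.mapMatrix_apply,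
      Matrix.map_apply, mul_comm]
  rw [jacd, ← Matrix.det_mul_row, e, Matrix.det_mul_column, Matrix.det_transpose,
    ← RingHom.map_det]
  have q := pw (X : Fin N → Pol (Fin N)) M fun _ => 1
  simp only [pow_one, mul_one] at q
  have r := split (X : Fin N → Pol (Fin N)) (o := fun _ => 1) p
  simp only [pow_one] at r
  simp only [mon]
  rw [q, r]
  ring

theorem face_iff {g : Pol (Fin N)} {M : Matrix (Fin N) (Fin N) ℕ} {S : Finset (Fin N)}
    (h : ∃ a ∈ g.support, ∀ l ∈ S, ∑ i, M l i * a i = H36.ord g (M l)) {a : Fin N →₀ ℕ}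
    (ha : a ∈ g.support) :
    (∀ a' ∈ g.support, H36.weight (fun i => ((∑ l ∈ S, M l i : ℕ) : ℤ)) a
      ≤ H36.weight (fun i => ((∑ l ∈ S, M l i : ℕ) : ℤ)) a') ↔
      ∀ l ∈ S, ∑ i, M l i * a i - H36.ord g (M l) = 0 := by
  have w : ∀ b : Fin N →₀ ℕ, H36.weight (fun i => ((∑ l ∈ S, M l i : ℕ) : ℤ)) b
      = ((∑ l ∈ S, ∑ i, M l i * b i : ℕ) : ℤ) := fun b => by
    rw [Finset.sum_comm]
    simp [H36.weight, Finset.sum_mul]
  simp only [w, Nat.cast_le, Nat.sub_eq_zero_iff_le]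
  refine ⟨fun k l hl => ?_, fun k b hb => Finset.sum_le_sum fun l hl =>
    (k l hl).trans (ord_le _ hb)⟩
  obtain ⟨b, hb, e⟩ := h
  have k1 := k b hb
  rw [Finset.sum_congr rfl e] at k1
  have k2 : ∀ l ∈ S, H36.ord g (M l) ≤ ∑ i, M l i * a i := fun l _ => ord_le _ ha
  exact ((Finset.sum_eq_sum_iff_of_le k2).1 ((Finset.sum_le_sum k2).antisymm k1) l hl).ge

theorem smooth (g : Pol (Fin N)) (M : Matrix (Fin N) (Fin N) ℕ) (S : Finset (Fin N))
    (hM : IsUnit (M.map (Nat.cast : ℕ → ℤ)).det)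
    (h : ∃ a ∈ g.support, ∀ l ∈ S, ∑ i, M l i * a i = H36.ord g (M l))
    (hs : H36.SmoothInTorus (H36.face (fun i => ((∑ l ∈ S, M l i : ℕ) : ℤ)) g)) (y : Fin N → ℂ)
    (hy : ∀ l, y l = 0 ↔ l ∈ S) (h0 : eval y (hpol g M) = 0) :
    ∃ l ∉ S, eval y (pderiv l (hpol g M)) ≠ 0 := by
  classical
  by_contra hn
  push Not at hn
  set e : (Fin N →₀ ℕ) → Fin N → ℕ := fun a l => ∑ i, M l i * a i - H36.ord g (M l) with he
  set t : (Fin N →₀ ℕ) → ℂ := fun a => coeff a g * ∏ k, y k ^ e a k with ht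
  set F := g.support.filter fun a => ∀ l ∈ S, e a l = 0 with hF
  have cut : ∀ c : (Fin N →₀ ℕ) → ℂ, ∑ a ∈ F, c a * t a = ∑ a ∈ g.support, c a * t a := fun c =>
    Finset.sum_filter_of_ne fun a _ k l hl => by
      by_contra j
      exact k (mul_eq_zero_of_right _ (mul_eq_zero_of_right _ (Finset.prod_eq_zero
        (Finset.mem_univ l) (by rw [(hy l).2 hl, zero_pow j]))))
  have z0 : ∑ a ∈ F, t a = 0 := by
    have := cut fun _ => 1
    simp only [one_mul] at this
    rw [this, ← h0]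
    simp [hpol, ht, he]
  have z1 : ∀ l, ∑ a ∈ F, (e a l : ℂ) * t a = 0 := fun l => by
    rw [cut, ← eulerv g.support (fun a => coeff a g) e l y]
    by_cases hl : l ∈ S
    · rw [(hy l).2 hl, zero_mul]
    · exact mul_eq_zero_of_right _ (hn l hl)
  have z2 : (fun i => ∑ a ∈ F, (a i : ℂ) * t a) = 0 := by
    refine Matrix.eq_zero_of_mulVec_eq_zero (detc hM) (funext fun l => ?_)
    have : ∑ a ∈ F, ((e a l : ℂ) * t a + H36.ord g (M l) * t a) = 0 := by
      rw [Finset.sum_add_distrib, z1, ← Finset.mul_sum, z0, mul_zero, add_zero]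
    rw [Pi.zero_apply, ← this]
    simp only [Matrix.mulVec, dotProduct, Matrix.map_apply, Finset.mul_sum]
    rw [Finset.sum_comm]
    refine Finset.sum_congr rfl fun a ha => ?_
    rw [← add_mul, ← Nat.cast_add, he, Nat.sub_add_cancel (ord_le _ (Finset.mem_filter.1 ha).1)]
    simp [Finset.sum_mul, mul_assoc]
  set u : Fin N → ℂ := fun l => if l ∈ S then 1 else y l with hu
  have u0 : ∀ l, u l ≠ 0 := fun l => by
    rw [hu]
    by_cases hl : l ∈ S
    · simp [hl]
    · simpa [hl] using (hy l).not.2 hl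
  set x : Fin N → ℂ := fun i => ∏ l, u l ^ M l i with hx
  have x0 : ∀ i, x i ≠ 0 := fun i => Finset.prod_ne_zero_iff.2 fun l _ => pow_ne_zero _ (u0 l)
  have xt : ∀ a ∈ F, coeff a g * ∏ i, x i ^ a i = (∏ l, u l ^ H36.ord g (M l)) * t a :=
    fun a ha => by
    obtain ⟨a1, a2⟩ := Finset.mem_filter.1 ha
    rw [hx, pw, split u fun l => ord_le (M l) a1, ht, mul_left_comm]
    congr 2
    refine Finset.prod_congr rfl fun l _ => ?_
    by_cases hl : l ∈ S
    · rw [show ∑ i, M l i * a i - H36.ord g (M l) = 0 from a2 l hl, a2 l hl, pow_zero, pow_zero]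
    · simp [hu, hl, he]
  have fc : H36.face (fun i => ((∑ l ∈ S, M l i : ℕ) : ℤ)) g
      = ∑ a ∈ F, C (coeff a g) * ∏ k, X k ^ a k := by
    unfold H36.face
    refine Finset.sum_congr ?_ fun a _ => mono _ _
    convert Finset.filter_congr fun a ha => face_iff h ha
  rw [fc] at hs
  obtain ⟨i, hi⟩ := hs x x0 (by
    simp only [map_sum, map_mul, eval_C, map_prod, map_pow, eval_X]
    rw [Finset.sum_congr rfl xt, ← Finset.mul_sum, z0, mul_zero])
  refine mul_ne_zero (x0 i) hi ?_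
  rw [eulerv F (fun a => coeff a g) (fun a => a) i x, Finset.sum_congr rfl fun a ha => by
    rw [xt a ha, mul_left_comm], ← Finset.mul_sum]
  exact mul_eq_zero_of_right _ (congrFun z2 i)

end TorsA

open TorsA in
theorem tors : StmtTORS where
  val N g M y := by simp [hpol, H36.strict]
  fac N g M := by
    conv_lhs => rw [g.as_sum]
    rw [map_sum, hpol, Finset.mul_sum]
    refine Finset.sum_congr rfl fun a ha => ?_
    rw [mono, map_mul, aeval_C, map_prod, mul_left_comm, ← split _ fun l => ord_le (M l) ha, ← pw]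
    simp [mon]
  jac N M h := TorsA.jac M h
  upd N h l := by
    have := Matrix.cramer_transpose_apply (1 : Matrix (Fin N) (Fin N) (Pol (Fin N)))
      (fun k => pderiv k h) l
    rw [Matrix.transpose_one, Matrix.cramer_one] at this
    refine Eq.trans ?_ this.symm
    unfold jacd
    congr 1
    ext1 i k
    by_cases e : i = l
    · simp [e]
    · simp [e, Matrix.one_apply, pderiv_X, Pi.single_apply]
  smooth N g Φ hΦ hs p hp y hy h0 :=
    TorsA.smooth g p.1 p.2 (hΦ.1 p hp).1 (hΦ.1 p hp).2 (hs _) y hy h0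

end Pool.Agent.MP_ee8c61_ag.H95
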