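import Pool.Agent.MP_ee8c61_ag.H95.Glue
import Pool.Agent.MP_ee8c61_ag.H95.Aff
import Pool.Agent.MP_ee8c61_ag.H95.Arc
import Pool.Agent.MP_ee8c61_ag.H95.Cay
import Pool.Agent.MP_ee8c61_ag.H95.Cnt
import Pool.Agent.MP_ee8c61_ag.H95.ConS
import Pool.Agent.MP_ee8c61_ag.H95.Est
import Pool.Agent.MP_ee8c61_ag.H95.Eul
import Pool.Agent.MP_ee8c61_ag.H95.Fan
import Pool.Agent.MP_ee8c61_ag.H95.Fib
import Pool.Agent.MP_ee8c61_ag.H95.Fx
import Pool.Agent.MP_ee8c61_ag.H95.Inv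
import Pool.Agent.MP_ee8c61_ag.H95.Jet
import Pool.Agent.MP_ee8c61_ag.H95.Ker
import Pool.Agent.MP_ee8c61_ag.H95.Lim
import Pool.Agent.MP_ee8c61_ag.H95.Mm
import Pool.Agent.MP_ee8c61_ag.H95.Near
import Pool.Agent.MP_ee8c61_ag.H95.Par
import Pool.Agent.MP_ee8c61_ag.H95.Pch
import Pool.Agent.MP_ee8c61_ag.H95.Pd
import Pool.Agent.MP_ee8c61_ag.H95.Prod
import Pool.Agent.MP_ee8c61_ag.H95.Res
import Pool.Agent.MP_ee8c61_ag.H95.Tail
import Pool.Agent.MP_ee8c61_ag.H95.Tor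
import Pool.Agent.MP_ee8c61_ag.H95.Torl
import Pool.Agent.MP_ee8c61_ag.H95.Tors
import Pool.Agent.MP_ee8c61_ag.H95.Val

/-! All steps together. -/

namespace Pool.Agent.MP_ee8c61_ag.H95

open Set AlgebraicGeometry

theorem mm_all : StmtMM := mm fx

theorem jet_all : StmtJET := jet arc

theorem near_all : StmtNEAR := near (inv arc)

/-- The formula of Denef and Loeser. -/
theorem dl_all : StmtDL :=
  dl (est jet_all prod (cnt arc jet_all prod) (fibr arc ker jet_all near_all) (par near_all)) tail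

theorem res_all : StmtRES := res val aff con

theorem compare_all {r n : ℕ} (f : Fin r → Pol (Fin n)) (h0 : ∃ j, f j ≠ 0)
    (hf : ∀ w : Fin (r + n) → ℕ, H36.SmoothInTorus (H36.face (fun i => w i) (H36.cayley f)))
    {Y : Scheme.{0}} {π : Y ⟶ Aff n} {J : Type} [Fintype J] {E : J → Set Y} {a k : J → ℕ}
    (hY : IsLogRes (Ideal.span (range f)) π E a k) {χ : Set Y → ℤ} (hχ : IsChi π χ) :
    ∃ χ' Φ, H36.IsEuler χ' ∧ H36.IsFan (H36.cayley f) Φ ∧
      zeta E a k χ = (RatFunc.X + 1) * H36.zeta χ' (H36.cayley f) Φ :=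
  compare mm_all (eul mm_all) lim dl_all jet_all (cay jet_all) fan (tor torl tors) (pd (pch et))
    res_all f h0 hf hY hχ

theorem ne_of_smooth {r n : ℕ} {f : Fin r → Pol (Fin n)}
    (hf : H36.SmoothInTorus (H36.face (fun _ => (0 : ℕ)) (H36.cayley f))) : ∃ j, f j ≠ 0 := by
  by_contra h
  push Not at h
  simpa [H36.cayley, h, H36.face] using hf 1 (by simp) (by simp [H36.cayley, h, H36.face])

end Pool.Agent.MP_ee8c61_ag.H95
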