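import Pool.Agent.MP_ee8c61_ag.H95.Defs

/-! The fibres of the map from a log resolution to the blow-up of the ideal. -/

namespace Pool.Agent.MP_ee8c61_ag.H95

open AlgebraicGeometry

variable {N : ℕ} {Y : Scheme.{0}} (π : Y ⟶ Aff N) (I : Ideal (MvPolynomial (Fin N) ℂ))

/-- The germ at `x` of the pull-back of a polynomial. -/
noncomputable def gm (x : Y) : MvPolynomial (Fin N) ℂ →+* Y.presheaf.stalk x :=
  (Y.presheaf.germ ⊤ x trivial).hom.comp (pb π ⊤)

/-- The pull-back of `p` generates the pull-back of `I` at `x`. -/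
def Gen (x : Y) (p : MvPolynomial (Fin N) ℂ) : Prop := I.map (gm π x) = Ideal.span {gm π x p}

/-- The connected component of the closed point `x` in its fibre over the blow-up of `I`. -/
def fib (x : Y) : Set Y :=
  connectedComponentIn {y | π y = π x ∧ ∀ p ∈ I, Gen π I y p ↔ Gen π I x p} x

end Pool.Agent.MP_ee8c61_ag.H95
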