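import Pool.Agent.MP_ee8c61_ag.H95.QKit
import Pool.Agent.MP_ee8c61_ag.H10.Minor
import Pool.Agent.MP_5d9b3c_ag.H10.Smith

/-! The zeta function of a determinantal ideal. -/

namespace Pool.Agent.MP_ee8c61_ag.H95

open MvPolynomial Matrix
open Pool.Agent.MP_4f1c5b_al.H95 (ConE)
open Pool.Agent.MP_5d9b3c_ag.H10 (Van van_succ)

namespace DetA

section mid

variable {R : Type} [CommRing R] {ρ γ : Type} {k : ℕ}

/-- The ideal of the minors of size `k`. -/
def mid (k : ℕ) (x : Matrix ρ γ R) : Ideal R :=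
  Ideal.span (Set.range fun P : (Fin k → ρ) × (Fin k → γ) => (x.submatrix P.1 P.2).det)

theorem mid_le {x : Matrix ρ γ R} {I : Ideal R} :
    mid k x ≤ I ↔ Van k (x.map (Ideal.Quotient.mk I)) := by
  simp only [mid, Ideal.span_le, Set.range_subset_iff, Prod.forall, Van, SetLike.mem_coe,
    ← Ideal.Quotient.eq_zero_iff_mem, RingHom.map_det]
  rfl

theorem mid_zero (x : Matrix ρ γ R) : mid 0 x = ⊤ :=
  (Ideal.eq_top_iff_one _).2 (Ideal.subset_span ⟨(Fin.elim0, Fin.elim0), det_isEmpty⟩)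

theorem mid_map {A B : Type} [CommRing A] [CommRing B] [Algebra ℂ A] [Algebra ℂ B]
    (f : A →ₐ[ℂ] B) (x : Matrix ρ γ A) : (mid k x).map f = mid k (x.map f) := by
  rw [mid, Ideal.map_span, ← Set.range_comp]
  exact congrArg (fun g => Ideal.span (Set.range g)) (funext fun P => f.map_det _)

theorem mid_smul (c : R) (x : Matrix ρ γ R) : mid k (c • x) = Ideal.span {c ^ k} * mid k x := by
  rw [mid, mid, Ideal.span_mul_span', Set.singleton_mul, ← Set.range_comp]
  exact congrArg (fun g => Ideal.span (Set.range g)) (funext fun P =>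
    (det_smul (x.submatrix P.1 P.2) c).trans (by rw [Fintype.card_fin]; rfl))

theorem mid_succ_zero : mid (k + 1) (0 : Matrix ρ γ R) = ⊥ :=
  Ideal.span_eq_bot.2 fun _ ⟨_, h⟩ => h.symm.trans det_zero

variable [Fintype ρ] [DecidableEq ρ] [Fintype γ] [DecidableEq γ]

omit [Fintype ρ] [DecidableEq ρ] in
theorem van_col {x y : Matrix ρ γ R} (h : Van k x) (j₀ : γ) (r : γ → R)
    (e : ∀ i j, x i j + x i j₀ * r j = y i j) : Van k y := by
  refine (congrArg (Van k) ?_).mp (h.mul_right (1 + of fun j' j => if j' = j₀ then r j else 0))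
  ext i j
  rw [Matrix.mul_add, Matrix.mul_one]
  simp [mul_apply, ← e]

theorem mid_pivot (y : Matrix ρ γ R) (i₀ : ρ) (j₀ : γ) (hy : y i₀ j₀ = 1) :
    mid (k + 1) y =
      mid k (of fun (i : {i // i ≠ i₀}) (j : {j // j ≠ j₀}) => y i j - y i j₀ * y i₀ j) := by
  refine eq_of_forall_ge_iff fun I => ?_
  rw [mid_le, mid_le]
  set z := y.map (Ideal.Quotient.mk I) with hz
  have h1 : z i₀ j₀ = 1 := by simp [hz, hy]
  have h2 := van_succ (k := k) (of fun i j => z i j - if j = j₀ then 0 else z i j₀ * z i₀ j) i₀ j₀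
    fun j => by by_cases hj : j = j₀ <;> simp [hj, h1]
  refine Iff.trans ⟨fun h => van_col h j₀ (fun j => if j = j₀ then 0 else -z i₀ j) fun i j => ?_,
    fun h => van_col h j₀ (fun j => if j = j₀ then 0 else z i₀ j) fun i j => ?_⟩
    (h2.trans (iff_of_eq (congrArg (Van k) ?_)))
  · by_cases hj : j = j₀ <;> simp [hj, sub_eq_add_neg]
  · by_cases hj : j = j₀ <;> simp [hj]
  · ext i j
    simp [hz, j.2]

end mid

theorem span_minor (m n k : ℕ) : Ideal.span (Set.range (H10.minor m n k)) =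
    mid k (of fun i j => (X (i, j) : Pol (Fin m × Fin n))) := by
  refine le_antisymm (Ideal.span_mono fun _ ⟨j, h⟩ => ⟨(j.1, j.2), h⟩)
    (Ideal.span_le.2 (Set.range_subset_iff.2 fun ⟨P, Q⟩ => ?_))
  by_cases hP : Function.Injective P
  · by_cases hQ : Function.Injective Q
    · have h := Ideal.subset_span (s := Set.range (H10.minor m n k))
        ⟨(OrderEmbedding.ofStrictMono _ ((Tuple.monotone_sort P).strictMono_of_injective
          (hP.comp (Tuple.sort P).injective)), OrderEmbedding.ofStrictMono _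
          ((Tuple.monotone_sort Q).strictMono_of_injective (hQ.comp (Tuple.sort Q).injective))), rfl⟩
      have e : (of fun i j => (X (i, j) : Pol (Fin m × Fin n))).submatrix P Q =
          (((of fun a b => X (P (Tuple.sort P a), Q (Tuple.sort Q b))).submatrix (Tuple.sort P).symm
            id).submatrix id (Tuple.sort Q).symm) := by
        ext a b : 1
        simp
      rw [SetLike.mem_coe, e, det_permute', det_permute]
      exact Ideal.mul_mem_left _ _ (Ideal.mul_mem_left _ _ h)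
    · obtain ⟨a, b, hab, hne⟩ := Function.not_injective_iff.1 hQ
      rw [det_zero_of_column_eq hne fun i => by simp [hab]]
      exact zero_mem _
  · obtain ⟨a, b, hab, hne⟩ := Function.not_injective_iff.1 hP
    rw [det_zero_of_row_eq hne (funext fun i => by simp [hab])]
    exact zero_mem _

/-- A linear polynomial. -/
noncomputable def lin (a b : ℕ) : Polynomial ℂ :=
  Polynomial.C (a : ℂ) * Polynomial.X + Polynomial.C (b : ℂ)

/-- The product with `w` is a polynomial. -/
def Pl (w : Polynomial ℂ) (Z : RatFunc ℂ) : Prop :=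
  ∃ Q : Polynomial ℂ, algebraMap _ (RatFunc ℂ) w * Z = algebraMap _ (RatFunc ℂ) Q

theorem Pl.add {w : Polynomial ℂ} {Z Z' : RatFunc ℂ} (h : Pl w Z) (h' : Pl w Z') :
    Pl w (Z + Z') := by
  obtain ⟨Q, h⟩ := h
  obtain ⟨Q', h'⟩ := h'
  exact ⟨Q + Q', by rw [mul_add, h, h', map_add]⟩

theorem Pl.mul {w : Polynomial ℂ} {Z : RatFunc ℂ} (h : Pl w Z) (u : Polynomial ℂ) :
    Pl (u * w) Z := by
  obtain ⟨Q, h⟩ := h
  exact ⟨u * Q, by rw [map_mul, map_mul, mul_assoc, h]⟩

theorem lin_fr (a k : ℕ) : algebraMap _ (RatFunc ℂ) (lin a (k + 1)) * fr a k = 1 := by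
  have h : lin a (k + 1) ≠ 0 := fun h => by
    simpa [lin, Nat.cast_add_one_ne_zero] using congrArg (Polynomial.eval 0) h
  have e : algebraMap _ (RatFunc ℂ) (lin a (k + 1)) =
      (a : RatFunc ℂ) * RatFunc.X + ((k + 1 : ℕ) : RatFunc ℂ) := by
    simp only [lin, map_add, map_mul, map_natCast, RatFunc.algebraMap_X]
  rw [fr, ← e, mul_one_div_cancel (RatFunc.algebraMap_ne_zero h)]

section main

variable {σ : Type}

theorem ev_mon {S : Finset σ} {f : σ → Pol σ} (h : ∀ l ∈ S, f l = X l) (a : σ → ℕ) :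
    ev f (∏ l ∈ S, X l ^ a l) = ∏ l ∈ S, X l ^ a l := by
  rw [map_prod]
  exact Finset.prod_congr rfl fun l hl => by rw [map_pow, aeval_X, h l hl]

theorem ap_fix {f : σ → Pol σ} {l : σ} (h : f l = X l) (x : σ → ℂ) : ap f x l = x l := by
  rw [ap, h, aeval_X]

/-- A shear and its inverse. -/
theorem shear {ρ γ : Type} [DecidableEq ρ] [DecidableEq γ] {ι : ρ × γ → σ}
    (hι : Function.Injective ι) (i₀ : ρ) (j₀ : γ) :
    ∃ φ ψ : σ → Pol σ, ap φ ψ = X ∧ ap ψ φ = X ∧ (∀ l, (∀ q, ι q ≠ l) → φ l = X l) ∧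
      (∀ i, φ (ι (i, j₀)) = X (ι (i, j₀))) ∧ (∀ j, φ (ι (i₀, j)) = X (ι (i₀, j))) ∧
      ∀ i ≠ i₀, ∀ j ≠ j₀, φ (ι (i, j)) = X (ι (i, j)) + X (ι (i, j₀)) * X (ι (i₀, j)) := by
  let E : σ → Pol σ := Function.extend ι
    (fun q => if q.1 ≠ i₀ ∧ q.2 ≠ j₀ then X (ι (q.1, j₀)) * X (ι (i₀, q.2)) else 0) 0
  have h1 : ∀ q, E (ι q) =
      if q.1 ≠ i₀ ∧ q.2 ≠ j₀ then X (ι (q.1, j₀)) * X (ι (i₀, q.2)) else 0 := hι.extend_apply _ _
  have h2 : ∀ l, (∀ q, ι q ≠ l) → E l = 0 := fun l h =>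
    Function.extend_apply' _ _ _ (not_exists.2 h)
  have h3 : ∀ (t : Pol σ) l, ev (fun l => X l + t * E l) (E l) = E l := fun t l => by
    by_cases h : ∃ q, ι q = l
    · obtain ⟨q, rfl⟩ := h
      rw [h1]
      split_ifs <;> simp [h1]
    · rw [h2 l (not_exists.1 h), map_zero]
  refine ⟨fun l => X l + 1 * E l, fun l => X l + -1 * E l, funext fun l => ?_, funext fun l => ?_,
    fun l h => by simp [h2 l h], fun i => by simp [h1], fun j => by simp [h1],
    fun i hi j hj => by simp [h1, hi, hj]⟩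
  · simp only [ap, map_add, map_mul, h3, aeval_X, map_one]
    ring
  · simp only [ap, map_add, map_mul, h3, aeval_X, map_one, map_neg]
    ring

variable [Fintype σ] [DecidableEq σ]

theorem main (χ : H36.Chi) (k : ℕ) : ∀ {ρ γ : Type} [Fintype ρ] [DecidableEq ρ] [Fintype γ]
    [DecidableEq γ] (ι : ρ × γ → σ) (S : Finset σ) (a κ : σ → ℕ) (B : Set (σ → ℂ)),
    Function.Injective ι → (∀ l ∈ S, ∀ q, ι q ≠ l) → (∀ l ∈ S, 0 < a l) → ConE ⊤ B →
    (∀ x ∈ B, ∀ l ∈ S, x l = 0) →
    ∃ Z, HasZ χ (Ideal.span {∏ l ∈ S, X l ^ a l} * mid k (of fun i j => (X (ι (i, j)) : Pol σ)))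
      (∏ l ∈ S, X l ^ κ l) B Z ∧
      Pl ((∏ l ∈ S, lin (a l) (κ l + 1)) *
        ∏ i ∈ Finset.range k, lin (k - i) ((Fintype.card ρ - i) * (Fintype.card γ - i))) Z := by
  induction k with
  | zero =>
    intro ρ γ _ _ _ _ ι S a κ B _ _ ha hB hz
    rw [mid_zero, Ideal.mul_top]
    refine ⟨_, HasZ.single hB X S a κ 1 (by simp) (by simpa using hz) le_rfl
      (fun x _ => ⟨1, by simp, by simp⟩) (mul_one _).symm (by simp) ha, (χ σ B : ℤ), ?_⟩
    rw [Finset.prod_range_zero, mul_one, map_prod, mul_left_comm, ← Finset.prod_mul_distrib]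
    simp [lin_fr]
  | succ k ih =>
    intro ρ γ _ _ _ _ ι S a κ B hι hS ha hB hz
    set T := Finset.univ.image ι with hT
    let o : σ → ℕ := fun l => Fintype.equivFin σ l
    have key : ∀ p ∈ T, ∃ Z, HasZ χ ((Ideal.span {∏ l ∈ S, X l ^ a l} *
        mid (k + 1) (of fun i j => (X (ι (i, j)) : Pol σ))).map (ev (bl T p)))
        (ev (bl T p) (∏ l ∈ S, X l ^ κ l) * X p ^ (T.erase p).card)
        {x | ap (bl T p) x ∈ B ∧ ∀ l ∈ T, o l < o p → x l = 0} Z ∧
        Pl ((∏ l ∈ S, lin (a l) (κ l + 1)) * ∏ i ∈ Finset.range (k + 1),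
          lin (k + 1 - i) ((Fintype.card ρ - i) * (Fintype.card γ - i))) Z := by
      intro p hp
      have hc : (T.erase p).card + 1 = Fintype.card ρ * Fintype.card γ := by
        rw [Finset.card_erase_add_one hp, hT, Finset.card_image_of_injective _ hι,
          Finset.card_univ, Fintype.card_prod]
      obtain ⟨⟨i₀, j₀⟩, -, rfl⟩ := Finset.mem_image.1 hp
      obtain ⟨φ, ψ, e1, e2, f1, f2, f3, f4⟩ := shear hι i₀ j₀
      have b1 : ∀ l ∈ S, bl T (ι (i₀, j₀)) l = X l := fun l hl => if_neg fun h => by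
        obtain ⟨q, -, e⟩ := Finset.mem_image.1 (Finset.mem_of_mem_erase h)
        exact hS l hl q e
      let y : Matrix ρ γ (Pol σ) := of fun i j => if i = i₀ ∧ j = j₀ then 1 else X (ι (i, j))
      have b2 : (of fun i j => (X (ι (i, j)) : Pol σ)).map (ev (bl T (ι (i₀, j₀)))) =
          (X (ι (i₀, j₀)) : Pol σ) • y := by
        ext i j : 1
        by_cases h : i = i₀ ∧ j = j₀
        · simp [h, bl, y]
        · simp [h, bl, hι.eq_iff, hT, y]
      have f0 : ∀ l ∈ S, φ l = X l := fun l hl => f1 l (hS l hl)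
      have hp' : ι (i₀, j₀) ∉ S := fun h => hS _ h _ rfl
      have hj : ∀ x : σ → ℂ, eval x (jd φ) ≠ 0 := fun x => by
        have := congrArg (eval x) (jd_ap ψ φ)
        rw [e2, jd_X, map_one, map_mul] at this
        exact right_ne_zero_of_mul (this ▸ one_ne_zero)
      let ι' : {i // i ≠ i₀} × {j // j ≠ j₀} → σ := fun q => ι (q.1, q.2)
      have hι' : Function.Injective ι' := fun q q' h =>
        Prod.ext (Subtype.ext (congrArg Prod.fst (hι h))) (Subtype.ext (congrArg Prod.snd (hι h)))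
      set B' := {x | ap φ x ∈ {x | ap (bl T (ι (i₀, j₀))) x ∈ B ∧
        ∀ l ∈ T, o l < o (ι (i₀, j₀)) → x l = 0}} with hB'
      have c1 : ConE ⊤ B' := conE_ap (conE_and (conE_ap hB _)
        (conE_ball T fun l _ => conE_imp fun _ => conE_coord l)) _
      have z1 : ∀ x ∈ B', ∀ l ∈ S, x l = 0 := fun x hx l hl => by
        rw [← ap_fix (f0 l hl) x, ← ap_fix (b1 l hl) (ap φ x)]
        exact hz _ hx.1 l hl
      obtain ⟨Z1, h1, w1⟩ := ih ι' (insert (ι (i₀, j₀)) S) (Function.update a (ι (i₀, j₀)) (k + 1))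
        (Function.update κ (ι (i₀, j₀)) (T.erase (ι (i₀, j₀))).card) (B' ∩ {x | x (ι (i₀, j₀)) = 0})
        hι' (Finset.forall_mem_insert _ _ _ |>.2 ⟨fun q h => q.1.2 (congrArg Prod.fst (hι h)),
          fun l hl q => hS l hl _⟩)
        (Finset.forall_mem_insert _ _ _ |>.2 ⟨by simp, fun l hl => by
          rw [Function.update_of_ne (ne_of_mem_of_not_mem hl hp')]; exact ha l hl⟩)
        (c1.inter (conE_coord _))
        fun x hx => Finset.forall_mem_insert _ _ _ |>.2 ⟨hx.2, z1 x hx.1⟩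
      obtain ⟨Z2, h2, w2⟩ := ih ι' S a κ (B' \ {x | x (ι (i₀, j₀)) = 0}) hι'
        (fun l hl q => hS l hl _) ha (c1.diff (conE_coord _)) fun x hx => z1 x hx.1
      have up : ∀ (u : σ → ℕ) (t : ℕ), ∀ l ∈ S, Function.update u (ι (i₀, j₀)) t l = u l :=
        fun u t l hl => Function.update_of_ne (ne_of_mem_of_not_mem hl hp') _ _
      simp only [Finset.prod_insert hp', Function.update_self, hc] at h1 w1
      rw [Finset.prod_congr rfl fun l hl => by rw [up _ _ l hl],
        Finset.prod_congr rfl (f := fun l => X l ^ Function.update κ _ _ l) fun l hl => by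
          rw [up _ _ l hl]] at h1
      rw [Finset.prod_congr rfl fun l hl => by rw [up _ _ l hl, up _ _ l hl]] at w1
      refine ⟨Z1 + Z2, HasZ.aut φ ψ e1 e2 ?_, ?_⟩
      · have e3 : ((of fun (i : {i // i ≠ i₀}) (j : {j // j ≠ j₀}) =>
            y i j - y i j₀ * y i₀ j)).map (ev φ) = of fun i j => X (ι' (i, j)) := by
          ext i j : 1
          simp [f2, f3, f4 _ i.2 _ j.2, ι', y, i.2, j.2]
        rw [Ideal.map_mul, Ideal.map_span, Set.image_singleton, ev_mon b1, ev_mon b1, mid_map, b2,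
          mid_smul, mid_pivot y i₀ j₀ (by simp [y]), ← mul_assoc,
          Ideal.span_singleton_mul_span_singleton, Ideal.map_mul, Ideal.map_span,
          Set.image_singleton, mid_map, e3]
        simp only [map_mul, map_pow, aeval_X, ev_mon f0, f2]
        rw [mul_comm _ (jd φ), mul_comm (∏ l ∈ S, X l ^ a l), mul_comm (∏ l ∈ S, X l ^ κ l)]
        refine HasZ.part2 _ (h1.unit le_rfl 1 _ (by simp) (fun x _ => hj x) (by simp)) ?_
        rw [← mul_assoc, ← Ideal.span_singleton_mul_span_singleton, mul_assoc (Ideal.span _)]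
        exact h2.unit Ideal.mul_le_right (X (ι (i₀, j₀)) ^ (k + 1)) _
          (fun x hx => by simpa using hx.2)
          (fun x hx => by
            rw [map_mul, map_pow, eval_X]
            exact mul_ne_zero (hj x) (pow_ne_zero _ hx.2))
          fun q hq => Ideal.mul_mem_mul (Ideal.mem_span_singleton_self _) hq
      · have e4 : Fintype.card {i // i ≠ i₀} = Fintype.card ρ - 1 := by simp
        have e5 : Fintype.card {j // j ≠ j₀} = Fintype.card γ - 1 := by simp
        rw [e4, e5] at w1 w2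
        rw [Finset.prod_range_succ', ← mul_assoc, mul_comm]
        simp only [Nat.sub_zero, Nat.sub_add_eq, Nat.sub_right_comm _ _ 1]
        exact Pl.add (mul_assoc (G := Polynomial ℂ) _ _ _ ▸ w1) (w2.mul _)
    choose! Z h1 h2 using key
    refine ⟨_, HasZ.blow T o (fun l _ l' _ h => (Fintype.equivFin σ).injective (Fin.ext h))
      (fun b hb => by_contra fun h => nz_iff.1 hb ?_) h1,
      Finset.sum_induction _ _ (fun _ _ => Pl.add) ⟨0, by simp⟩ h2⟩
    rw [Ideal.map_mul, mid_map, show (of fun i j => (X (ι (i, j)) : Pol σ)).map (ev b) = 0 from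
      Matrix.ext fun i j => by_contra fun h' => h ⟨ι (i, j), by simp [hT], by simpa using h'⟩,
      mid_succ_zero, Ideal.mul_bot]

end main

end DetA

open DetA in
theorem det (χ : H36.Chi) (m n k : ℕ) :
    ∃ Z, HasZ χ (Ideal.span (Set.range (H10.minor m n k))) 1 Set.univ Z ∧ ∃ Q : Polynomial ℂ,
      algebraMap (Polynomial ℂ) (RatFunc ℂ) (∏ i ∈ Finset.range k,
        (Polynomial.C ((k - i : ℕ) : ℂ) * Polynomial.X +
          Polynomial.C (((m - i) * (n - i) : ℕ) : ℂ))) * Z =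
        algebraMap (Polynomial ℂ) (RatFunc ℂ) Q := by
  have := main χ k (id : Fin m × Fin n → _) ∅ 0 0 Set.univ Function.injective_id (by simp) (by simp)
    ConE.univ (by simp)
  simp only [Finset.prod_empty, Ideal.span_singleton_one, Ideal.top_mul, one_mul,
    Fintype.card_fin] at this
  rw [span_minor]
  exact this

end Pool.Agent.MP_ee8c61_ag.H95
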