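import Pool.Agent.MP_ee8c61_ag.H95.Kit
import Pool.Agent.MP_4f1c5b_al.H95.All

/-! The Euler characteristic of the locally closed subsets of a variety exists. -/

namespace Pool.Agent.MP_ee8c61_ag.H95

open Set AlgebraicGeometry CategoryTheory MvPolynomial
open Pool.Agent.MP_4f1c5b_al.H95 (IsEuler ConE)

namespace ExcA

variable {N : ℕ} {Y : Scheme.{0}} {π : Y ⟶ Aff N}

/-- `y` generates the ring of functions on `U`. -/
abbrev Gen (π : Y ⟶ Aff N) (U : Y.Opens) {m : ℕ} (y : Fin m → Γ(Y, U)) : Prop :=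
  Subring.closure (range ((pb π U).comp C) ∪ range y) = ⊤

theorem hom_ext {U : Y.Opens} {m : ℕ} {y : Fin m → Γ(Y, U)} (hy : Gen π U y)
    {φ φ' : Γ(Y, U) →+* ℂ} (h1 : ∀ t, φ (pb π U (C t)) = t) (h2 : ∀ t, φ' (pb π U (C t)) = t)
    (h : ∀ l, φ (y l) = φ' (y l)) : φ = φ' := by
  refine RingHom.eq_of_eqOn_set_dense hy ?_
  rintro _ (⟨t, rfl⟩ | ⟨l, rfl⟩)
  exacts [(h1 t).trans (h2 t).symm, h l]

theorem surj {U : Y.Opens} {m : ℕ} {y : Fin m → Γ(Y, U)} (hy : Gen π U y) (s : Γ(Y, U)) :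
    ∃ p : Pol (Fin m), ∀ (φ : Γ(Y, U) →+* ℂ) (c : Fin m → ℂ), (∀ t, φ (pb π U (C t)) = t) →
      (∀ l, φ (y l) = c l) → φ s = eval c p := by
  let e : Pol (Fin m) →+* Γ(Y, U) := eval₂Hom ((pb π U).comp C) y
  have he : Function.Surjective e := by
    rw [← RingHom.range_eq_top, eq_top_iff, ← hy, Subring.closure_le]
    rintro _ (⟨t, rfl⟩ | ⟨l, rfl⟩)
    · exact ⟨C t, eval₂Hom_C _ _ _⟩
    · exact ⟨X l, eval₂Hom_X' _ _ _⟩
  obtain ⟨p, rfl⟩ := he s
  exact ⟨p, fun φ c h1 h2 => RingHom.congr_fun (show φ.comp e = eval c from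
    ringHom_ext (fun t => by simp [e, h1]) fun l => by simp [e, h2]) p⟩

theorem pb_res {U : Y.Opens} (s : Γ(Y, U)) (p : Pol (Fin N)) :
    algebraMap Γ(Y, U) Γ(Y, Y.basicOpen s) (pb π U p) = pb π (Y.basicOpen s) p :=
  congrArg (fun f => f.hom (((Scheme.ΓSpecIso (CommRingCat.of (Pol (Fin N)))).inv).hom p))
    (π.appLE_map (U := ⊤) (V := U) le_top (homOfLE (Y.basicOpen_le s)).op)

theorem bo_res {U : Y.Opens} (s r : Γ(Y, U)) {x : Y} (hx : x ∈ Y.basicOpen s) :
    x ∈ Y.basicOpen (algebraMap Γ(Y, U) Γ(Y, Y.basicOpen s) r) ↔ x ∈ Y.basicOpen r := by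
  rw [show Y.basicOpen (algebraMap Γ(Y, U) Γ(Y, Y.basicOpen s) r) = _ from
    Y.basicOpen_res r (homOfLE (Y.basicOpen_le s)).op]
  exact and_iff_right hx

/-- Coordinates on a basic open set map bijectively to the old coordinates. -/
theorem bij {U D : Y.Opens} (hU : IsAffineOpen U) (s : Γ(Y, U)) (h : D = Y.basicOpen s) {m m' : ℕ}
    {y : Fin m → Γ(Y, U)} {y' : Fin m' → Γ(Y, D)} (hy : Gen π U y) (hy' : Gen π D y') {W : Set Y}
    (hW : W ⊆ D) : ∃ p : Fin m → Pol (Fin m'),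
      BijOn (fun x k => eval x (p k)) (coords π D y' W) (coords π U y W) := by
  subst h
  have := hU.isLocalization_basicOpen s
  choose p hp using fun l => surj hy' (algebraMap Γ(Y, U) Γ(Y, Y.basicOpen s) (y l))
  refine ⟨p, ?_, ?_, ?_⟩
  · rintro c ⟨φ, h1, ⟨x, hx, h2⟩, h3⟩
    exact ⟨φ.comp (algebraMap _ _), fun t => by rw [RingHom.comp_apply, pb_res, h1],
      ⟨x, hx, fun r => (h2 _).trans (bo_res s r (hW hx))⟩, fun l => hp l φ c h1 h3⟩
  · rintro c ⟨φ, h1, -, h3⟩ c' ⟨φ', h1', -, h3'⟩ e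
    have : φ = φ' := IsLocalization.ringHom_ext (Submonoid.powers s) (hom_ext hy
      (fun t => by rw [RingHom.comp_apply, pb_res, h1])
      (fun t => by rw [RingHom.comp_apply, pb_res, h1']) fun l =>
        (hp l φ c h1 h3).trans ((congrFun e l).trans (hp l φ' c' h1' h3').symm))
    exact funext fun l => by rw [← h3, ← h3', this]
  · rintro c ⟨φ, h1, ⟨x, hx, h2⟩, h3⟩
    have u : IsUnit (φ s) := ((h2 s).2 (hW hx)).isUnit
    let ψ : Γ(Y, Y.basicOpen s) →+* ℂ := IsLocalization.Away.lift s u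
    have e : ∀ r, ψ (algebraMap _ _ r) = φ r := IsLocalization.Away.lift_eq s u
    have k : ∀ t, ψ (pb π _ (C t)) = t := fun t => by rw [← pb_res, e, h1]
    refine ⟨fun l => ψ (y' l), ⟨ψ, k, ⟨x, hx, fun t => ?_⟩, fun _ => rfl⟩, funext fun l =>
      (hp l ψ _ k fun _ => rfl).symm.trans ((e _).trans (h3 l))⟩
    obtain ⟨⟨r, v⟩, hr⟩ := IsLocalization.surj (Submonoid.powers s) t
    have hv := IsLocalization.map_units Γ(Y, Y.basicOpen s) v
    have a1 : ψ t ≠ 0 ↔ φ r ≠ 0 := by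
      rw [← e, ← hr, map_mul, mul_ne_zero_iff, and_iff_left (hv.map ψ).ne_zero]
    rw [a1, h2, ← bo_res s r (hW hx), ← hr, Y.basicOpen_mul, Y.basicOpen_of_isUnit hv]
    exact and_iff_left (hW hx)

/-- An affine chart with coordinates. -/
structure Ch (π : Y ⟶ Aff N) where
  /-- the open set -/
  U : Y.Opens
  aff : IsAffineOpen U
  /-- the number of coordinates -/
  m : ℕ
  /-- the coordinates -/
  y : Fin m → Γ(Y, U)
  gen : Gen π U y

theorem exists_ch [LocallyOfFiniteType π] {U : Y.Opens} (hU : IsAffineOpen U) :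
    ∃ c : Ch π, c.U = U := by
  obtain ⟨m, y, h⟩ := Pool.Agent.MP_4f1c5b_al.H95.Sch2A.exists_gen ((pb π U).comp C) (by
    refine RingHom.FiniteType.comp ?_ (RingHom.finiteType_algebraMap.2 inferInstance)
    rw [pb, CommRingCat.hom_comp]
    exact (π.finiteType_appLE (isAffineOpen_top _) hU le_top).comp
      (RingHom.FiniteType.of_surjective _ (ConcreteCategory.bijective_of_isIso
        (Scheme.ΓSpecIso (CommRingCat.of (Pol (Fin N)))).inv).2))
  exact ⟨⟨U, hU, m, y, h⟩, rfl⟩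

/-- The value in a chart. -/
def val (χ : H36.Chi) (c : Ch π) (W : Set Y) : ℤ := χ (Fin c.m) (coords π c.U c.y W)

theorem lc_diff {W V : Set Y} (hW : IsLocallyClosed W) (hV : IsOpen V) :
    IsLocallyClosed (W \ V) := hW.inter hV.isClosed_compl.isLocallyClosed

variable {χ : H36.Chi} (H : H36.IsEuler χ) (hC : StmtCON)
include H

theorem val_empty (c : Ch π) : val χ c ∅ = 0 := by
  rw [val, show coords π c.U c.y ∅ = ∅ from by simp [coords], H.empty]

include hC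

theorem val_add (c : Ch π) {W V : Set Y} (hW : IsLocallyClosed W) (hV : IsOpen V) :
    val χ c W = val χ c (W ∩ V) + val χ c (W \ V) := by
  rw [val, val, val, ← H.add _ _ _
    (conE_iff.1 (hC _ _ π _ _ _ _ c.aff c.gen (hW.inter hV.isLocallyClosed)))
    (conE_iff.1 (hC _ _ π _ _ _ _ c.aff c.gen (lc_diff hW hV)))]
  · congr 1
    ext z
    constructor
    · rintro ⟨φ, h1, ⟨x, hx, h2⟩, h3⟩
      by_cases h : x ∈ V
      exacts [Or.inl ⟨φ, h1, ⟨x, ⟨hx, h⟩, h2⟩, h3⟩, Or.inr ⟨φ, h1, ⟨x, ⟨hx, h⟩, h2⟩, h3⟩]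
    · rintro (⟨φ, h1, ⟨x, hx, h2⟩, h3⟩ | ⟨φ, h1, ⟨x, hx, h2⟩, h3⟩) <;>
        exact ⟨φ, h1, ⟨x, hx.1, h2⟩, h3⟩
  · rw [disjoint_left]
    rintro z ⟨φ, h1, ⟨x, hx, h2⟩, h3⟩ ⟨φ', h1', ⟨x', hx', h2'⟩, h3'⟩
    obtain rfl := hom_ext c.gen h1 h1' fun l => (h3 l).trans (h3' l).symm
    obtain ⟨s, hs, hxs⟩ := c.aff.exists_basicOpen_le (V := ⟨V, hV⟩) ⟨x, hx.2⟩
      (Y.basicOpen_le 1 ((h2 1).1 (by simp)))
    exact hx'.2 (hs ((h2' s).1 ((h2 s).2 hxs)))

theorem val_basic (c d : Ch π) (s : Γ(Y, c.U)) (h : d.U = Y.basicOpen s) {W : Set Y}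
    (hW : IsLocallyClosed W) (hd : W ⊆ d.U) : val χ c W = val χ d W := by
  obtain ⟨p, hp⟩ := bij c.aff s h c.gen d.gen hd
  exact H.bijOn (conE_iff.1 (hC _ _ π _ _ _ _ d.aff d.gen hW)) p hp

theorem val_eq [LocallyOfFiniteType π] [TopologicalSpace.NoetherianSpace Y] (c c' : Ch π)
    {W : Set Y} (hW : IsLocallyClosed W) (h : W ⊆ c.U) (h' : W ⊆ c'.U) :
    val χ c W = val χ c' W := by
  classical
  have key : ∀ x : W, ∃ D : Y.Opens, x.1 ∈ D ∧ ∀ W' : Set Y, IsLocallyClosed W' → W' ⊆ D →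
      val χ c W' = val χ c' W' := fun x => by
    obtain ⟨f, g, e, hx⟩ := exists_basicOpen_le_affine_inter c.aff c'.aff x.1 ⟨h x.2, h' x.2⟩
    obtain ⟨d, hd⟩ := exists_ch (π := π) (c.aff.basicOpen f)
    exact ⟨d.U, hd ▸ hx, fun W' a b => (val_basic H hC c d f hd a b).trans
      (val_basic H hC c' d g (hd.trans e) a b).symm⟩
  choose D h1 h2 using key
  obtain ⟨t, ht⟩ := (TopologicalSpace.NoetherianSpace.isCompact W).elim_finite_subcover
    (fun x => (D x : Set Y)) (fun x => (D x).isOpen) fun x hx => mem_iUnion.2 ⟨⟨x, hx⟩, h1 _⟩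
  have ind : ∀ W' : Set Y, IsLocallyClosed W' → W' ⊆ ⋃ x ∈ t, (D x : Set Y) →
      val χ c W' = val χ c' W' := by
    clear ht
    induction t using Finset.induction_on with
    | empty =>
      intro W' _ b
      rw [subset_empty_iff.1 (by simpa using b : W' ⊆ ∅), val_empty H, val_empty H]
    | insert x t _ ih =>
      intro W' a b
      rw [Finset.set_biUnion_insert] at b
      rw [val_add H hC c a (D x).isOpen, val_add H hC c' a (D x).isOpen,
        h2 x _ (a.inter (D x).isOpen.isLocallyClosed) inter_subset_right,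
        ih _ (lc_diff a (D x).isOpen) (sdiff_subset_iff.2 b)]
  exact ind W hW ht

omit H hC in
/-- The sum over a list of charts. -/
def tot (χ : H36.Chi) : List (Ch π) → Set Y → ℤ
  | [], _ => 0
  | c :: L, W => val χ c (W ∩ c.U) + tot χ L (W \ c.U)

theorem tot_add (L : List (Ch π)) {V : Set Y} (hV : IsOpen V) : ∀ W : Set Y, IsLocallyClosed W →
    tot χ L W = tot χ L (W ∩ V) + tot χ L (W \ V) := by
  induction L with
  | nil => exact fun _ _ => rfl
  | cons c L ih =>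
    intro W hW
    rw [tot, tot, tot, val_add H hC c (hW.inter c.U.isOpen.isLocallyClosed) hV,
      ih _ (lc_diff hW c.U.isOpen), inter_right_comm W V,
      show W \ V ∩ c.U = (W ∩ c.U) \ V from inter_right_comm _ _ _,
      show (W ∩ V) \ c.U = W \ c.U ∩ V from inter_right_comm _ _ _,
      show (W \ V) \ c.U = (W \ c.U) \ V from inter_right_comm _ _ _]
    ring

theorem tot_eq [LocallyOfFiniteType π] [TopologicalSpace.NoetherianSpace Y] (d : Ch π)
    (L : List (Ch π)) : ∀ W : Set Y, IsLocallyClosed W → W ⊆ d.U →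
    (∀ x ∈ W, ∃ c ∈ L, x ∈ c.U) → tot χ L W = val χ d W := by
  induction L with
  | nil =>
    intro W _ _ b
    rw [eq_empty_of_forall_notMem (s := W) fun x hx => by simpa using b x hx, val_empty H]
    rfl
  | cons c L ih =>
    intro W hW a b
    rw [tot, val_add H hC d hW c.U.isOpen, val_eq H hC c d (hW.inter c.U.isOpen.isLocallyClosed)
      inter_subset_right (inter_subset_left.trans a),
      ih _ (lc_diff hW c.U.isOpen) (sdiff_subset.trans a) fun x hx => by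
        obtain ⟨c', h1, h2⟩ := b x hx.1
        rcases List.mem_cons.1 h1 with rfl | h1
        exacts [absurd h2 hx.2, ⟨c', h1, h2⟩]]

end ExcA

open ExcA Pool.Agent.MP_4f1c5b_al.H95 in
theorem exc (hU : StmtEUL) (hC : StmtCON) : StmtEXC := by
  intro N Y π hπ
  obtain ⟨χ₀, h0⟩ := exi ctx (uni (good typ cnt)) (uex ℚ).choose euAll
  obtain ⟨χ, H, h1, -⟩ := hU χ₀ h0
  have : CompactSpace Y := QuasiCompact.compactSpace_of_compactSpace π
  have := LocallyOfFiniteType.isLocallyNoetherian π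
  have : AlgebraicGeometry.IsNoetherian Y := {}
  obtain ⟨s, hs, e⟩ := (isCompact_iff_finite_and_eq_biUnion_affineOpens (X := Y)
    (U := ⊤)).1 isCompact_univ
  choose c hc using fun U : Y.affineOpens => exists_ch (π := π) U.2
  refine ⟨tot χ (hs.toFinset.toList.map c), fun W V hW hV => tot_add H hC _ hV W hW, χ₀, h0,
    fun U m y W a b hW hW' => ?_⟩
  rw [← h1 _ _ (hC _ _ π _ _ _ _ a b hW')]
  refine tot_eq H hC ⟨U, a, m, y, b⟩ _ W hW' hW fun x _ => ?_
  have : x ∈ (⊤ : Y.Opens) := trivial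
  rw [e] at this
  simp only [TopologicalSpace.Opens.mem_iSup] at this
  obtain ⟨V, h2, h3⟩ := this
  exact ⟨c V, List.mem_map_of_mem (by simpa using h2), hc V ▸ h3⟩

end Pool.Agent.MP_ee8c61_ag.H95
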