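import Pool.Agent.MP_ee8c61_ag.H95.Kit

/-! The assembly of the steps. -/

namespace Pool.Agent.MP_ee8c61_ag.H95

open Set AlgebraicGeometry CategoryTheory
open Pool.Agent.MP_4f1c5b_al.H95 (IsEuler ConE)

theorem dl (hE : StmtEST) (hT : StmtTAIL) : StmtDL := fun M N J _ g D hD => by
  ext n
  rw [PowerSeries.coeff_mk]
  obtain ⟨B, hB⟩ := (finite_range fun r => Nat.card (D.s r).κ).bddAbove
  have h1 : ∀ {a b : ℕ}, a ≤ b → M.L ^ a ≤ M.L ^ b := fun h => pow_le_pow_right₀ M.one_lt.le h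
  refine hT M N D.R _ _ _ _ _ n (B + 2 * N + N * n) (fun r => ⟨M.mem _, M.nonneg _,
    (M.le_pow (hD.2 r).2).trans (h1 ((hB ⟨r, rfl⟩).trans (by omega)))⟩) ?_ fun K hK =>
    (hE M N J g D n K hD hK).trans (div_le_div_of_nonneg_right (h1 (by omega)) (pow_pos M.pos _).le)
  rw [MM.mes, pow_add, mul_left_comm, div_mul_cancel₀ _ (pow_ne_zero _ M.ne)]
  exact mul_mem (pow_mem M.Lmem _) (M.mem _)

namespace MM.Lim

variable {M : MM}

theorem one : M.Lim 1 1 := by simpa using Lim.const (M := M) 1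

theorem sum {α : Type} (s : Finset α) {F : α → PowerSeries Hyperreal} {Z : α → RatFunc ℂ}
    (h : ∀ a ∈ s, M.Lim (F a) (Z a)) : M.Lim (∑ a ∈ s, F a) (∑ a ∈ s, Z a) := by
  classical
  induction s using Finset.induction_on with
  | empty => simpa using Lim.const (M := M) 0
  | insert a s ha ih =>
    rw [Finset.sum_insert ha, Finset.sum_insert ha]
    exact (h a (Finset.mem_insert_self _ _)).add (ih fun b hb => h b (Finset.mem_insert_of_mem hb))

theorem prod {α : Type} (s : Finset α) {F : α → PowerSeries Hyperreal} {Z : α → RatFunc ℂ}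
    (h : ∀ a ∈ s, M.Lim (F a) (Z a)) : M.Lim (∏ a ∈ s, F a) (∏ a ∈ s, Z a) := by
  classical
  induction s using Finset.induction_on with
  | empty => simpa using one
  | insert a s ha ih =>
    rw [Finset.prod_insert ha, Finset.prod_insert ha]
    exact (h a (Finset.mem_insert_self _ _)).mul (ih fun b hb => h b (Finset.mem_insert_of_mem hb))

theorem powL (r : ℕ) : M.Lim (PowerSeries.C (M.L ^ r)) 1 := by
  have := Lim.const (M := M) (⟨M.L, M.Lmem⟩ ^ r)
  rwa [map_pow, M.εL, one_pow, map_one] at this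

end MM.Lim

/-- `χ` is the specialisation of every counting measure. -/
def Spec' (χ : H36.Chi) : Prop :=
  ∀ (M : MM) (ι : Type) [Finite ι] (S : Set (ι → ℂ)), ConE M.E S → M.ε ⟨M.μ S, M.mem S⟩ = χ ι S

theorem lim_mes (hD : StmtDL) {χ : H36.Chi} (hχ : Spec' χ) (M : MM) {N : ℕ} {J : Type} [Finite J]
    {g : J → Pol (Fin N)} (D : Dat N g) (h : D.Over M.E) :
    M.Lim (PowerSeries.mk (M.mes g)) (D.ztop χ) := by
  rw [hD M N J g D h]
  refine MM.Lim.sum _ fun r _ => MM.Lim.mul ?_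
    (MM.Lim.prod _ fun l _ => MM.Lim.phi _ _ (Nat.succ_pos _))
  simpa [hχ M _ _ (h.2 r).2] using MM.Lim.const (M := M) ⟨M.μ (D.s r).P, M.mem _⟩

theorem cayley_ne {r n : ℕ} {f : Fin r → Pol (Fin n)} (h : ∃ j, f j ≠ 0) : H36.cayley f ≠ 0 := by
  obtain ⟨j, hj⟩ := h
  intro e
  have := congrArg (ev (Fin.addCases (fun i => if i = j then 1 else 0) MvPolynomial.X :
    Fin (r + n) → Pol (Fin n))) e
  simp only [H36.cayley, map_sum, map_mul, MvPolynomial.aeval_rename, MvPolynomial.aeval_X,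
    Function.comp_def, Fin.addCases_left, Fin.addCases_right] at this
  exact hj (by simpa using this)

/-- The zeta function of a log resolution, computed on a fan of the Cayley polynomial. -/
theorem compare (hM : StmtMM) (hU : StmtEUL) (hL : StmtLIM) (hD : StmtDL) (hJ : StmtJET)
    (hC : StmtCAY) (hF : StmtFAN) (hT : StmtTOR) (hP : StmtPD) (hR : StmtRES) {r n : ℕ}
    (f : Fin r → Pol (Fin n)) (h0 : ∃ j, f j ≠ 0)
    (hf : ∀ w : Fin (r + n) → ℕ, H36.SmoothInTorus (H36.face (fun i => w i) (H36.cayley f)))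
    {Y : Scheme.{0}} {π : Y ⟶ Aff n} {J : Type} [Fintype J] {E : J → Set Y} {a k : J → ℕ}
    (hY : IsLogRes (Ideal.span (range f)) π E a k) {χ : Set Y → ℤ} (hχ : IsChi π χ) :
    ∃ χ' Φ, H36.IsEuler χ' ∧ H36.IsFan (H36.cayley f) Φ ∧
      zeta E a k χ = (RatFunc.X + 1) * H36.zeta χ' (H36.cayley f) Φ := by
  obtain ⟨D, χ₀, h1, h2⟩ := hR n _ f Y π J E a k χ hY hχ
  obtain ⟨χ', h3, h4, h5⟩ := hU χ₀ h1
  obtain ⟨Φ, hΦ⟩ := hF _ _ (cayley_ne h0)
  obtain ⟨P, hP'⟩ := hT _ _ Φ hΦ hf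
  obtain ⟨D', hD'⟩ := hP _ _ _ P
  obtain ⟨A, hA, hA'⟩ := hJ.defd _ _ _ D
  obtain ⟨B, hB, hB'⟩ := hJ.defd _ _ _ D'
  obtain ⟨M, hM'⟩ := hM _ (hA.union hB).countable
  have o1 := hA' _ (subset_union_left.trans hM')
  have l1 := MM.Lim.X.mul (lim_mes hD h5 M D' (hB' _ (subset_union_right.trans hM')))
  have l2 := ((MM.Lim.powL r).mul (MM.Lim.phi 1 1 one_pos)).mul (lim_mes hD h5 M D o1)
  rw [hC M r n f o1.1] at l1
  have e := hL M _ _ _ l1 l2
  refine ⟨χ', Φ, h3, hΦ, ?_⟩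
  have h6 : (RatFunc.X + 1 : RatFunc ℂ) ≠ 0 := by
    simpa using RatFunc.algebraMap_ne_zero (Polynomial.X_add_C_ne_zero (1 : ℂ))
  rw [← h2 χ' h4, ← hP' χ' h3, ← hD' χ' h3, ← one_mul (D'.ztop χ'), e]
  simp only [Nat.cast_one, one_mul]
  field_simp

end Pool.Agent.MP_ee8c61_ag.H95
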