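import Pool.Agent.MP_ee8c61_ag.H95.Kit

/-!
The inverse function theorem for arcs, by Newton iteration.
-/

namespace Pool.Agent.MP_ee8c61_ag.H95

open Matrix

namespace InvA

theorem fac {x : PS} {e : ℕ} (h : x.order = e) : ∃ u w : PS, x = tt ^ e * u ∧ w * u = 1 := by
  obtain ⟨⟨u, hu⟩, h2⟩ := order_eq_iff.1 h
  have h3 : PowerSeries.constantCoeff u ≠ 0 := fun h0 => h2 <| by
    rw [hu, pow_succ]
    exact mul_dvd_mul_left _ (PowerSeries.X_dvd_iff.2 h0)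
  obtain ⟨w, hw⟩ := (PowerSeries.isUnit_iff_constantCoeff.2 (IsUnit.mk0 _ h3)).exists_left_inv
  exact ⟨u, w, hu, hw⟩

theorem solve {N : ℕ} (A : Matrix (Fin N) (Fin N) PS) {e c : ℕ} (h : A.det.order = e)
    (s : Fin N → PS) (hs : ∀ i, tt ^ (c + e) ∣ s i) :
    ∃ δ : Fin N → PS, (∀ l, tt ^ c ∣ δ l) ∧ ∀ i, ∑ l, A i l * δ l = s i := by
  obtain ⟨u, w, hu, hw⟩ := fac h
  choose r hr using hs
  refine ⟨(tt ^ c * w) • (A.adjugate *ᵥ r), fun l => ?_, fun i => ?_⟩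
  · rw [Pi.smul_apply, smul_eq_mul, mul_assoc]
    exact dvd_mul_right _ _
  · have h1 : A *ᵥ ((tt ^ c * w) • (A.adjugate *ᵥ r)) = (tt ^ c * w * A.det) • r := by
      rw [Matrix.mulVec_smul, Matrix.mulVec_mulVec, Matrix.mul_adjugate, Matrix.smul_mulVec,
        Matrix.one_mulVec, smul_smul]
    have h2 := congrFun h1 i
    rw [Pi.smul_apply, smul_eq_mul, hu] at h2
    have h3 : tt ^ c * w * (tt ^ e * u) * r i = s i := by
      rw [hr, pow_add]
      linear_combination (tt ^ c * tt ^ e * r i) * hw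
    rw [← h3, ← h2]
    rfl

theorem cc_dvd {x : PS} {c : ℕ} (hc : 0 < c) (h : tt ^ c ∣ x) :
    PowerSeries.constantCoeff x = 0 :=
  PowerSeries.X_dvd_iff.1 ((dvd_pow_self tt hc.ne').trans h)

theorem base_eq {N : ℕ} (C : Chart N) {γ γ' : C.A →ₐ[ℂ] PS} (h : C.pt γ' = C.pt γ) :
    C.base γ = C.base γ' := by
  rw [← C.pt_y, ← C.pt_y, h]

theorem step (h : StmtARC) {N : ℕ} (C : Chart N) (γ : C.A →ₐ[ℂ] PS) {e c : ℕ} (b : Fin N → PS)
    (hd : (γ C.Jm.det).order = e) (hc : e < c) (hb : ∀ i, tt ^ (c + e) ∣ b i - γ (C.f i)) :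
    ∃ γ' : C.A →ₐ[ℂ] PS, (∀ x, tt ^ c ∣ γ' x - γ x) ∧ (γ' C.Jm.det).order = e ∧
      ∀ i, tt ^ (c + 1 + e) ∣ b i - γ' (C.f i) := by
  have hd' : (γ.mapMatrix C.Jm).det.order = e := by
    rw [← AlgHom.map_det]
    exact hd
  obtain ⟨δ, h1, h2⟩ := solve _ hd' _ hb
  obtain ⟨γ', p1, p2⟩ := h.lift N C (C.pt γ) (fun l => γ (C.z l) + δ l) fun l => by
    rw [map_add, cc_dvd (Nat.zero_lt_of_lt hc) (h1 l), add_zero, Chart.pt_apply]
  have p3 : ∀ l, γ' (C.z l) - γ (C.z l) = δ l := fun l => by rw [p2, add_sub_cancel_left]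
  have p4 := h.congr N C γ γ' c (base_eq C p1) fun l => by rw [p3]; exact h1 l
  refine ⟨γ', p4, order_congr hd hc (p4 _), fun i => ?_⟩
  have p5 := h.taylor N C γ γ' c p4 (C.f i)
  simp only [p3] at p5
  have p6 : ∑ l, γ (C.D l (C.f i)) * δ l = b i - γ (C.f i) := h2 i
  rw [p6] at p5
  have p7 : b i - γ' (C.f i) = -(γ' (C.f i) - γ (C.f i) - (b i - γ (C.f i))) := by ring
  rw [p7]
  exact ((pow_dvd_pow tt (by omega)).trans p5).neg_right

theorem seq (h : StmtARC) {N : ℕ} (C : Chart N) (γ : C.A →ₐ[ℂ] PS) {e c : ℕ} (b : Fin N → PS)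
    (hd : (γ C.Jm.det).order = e) (hc : e < c) (hb : ∀ i, tt ^ (c + e) ∣ b i - γ (C.f i)) :
    ∃ g : ℕ → (C.A →ₐ[ℂ] PS), g 0 = γ ∧ (∀ n x, tt ^ (c + n) ∣ g (n + 1) x - g n x) ∧
      ∀ n i, tt ^ (c + n + e) ∣ b i - g n (C.f i) := by
  have st : ∀ (n : ℕ) (β : C.A →ₐ[ℂ] PS), ∃ β' : C.A →ₐ[ℂ] PS,
      ((β C.Jm.det).order = e ∧ ∀ i, tt ^ (c + n + e) ∣ b i - β (C.f i)) →
      (∀ x, tt ^ (c + n) ∣ β' x - β x) ∧ (β' C.Jm.det).order = e ∧
        ∀ i, tt ^ (c + (n + 1) + e) ∣ b i - β' (C.f i) := fun n β => by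
    by_cases hβ : (β C.Jm.det).order = e ∧ ∀ i, tt ^ (c + n + e) ∣ b i - β (C.f i)
    · obtain ⟨β', hβ'⟩ := step h C β b hβ.1 (show e < c + n by omega) hβ.2
      exact ⟨β', fun _ => hβ'⟩
    · exact ⟨β, fun h' => absurd h' hβ⟩
  choose nx hnx using st
  let g : ℕ → (C.A →ₐ[ℂ] PS) := fun n => Nat.rec γ nx n
  have gs : ∀ n, g (n + 1) = nx n (g n) := fun _ => rfl
  have hg : ∀ n, (g n C.Jm.det).order = e ∧ ∀ i, tt ^ (c + n + e) ∣ b i - g n (C.f i) := by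
    intro n
    induction n with
    | zero => exact ⟨hd, hb⟩
    | succ n ih =>
      rw [gs]
      exact (hnx n _ ih).2
  refine ⟨g, rfl, fun n x => ?_, fun n => (hg n).2⟩
  rw [gs]
  exact (hnx n _ (hg n)).1 x

theorem cauchy {c : ℕ} {a : ℕ → PS} (h : ∀ n, tt ^ (c + n) ∣ a (n + 1) - a n) {n k : ℕ}
    (hk : n ≤ k) : tt ^ (c + n) ∣ a k - a n := by
  induction k, hk using Nat.le_induction with
  | base => simp
  | succ k hk ih =>
    have := ((pow_dvd_pow tt (Nat.add_le_add_left hk c)).trans (h k)).add ih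
    rwa [sub_add_sub_cancel] at this

theorem lim {c : ℕ} (hc : 0 < c) {a : ℕ → PS} (h : ∀ n, tt ^ (c + n) ∣ a (n + 1) - a n) (n : ℕ) :
    tt ^ (c + n) ∣ (PowerSeries.mk fun j => PowerSeries.coeff j (a j)) - a n := by
  refine PowerSeries.X_pow_dvd_iff.2 fun j hj => ?_
  rw [map_sub, PowerSeries.coeff_mk, ← map_sub]
  rcases le_total n j with hn | hn
  · exact PowerSeries.X_pow_dvd_iff.1 (cauchy h hn) j hj
  · exact PowerSeries.X_pow_dvd_iff.1 (dvd_sub_comm.1 (cauchy h hn)) j (by omega)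

end InvA

open InvA

theorem inv (h : StmtARC) : StmtINV := by
  intro N C γ e m b hd hm hb
  have hc : e < m + 1 - e := by omega
  have hc0 : 0 < m + 1 - e := Nat.zero_lt_of_lt hc
  obtain ⟨g, g0, g1, g2⟩ := seq h C γ b hd hc fun i => by
    rw [show m + 1 - e + e = m + 1 by omega]
    exact hb i
  generalize m + 1 - e = c at *
  obtain ⟨γ', p1, p2⟩ := h.lift N C (C.pt γ)
    (fun l => PowerSeries.mk fun j => PowerSeries.coeff j (g j (C.z l))) fun l => by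
    rw [← PowerSeries.coeff_zero_eq_constantCoeff_apply, PowerSeries.coeff_mk, g0,
      PowerSeries.coeff_zero_eq_constantCoeff_apply, Chart.pt_apply]
  have p3 : ∀ n, C.pt γ' = C.pt (g n) := fun n => by
    rw [p1]
    refine AlgHom.ext fun x => ?_
    have := cc_dvd (Nat.add_pos_left hc0 0)
      (cauchy (a := fun k => g k x) (fun k => g1 k x) (Nat.zero_le n))
    rw [map_sub, sub_eq_zero, g0] at this
    exact this.symm
  have p4 : ∀ n x, tt ^ (c + n) ∣ γ' x - g n x := fun n =>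
    h.congr N C (g n) γ' (c + n) (base_eq C (p3 n)) fun l => by
      rw [p2]
      exact lim hc0 (a := fun k => g k (C.z l)) (fun k => g1 k _) n
  refine ⟨γ', fun x => by simpa [g0] using p4 0 x, funext fun i => ?_⟩
  rw [Function.comp_apply, eq_comm, ← sub_eq_zero]
  ext j
  have q1 : tt ^ (c + j) ∣ b i - γ' (C.f i) := by
    have := ((pow_dvd_pow tt (Nat.le_add_right _ e)).trans (g2 j i)).sub (p4 j (C.f i))
    rwa [sub_sub_sub_cancel_right] at this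
  rw [PowerSeries.X_pow_dvd_iff.1 q1 j (by omega), map_zero]

end Pool.Agent.MP_ee8c61_ag.H95
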