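import Pool.Agent.MP_ee8c61_ag.H95.Spec

/-! Elementary facts about constructible sets and counting measures. -/

namespace Pool.Agent.MP_ee8c61_ag.H95

open Set MvPolynomial
open Pool.Agent.MP_4f1c5b_al.H95 (IsEuler ConE)

section Poly

variable {ι κ : Type} {E : Subfield ℂ} {p q : Pol ι}

theorem polyE_iff : PolyE E p ↔ p ∈ (map (algebraMap E ℂ) : MvPolynomial ι E →+* Pol ι).range := by
  refine ⟨fun h => mem_range_map_iff_coeffs_subset.2 fun c hc => ?_, ?_⟩
  · obtain ⟨m, -, rfl⟩ := mem_coeffs_iff.1 hc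
    exact ⟨⟨_, h m⟩, rfl⟩
  · rintro ⟨q, rfl⟩ m
    rw [coeff_map]
    exact (q.coeff m).2

/-- The polynomials with coefficients in `E`. -/
noncomputable def polyE (E : Subfield ℂ) (ι : Type) : Subring (Pol ι) :=
  (map (algebraMap E ℂ) : MvPolynomial ι E →+* Pol ι).range

theorem mem_polyE : p ∈ polyE E ι ↔ PolyE E p := polyE_iff.symm

theorem PolyE.top (p : Pol ι) : PolyE ⊤ p := fun _ => trivial

theorem PolyE.X (k : ι) : PolyE E (X k : Pol ι) := polyE_iff.2 ⟨MvPolynomial.X k, map_X _ _⟩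

theorem PolyE.C {c : ℂ} (h : c ∈ E) : PolyE E (C c : Pol ι) :=
  polyE_iff.2 ⟨MvPolynomial.C ⟨c, h⟩, map_C _ _⟩

theorem PolyE.add (h : PolyE E p) (h' : PolyE E q) : PolyE E (p + q) :=
  mem_polyE.1 (add_mem (mem_polyE.2 h) (mem_polyE.2 h'))

theorem PolyE.sub (h : PolyE E p) (h' : PolyE E q) : PolyE E (p - q) :=
  mem_polyE.1 (sub_mem (mem_polyE.2 h) (mem_polyE.2 h'))

theorem PolyE.mul (h : PolyE E p) (h' : PolyE E q) : PolyE E (p * q) :=
  mem_polyE.1 (mul_mem (mem_polyE.2 h) (mem_polyE.2 h'))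

theorem PolyE.sum {α : Type} (s : Finset α) {f : α → Pol ι} (h : ∀ a ∈ s, PolyE E (f a)) :
    PolyE E (∑ a ∈ s, f a) := mem_polyE.1 (sum_mem fun a ha => mem_polyE.2 (h a ha))

theorem PolyE.rename (h : PolyE E p) (φ : ι → κ) : PolyE E (rename φ p) := by
  obtain ⟨q, rfl⟩ := polyE_iff.1 h
  exact polyE_iff.2 ⟨MvPolynomial.rename φ q, map_rename _ _ _⟩

theorem PolyE.induction {Q : Pol ι → Prop} (h : PolyE E p) (hC : ∀ c ∈ E, Q (MvPolynomial.C c))
    (hadd : ∀ p q, Q p → Q q → Q (p + q)) (hX : ∀ p k, Q p → Q (p * MvPolynomial.X k)) : Q p := by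
  obtain ⟨q, rfl⟩ := polyE_iff.1 h
  clear h
  induction q using MvPolynomial.induction_on with
  | C c =>
    rw [map_C]
    exact hC c c.2
  | add p q hp hq => simpa using hadd _ _ hp hq
  | mul_X p k hp => simpa using hX _ k hp

theorem PolyE.con (h : PolyE E p) : ConE E {x | eval x p = 0} := ConE.zero p h

theorem polyE_finite (p : Pol ι) :
    ∃ A : Set ℂ, A.Finite ∧ ∀ E : Subfield ℂ, A ⊆ E → PolyE E p :=
  ⟨p.coeffs, p.coeffs.finite_toSet, fun E hE m => by
    by_cases h0 : p.coeff m = 0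
    · rw [h0]; exact zero_mem E
    · exact hE (coeff_mem_coeffs m h0)⟩

theorem conE_iff {S : Set (ι → ℂ)} : ConE ⊤ S ↔ H36.Con S := by
  refine ⟨fun h => ?_, fun h => ?_⟩
  · induction h with
    | zero p _ => exact H36.Con.zero p
    | compl _ ih => exact ih.compl
    | union _ _ ih ih' => exact ih.union ih'
  · induction h with
    | zero p => exact ConE.zero p fun _ => trivial
    | compl _ ih => exact ih.compl
    | union _ _ ih ih' => exact ih.union ih'

theorem conE_coord (k : ι) : ConE E {x : ι → ℂ | x k = 0} := ConE.eq_const k (zero_mem E)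

theorem conE_and {P Q : (ι → ℂ) → Prop} (h : ConE E {x | P x}) (h' : ConE E {x | Q x}) :
    ConE E {x | P x ∧ Q x} := h.inter h'

theorem conE_not {P : (ι → ℂ) → Prop} (h : ConE E {x | P x}) : ConE E {x | ¬P x} := h.compl

theorem conE_all {α : Type} [Finite α] {P : α → (ι → ℂ) → Prop} (h : ∀ a, ConE E {x | P a x}) :
    ConE E {x | ∀ a, P a x} := by
  simpa only [ofPred_forall] using ConE.iInter h

theorem conE_ex {α : Type} [Finite α] {P : α → (ι → ℂ) → Prop} (h : ∀ a, ConE E {x | P a x}) :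
    ConE E {x | ∃ a, P a x} := by
  simpa only [ofPred_exists] using ConE.iUnion h

theorem conE_imp {H : Prop} {P : (ι → ℂ) → Prop} (h : H → ConE E {x | P x}) :
    ConE E {x | H → P x} := by
  by_cases hH : H
  · simpa [hH] using h hH
  · simpa [hH] using ConE.univ

theorem conE_ball {α : Type} (s : Finset α) {P : α → (ι → ℂ) → Prop}
    (h : ∀ a ∈ s, ConE E {x | P a x}) : ConE E {x | ∀ a ∈ s, P a x} := by
  simp only [ofPred_forall]
  exact ConE.biInter s.finite_toSet h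

theorem conE_biUnion {α : Type} (s : Finset α) {S : α → Set (ι → ℂ)}
    (h : ∀ a ∈ s, ConE E (S a)) : ConE E (⋃ a ∈ s, S a) := ConE.biUnion s.finite_toSet h

end Poly

namespace MM

variable (M : MM) {ι κ : Type} [Finite ι] [Finite κ] {S T : Set (ι → ℂ)}

theorem one_lt : 1 < M.L := one_lt_two.trans_le M.two

theorem pos : 0 < M.L := one_pos.trans M.one_lt

theorem ne : M.L ≠ 0 := M.pos.ne'

theorem nat_le (n : ℕ) : (n : Hyperreal) ≤ M.L ^ n :=
  le_trans (by exact_mod_cast n.lt_two_pow_self.le) (pow_le_pow_left₀ zero_le_two M.two n)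

theorem empty : M.μ (∅ : Set (ι → ℂ)) = 0 := by
  simpa using M.add (S := (∅ : Set (ι → ℂ))) ConE.empty ConE.empty (by simp)

theorem split (hS : ConE M.E S) (hT : ConE M.E T) : M.μ S = M.μ (S ∩ T) + M.μ (S \ T) := by
  rw [← M.add (hS.inter hT) (hS.diff hT) (disjoint_sdiff_right.mono_left inter_subset_right),
    inter_union_sdiff]

theorem mono (hS : ConE M.E S) (hT : ConE M.E T) (h : S ⊆ T) : M.μ S ≤ M.μ T := by
  rw [M.split hT hS, inter_eq_right.2 h]
  exact le_add_of_nonneg_right (M.nonneg _)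

theorem union_le (hS : ConE M.E S) (hT : ConE M.E T) : M.μ (S ∪ T) ≤ M.μ S + M.μ T := by
  rw [← union_sdiff_self, M.add hS (hT.diff hS) disjoint_sdiff_right]
  exact add_le_add_right (M.mono (hT.diff hS) hT sdiff_subset) _

theorem biUnion {α : Type} (A : Finset α) {S : α → Set (ι → ℂ)} (h : ∀ a ∈ A, ConE M.E (S a))
    (hd : ∀ a ∈ A, ∀ a' ∈ A, a ≠ a' → Disjoint (S a) (S a')) :
    M.μ (⋃ a ∈ A, S a) = ∑ a ∈ A, M.μ (S a) := by
  classical
  induction A using Finset.induction_on with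
  | empty => simpa using M.empty
  | insert a A ha ih =>
    have h1 : ∀ b ∈ A, b ∈ insert a A := fun b => Finset.mem_insert_of_mem
    rw [Finset.set_biUnion_insert, Finset.sum_insert ha, M.add (h a (Finset.mem_insert_self _ _))
      (conE_biUnion A fun b hb => h b (h1 b hb)) (disjoint_iUnion₂_right.2
        fun b hb => hd a (Finset.mem_insert_self _ _) b (h1 b hb) fun e => ha (e ▸ hb)),
      ih (fun b hb => h b (h1 b hb)) fun b hb c hc => hd b (h1 b hb) c (h1 c hc)]

theorem biUnion_le {α : Type} (A : Finset α) {S : α → Set (ι → ℂ)}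
    (h : ∀ a ∈ A, ConE M.E (S a)) : M.μ (⋃ a ∈ A, S a) ≤ ∑ a ∈ A, M.μ (S a) := by
  classical
  induction A using Finset.induction_on with
  | empty => simpa using M.empty.le
  | insert a A ha ih =>
    have h1 : ∀ b ∈ A, ConE M.E (S b) := fun b hb => h b (Finset.mem_insert_of_mem hb)
    rw [Finset.set_biUnion_insert, Finset.sum_insert ha]
    exact (M.union_le (h a (Finset.mem_insert_self _ _)) (conE_biUnion A h1)).trans
      (add_le_add_right (ih h1) _)

/-- The fibration rule with an arbitrary finite set of free coordinates. -/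
theorem fib' {B : Set (κ → ℂ)} (b : κ → ι) (α : Type) [Finite α] (hS : ConE M.E S)
    (hB : ConE M.E B) (h : MapsTo (· ∘ b) S B)
    (H : ∀ y ∈ B, ∃ c : α → ι, BijOn (· ∘ c) {x ∈ S | x ∘ b = y} univ) :
    M.μ S = M.L ^ Nat.card α * M.μ B := by
  refine M.fib b _ hS hB h fun y hy => ?_
  obtain ⟨c, hc⟩ := H y hy
  let e := (Finite.equivFin α).symm
  exact ⟨c ∘ e, ((e.arrowCongr (Equiv.refl ℂ)).symm.bijective.bijOn_univ).comp hc⟩

/-- Bijective coordinate maps preserve the measure. -/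
theorem bij {B : Set (κ → ℂ)} (b : κ → ι) (hS : ConE M.E S) (hB : ConE M.E B)
    (h : BijOn (· ∘ b) S B) : M.μ S = M.μ B := by
  rw [M.fib b 0 hS hB h.mapsTo fun y hy => ?_, pow_zero, one_mul]
  obtain ⟨x, hx, e⟩ := h.surjOn hy
  exact ⟨Fin.elim0, mapsTo_univ _ _, fun x₁ h₁ x₂ h₂ _ => h.injOn h₁.1 h₂.1 (h₁.2.trans h₂.2.symm),
    fun w _ => ⟨x, ⟨hx, e⟩, Subsingleton.elim _ _⟩⟩

theorem univ : M.μ (Set.univ : Set (ι → ℂ)) = M.L ^ Nat.card ι := by
  rw [M.fib' (κ := Fin 0) Fin.elim0 ι ConE.univ ConE.univ (mapsTo_univ _ _) fun y _ =>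
    ⟨id, mapsTo_univ _ _, fun _ _ _ _ e => e, fun w _ => ⟨w, ⟨trivial, Subsingleton.elim _ _⟩, rfl⟩⟩,
    M.pt, mul_one]

theorem le_pow (hS : ConE M.E S) : M.μ S ≤ M.L ^ Nat.card ι :=
  (M.mono hS ConE.univ (subset_univ _)).trans_eq M.univ

end MM

end Pool.Agent.MP_ee8c61_ag.H95
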