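import Pool.Agent.MP_ee8c61_ag.H95.PSpec

/-! Plane polynomials without common prime factor have finitely many common zeros. -/

namespace Pool.Agent.MP_ee8c61_ag.H95

open Set MvPolynomial

namespace PFinA

theorem no_chain {a b c d : PrimeSpectrum (MvPolynomial (Fin 2) ℂ)} (h1 : a < b) (h2 : b < c)
    (h3 : c < d) : False := by
  have h := Order.LTSeries.length_le_krullDim
    (LTSeries.mk 3 ![a, b, c, d] (Fin.strictMono_iff_lt_succ.2 fun i => by
      fin_cases i
      exacts [h1, h2, h3]))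
  have e : ringKrullDim (MvPolynomial (Fin 2) ℂ) = (2 : ℕ) := by
    rw [MvPolynomial.ringKrullDim_of_isNoetherianRing, ringKrullDim_eq_zero_of_field]
    simp
  have h' : ((3 : ℕ) : WithBot ℕ∞) ≤ (2 : ℕ) := h.trans e.le
  exact absurd (Nat.cast_le.1 h') (by norm_num)

end PFinA

theorem pfin : StmtFIN := by
  intro s h
  refine Set.Finite.of_injOn (f := fun x => RingHom.ker (eval x)) (fun x hx => ?_)
    (fun x _ y _ e => funext fun i => ?_)
    (Ideal.finite_minimalPrimes_of_isNoetherianRing _ (Ideal.span s))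
  · have hm : (RingHom.ker (eval x)).IsPrime := RingHom.ker_isPrime _
    obtain ⟨q, hq, hle⟩ := Ideal.exists_minimalPrimes_le (I := Ideal.span s)
      (J := RingHom.ker (eval x)) (Ideal.span_le.2 hx)
    have hs : ∀ g ∈ s, g ∈ q := fun g hg => hq.1.2 (Ideal.subset_span hg)
    obtain ⟨g, hg, h0⟩ := h (X 0) X_prime
    obtain ⟨p, hpq, hp⟩ := hq.1.1.exists_mem_prime_of_ne_bot fun e => h0 (by
      have h2 := hs g hg
      rw [e, Ideal.mem_bot] at h2
      rw [h2]
      exact dvd_zero _)
    obtain ⟨g', hg', h1⟩ := h p hp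
    rcases hle.eq_or_lt with e | hlt
    · subst e
      exact hq
    refine (PFinA.no_chain (a := ⟨⊥, Ideal.isPrime_bot⟩)
      (b := ⟨Ideal.span {p}, (Ideal.span_singleton_prime hp.ne_zero).2 hp⟩) (c := ⟨q, hq.1.1⟩)
      (d := ⟨_, hm⟩) ?_ ?_ hlt).elim
    · change (⊥ : Ideal _) < Ideal.span {p}
      exact bot_lt_iff_ne_bot.2 (mt Ideal.span_singleton_eq_bot.1 hp.ne_zero)
    · change Ideal.span {p} < q
      exact SetLike.lt_iff_le_and_exists.2 ⟨(Ideal.span_singleton_le_iff_mem _).2 hpq, g',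
        hs g' hg', mt Ideal.mem_span_singleton.1 h1⟩
  · have h1 : X i - C (y i) ∈ RingHom.ker (eval y) := by simp
    rw [← show RingHom.ker (eval x) = RingHom.ker (eval y) from e] at h1
    simpa [sub_eq_zero] using h1

end Pool.Agent.MP_ee8c61_ag.H95
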