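import Pool.Agent.MP_ee8c61_ag.H95.PSpec

/-! Plane ideals: the global zeta function. -/

namespace Pool.Agent.MP_ee8c61_ag.H95

open Set MvPolynomial
open Pool.Agent.MP_4f1c5b_al.H95 (ConE)

namespace PGlobA

open UniqueFactorizationMonoid in
theorem fac {R : Type} [CommRing R] [IsDomain R] [UniqueFactorizationMonoid R] {r : ℕ}
    (f : Fin r → R) (hf : ∃ i, f i ≠ 0) : ∃ (H : Finset R) (a : R → ℕ) (g : Fin r → R),
      (∀ h ∈ H, Prime h ∧ 0 < a h) ∧ (∀ h ∈ H, ∀ h' ∈ H, h ∣ h' → h = h') ∧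
      (∀ i, f i = (∏ h ∈ H, h ^ a h) * g i) ∧ ∀ p, Prime p → ∃ i, ¬p ∣ g i := by
  classical
  let _ : NormalizationMonoid R :=
    UniqueFactorizationMonoid.strongNormalizationMonoid.toNormalizationMonoid
  let _ := UniqueFactorizationMonoid.toNormalizedGCDMonoid R
  have h0 : Finset.univ.gcd f ≠ 0 := fun e =>
    hf.elim fun i hi => hi (Finset.gcd_eq_zero_iff.1 e i (Finset.mem_univ i))
  have h1 := prod_normalizedFactors h0
  rw [Finset.prod_multiset_count] at h1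
  have h2 : ∀ i, _ ∣ f i := fun i => h1.dvd.trans (Finset.gcd_dvd (Finset.mem_univ i))
  choose g hg using h2
  refine ⟨_, _, g, fun h hh => ⟨prime_of_normalized_factor h (Multiset.mem_toFinset.1 hh),
    Multiset.count_pos.2 (Multiset.mem_toFinset.1 hh)⟩, fun h hh h' hh' =>
    normalizedFactors_eq_of_dvd _ h (Multiset.mem_toFinset.1 hh) h' (Multiset.mem_toFinset.1 hh'),
    hg, fun p hp => by_contra fun hn => ?_⟩
  have h3 := (Finset.dvd_gcd (s := Finset.univ) fun i _ =>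
    (mul_dvd_mul_left _ (not_not.1 (not_exists.1 hn i))).trans (hg i).symm.dvd).trans h1.symm.dvd
  exact hp.not_dvd_one ((mul_dvd_mul_iff_left (h1.ne_zero_iff.2 h0)).1
    (h3.trans (mul_one _).symm.dvd))

theorem der {σ : Type} {h : Pol σ} (hp : Prime h) : ∃ i, ¬h ∣ pderiv i h := by
  classical
  by_contra hn
  have h1 : ∀ i, pderiv i h = 0 := fun i => by_contra fun h0 => by
    have h2 := totalDegree_le_of_dvd_of_isDomain (not_not.1 (not_exists.1 hn i)) h0
    obtain ⟨n, hn, e⟩ := Finset.exists_mem_eq_sup _ (support_nonempty.2 h0)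
      fun s : σ →₀ ℕ => s.sum fun _ e => e
    rw [mem_support_iff, coeff_pderiv] at hn
    have h3 := le_totalDegree (mem_support_iff.2 (left_ne_zero_of_mul hn))
    rw [Finsupp.sum_add_index' (fun _ => rfl) fun _ _ _ => rfl, Finsupp.sum_single_index rfl,
      ← e] at h3
    exact absurd (h3.trans h2) (Nat.not_succ_le_self _)
  have h2 : h = C (coeff 0 h) := MvPolynomial.ext _ _ fun m => by
    rw [coeff_C]
    split_ifs with hm
    · rw [hm]
    · obtain ⟨i, hi⟩ := Finsupp.ne_iff.1 hm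
      have h3 := congrArg (coeff (m - Finsupp.single i 1)) (h1 i)
      rw [coeff_pderiv, tsub_add_cancel_of_le (Finsupp.single_le_iff.2
        (Nat.one_le_iff_ne_zero.2 (Ne.symm hi))), coeff_zero] at h3
      exact (mul_eq_zero.1 h3).resolve_right (Nat.cast_add_one_ne_zero _)
  refine hp.not_isUnit (h2 ▸ (IsUnit.mk0 _ fun e => hp.ne_zero ?_).map C)
  rw [h2, e, C_0]

theorem fin (hF : StmtFIN) {r : ℕ} {H : Finset (Pol (Fin 2))} {g : Fin r → Pol (Fin 2)}
    (hH : ∀ h ∈ H, Prime h) (hd : ∀ h ∈ H, ∀ h' ∈ H, h ∣ h' → h = h')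
    (hg : ∀ p, Prime p → ∃ i, ¬p ∣ g i) : ∃ T : Finset (Fin 2 → ℂ), ∀ x ∉ T,
      (∃ i, eval x (g i) ≠ 0) ∧ ∀ h ∈ H, eval x h = 0 →
        (∀ h' ∈ H, eval x h' = 0 → h' = h) ∧ ∃ i, eval x (pderiv i h) ≠ 0 := by
  have h1 := hF (range g) fun p hp => (hg p hp).elim fun i hi => ⟨_, mem_range_self i, hi⟩
  have h2 : ∀ h ∈ (H : Set (Pol (Fin 2))), (⋃ h' ∈ (H : Set (Pol (Fin 2))) \ {h},
      {x : Fin 2 → ℂ | ∀ q ∈ ({h, h'} : Set (Pol (Fin 2))), eval x q = 0}).Finite := fun h hh =>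
    H.finite_toSet.sdiff.biUnion fun h' hh' => hF _ fun p hp => by_contra fun hn => by
      simp only [not_exists, not_and, not_not] at hn
      exact hh'.2 (hd h' hh'.1 h hh (((hp.dvd_prime_iff_associated (hH h' hh'.1)).1
        (hn h' (by simp))).symm.dvd.trans (hn h (by simp))))
  have h3 : ∀ h ∈ (H : Set (Pol (Fin 2))),
      {x : Fin 2 → ℂ | ∀ q ∈ insert h (range fun i => pderiv i h), eval x q = 0}.Finite :=
    fun h hh => hF _ fun p hp => by_contra fun hn => by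
      simp only [not_exists, not_and, not_not] at hn
      obtain ⟨i, hi⟩ := der (hH h hh)
      exact hi (((hp.dvd_prime_iff_associated (hH h hh)).1 (hn h (by simp))).symm.dvd.trans
        (hn _ (Or.inr ⟨i, rfl⟩)))
  refine ⟨(h1.union ((H.finite_toSet.biUnion h2).union (H.finite_toSet.biUnion h3))).toFinset,
    fun x hx => ?_⟩
  simp only [Finite.mem_toFinset, mem_union, not_or, mem_iUnion, not_exists] at hx
  refine ⟨by simpa using hx.1, fun h hh h0 => ⟨fun h' hh' h0' => by_contra fun hn =>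
    hx.2.1 h hh h' ⟨hh', hn⟩ (by simp [h0, h0']), ?_⟩⟩
  simpa [h0] using hx.2.2 h hh

theorem conF (T : Finset (Fin 2 → ℂ)) : ConE ⊤ (T : Set (Fin 2 → ℂ)) := by
  have := conE_biUnion (E := ⊤) T (S := fun P => {x | ∀ i, x i = P i})
    fun P _ => conE_all fun i => ConE.eq_const i trivial
  exact (congrArg (ConE ⊤) (Set.ext fun x => by simp [← funext_iff])).mp this

variable {χ : H36.Chi}

theorem curve {I : Ideal (Pol (Fin 2))} {B : Set (Fin 2 → ℂ)} (hB : ConE ⊤ B) {h : Pol (Fin 2)}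
    {a : ℕ} (ha : 0 < a) (van : ∀ x ∈ B, eval x h = 0) (et : ∀ x ∈ B, ∃ i, eval x (pderiv i h) ≠ 0)
    (fac : I ≤ Ideal.span {h ^ a}) (unit : ∀ x ∈ B, ∃ u, h ^ a * u ∈ I ∧ eval x u ≠ 0) :
    ∃ c : ℤ, HasZ χ I 1 B (c / H4.lin a 0) := by
  have hT := (PolyE.top (pderiv 1 h)).con
  have h1 := HasZ.single (χ := χ) (I := I) (c := 1) (hB.inter hT) ![h, X 1] {0} (fun _ => a)
    (fun _ => 0) 1 (fun x hx => ?_) (fun x hx => by simpa using van x hx.1) (by simpa using fac)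
    (fun x hx => by simpa using unit x hx.1) (by simp) (by simp) fun _ _ => ha
  have h2 := HasZ.single (χ := χ) (I := I) (c := 1) (hB.diff hT) ![X 0, h] {1} (fun _ => a)
    (fun _ => 0) 1 (fun x hx => ?_) (fun x hx => by simpa using van x hx.1) (by simpa using fac)
    (fun x hx => by simpa using unit x hx.1) (by simp) (by simp) fun _ _ => ha
  · have h3 := HasZ.part2 _ h1 h2
    rw [Finset.prod_singleton, Finset.prod_singleton, ← add_mul, fr_eq, mul_one_div,
      ← Int.cast_add] at h3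
    exact ⟨_, h3⟩
  · simpa [jd, Matrix.det_fin_two] using hx.2
  · have h4 : eval x (pderiv 1 h) = 0 := hx.2
    simpa [jd, Matrix.det_fin_two, Fin.exists_fin_two, h4] using et x hx.1

theorem pt (hL : StmtLOC) (hA : MP_5d9b3c_ag.H72.AStmt) (hχ : H36.IsEuler χ)
    (h1 : χ (Fin 0) univ = 1) {r : ℕ} {f : Fin r → Pol (Fin 2)} (hf : ∃ i, f i ≠ 0)
    (P : Fin 2 → ℂ) : ∃ Z, H4.LocZeta (fun i => H4.shift P (f i)) 1 Z ∧
      HasZ χ (Ideal.span (range f)) 1 {P} Z := by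
  let φ : Fin 2 → Pol (Fin 2) := fun i => X i + C (P i)
  let ψ : Fin 2 → Pol (Fin 2) := fun i => X i - C (P i)
  have e1 : ap φ ψ = X := funext fun i => by simp [ap, φ, ψ]
  have e2 : ap ψ φ = X := funext fun i => by simp [ap, φ, ψ]
  have e3 : jd φ = 1 := by simp [jd, φ, Matrix.det_fin_two]
  have e4 : {x | ap φ x ∈ ({P} : Set (Fin 2 → ℂ))} = {0} := Set.ext fun x => by
    simp [ap_eval, φ, funext_iff]
  obtain ⟨Z, h2, h3⟩ := hL χ hχ h1 r (fun i => H4.shift P (f i)) 0 0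
    (hA ℂ r _ 0 0 (hf.elim fun i hi => ⟨i, fun e => hi (by
      have := ev_ap φ ψ (f i)
      rwa [e1, show ev φ (f i) = 0 from e, map_zero, aeval_X_left_apply] at this)⟩))
    (fun h => absurd h (lt_irrefl 0)) fun h => absurd h (lt_irrefl 0)
  rw [pow_zero, pow_zero, one_mul] at h2 h3
  refine ⟨Z, h2, HasZ.aut φ ψ e1 e2 ?_⟩
  rwa [e3, e4, map_one, one_mul, Ideal.map_span, ← range_comp]

end PGlobA

open PGlobA in
theorem pglob (hF : StmtFIN) (hL : StmtLOC) (hA : MP_5d9b3c_ag.H72.AStmt) : StmtGLOB := by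
  classical
  intro χ hχ h1 r f hf
  obtain ⟨H, a, g, hH, hd, e, hg⟩ := fac f hf
  obtain ⟨T, hT⟩ := PGlobA.fin hF (fun h hh => (hH h hh).1) hd hg
  choose Zp hZ hZ' using pt hL hA hχ h1 hf
  have hfi : ∀ i, f i ∈ Ideal.span (range f) := fun i => Ideal.subset_span (mem_range_self i)
  have e' : ∀ h ∈ H, ∀ i, f i = h ^ a h * ((∏ h' ∈ H.erase h, h' ^ a h') * g i) :=
    fun h hh i => by rw [e i, ← Finset.mul_prod_erase H _ hh, mul_assoc]
  have hc : ∀ h, ∃ c : ℤ, h ∈ H → HasZ χ (Ideal.span (range f)) 1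
      ((univ \ T) ∩ {x | eval x h = 0}) (c / H4.lin (a h) 0) := fun h => by
    by_cases hh : h ∈ H
    · refine (curve ((ConE.univ.diff (conF T)).inter (PolyE.top h).con) (hH h hh).2
        (fun x hx => hx.2) (fun x hx => ((hT x hx.1.2).2 h hh hx.2).2)
        (Ideal.span_le.2 (range_subset_iff.2 fun i => Ideal.mem_span_singleton.2 ⟨_, e' h hh i⟩))
        fun x hx => ?_).elim fun c hc => ⟨c, fun _ => hc⟩
      obtain ⟨i, hi⟩ := (hT x hx.1.2).1
      refine ⟨_, (e' h hh i).subst (motive := (· ∈ Ideal.span (range f))) (hfi i), ?_⟩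
      rw [map_mul, map_prod]
      refine mul_ne_zero (Finset.prod_ne_zero_iff.2 fun h' hh' => ?_) hi
      rw [map_pow]
      exact pow_ne_zero _ fun h0 => Finset.ne_of_mem_erase hh'
        (((hT x hx.1.2).2 h hh hx.2).1 h' (Finset.mem_of_mem_erase hh') h0)
    · exact ⟨0, fun h' => absurd h' hh⟩
  choose c hc using hc
  let U : Set (Fin 2 → ℂ) := {x | ∀ h ∈ H, ¬eval x h = 0}
  have hU : ConE ⊤ U := conE_ball H fun h _ => conE_not (PolyE.top h).con
  have k1 := HasZ.single (χ := χ) (I := Ideal.span (range f)) (c := 1)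
    ((ConE.univ.diff (conF T)).inter hU) X ∅ (fun _ => 0) (fun _ => 0) 1 (by simp) (by simp)
    (by simp) (fun x hx => ?_) (by simp) (by simp) (by simp)
  · have k2 := HasZ.part (B := (univ \ T) \ U) (fun h : H => (univ \ T) ∩ {x | eval x h.1 = 0})
      (fun h => hc h h.2) (fun h x hx => ⟨hx.1, fun h' => h' h h.2 hx.2⟩)
      (fun x hx => by_contra fun hn => hx.2 fun h hh h0 => hn ⟨⟨h, hh⟩, hx.1, h0⟩)
      fun h h' x hx hx' => Subtype.ext (((hT x hx.1.2).2 h' h'.2 hx'.2).1 h h.2 hx.2)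
    have k3 := HasZ.part (B := univ ∩ T) (fun P : T => {P.1}) (fun P => hZ' P)
      (fun P x hx => ⟨trivial, (mem_singleton_iff.1 hx).symm.subst (motive := (· ∈ T)) P.2⟩)
      (fun x hx => ⟨⟨x, hx.2⟩, rfl⟩) fun P P' x hx hx' => Subtype.ext (hx.symm.trans hx')
    have k4 := HasZ.part2 _ k3 (HasZ.part2 U k1 k2)
    rw [Finset.prod_empty, mul_one, Finset.sum_coe_sort T Zp,
      Finset.sum_coe_sort H fun h => (c h : RatFunc ℂ) / H4.lin (a h) 0, add_comm] at k4
    refine ⟨T, Zp, H, a, _, c, fun P _ => hZ P, fun h hh => ⟨(hH h hh).1,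
      fun i => ⟨_, e' h hh i⟩, fun hn => ?_⟩, k4⟩
    obtain ⟨i, hi⟩ := hg h (hH h hh).1
    have h2 := hn i
    rw [e' h hh i, pow_succ, mul_dvd_mul_iff_left (pow_ne_zero _ (hH h hh).1.ne_zero)] at h2
    obtain ⟨h', hh', h3⟩ := (hH h hh).1.exists_mem_finset_dvd
      (((hH h hh).1.dvd_or_dvd h2).resolve_right hi)
    exact Finset.ne_of_mem_erase hh'
      (hd h hh h' (Finset.mem_of_mem_erase hh') ((hH h hh).1.dvd_of_dvd_pow h3)).symm
  · obtain ⟨i, hi⟩ := (hT x hx.1.2).1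
    refine ⟨f i, by simpa using hfi i, ?_⟩
    rw [e i, map_mul, map_prod]
    refine mul_ne_zero (Finset.prod_ne_zero_iff.2 fun h hh => ?_) hi
    rw [map_pow]
    exact pow_ne_zero _ (hx.2 h hh)

end Pool.Agent.MP_ee8c61_ag.H95
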