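import Pool.Agent.MP_ee8c61_ag.H95.PSpec
import Pool.Agent.MP_5d9b3c_ag.H21.ResAux

/-! The part of the zeta function of a plane ideal over a point. -/

namespace Pool.Agent.MP_ee8c61_ag.H95

open Set MvPolynomial
open Pool.Agent.MP_4f1c5b_al.H95 (ConE)
open Pool.Agent.MP_5d9b3c_ag H72 H21

namespace PLocA

variable {χ : H36.Chi} {r : ℕ}

theorem con_pt (P : Fin 2 → ℂ) : ConE ⊤ {P} := by
  have : ConE ⊤ {x : Fin 2 → ℂ | ∀ i, x i = P i} := conE_all fun i => ConE.eq_const i trivial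
  simpa [← _root_.funext_iff] using this

theorem chi_pt (H : H36.IsEuler χ) (h1 : χ (Fin 0) univ = 1) (P : Fin 2 → ℂ) : χ _ {P} = 1 :=
  (H.bijOn H36.Con.univ (fun i => C (P i)) ⟨fun x _ => by simp, fun _ _ _ _ _ =>
    Subsingleton.elim _ _, fun x hx => ⟨0, trivial, by simpa using hx.symm⟩⟩).trans h1

theorem chi_line (H : H36.IsEuler χ) (h1 : χ (Fin 0) univ = 1) (S : Finset ℂ) :
    χ _ {x : Fin 2 → ℂ | x 0 = 0 ∧ x 1 ∉ S} = 1 - S.card := by
  have h2 : χ _ {x : Fin 2 → ℂ | x 0 = 0} = 1 := by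
    refine (H.bijOn (X := univ) H36.Con.univ ![0, X none] ⟨fun x _ => by simp,
      fun x _ y _ e => ?_, fun x hx => ⟨fun _ => x 1, trivial, ?_⟩⟩).trans
      ((H.line _ _ H36.Con.univ).trans h1)
    · exact funext (Option.rec (by simpa using congrFun e 1) fun i => i.elim0)
    · exact funext (Fin.forall_fin_two.2 ⟨by simpa using hx.symm, by simp⟩)
  have h3 : ∀ c : ℂ, {x : Fin 2 → ℂ | x 0 = 0} ∩ {x | x 1 = c} = {![0, c]} := fun c => by
    ext x
    simp [_root_.funext_iff, Fin.forall_fin_two]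
  have h4 : H36.Con {x : Fin 2 → ℂ | x 1 ∈ S} := by
    have := conE_iff.1 (conE_biUnion S fun c _ => ConE.eq_const (E := ⊤) (1 : Fin 2) (c := c) trivial)
    exact this.of_iff (by simp)
  have h5 := H.split (H36.Con.coord (0 : Fin 2)) h4
  rw [h2, H.fiber (fun x => x 1) S fun c _ => h3 c ▸ conE_iff.1 (con_pt _)] at h5
  simp only [h3, chi_pt H h1, Finset.sum_const, nsmul_eq_mul, mul_one] at h5
  exact eq_sub_of_add_eq' h5.symm

/-- What is proved along the tree. -/
def Cl (χ : H36.Chi) (f : Fin r → Pol (Fin 2)) (J : Pol (Fin 2)) : Prop :=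
  ∃ Z, (∀ U, constantCoeff U ≠ 0 → H4.LocZeta f (U * J) Z) ∧ HasZ χ (Ideal.span (range f)) J {0} Z

theorem Cl.unit {f : Fin r → Pol (Fin 2)} {J v : Pol (Fin 2)} (h : Cl χ f J)
    (hv : constantCoeff v ≠ 0) : Cl χ f (v * J) :=
  h.imp fun _ h => ⟨fun U hU => mul_assoc U v J ▸ h.1 _ (by simp [hU, hv]),
    h.2.unit le_rfl 1 v (by simp) (by simpa using hv) (by simp)⟩

theorem gen_one {U g : Pol (Fin 2)} (hU : constantCoeff U ≠ 0) : H4.Gen ![U * g] g :=
  ⟨U, hU, Ideal.subset_span ⟨0, rfl⟩, Fin.forall_fin_one.2 ⟨U * U, by simp; ring⟩⟩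

theorem gen_of {f g : Fin r → Pol (Fin 2)} {m : Pol (Fin 2)} (hf : ∀ i, f i = m * g i) {i : Fin r}
    (hg : constantCoeff (g i) ≠ 0) : H4.Gen f m :=
  ⟨g i, hg, Ideal.subset_span ⟨i, (hf i).trans (mul_comm _ _)⟩,
    fun j => Dvd.dvd.mul_left ⟨_, hf j⟩ _⟩

theorem leaf (H : H36.IsEuler χ) (h1 : χ (Fin 0) univ = 1) {f g : Fin r → Pol (Fin 2)}
    {z : Pol (Fin 2)} {a b k l : ℕ} (h0 : constantCoeff z = 0)
    (hz : constantCoeff (pderiv 1 z) ≠ 0) (hf : ∀ i, f i = X 0 ^ a * z ^ b * g i)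
    (hg : ∃ i, constantCoeff (g i) ≠ 0) (hk : 0 < k → ∀ i, X 0 ∣ f i) (hl : 0 < l → 0 < b) :
    Cl χ f (X 0 ^ k * z ^ l) := by
  obtain ⟨i, hg⟩ := hg
  have ha : 0 < k → 0 < a := fun h => Nat.pos_of_ne_zero fun e => by
    have := hk h i
    rw [hf, e, pow_zero, one_mul] at this
    rcases X_prime.dvd_or_dvd this with h2 | ⟨t, h2⟩
    · obtain ⟨t, rfl⟩ := X_prime.dvd_of_dvd_pow h2
      simp at hz
    · simp [h2] at hg
  have hp : ∀ {M : Type} [CommMonoid M] (F : Fin 2 → ℕ → ℕ → M), (∀ j, F j 0 0 = 1) →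
      ∏ j with 0 < ![a, b] j, F j (![a, b] j) (![k, l] j) = F 0 a k * F 1 b l := fun F hF => by
    rw [Finset.prod_filter_of_ne, Fin.prod_univ_two]
    · rfl
    · refine Fin.forall_fin_two.2 ⟨fun _ h => ?_, fun _ h => ?_⟩
      · refine Nat.pos_of_ne_zero fun (e : a = 0) => h ?_
        rw [show k = 0 by omega, e]
        exact hF 0
      · refine Nat.pos_of_ne_zero fun (e : b = 0) => h ?_
        rw [show l = 0 by omega, e]
        exact hF 1
  have e1 := hp (fun j n _ => ![X 0, z] j ^ n) fun _ => pow_zero _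
  have e2 := hp (fun j _ n => ![X 0, z] j ^ n) fun _ => pow_zero _
  have e3 := hp (fun _ n m => fr n m) fun _ => by simp [fr]
  refine ⟨1 / (H4.lin a k * H4.lin b l), fun U hU => H4.LocZeta.snc f _ (X 0) z a b k l
    ⟨by simp, h0, by simpa using hz⟩ (gen_of hf hg) (gen_one hU), ?_⟩
  have := HasZ.single (χ := χ) (I := Ideal.span (range f)) (c := X 0 ^ k * z ^ l) (con_pt 0)
    ![X 0, z] (Finset.univ.filter fun j => 0 < ![a, b] j) ![a, b] ![k, l] 1
    (by simpa [jd, Matrix.det_fin_two] using hz)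
    (by simpa [Fin.forall_fin_two] using fun _ => h0)
    (by
      rw [e1, Ideal.span_le]
      rintro _ ⟨j, rfl⟩
      exact Ideal.mem_span_singleton.2 ⟨_, hf j⟩)
    (fun x hx => ⟨g i, e1 ▸ Ideal.subset_span ⟨i, hf i⟩, by simpa [mem_singleton_iff.1 hx] using hg⟩)
    (by rw [e2, mul_one]; rfl) (by simp) (by simp)
  rwa [e3, chi_pt H h1, Int.cast_one, one_mul, fr_eq, fr_eq, one_div_mul_one_div] at this

theorem exists_pow {F : Fin r → Pol (Fin 2)} (h : ∃ i, F i ≠ 0) :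
    ∃ (N : ℕ) (g : Fin r → Pol (Fin 2)), (∀ i, F i = X 0 ^ N * g i) ∧ ∃ i, ¬X 0 ∣ g i := by
  classical
  obtain ⟨i, hi⟩ := h
  have hex : ∃ n, ¬∀ j, X 0 ^ (n + 1) ∣ F j :=
    (FiniteMultiplicity.of_prime_left X_prime hi).imp fun n hn h => hn (h i)
  have h1 : ∀ j, X 0 ^ Nat.find hex ∣ F j := by
    rcases e : Nat.find hex with _ | n
    · simp
    · exact not_not.1 (Nat.find_min hex (e ▸ n.lt_succ_self))
  choose g hg using h1
  refine ⟨_, g, hg, by_contra fun hn => Nat.find_spec hex fun j => ?_⟩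
  rw [hg, pow_succ]
  exact mul_dvd_mul_left _ (not_not.1 fun h => hn ⟨j, h⟩)

theorem ev_e0 (g : Pol (Fin 2)) {x : Fin 2 → ℂ} (hx : x 0 = 0) : eval x g = (e0 g).eval (x 1) :=
  H21.hom_ext (φ := eval x) (ψ := (Polynomial.evalRingHom (x 1)).comp (e0 (K := ℂ)).toRingHom)
    (by simp) (by simpa using hx) (by simp) g

theorem cc_sh (c : ℂ) (g : Pol (Fin 2)) : constantCoeff (sh 0 c g) = (e0 g).eval c :=
  H21.hom_ext (φ := constantCoeff.comp (sh 0 c).toRingHom)
    (ψ := (Polynomial.evalRingHom c).comp (e0 (K := ℂ)).toRingHom)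
    (by simp [sh]) (by simp [sh]) (by simp [sh]) g

theorem sh_ch (c : ℂ) (g : Pol (Fin 2)) : sh 0 c (ch 0 g) = ch c g := by
  rw [← AlgHom.comp_apply, show (sh 0 c).comp (ch 0) = ch c from
    algHom_ext (Fin.forall_fin_two.2 ⟨by simp [sh], by simp [sh]⟩)]

theorem bl0 : ev (bl (Finset.univ : Finset (Fin 2)) 0) = ch 0 :=
  algHom_ext (Fin.forall_fin_two.2 ⟨by simp [bl], by simp [bl]⟩)

theorem bl1 (g : Pol (Fin 2)) : sw (ev (bl Finset.univ 1) g) = ch 0 (sw g) := by
  rw [← AlgHom.comp_apply, show sw.comp (ev (bl Finset.univ 1)) = (ch 0).comp sw from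
    algHom_ext (Fin.forall_fin_two.2 ⟨by simp [bl], by simp [bl]⟩), AlgHom.comp_apply]

theorem chart_none : H4.chart none = (ch 0).comp sw :=
  algHom_ext (Fin.forall_fin_two.2 ⟨by simp [H4.chart], by simp [H4.chart]⟩)

theorem map_span (φ : Pol (Fin 2) →ₐ[ℂ] Pol (Fin 2)) (f : Fin r → Pol (Fin 2)) :
    (Ideal.span (range f)).map φ = Ideal.span (range fun i => φ (f i)) := by
  rw [Ideal.map_span, ← range_comp]
  rfl

theorem ch_mon (k l : ℕ) :
    X 0 * ch (0 : ℂ) (X 0 ^ k * X 1 ^ l) = X 0 ^ (k + l + 1) * X 1 ^ l := by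
  simp only [map_mul, map_pow, ch_X0, ch_X1, mul_pow, C_0, add_zero]
  ring

theorem blow (H : H36.IsEuler χ) (h1 : χ (Fin 0) univ = 1) {f : Fin r → Pol (Fin 2)} {k l : ℕ}
    (h0 : ∀ i, constantCoeff (f i) = 0) (hne : ∃ i, f i ≠ 0)
    (ih : ∀ c : ℂ, Cl χ (fun i => ch c (f i)) (X 0 * ch c (X 0 ^ k * X 1 ^ l)))
    (ih' : Cl χ (fun i => ch 0 (sw (f i))) (X 0 * ch 0 (sw (X 0 ^ k * X 1 ^ l)))) :
    Cl χ f (X 0 ^ k * X 1 ^ l) := by
  classical
  obtain ⟨N, g, hg, i, hi⟩ := exists_pow (F := fun i => ch 0 (f i))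
    (hne.imp fun i hi => ch_ne hi 0)
  have hN : 0 < N := Nat.pos_of_ne_zero fun e => hi (by
    simpa [hg, e] using pow_dvd_map (ch 0).toRingHom (X 0) (by simp) (by simp)
      (mem_one_iff.2 (h0 i)))
  have he : e0 (g i) ≠ 0 := fun e => hi (by simpa [e] using sub_e0 (g i))
  obtain ⟨S, hS⟩ : ∃ S : Finset ℂ, ∀ c ∉ S, c ≠ 0 ∧ (e0 (g i)).eval c ≠ 0 :=
    ⟨insert 0 (e0 (g i)).roots.toFinset, fun c hc => by simpa [he] using hc⟩
  choose Z hZ hZ' using ih
  obtain ⟨Z0, hZ0, hZ0'⟩ := ih'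
  refine ⟨(2 - (S.insertNone.card : RatFunc ℂ)) / H4.lin N (k + l + 1) +
    ∑ q ∈ S.insertNone, q.elim Z0 Z, fun U hU => ?_, ?_⟩
  · refine H4.LocZeta.blow f _ _ N _ _ hN (fun q hq => ?_) fun q _ => ?_
    · obtain _ | c := q
      · exact absurd Finset.none_mem_insertNone hq
      obtain ⟨h2, h3⟩ := hS c (by simpa using hq)
      refine ⟨gen_of (g := fun j => sh 0 c (g j)) (i := i) (fun j => ?_) (by rwa [cc_sh]), ?_⟩
      · rw [show H4.chart (some c) (f j) = _ from (sh_ch c _).symm, hg]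
        simp [sh]
      · rw [show X 0 * H4.chart (some c) (U * (X 0 ^ k * X 1 ^ l)) =
          ch c U * (X 1 + C c) ^ l * X 0 ^ (k + l + 1) by
            change X 0 * ch c _ = _
            simp only [map_mul, map_pow, ch_X0, ch_X1, mul_pow]
            ring]
        exact gen_one (by simp [hU, h2])
    · obtain _ | c := q
      · rw [chart_none, map_mul, mul_left_comm]
        exact hZ0 _ (by simpa using hU)
      · change H4.LocZeta (fun j => ch c (f j)) (X 0 * ch c _) (Z c)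
        rw [map_mul, mul_left_comm]
        exact hZ c _ (by simpa using hU)
  have hA : HasZ χ (Ideal.span (range fun j => ch 0 (f j))) (X 0 * ch 0 (X 0 ^ k * X 1 ^ l))
      {x | x 0 = 0} (∑ c ∈ S, Z c + (1 - S.card : ℤ) * fr N (k + l + 1)) := by
    refine HasZ.part2 {x | x 1 ∈ S} ?_ ?_
    · rw [← Finset.sum_coe_sort]
      refine HasZ.part (fun c : S => {![0, c.1]}) (fun c => ?_) (fun c x hx => by simp_all)
        (fun x hx => ⟨⟨x 1, hx.2⟩, _root_.funext (Fin.forall_fin_two.2 ⟨hx.1, rfl⟩)⟩)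
        fun c c' x h h' => Subtype.ext (congrFun (h.symm.trans h') 1)
      refine HasZ.aut ![X 0 + C 0, X 1 + C c.1] ![X 0 - C 0, X 1 - C c.1]
        (_root_.funext (Fin.forall_fin_two.2 ⟨by simp [ap], by simp [ap]⟩))
        (_root_.funext (Fin.forall_fin_two.2 ⟨by simp [ap], by simp [ap]⟩)) ?_
      convert hZ' c using 1
      · exact (map_span (sh 0 c) _).trans (by simp only [sh_ch])
      · change sh 0 c.1 _ * _ = _
        rw [map_mul, sh_ch]
        simp [jd, Matrix.det_fin_two, sh]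
      · ext x
        simp [ap, _root_.funext_iff, Fin.forall_fin_two]
    · have := HasZ.single (χ := χ) (I := Ideal.span (range fun j => ch 0 (f j)))
        (c := X 0 * ch 0 (X 0 ^ k * X 1 ^ l)) (B := {x | x 0 = 0 ∧ x 1 ∉ S})
        (conE_iff.2 ((conE_iff.1 ((ConE.eq_const (E := ⊤) 0 (c := 0) trivial).inter (conE_biUnion S
          fun c _ => ConE.eq_const (E := ⊤) 1 (c := c) trivial).compl)).of_iff (by simp)))
        X {0} (fun _ => N) (fun _ => k + l + 1) (X 1 ^ l) (by simp) (by simp +contextual)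
        (by
          rw [Ideal.span_le]
          rintro _ ⟨j, rfl⟩
          exact Ideal.mem_span_singleton.2 ⟨g j, by simpa using hg j⟩)
        (fun x hx => ⟨g i, Ideal.subset_span ⟨i, by simpa using hg i⟩,
          ev_e0 _ hx.1 ▸ (hS _ hx.2).2⟩)
        (by simpa using ch_mon k l) (fun x hx => by simp [(hS _ hx.2).1]) (by simpa using hN)
      rwa [chi_line H h1, Finset.prod_singleton] at this
  rw [show _ + ∑ q ∈ S.insertNone, q.elim Z0 Z = ∑ j : Fin 2,
      ![∑ c ∈ S, Z c + (1 - S.card : ℤ) * fr N (k + l + 1), Z0] j by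
    rw [Finset.sum_insertNone, Finset.card_insertNone, Fin.sum_univ_two, fr_eq]
    push_cast
    simp only [Option.elim]
    ring]
  refine HasZ.blow Finset.univ Fin.val Fin.val_injective.injOn (fun b hb => ?_)
    (Fin.forall_fin_two.2 ⟨fun _ => ?_, fun _ => ?_⟩)
  · by_contra hn
    obtain ⟨p, hp, hb⟩ := hb
    refine hb ((Ideal.span_le (I := RingHom.ker (ev b))).2 ?_ hp)
    rintro _ ⟨j, rfl⟩
    rw [show b = 0 from _root_.funext fun l => by_contra fun h => hn ⟨l, Finset.mem_univ l, h⟩]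
    simp [h0]
  · convert hA using 1
    · rw [bl0, map_span]
    · rw [bl0, mul_comm]
      simp
    · ext x
      simp +contextual [ap_bl, _root_.funext_iff, Fin.forall_fin_two]
    · rfl
  · refine HasZ.aut ![X 1, X 0] ![X 1, X 0]
      (_root_.funext (Fin.forall_fin_two.2 ⟨by simp [ap], by simp [ap]⟩))
      (_root_.funext (Fin.forall_fin_two.2 ⟨by simp [ap], by simp [ap]⟩)) ?_
    convert hZ0'.unit le_rfl 1 (-1) (by simp) (by simp) (by simp) using 1
    · rw [map_span]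
      exact (map_span sw _).trans (by simp only [bl1])
    · change sw _ * _ = _
      rw [map_mul, bl1]
      simp [jd, Matrix.det_fin_two, mul_comm]
    · ext x
      simp +contextual [ap, bl, _root_.funext_iff, Fin.forall_fin_two]
    · rfl

end PLocA

open PLocA in
theorem ploc : StmtLOC := fun χ H h1 r f k l hR hk hl => by
  suffices h : Cl χ f (X 0 ^ k * X 1 ^ l) from h.imp fun Z h => ⟨by simpa using h.1 1 (by simp), h.2⟩
  induction hR with
  | mono f k l a b g hf hg =>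
    refine leaf H h1 (by simp) (by simp) hf hg hk fun h => Nat.pos_of_ne_zero fun e => ?_
    obtain ⟨i, hi⟩ := hg
    have := hl h i
    rw [hf, e, pow_zero, mul_one] at this
    rcases X_prime.dvd_or_dvd this with h2 | ⟨t, h2⟩
    · simpa using X_prime.dvd_of_dvd_pow h2
    · simp [h2] at hi
  | curve f k a b z g h0 hz hf hg => simpa using leaf (l := 0) H h1 h0 hz hf hg hk (by simp)
  | blow f k l h0 _ _ _ ih ih' =>
    have d0 : ∀ c (g : Pol (Fin 2)), constantCoeff g = 0 → X 0 ∣ ch c g := fun c g h => by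
      simpa using pow_dvd_map (ch c).toRingHom (X 0) (by simp) (by simp) (mem_one_iff.2 h)
    have d1 : ∀ g : Pol (Fin 2), X 1 ∣ g → X 1 ∣ ch 0 g := by
      rintro _ ⟨t, rfl⟩
      simp [Dvd.dvd.mul_right]
    refine blow H h1 h0 ‹_› (fun c => ?_) ?_
    · have := ih c (fun _ i => d0 _ _ (h0 i)) fun h i => by
        split_ifs at h with e
        exacts [e ▸ d1 _ (hl h i), h.false.elim]
      split_ifs at this with e
      · rwa [e, ch_mon, ← e]
      · convert this.unit (v := (X 1 + C c) ^ l) (by simp [e]) using 1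
        simp only [map_mul, map_pow, ch_X0, ch_X1, mul_pow]
        ring
    · have := ih' 0 (fun _ i => d0 _ _ (by simp [h0])) fun h i =>
        d1 _ (sw_X0 (K := ℂ) ▸ map_dvd sw (hk (by simpa using h) i))
      rwa [if_pos rfl, ← ch_mon, show X 0 ^ l * X 1 ^ k = sw (K := ℂ) (X 0 ^ k * X 1 ^ l) by
        simp [mul_comm]] at this

end Pool.Agent.MP_ee8c61_ag.H95
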