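import Pool.Agent.MP_ee8c61_ag.H95.QKit
import Pool.Agent.MP_5d9b3c_ag.H72.Iface

/-! Plane ideals: statements. -/

namespace Pool.Agent.MP_ee8c61_ag.H95

open Set MvPolynomial

/-- Polynomials without common prime factor have finitely many common zeros. -/
def StmtFIN : Prop := ∀ s : Set (Pol (Fin 2)), (∀ p, Prime p → ∃ g ∈ s, ¬p ∣ g) →
  {x : Fin 2 → ℂ | ∀ g ∈ s, eval x g = 0}.Finite

/-- The part of the zeta function over the origin. -/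
def StmtLOC : Prop := ∀ χ, H36.IsEuler χ → χ (Fin 0) univ = 1 →
  ∀ (r : ℕ) (f : Fin r → Pol (Fin 2)) (k l : ℕ), MP_5d9b3c_ag.H72.Res f k l →
    (0 < k → ∀ i, X 0 ∣ f i) → (0 < l → ∀ i, X 1 ∣ f i) →
    ∃ Z, H4.LocZeta f (X 0 ^ k * X 1 ^ l) Z ∧
      HasZ χ (Ideal.span (range f)) (X 0 ^ k * X 1 ^ l) {0} Z

/-- The zeta function of a plane ideal. -/
def StmtGLOB : Prop := ∀ χ, H36.IsEuler χ → χ (Fin 0) univ = 1 →
  ∀ (r : ℕ) (f : Fin r → Pol (Fin 2)), (∃ i, f i ≠ 0) →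
    ∃ (T : Finset (Fin 2 → ℂ)) (Zp : (Fin 2 → ℂ) → RatFunc ℂ) (H : Finset (Pol (Fin 2)))
      (a : Pol (Fin 2) → ℕ) (c0 : ℤ) (c : Pol (Fin 2) → ℤ),
      (∀ P ∈ T, H4.LocZeta (fun i => H4.shift P (f i)) 1 (Zp P)) ∧
      (∀ h ∈ H, Prime h ∧ (∀ i, h ^ a h ∣ f i) ∧ ¬∀ i, h ^ (a h + 1) ∣ f i) ∧
      HasZ χ (Ideal.span (range f)) 1 univ
        ((c0 : RatFunc ℂ) + ∑ h ∈ H, (c h : RatFunc ℂ) / H4.lin (a h) 0 + ∑ P ∈ T, Zp P)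

theorem fr_eq (a k : ℕ) : fr a k = 1 / H4.lin a k := by
  simp [fr, H4.lin, add_assoc]

end Pool.Agent.MP_ee8c61_ag.H95
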