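import Pool.Agent.MP_ee8c61_ag.H95.QKit
import Pool.Agent.MP_ee8c61_ag.H95.All

/-! The zeta function of a log resolution, computed on a tower of polynomial charts. -/

namespace Pool.Agent.MP_ee8c61_ag.H95

open Set MvPolynomial AlgebraicGeometry
open Pool.Agent.MP_4f1c5b_al.H95 (ConE)

section Reindex

variable {σ τ : Type} (e : σ ≃ τ)

/-- A polynomial map in new indices. -/
noncomputable def rn (f : σ → Pol σ) : τ → Pol τ := fun i => rename e (f (e.symm i))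

theorem ap_rn {A : Type} [CommRing A] [Algebra ℂ A] (f : σ → Pol σ) (w : τ → A) :
    ap (rn e f) w ∘ e = ap f (w ∘ e) := funext fun l => by
  simp [ap, rn, aeval_rename]

theorem ev_rn (f : σ → Pol σ) (p : Pol σ) : ev (rn e f) (rename e p) = rename e (ev f p) := by
  rw [aeval_rename, comp_aeval_apply]
  exact congrArg (fun F : σ → Pol τ => ev F p) (funext fun l => by simp [rn])

theorem map_rn (f : σ → Pol σ) (I : Ideal (Pol σ)) :
    (I.map (rename e : Pol σ →ₐ[ℂ] Pol τ)).map (ev (rn e f)) =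
      (I.map (ev f)).map (rename e : Pol σ →ₐ[ℂ] Pol τ) := by
  rw [Ideal.map_mapₐ, Ideal.map_mapₐ]
  exact congrArg (fun F : Pol σ →ₐ[ℂ] Pol τ => I.map F) (AlgHom.ext (ev_rn e f))

theorem nz_rn {I : Ideal (Pol σ)} {b : τ → PS} :
    Nz (I.map (rename e : Pol σ →ₐ[ℂ] Pol τ)) b ↔ Nz I (b ∘ e) := by
  rw [nz_iff, nz_iff, Ideal.map_mapₐ]
  exact iff_of_eq (congrArg (fun F : Pol σ →ₐ[ℂ] PS => I.map F ≠ ⊥)
    (AlgHom.ext fun p => aeval_rename _ _ p))

theorem prod_rn (z : σ → Pol σ) (S : Finset σ) (a : σ → ℕ) :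
    ∏ l ∈ S.map e.toEmbedding, rn e z l ^ a (e.symm l) = rename e (∏ l ∈ S, z l ^ a l) := by
  simp [rn]

variable [Fintype σ] [DecidableEq σ] [Fintype τ] [DecidableEq τ]

theorem jd_rn (f : σ → Pol σ) : jd (rn e f) = rename e (jd f) := by
  rw [jd, jd, AlgHom.map_det, ← Matrix.det_submatrix_equiv_self e]
  exact congrArg Matrix.det (Matrix.ext fun i l => by simp [rn, pderiv_rename e.injective])

/-- A stratum in new indices. -/
noncomputable def QStr.rn {I : Ideal (Pol σ)} {c : Pol σ} (s : QStr I c) :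
    QStr (I.map (rename e : Pol σ →ₐ[ℂ] Pol τ)) (rename e c) where
  z := H95.rn e s.z
  f := H95.rn e s.f
  P := {x | x ∘ e ∈ s.P}
  con := conE_iff.2 ((conE_iff.1 s.con).comap e)
  S := s.S.map e.toEmbedding
  a := fun l => s.a (e.symm l)
  k := fun l => s.k (e.symm l)
  v := rename e s.v
  et := fun x hx => by
    rw [jd_rn, eval_rename]
    exact s.et _ hx
  van := fun x hx l hl => by
    rw [H95.rn, eval_rename]
    exact s.van _ hx _ (Finset.mem_map_equiv.1 hl)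
  fac := by
    rw [map_rn, prod_rn, ← image_singleton, ← Ideal.map_span]
    exact Ideal.map_mono s.fac
  unit := fun x hx => by
    obtain ⟨u, h1, h2⟩ := s.unit _ hx
    refine ⟨rename e u, ?_, by rwa [eval_rename]⟩
    rw [map_rn, prod_rn, ← map_mul]
    exact Ideal.mem_map_of_mem _ h1
  jac := by rw [ev_rn, jd_rn, prod_rn, ← map_mul, ← map_mul, s.jac]
  unitv := fun x hx => by
    rw [eval_rename]
    exact s.unitv _ hx
  pos := fun l hl => s.pos _ (Finset.mem_map_equiv.1 hl)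

theorem HasZ.rn {χ : H36.Chi} (hχ : H36.IsEuler χ) {I : Ideal (Pol σ)} {Z : RatFunc ℂ}
    (h : HasZ χ I 1 univ Z) : HasZ χ (I.map (rename e : Pol σ →ₐ[ℂ] Pol τ)) 1 univ Z := by
  obtain ⟨D, rfl⟩ := h
  rw [← map_one (rename e : Pol σ →ₐ[ℂ] Pol τ)]
  have i : ∀ {A : Type} {w w' : τ → A}, w ∘ e = w' ∘ e → w = w' := fun h =>
    e.surjective.injective_comp_right h
  refine ⟨⟨D.R, fun r => (D.s r).rn e, fun _ _ _ => trivial, fun b _ hn => ?_,
    fun r r' w w' h1 h2 hn h => ?_⟩, Finset.sum_congr rfl fun r _ => ?_⟩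
  · obtain ⟨r, w, h1, h2⟩ := D.ex (b ∘ e) trivial ((nz_rn e).1 hn)
    have h3 : (w ∘ e.symm) ∘ e = w := funext fun l => by simp
    refine ⟨r, w ∘ e.symm, ?_, i ((ap_rn e _ _).trans (by rw [h3, h2]))⟩
    change bs ((w ∘ e.symm) ∘ e) ∈ (D.s r).P
    rwa [h3]
  · exact (D.uniq r r' (w ∘ e) (w' ∘ e) h1 h2 (ap_rn e _ w ▸ (nz_rn e).1 hn)
      ((ap_rn e _ w).symm.trans ((congrArg (· ∘ e) h).trans (ap_rn e _ w')))).imp_right i
  · refine congrArg₂ _ (congrArg _ (hχ.bijOn (conE_iff.1 (D.s r).con) (fun k => X (e.symm k))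
      ⟨fun x hx => ?_, fun x _ y _ h => ?_, fun x hx => ⟨x ∘ e, hx, ?_⟩⟩)) (by simp [QStr.rn])
    · simpa [QStr.rn, Function.comp_def] using hx
    · exact funext fun l => by simpa using congrFun h (e l)
    · exact funext fun l => by simp

end Reindex

theorem QStr.mon_ne {σ : Type} [Fintype σ] [DecidableEq σ] {I : Ideal (Pol σ)} {c : Pol σ}
    (s : QStr I c) {x : σ → ℂ} (hx : x ∈ s.P) : ∏ l ∈ s.S, s.z l ^ s.a l ≠ 0 :=
  Finset.prod_ne_zero_iff.2 fun l _ => pow_ne_zero _ fun h => s.et x hx (by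
    rw [jd, Matrix.det_eq_zero_of_row_eq_zero l fun j => by simp [h], map_zero])

theorem HasZ.pdat {N : ℕ} {J : Type} {g : J → Pol (Fin N)} {χ : H36.Chi} {Z : RatFunc ℂ}
    (h : HasZ χ (Ideal.span (range g)) 1 univ Z) : ∃ P : PDat N g, P.ztop χ = Z := by
  obtain ⟨D, rfl⟩ := h
  have h1 : ∀ r j, ∃ u, ev (D.s r).f (g j) = (∏ l ∈ (D.s r).S, (D.s r).z l ^ (D.s r).a l) * u :=
    fun r j => Ideal.mem_span_singleton.1 ((D.s r).fac
      (Ideal.mem_map_of_mem _ (Ideal.subset_span (mem_range_self j))))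
  choose u hu using h1
  have h2 : ∀ r, ∀ x ∈ (D.s r).P, ∃ j, eval x (u r j) ≠ 0 := fun r x hx => by
    obtain ⟨t, h3, h4⟩ := (D.s r).unit x hx
    by_contra hn
    push Not at hn
    have h5 : (Ideal.span (range g)).map (ev (D.s r).f) ≤
        Ideal.span {∏ l ∈ (D.s r).S, (D.s r).z l ^ (D.s r).a l} * RingHom.ker (eval x) := by
      rw [Ideal.map_span, Ideal.span_le]
      rintro _ ⟨_, ⟨j, rfl⟩, rfl⟩
      exact Ideal.mem_span_singleton_mul.2 ⟨u r j, hn j, (hu r j).symm⟩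
    obtain ⟨t', h6, h7⟩ := Ideal.mem_span_singleton_mul.1 (h5 h3)
    exact h4 (mul_left_cancel₀ ((D.s r).mon_ne hx) h7 ▸ h6)
  refine ⟨⟨D.R, fun r => ⟨(D.s r).z, (D.s r).f, 1, (D.s r).P, (D.s r).con, (D.s r).S, (D.s r).a,
    (D.s r).k, u r, (D.s r).v, (D.s r).et, by simp, (D.s r).van, fun j => by rw [one_mul, hu],
    h2 r, (congrArg (· * _) (map_one _).symm).trans (D.s r).jac, (D.s r).unitv,
    fun l hl h => absurd h ((D.s r).pos l hl).ne'⟩, fun b _ ⟨j, hj⟩ => ?_,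
    fun r r' w w' k1 k2 k3 _ k4 => D.uniq r r' w w' k1 k2 ?_ (funext k4)⟩, rfl⟩
  · obtain ⟨r, w, k1, k2⟩ := D.ex b trivial ⟨g j, Ideal.subset_span (mem_range_self j), hj⟩
    exact ⟨r, w, k1, congrFun k2⟩
  · obtain ⟨j, hj⟩ := h2 r _ k1
    refine ⟨g j, Ideal.subset_span (mem_range_self j), ?_⟩
    rw [ev_ap, hu, map_mul, map_prod]
    refine mul_ne_zero (Finset.prod_ne_zero_iff.2 fun l hl => ?_) fun e => hj ?_
    · rw [map_pow]
      exact pow_ne_zero _ (k3 l hl)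
    · rw [← bs_ev, e, map_zero]

/-- The zeta function of a log resolution can be computed on every tower of charts. -/
theorem zeta_eq {N : ℕ} {I : Ideal (Pol (Fin N))} {Y : Scheme.{0}} {π : Y ⟶ Aff N} {J : Type}
    [Fintype J] {E : J → Set Y} {a k : J → ℕ} (hY : IsLogRes I π E a k) {χ : Set Y → ℤ}
    (hχ : IsChi π χ) : ∃ χ', H36.IsEuler χ' ∧ χ' (Fin 0) univ = 1 ∧
      ∀ Z, HasZ χ' I 1 univ Z → zeta E a k χ = Z := by
  obtain ⟨r, g, rfl⟩ := Submodule.fg_iff_exists_fin_generating_family.1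
    (IsNoetherian.noetherian I)
  obtain ⟨D, χ₀, h1, h2⟩ := res_all N _ g Y π J E a k χ hY hχ
  obtain ⟨χ', h3, h4, h5⟩ := eul mm_all χ₀ h1
  refine ⟨χ', h3, (h4 0 _ ConE.univ).trans h1.pt, fun Z hZ => ?_⟩
  obtain ⟨P, rfl⟩ := HasZ.pdat hZ
  obtain ⟨D', hD'⟩ := pd (pch et) _ _ _ P
  obtain ⟨A, hA, hA'⟩ := jet_all.defd _ _ _ D
  obtain ⟨B, hB, hB'⟩ := jet_all.defd _ _ _ D'
  obtain ⟨M, hM⟩ := mm_all _ (hA.union hB).countable
  rw [← h2 χ' h4, ← hD' χ' h3]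
  exact lim M _ _ _ (lim_mes dl_all h5 M D (hA' _ (subset_union_left.trans hM)))
    (lim_mes dl_all h5 M D' (hB' _ (subset_union_right.trans hM)))

end Pool.Agent.MP_ee8c61_ag.H95
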