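import Pool.Agent.MP_ee8c61_ag.H95.Kit

/-! Families of strata in towers of polynomial charts. -/

namespace Pool.Agent.MP_ee8c61_ag.H95

open Set MvPolynomial
open Pool.Agent.MP_4f1c5b_al.H95 (ConE)

section Defs

variable {σ : Type}

/-- A polynomial map, applied to a point with coordinates in an algebra. -/
noncomputable def ap {B : Type} [CommRing B] [Algebra ℂ B] (φ : σ → Pol σ) (w : σ → B) : σ → B :=
  fun l => ev w (φ l)

theorem ev_ap {B : Type} [CommRing B] [Algebra ℂ B] (φ : σ → Pol σ) (w : σ → B) (p : Pol σ) :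
    ev (ap φ w) p = ev w (ev φ p) := (comp_aeval_apply _ _ _).symm

theorem ap_ap {B : Type} [CommRing B] [Algebra ℂ B] (φ ψ : σ → Pol σ) (w : σ → B) :
    ap (ap φ ψ) w = ap φ (ap ψ w) := funext fun l => (ev_ap ψ w (φ l)).symm

@[simp] theorem ap_X {B : Type} [CommRing B] [Algebra ℂ B] (w : σ → B) : ap X w = w :=
  funext fun l => aeval_X w l

theorem bs_ap (φ : σ → Pol σ) (w : σ → PS) : bs (ap φ w) = ap φ (bs w) :=
  funext fun l => bs_ev w (φ l)

theorem map_ap (φ ψ : σ → Pol σ) (I : Ideal (Pol σ)) :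
    I.map (ev (ap φ ψ)) = (I.map (ev φ)).map (ev ψ) := by
  rw [Ideal.map_mapₐ]
  exact congrArg (fun F : Pol σ →ₐ[ℂ] Pol σ => I.map F) (AlgHom.ext (ev_ap φ ψ))

theorem ap_eval (φ : σ → Pol σ) (x : σ → ℂ) (l : σ) : ap φ x l = eval x (φ l) := rfl

theorem conE_ap {B : Set (σ → ℂ)} (h : ConE ⊤ B) (φ : σ → Pol σ) : ConE ⊤ {x | ap φ x ∈ B} :=
  conE_iff.2 ((conE_iff.1 h).pre φ)

/-- The arc does not lie in the zero set of the ideal. -/
def Nz (I : Ideal (Pol σ)) (b : σ → PS) : Prop := ∃ p ∈ I, ev b p ≠ 0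

theorem nz_iff {I : Ideal (Pol σ)} {b : σ → PS} : Nz I b ↔ I.map (ev b) ≠ ⊥ := by
  simp [Nz, Ideal.map_eq_bot_iff_le_ker, SetLike.le_def]

theorem nz_ap {I : Ideal (Pol σ)} {φ : σ → Pol σ} {w : σ → PS} :
    Nz I (ap φ w) ↔ Nz (I.map (ev φ)) w := by
  rw [nz_iff, nz_iff, Ideal.map_mapₐ]
  exact iff_of_eq (congrArg (fun F : Pol σ →ₐ[ℂ] PS => I.map F ≠ ⊥) (AlgHom.ext (ev_ap φ w)))

/-- The factor of a divisor. -/
noncomputable def fr (a k : ℕ) : RatFunc ℂ :=
  1 / ((a : RatFunc ℂ) * RatFunc.X + ((k + 1 : ℕ) : RatFunc ℂ))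

variable [Fintype σ] [DecidableEq σ]

/-- The Jacobian determinant. -/
noncomputable def jd (f : σ → Pol σ) : Pol σ := (Matrix.of fun i l => pderiv l (f i)).det

theorem pderiv_ev (f : σ → Pol σ) (p : Pol σ) (l : σ) :
    pderiv l (ev f p) = ∑ i, ev f (pderiv i p) * pderiv l (f i) := by
  induction p using MvPolynomial.induction_on with
  | C c => simp
  | add p q hp hq => simp only [map_add, hp, hq, add_mul, Finset.sum_add_distrib]
  | mul_X p k hp =>
    simp only [map_mul, Derivation.leibniz, hp, pderiv_X, smul_eq_mul, map_add, add_mul,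
      Finset.sum_add_distrib, aeval_X, Finset.mul_sum, mul_assoc]
    congr 1
    rw [Finset.sum_eq_single k (fun i _ hi => by simp [Pi.single_eq_of_ne hi.symm]) (by simp)]
    simp

theorem jd_ap (φ f : σ → Pol σ) : jd (ap φ f) = ev f (jd φ) * jd f := by
  rw [jd, jd, jd, AlgHom.map_det, ← Matrix.det_mul]
  exact congrArg Matrix.det (Matrix.ext fun i l => pderiv_ev f (φ i) l)

@[simp] theorem jd_X : jd (X : σ → Pol σ) = 1 := by
  rw [jd, ← Matrix.det_one (n := σ)]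
  exact congrArg Matrix.det (Matrix.ext fun i l => by
    simp [Matrix.one_apply, Pi.single_apply])

/-- A stratum along which the ideal `I` and the Jacobian, with the factor `c`, are monomial. -/
structure QStr (I : Ideal (Pol σ)) (c : Pol σ) where
  /-- the local coordinates -/
  z : σ → Pol σ
  /-- the map -/
  f : σ → Pol σ
  /-- the stratum -/
  P : Set (σ → ℂ)
  con : ConE ⊤ P
  /-- the coordinates that vanish -/
  S : Finset σ
  /-- the orders of the ideal -/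
  a : σ → ℕ
  /-- the orders of the Jacobian -/
  k : σ → ℕ
  /-- the cofactor of the Jacobian -/
  v : Pol σ
  et : ∀ x ∈ P, eval x (jd z) ≠ 0
  van : ∀ x ∈ P, ∀ l ∈ S, eval x (z l) = 0
  fac : I.map (ev f) ≤ Ideal.span {∏ l ∈ S, z l ^ a l}
  unit : ∀ x ∈ P, ∃ u, (∏ l ∈ S, z l ^ a l) * u ∈ I.map (ev f) ∧ eval x u ≠ 0
  jac : ev f c * jd f = (∏ l ∈ S, z l ^ k l) * v
  unitv : ∀ x ∈ P, eval x v ≠ 0
  pos : ∀ l ∈ S, 0 < a l

/-- Composition with a chart. -/
noncomputable def QStr.pull {I : Ideal (Pol σ)} {c : Pol σ} (φ : σ → Pol σ)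
    (s : QStr (I.map (ev φ)) (ev φ c * jd φ)) : QStr I c :=
  { s with
    f := ap φ s.f
    fac := (map_ap φ s.f I).trans_le s.fac
    unit := by rw [map_ap]; exact s.unit
    jac := by rw [jd_ap, ev_ap, ← mul_assoc, ← map_mul, s.jac] }

/-- A family of strata through which the arcs with base point in `B` lift uniquely. -/
structure QDat (I : Ideal (Pol σ)) (c : Pol σ) (B : Set (σ → ℂ)) where
  /-- the index set -/
  R : Type
  [fin : Fintype R]
  /-- the strata -/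
  s : R → QStr I c
  maps : ∀ r, ∀ x ∈ (s r).P, ap (s r).f x ∈ B
  ex : ∀ b, bs b ∈ B → Nz I b → ∃ r w, bs w ∈ (s r).P ∧ ap (s r).f w = b
  uniq : ∀ r r' w w', bs w ∈ (s r).P → bs w' ∈ (s r').P → Nz I (ap (s r).f w) →
    ap (s r).f w = ap (s r').f w' → r = r' ∧ w = w'

attribute [instance] QDat.fin

/-- `Z` is the part of the zeta function over `B`. -/
def HasZ (χ : H36.Chi) (I : Ideal (Pol σ)) (c : Pol σ) (B : Set (σ → ℂ)) (Z : RatFunc ℂ) : Prop :=
  ∃ D : QDat I c B,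
    ∑ r, (χ σ (D.s r).P : RatFunc ℂ) * ∏ l ∈ (D.s r).S, fr ((D.s r).a l) ((D.s r).k l) = Z

variable {χ : H36.Chi} {I : Ideal (Pol σ)} {c : Pol σ} {B : Set (σ → ℂ)}

/-- One stratum. -/
theorem HasZ.single (hB : ConE ⊤ B) (z : σ → Pol σ) (S : Finset σ) (a k : σ → ℕ) (v : Pol σ)
    (et : ∀ x ∈ B, eval x (jd z) ≠ 0) (van : ∀ x ∈ B, ∀ l ∈ S, eval x (z l) = 0)
    (fac : I ≤ Ideal.span {∏ l ∈ S, z l ^ a l})
    (unit : ∀ x ∈ B, ∃ u, (∏ l ∈ S, z l ^ a l) * u ∈ I ∧ eval x u ≠ 0)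
    (jac : c = (∏ l ∈ S, z l ^ k l) * v) (unitv : ∀ x ∈ B, eval x v ≠ 0)
    (pos : ∀ l ∈ S, 0 < a l) : HasZ χ I c B (χ σ B * ∏ l ∈ S, fr (a l) (k l)) := by
  have e : I.map (ev (X : σ → Pol σ)) = I := by
    rw [show ev (X : σ → Pol σ) = AlgHom.id ℂ _ from aeval_X_left]
    exact I.map_id
  exact ⟨⟨Unit, fun _ => ⟨z, X, B, hB, S, a, k, v, et, van, e.trans_le fac, by rwa [e],
    by simpa using jac, unitv, pos⟩, fun _ x hx => by simpa using hx,
    fun b hb _ => ⟨(), b, hb, ap_X b⟩, fun _ _ w w' _ _ _ h => ⟨rfl, by simpa using h⟩⟩, by simp⟩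

/-- Gluing along a family of charts. -/
theorem HasZ.glue {ι : Type} [Fintype ι] (φ : ι → σ → Pol σ) (B' : ι → Set (σ → ℂ))
    {Z : ι → RatFunc ℂ} (h : ∀ i, HasZ χ (I.map (ev (φ i))) (ev (φ i) c * jd (φ i)) (B' i) (Z i))
    (hm : ∀ i, ∀ x ∈ B' i, ap (φ i) x ∈ B)
    (he : ∀ b, bs b ∈ B → Nz I b → ∃ i w, bs w ∈ B' i ∧ ap (φ i) w = b)
    (hu : ∀ i i' w w', bs w ∈ B' i → bs w' ∈ B' i' → Nz I (ap (φ i) w) →
      ap (φ i) w = ap (φ i') w' → i = i' ∧ w = w') : HasZ χ I c B (∑ i, Z i) := by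
  choose D hD using h
  refine ⟨⟨Σ i, (D i).R, fun p => ((D p.1).s p.2).pull (φ p.1), fun p x hx => ?_,
    fun b hb hn => ?_, ?_⟩, ?_⟩
  · exact (ap_ap _ _ x).symm.subst (motive := (· ∈ B)) (hm _ _ ((D p.1).maps p.2 x hx))
  · obtain ⟨i, w, h1, rfl⟩ := he b hb hn
    obtain ⟨r, w', h2, rfl⟩ := (D i).ex w h1 (nz_ap.1 hn)
    exact ⟨⟨i, r⟩, w', h2, ap_ap _ _ _⟩
  · rintro ⟨i, r⟩ ⟨i', r'⟩ w w' h1 h2 hn e
    change Nz I (ap (ap (φ i) ((D i).s r).f) w) at hn
    change ap (ap (φ i) ((D i).s r).f) w = ap (ap (φ i') ((D i').s r').f) w' at e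
    rw [ap_ap] at hn
    rw [ap_ap, ap_ap] at e
    obtain ⟨rfl, e'⟩ := hu i i' _ _ (by rw [bs_ap]; exact (D i).maps r _ h1)
      (by rw [bs_ap]; exact (D i').maps r' _ h2) hn e
    obtain ⟨rfl, e''⟩ := (D i).uniq r r' w w' h1 h2 (nz_ap.1 hn) e'
    exact ⟨rfl, e''⟩
  · rw [Fintype.sum_sigma]
    exact Finset.sum_congr rfl fun i _ => hD i

/-- A partition of the base. -/
theorem HasZ.part {ι : Type} [Fintype ι] (B' : ι → Set (σ → ℂ)) {Z : ι → RatFunc ℂ}
    (h : ∀ i, HasZ χ I c (B' i) (Z i)) (hm : ∀ i, B' i ⊆ B) (he : ∀ x ∈ B, ∃ i, x ∈ B' i)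
    (hu : ∀ i i' x, x ∈ B' i → x ∈ B' i' → i = i') : HasZ χ I c B (∑ i, Z i) := by
  have e : I.map (ev (X : σ → Pol σ)) = I := by
    rw [show ev (X : σ → Pol σ) = AlgHom.id ℂ _ from aeval_X_left]
    exact I.map_id
  refine HasZ.glue (fun _ => X) B' (fun i => by simpa [e] using h i)
    (fun i x hx => by simpa using hm i hx)
    (fun b hb _ => (he _ hb).imp fun i hi => ⟨b, hi, ap_X b⟩) fun i i' w w' h1 h2 _ e => ?_
  rw [ap_X, ap_X] at e
  exact ⟨hu i i' _ h1 (e ▸ h2), e⟩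

theorem HasZ.part2 (T : Set (σ → ℂ)) {Z Z' : RatFunc ℂ} (h : HasZ χ I c (B ∩ T) Z)
    (h' : HasZ χ I c (B \ T) Z') : HasZ χ I c B (Z + Z') := by
  have := HasZ.part (B := B) (fun i : Bool => cond i (B ∩ T) (B \ T)) (Z := fun i => cond i Z Z')
    (Bool.rec h' h) (Bool.rec sdiff_subset inter_subset_left)
    (fun x hx => (em (x ∈ T)).elim (fun h => ⟨true, hx, h⟩) fun h => ⟨false, hx, h⟩)
    (Bool.rec (Bool.rec (fun _ _ _ => rfl) fun _ h h' => (h.2 h'.2).elim)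
      (Bool.rec (fun _ h h' => (h'.2 h.2).elim) fun _ _ _ => rfl))
  simpa using this

/-- An automorphism. -/
theorem HasZ.aut (φ ψ : σ → Pol σ) (h1 : ap φ ψ = X) (h2 : ap ψ φ = X) {Z : RatFunc ℂ}
    (h : HasZ χ (I.map (ev φ)) (ev φ c * jd φ) {x | ap φ x ∈ B} Z) : HasZ χ I c B Z := by
  have e : ∀ b : σ → PS, ap φ (ap ψ b) = b := fun b => by rw [← ap_ap, h1, ap_X]
  have := HasZ.glue (B := B) (fun _ : Unit => φ) (fun _ => {x | ap φ x ∈ B}) (fun _ => h)
    (fun _ _ hx => hx)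
    (fun b hb _ => ⟨(), ap ψ b, by rwa [mem_ofPred_eq, ← bs_ap, e], e b⟩)
    fun _ _ w w' _ _ _ e => ⟨rfl, by
      simpa only [← ap_ap, h2, ap_X] using congrArg (ap ψ) e⟩
  simpa using this

/-- Multiplication by functions without zeros on the base. -/
theorem HasZ.unit {I' : Ideal (Pol σ)} {Z : RatFunc ℂ} (h : HasZ χ I c B Z) (hI : I' ≤ I)
    (u v : Pol σ) (hu : ∀ x ∈ B, eval x u ≠ 0) (hv : ∀ x ∈ B, eval x v ≠ 0)
    (hI' : ∀ p ∈ I, u * p ∈ I') : HasZ χ I' (v * c) B Z := by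
  obtain ⟨D, rfl⟩ := h
  have e : ∀ (f : σ → Pol σ) (x : σ → ℂ) p, eval x (ev f p) = eval (ap f x) p := fun f x p =>
    (ev_ap f x p).symm
  have n : ∀ b, Nz I' b → Nz I b := fun b ⟨p, h1, h2⟩ => ⟨p, hI h1, h2⟩
  refine ⟨⟨D.R, fun r => { D.s r with
    v := ev (D.s r).f v * (D.s r).v
    fac := (Ideal.map_mono hI).trans (D.s r).fac
    unit := fun x hx => ?_
    jac := by rw [map_mul, mul_assoc, (D.s r).jac, mul_left_comm]
    unitv := fun x hx => by
      rw [map_mul, e]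
      exact mul_ne_zero (hv _ (D.maps r x hx)) ((D.s r).unitv x hx) }, D.maps,
    fun b hb hn => D.ex b hb (n b hn), fun r r' w w' h1 h2 hn => D.uniq r r' w w' h1 h2 (n _ hn)⟩,
    rfl⟩
  obtain ⟨t, h1, h2⟩ := (D.s r).unit x hx
  refine ⟨ev (D.s r).f u * t, ?_, by
    rw [map_mul, e]
    exact mul_ne_zero (hu _ (D.maps r x hx)) h2⟩
  have h3 : I.map (ev (D.s r).f) ≤ (I'.map (ev (D.s r).f)).colon {ev (D.s r).f u} :=
    Ideal.map_le_iff_le_comap.2 fun p hp => Submodule.mem_colon_singleton.2 <| by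
      rw [smul_eq_mul, ← map_mul, mul_comm]
      exact Ideal.mem_map_of_mem _ (hI' p hp)
  rw [mul_left_comm, mul_comm]
  exact Submodule.mem_colon_singleton.1 (h3 h1)

/-- A chart of the blow-up of the subspace where the coordinates in `T` vanish. -/
noncomputable def bl (T : Finset σ) (p : σ) : σ → Pol σ :=
  fun l => if l ∈ T.erase p then X p * X l else X l

omit [Fintype σ] in
theorem ap_bl {A : Type} [CommRing A] [Algebra ℂ A] (T : Finset σ) (p : σ) (w : σ → A) (l : σ) :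
    ap (bl T p) w l = if l ∈ T.erase p then w p * w l else w l := by
  rw [ap, bl]
  split_ifs <;> simp

theorem jd_bl (T : Finset σ) (p : σ) : jd (bl T p) = X p ^ (T.erase p).card := by
  have h1 : (Matrix.of fun i l => pderiv l (bl T p i)) =
      (1 + Matrix.of fun i l => if i ∈ T.erase p ∧ l = p then (X i : Pol σ) else 0) *
        Matrix.diagonal fun l => if l ∈ T.erase p then X p else 1 := by
    ext i l : 1
    rw [Matrix.mul_diagonal, Matrix.add_apply, Matrix.one_apply, Matrix.of_apply, Matrix.of_apply,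
      bl]
    by_cases hi : i ∈ T.erase p
    · have := (Finset.mem_erase.1 hi).1
      by_cases hl : l = p
      · simp [hi, hl, this]
      · by_cases hil : i = l
        · subst hil
          simp [hi, Ne.symm this, this]
        · simp [hi, hl, hil, Ne.symm hl]
    · by_cases hil : i = l
      · subst hil
        simp only [hi]
        simp
      · simp only [hi]
        simp [hil]
  have h2 : (Matrix.of fun i l => if i ∈ T.erase p ∧ l = p then (X i : Pol σ) else 0) =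
      Matrix.vecMulVec (fun i => if i ∈ T.erase p then X i else 0) (Pi.single p 1) := by
    ext i l : 1
    simp only [Matrix.of_apply, Matrix.vecMulVec_apply, Pi.single_apply, ite_and]
    split_ifs <;> simp
  rw [jd, h1, Matrix.det_mul, Matrix.det_diagonal, h2, Matrix.vecMulVec_eq Unit,
    Matrix.det_one_add_replicateCol_mul_replicateRow, Finset.prod_ite_mem]
  simp

/-- The blow-up of a coordinate subspace contained in the zero set of the ideal. -/
theorem HasZ.blow (T : Finset σ) (o : σ → ℕ) (ho : InjOn o T)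
    (hT : ∀ b, Nz I b → ∃ l ∈ T, b l ≠ 0) {Z : σ → RatFunc ℂ}
    (h : ∀ p ∈ T, HasZ χ (I.map (ev (bl T p))) (ev (bl T p) c * X p ^ (T.erase p).card)
      {x | ap (bl T p) x ∈ B ∧ ∀ l ∈ T, o l < o p → x l = 0} (Z p)) :
    HasZ χ I c B (∑ p ∈ T, Z p) := by
  classical
  rw [← Finset.sum_coe_sort]
  refine HasZ.glue (fun p : T => bl T p)
    (fun p => {x | ap (bl T p) x ∈ B ∧ ∀ l ∈ T, o l < o p → x l = 0})
    (fun p => by rw [jd_bl]; exact h p p.2) (fun _ _ hx => hx.1) (fun b hb hn => ?_) ?_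
  · obtain ⟨q, hq, h0⟩ := hT b hn
    obtain ⟨q', hq', hm⟩ := T.exists_min_image (fun l => IsDiscreteValuationRing.addVal PS (b l))
      ⟨q, hq⟩
    obtain ⟨p, hp, hp'⟩ := (T.filter fun p => ∀ l ∈ T, b p ∣ b l).exists_min_image o
      ⟨q', Finset.mem_filter.2 ⟨hq', fun l hl =>
        IsDiscreteValuationRing.addVal_le_iff_dvd.1 (hm l hl)⟩⟩
    obtain ⟨hp, hd⟩ := Finset.mem_filter.1 hp
    have hw : ∀ l, ∃ t, (if l ∈ T.erase p then b p * t else t) = b l ∧ (l = p → t = b p) :=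
      fun l => by
      split_ifs with hl
      · obtain ⟨t, ht⟩ := hd l (Finset.mem_of_mem_erase hl)
        exact ⟨t, ht.symm, fun e => absurd e (Finset.ne_of_mem_erase hl)⟩
      · exact ⟨b l, rfl, fun e => e ▸ rfl⟩
    choose w h1 h2 using hw
    have e : ap (bl T p) w = b := funext fun l => by rw [ap_bl, h2 p rfl, h1]
    refine ⟨⟨p, hp⟩, w, ⟨by rwa [← bs_ap, e], fun l hl ho' => by_contra fun hne => ?_⟩, e⟩
    have h3 := h1 l
    rw [if_pos (Finset.mem_erase.2 ⟨fun e => (e ▸ ho').false, hl⟩)] at h3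
    have h4 : IsUnit (w l) := PowerSeries.isUnit_iff_constantCoeff.2 (IsUnit.mk0 _ hne)
    exact (hp' l (Finset.mem_filter.2 ⟨hl, fun l' hl' =>
      h3 ▸ h4.mul_right_dvd.2 (hd l' hl')⟩)).not_gt ho'
  · have k0 : ∀ p (w : σ → PS), Nz I (ap (bl T p) w) → p ∈ T → w p ≠ 0 := fun p w hn _ e => by
      obtain ⟨l, hl, h0⟩ := hT _ hn
      rw [ap_bl] at h0
      by_cases hlp : l = p
      · simp [hlp, e] at h0
      · simp [hl, hlp, e] at h0
    have k1 : ∀ p ∈ T, ∀ p' ∈ T, ∀ w w' : σ → PS, bs w' p = 0 → p ≠ p' → w p ≠ 0 →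
        ap (bl T p) w ≠ ap (bl T p') w' := fun p hp p' hp' w w' h0 hne h1 e => by
      have e1 := congrFun e p
      have e2 := congrFun e p'
      rw [ap_bl, ap_bl, if_neg (by simp), if_pos (Finset.mem_erase.2 ⟨hne, hp⟩)] at e1
      rw [ap_bl, ap_bl, if_pos (Finset.mem_erase.2 ⟨hne.symm, hp'⟩), if_neg (by simp)] at e2
      have e3 : w p' * w' p = 1 := mul_left_cancel₀ h1 (by rw [← mul_assoc, e2, ← e1, mul_one])
      simpa [show PowerSeries.constantCoeff (w' p) = 0 from h0] using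
        congrArg PowerSeries.constantCoeff e3
    rintro ⟨p, hp⟩ ⟨p', hp'⟩ w w' h1 h2 hn e
    obtain rfl : p = p' := ho hp hp' (le_antisymm
      (not_lt.1 fun h => k1 p' hp' p hp w' w (h1.2 _ hp' h) (fun e => (e ▸ h).false)
        (k0 _ _ (e ▸ hn) hp') e.symm)
      (not_lt.1 fun h => k1 p hp p' hp' w w' (h2.2 _ hp h) (fun e => (e ▸ h).false)
        (k0 _ _ hn hp) e))
    have e1 : w p = w' p := by simpa [ap_bl] using congrFun e p
    refine ⟨rfl, funext fun l => ?_⟩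
    have e2 := congrFun e l
    rw [ap_bl, ap_bl, ← e1] at e2
    split_ifs at e2
    exacts [mul_left_cancel₀ (k0 _ _ hn hp) e2, e2]

end Defs

end Pool.Agent.MP_ee8c61_ag.H95
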