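import Pool.Agent.MP_ee8c61_ag.H95.Defs
import Pool.Agent.MP_ee8c61_ag.H36.BasicE
import Pool.Agent.MP_4f1c5b_al.H95.SpecA

/-!
Arcs, jets, counting measures and the change of variables formula: definitions and statements.
-/

namespace Pool.Agent.MP_ee8c61_ag.H95

open Set Filter AlgebraicGeometry CategoryTheory
open Pool.Agent.MP_4f1c5b_al.H95 (IsEuler ConE Ctx Fx uf kk pr)

/-- Formal power series. -/
abbrev PS : Type := PowerSeries ℂ

/-- The variable of the arcs. -/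
noncomputable abbrev tt : PS := PowerSeries.X

/-- Polynomials. -/
abbrev Pol (ι : Type) : Type := MvPolynomial ι ℂ

/-- Evaluation of a polynomial. -/
noncomputable abbrev ev {ι B : Type} [CommRing B] [Algebra ℂ B] (w : ι → B) : Pol ι →ₐ[ℂ] B :=
  MvPolynomial.aeval w

/-- The coefficients lie in `E`. -/
def PolyE {ι : Type} (E : Subfield ℂ) (p : Pol ι) : Prop := ∀ m, p.coeff m ∈ E

/-! ### Jets -/

section Jets

variable {ι : Type} {m : ℕ}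

/-- The jet of an arc. -/
noncomputable def tr (m : ℕ) (b : ι → PS) : ι × Fin (m + 1) → ℂ :=
  fun p => PowerSeries.coeff p.2 (b p.1)

/-- The polynomial arc with a given jet. -/
def ser (x : ι × Fin (m + 1) → ℂ) (k : ι) : PS :=
  PowerSeries.mk fun c => if h : c < m + 1 then x (k, ⟨c, h⟩) else 0

/-- The base point of an arc. -/
noncomputable def bs (b : ι → PS) : ι → ℂ := fun k => PowerSeries.constantCoeff (b k)

@[simp] theorem tr_ser (x : ι × Fin (m + 1) → ℂ) : tr m (ser x) = x :=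
  funext fun p => by simp only [tr, ser, PowerSeries.coeff_mk, dif_pos p.2.2]

theorem tr_eq_iff {b b' : ι → PS} : tr m b = tr m b' ↔ ∀ k, tt ^ (m + 1) ∣ b k - b' k := by
  simp only [PowerSeries.X_pow_dvd_iff, map_sub, sub_eq_zero]
  exact ⟨fun h k c hc => congrFun h (k, ⟨c, hc⟩), fun h => funext fun p => h p.1 p.2 p.2.2⟩

theorem ser_tr (b : ι → PS) (k : ι) : tt ^ (m + 1) ∣ ser (tr m b) k - b k :=
  tr_eq_iff.1 (tr_ser _) k

theorem tr_comp {κ : Type} (b : ι → PS) (φ : κ → ι) :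
    tr m b ∘ Prod.map φ id = tr m (b ∘ φ) := rfl

theorem tr_zero (b : ι → PS) (k : ι) : tr m b (k, 0) = bs b k := by simp [tr, bs]

theorem dvd_ev {c : PS} {b b' : ι → PS} (h : ∀ k, c ∣ b k - b' k) (p : Pol ι) :
    c ∣ ev b p - ev b' p := by
  induction p using MvPolynomial.induction_on with
  | C r => simp
  | add p q hp hq =>
    rw [map_add, map_add, add_sub_add_comm]
    exact hp.add hq
  | mul_X p k hp =>
    rw [map_mul, map_mul, MvPolynomial.aeval_X, MvPolynomial.aeval_X,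
      show ∀ x y z w : PS, x * y - z * w = (x - z) * y + z * (y - w) from fun _ _ _ _ => by ring]
    exact (hp.mul_right _).add ((h k).mul_left _)

theorem bs_ev (b : ι → PS) (p : Pol ι) :
    PowerSeries.constantCoeff (ev b p) = MvPolynomial.eval (bs b) p := by
  induction p using MvPolynomial.induction_on with
  | C r => simp
  | add p q hp hq => simp only [map_add, hp, hq]
  | mul_X p k hp => simp only [map_mul, hp, MvPolynomial.aeval_X, MvPolynomial.eval_X, bs]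

theorem order_eq_iff {x : PS} {n : ℕ} : x.order = n ↔ tt ^ n ∣ x ∧ ¬tt ^ (n + 1) ∣ x := by
  simp only [PowerSeries.order_eq_nat, PowerSeries.X_pow_dvd_iff]
  refine ⟨fun h => ⟨h.2, fun h' => h.1 (h' n n.lt_succ_self)⟩, fun h => ⟨fun h' => h.2 fun c hc =>
    (Nat.lt_succ_iff_lt_or_eq.1 hc).elim (h.1 c) fun e => e ▸ h', h.1⟩⟩

theorem order_congr {x y : PS} {n c : ℕ} (h : x.order = n) (hc : n < c) (e : tt ^ c ∣ y - x) :
    y.order = n := by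
  rw [order_eq_iff] at h ⊢
  have h1 := (pow_dvd_pow tt (Nat.succ_le_of_lt hc)).trans e
  exact ⟨by simpa using ((pow_dvd_pow tt n.le_succ).trans h1).add h.1,
    fun h2 => h.2 (by simpa using h2.sub h1)⟩

theorem order_unit {x : PS} (h : PowerSeries.constantCoeff x ≠ 0) : x.order = (0 : ℕ) :=
  order_eq_iff.2 ⟨by simp, by simpa [PowerSeries.X_dvd_iff] using h⟩

end Jets

/-- The arcs with contact order `n` along the ideal generated by the `g j`. -/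
def Cont {N : ℕ} {J : Type} (g : J → Pol (Fin N)) (n : ℕ) : Set (Fin N → PS) :=
  {b | (∀ j, tt ^ n ∣ ev b (g j)) ∧ ∃ j, ¬tt ^ (n + 1) ∣ ev b (g j)}

/-! ### Counting measures -/

/-- A measure on constructible sets with values in the hyperintegers. -/
structure MM where
  /-- the field of definition -/
  E : Subfield ℂ
  /-- the ring of values -/
  Λ : Subring Hyperreal
  /-- the measure of the line -/
  L : Hyperreal
  /-- the measure -/
  μ : ∀ {ι : Type} [Finite ι], Set (ι → ℂ) → Hyperreal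
  /-- the specialisation -/
  ε : Λ →+* ℂ
  disc : ∀ x ∈ Λ, |x| < 1 → x = 0
  Lmem : L ∈ Λ
  two : 2 ≤ L
  εL : ε ⟨L, Lmem⟩ = 1
  mem : ∀ {ι : Type} [Finite ι] (S : Set (ι → ℂ)), μ S ∈ Λ
  nonneg : ∀ {ι : Type} [Finite ι] (S : Set (ι → ℂ)), 0 ≤ μ S
  proj : ∀ {ι κ : Type} [Finite ι] [Finite κ] {S : Set (ι → ℂ)} (b : κ → ι), ConE E S →
    ConE E ((· ∘ b) '' S)
  add : ∀ {ι : Type} [Finite ι] {S T : Set (ι → ℂ)}, ConE E S → ConE E T → Disjoint S T →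
    μ (S ∪ T) = μ S + μ T
  fib : ∀ {ι κ : Type} [Finite ι] [Finite κ] {S : Set (ι → ℂ)} {B : Set (κ → ℂ)} (b : κ → ι)
    (e : ℕ), ConE E S → ConE E B → MapsTo (· ∘ b) S B →
    (∀ y ∈ B, ∃ c : Fin e → ι, BijOn (· ∘ c) {x ∈ S | x ∘ b = y} univ) → μ S = L ^ e * μ B
  pt : μ (univ : Set (Fin 0 → ℂ)) = 1
  chi : ∀ χ, IsEuler χ → ∀ (n : ℕ) (S : Set (Fin n → ℂ)), ConE E S → ε ⟨μ S, mem S⟩ = χ n S

namespace MM

variable (M : MM)

/-- The normalised measure of the contact locus. -/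
noncomputable def mes {N : ℕ} {J : Type} (g : J → Pol (Fin N)) (n : ℕ) : Hyperreal :=
  M.μ (tr n '' Cont g n) / M.L ^ (N * n)

/-- The geometric series of a divisor. -/
noncomputable def phi (a κ : ℕ) : PowerSeries Hyperreal :=
  PowerSeries.C ((M.L - 1) / M.L ^ κ) * PowerSeries.X ^ a *
    (1 - PowerSeries.C (1 / M.L ^ κ) * PowerSeries.X ^ a)⁻¹

/-- The limit for `L → 1` of a series in `T = L ^ (-s)`. -/
inductive Lim : PowerSeries Hyperreal → RatFunc ℂ → Prop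
  | const (c : M.Λ) : Lim (PowerSeries.C (c : Hyperreal)) (RatFunc.C (M.ε c))
  | X : Lim PowerSeries.X 1
  | phi (a κ : ℕ) (h : 0 < κ) :
      Lim (M.phi a κ) (1 / ((a : RatFunc ℂ) * RatFunc.X + (κ : RatFunc ℂ)))
  | add {F F' : PowerSeries Hyperreal} {Z Z' : RatFunc ℂ} : Lim F Z → Lim F' Z' →
      Lim (F + F') (Z + Z')
  | mul {F F' : PowerSeries Hyperreal} {Z Z' : RatFunc ℂ} : Lim F Z → Lim F' Z' →
      Lim (F * F') (Z * Z')

end MM

/-! ### Charts and strata -/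

/-- An affine chart with etale coordinates `z`, mapping to affine space by `f`. -/
structure Chart (N : ℕ) where
  /-- the coordinate ring -/
  A : Type
  [ring : CommRing A]
  [alg : Algebra ℂ A]
  /-- the index set of the generators -/
  κ : Type
  [fin : Finite κ]
  /-- the generators -/
  y : κ → A
  gen : Function.Surjective (ev y)
  /-- the indices of the etale coordinates -/
  zc : Fin N → κ
  /-- the indices of the components of the map -/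
  fc : Fin N → κ
  et : (ev (y ∘ zc)).toRingHom.FormallyEtale
  /-- the dual derivations -/
  D : Fin N → Derivation ℂ A A
  dual : ∀ l m, D l (y (zc m)) = if l = m then 1 else 0

attribute [instance] Chart.ring Chart.alg Chart.fin

namespace Chart

variable {N : ℕ} (C : Chart N)

/-- the etale coordinates -/
def z (l : Fin N) : C.A := C.y (C.zc l)

/-- the components of the map -/
def f (i : Fin N) : C.A := C.y (C.fc i)

/-- the Jacobian matrix -/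
def Jm : Matrix (Fin N) (Fin N) C.A := Matrix.of fun i l => C.D l (C.f i)

/-- the base point of an arc -/
noncomputable def base (γ : C.A →ₐ[ℂ] PS) : C.κ → ℂ := bs (γ ∘ C.y)

/-- the base point of an arc, as a homomorphism -/
noncomputable def pt (γ : C.A →ₐ[ℂ] PS) : C.A →ₐ[ℂ] ℂ :=
  { (PowerSeries.constantCoeff (R := ℂ)).comp γ.toRingHom with
    commutes' := fun c => by simp }

@[simp] theorem pt_apply (γ : C.A →ₐ[ℂ] PS) (h : C.A) :
    C.pt γ h = PowerSeries.constantCoeff (γ h) := rfl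

theorem pt_y (γ : C.A →ₐ[ℂ] PS) : C.pt γ ∘ C.y = C.base γ := rfl

theorem map_ev {B ι : Type} [CommRing B] [Algebra ℂ B] (γ : C.A →ₐ[ℂ] B) (w : ι → C.A)
    (p : Pol ι) : γ (ev w p) = ev (γ ∘ w) p := MvPolynomial.comp_aeval_apply _ _ _

theorem hom_ext {B : Type} [CommRing B] [Algebra ℂ B] {γ γ' : C.A →ₐ[ℂ] B}
    (h : γ ∘ C.y = γ' ∘ C.y) : γ = γ' := AlgHom.ext fun x => by
  obtain ⟨p, rfl⟩ := C.gen x
  rw [map_ev, map_ev, h]

/-- the equations are defined over `E` -/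
def Over (E : Subfield ℂ) : Prop :=
  ∃ G : Finset (Pol C.κ), (∀ p ∈ G, PolyE E p) ∧
    Ideal.span (G : Set (Pol C.κ)) = RingHom.ker (ev C.y)

end Chart

/-- A stratum `P` in a chart, along which the ideal and the Jacobian are monomial. -/
structure Str (N : ℕ) {J : Type} (g : J → Pol (Fin N)) extends Chart N where
  /-- the stratum -/
  P : Set (κ → ℂ)
  con : ConE ⊤ P
  pts : ∀ x ∈ P, ∃ φ : A →ₐ[ℂ] ℂ, φ ∘ y = x
  /-- the coordinates that vanish -/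
  S : Finset (Fin N)
  /-- the orders of the ideal -/
  a : Fin N → ℕ
  /-- the orders of the Jacobian -/
  k : Fin N → ℕ
  /-- the cofactors -/
  u : J → A
  /-- the cofactor of the Jacobian -/
  v : A
  van : ∀ φ : A →ₐ[ℂ] ℂ, φ ∘ y ∈ P → ∀ l ∈ S, φ (toChart.z l) = 0
  fac : ∀ j, ev toChart.f (g j) = (∏ l ∈ S, toChart.z l ^ a l) * u j
  unit : ∀ φ : A →ₐ[ℂ] ℂ, φ ∘ y ∈ P → ∃ j, φ (u j) ≠ 0
  jac : toChart.Jm.det = (∏ l ∈ S, toChart.z l ^ k l) * v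
  unitv : ∀ φ : A →ₐ[ℂ] ℂ, φ ∘ y ∈ P → φ v ≠ 0
  esc : ∀ l ∈ S, a l = 0 → ∃ i, toChart.z l ∣ toChart.f i

/-- The multi-orders with contact order `n` and entries at most `K`. -/
def FF {N : ℕ} (S : Finset (Fin N)) (a : Fin N → ℕ) (n K : ℕ) : Finset (Fin N → ℕ) :=
  (Fintype.piFinset fun l => if l ∈ S then Finset.Icc 1 K else {0}).filter
    fun ν => ∑ l ∈ S, a l * ν l = n

theorem mem_FF {N : ℕ} {S : Finset (Fin N)} {a ν : Fin N → ℕ} {n K : ℕ} :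
    ν ∈ FF S a n K ↔ ((∀ l ∈ S, 1 ≤ ν l ∧ ν l ≤ K) ∧ ∀ l ∉ S, ν l = 0) ∧
      ∑ l ∈ S, a l * ν l = n := by
  rw [FF, Finset.mem_filter, Fintype.mem_piFinset]
  refine and_congr_left fun _ => ⟨fun h => ⟨fun l hl => by simpa [hl] using h l,
    fun l hl => by simpa [hl] using h l⟩, fun h l => ?_⟩
  by_cases hl : l ∈ S
  · simpa [hl] using h.1 l hl
  · simpa [hl] using h.2 l hl

namespace Str

variable {N : ℕ} {J : Type} {g : J → Pol (Fin N)} (s : Str N g)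

/-- the arcs through the stratum that do not lie in one of the divisors -/
def Fin' (γ : s.A →ₐ[ℂ] PS) : Prop := s.base γ ∈ s.P ∧ ∀ l ∈ s.S, γ (s.z l) ≠ 0

/-- the arcs with given orders -/
def Del (ν : Fin N → ℕ) : Set (s.A →ₐ[ℂ] PS) :=
  {γ | s.base γ ∈ s.P ∧ ∀ l ∈ s.S, (γ (s.z l)).order = ν l}

/-- their jets -/
def JD (m : ℕ) (ν : Fin N → ℕ) : Set (s.κ × Fin (m + 1) → ℂ) :=
  (fun γ : s.A →ₐ[ℂ] PS => tr m (γ ∘ s.y)) '' s.Del ν

/-- the jets of their images -/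
def Im (m : ℕ) (ν : Fin N → ℕ) : Set (Fin N × Fin (m + 1) → ℂ) :=
  (fun γ : s.A →ₐ[ℂ] PS => tr m (γ ∘ s.f)) '' s.Del ν

/-- the order of the Jacobian -/
def ee (ν : Fin N → ℕ) : ℕ := ∑ l ∈ s.S, s.k l * ν l

/-- the level is large -/
def Big (m : ℕ) (ν : Fin N → ℕ) : Prop := 2 * s.ee ν ≤ m ∧ ∀ l ∈ s.S, ν l + s.ee ν ≤ m

/-- arcs are determined by their images -/
def UA : Prop := ∀ γ γ', s.Fin' γ → s.Fin' γ' → γ ∘ s.f = γ' ∘ s.f → γ = γ'

/-- the stratum is defined over `E` -/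
def Over (E : Subfield ℂ) : Prop := s.toChart.Over E ∧ ConE E s.P

theorem Del.fin' {ν : Fin N → ℕ} {γ : s.A →ₐ[ℂ] PS} (h : γ ∈ s.Del ν) : s.Fin' γ :=
  ⟨h.1, fun l hl e => by simpa [e] using h.2 l hl⟩

theorem image_JD (m : ℕ) (ν : Fin N → ℕ) :
    (· ∘ Prod.map s.fc id) '' s.JD m ν = s.Im m ν := by
  rw [JD, image_image]
  rfl

end Str

/-- A family of strata through which the arcs lift uniquely. -/
structure Dat (N : ℕ) {J : Type} (g : J → Pol (Fin N)) where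
  /-- the index set -/
  R : Type
  [fin : Fintype R]
  /-- the strata -/
  s : R → Str N g
  ex : ∀ b : Fin N → PS, (∀ i, b i ≠ 0) → (∃ j, ev b (g j) ≠ 0) →
    ∃ (r : R) (γ : (s r).A →ₐ[ℂ] PS), (s r).base γ ∈ (s r).P ∧ γ ∘ (s r).f = b
  ua : ∀ r, (s r).UA
  ur : ∀ r r' γ γ', (s r).Fin' γ → (s r').Fin' γ' → γ ∘ (s r).f = γ' ∘ (s r').f → r = r'

attribute [instance] Dat.fin

/-- The sum over the strata. -/
noncomputable def zsum {N : ℕ} {R : Type} [Fintype R] (S : R → Finset (Fin N))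
    (a k : R → Fin N → ℕ) (c : R → ℤ) : RatFunc ℂ :=
  ∑ r, (c r : RatFunc ℂ) *
    ∏ l ∈ S r, 1 / ((a r l : RatFunc ℂ) * RatFunc.X + ((k r l + 1 : ℕ) : RatFunc ℂ))

namespace Dat

variable {N : ℕ} {J : Type} {g : J → Pol (Fin N)} (D : Dat N g)

/-- everything is defined over `E` -/
def Over (E : Subfield ℂ) : Prop := (∀ j, PolyE E (g j)) ∧ ∀ r, (D.s r).Over E

/-- the generating series -/
noncomputable def zser (M : MM) : PowerSeries Hyperreal :=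
  ∑ r, PowerSeries.C (M.μ (D.s r).P) * ∏ l ∈ (D.s r).S, M.phi ((D.s r).a l) ((D.s r).k l + 1)

/-- the topological zeta function -/
noncomputable def ztop (χ : H36.Chi) : RatFunc ℂ :=
  zsum (fun r => (D.s r).S) (fun r => (D.s r).a) (fun r => (D.s r).k) fun r => χ _ (D.s r).P

end Dat

/-! ### Polynomial charts -/

/-- The Jacobian determinant of a polynomial map. -/
noncomputable def jacd {N : ℕ} (f : Fin N → Pol (Fin N)) : Pol (Fin N) :=
  (Matrix.of fun i l => MvPolynomial.pderiv l (f i)).det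

/-- A stratum in a polynomial chart. -/
structure PStr (N : ℕ) {J : Type} (g : J → Pol (Fin N)) where
  /-- the local coordinates -/
  z : Fin N → Pol (Fin N)
  /-- the map -/
  f : Fin N → Pol (Fin N)
  /-- a denominator -/
  d : Pol (Fin N)
  /-- the stratum -/
  P : Set (Fin N → ℂ)
  con : ConE ⊤ P
  /-- the coordinates that vanish -/
  S : Finset (Fin N)
  /-- the orders of the ideal -/
  a : Fin N → ℕ
  /-- the orders of the Jacobian -/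
  k : Fin N → ℕ
  /-- the cofactors -/
  u : J → Pol (Fin N)
  /-- the cofactor of the Jacobian -/
  v : Pol (Fin N)
  et : ∀ x ∈ P, MvPolynomial.eval x (jacd z) ≠ 0
  den : ∀ x ∈ P, MvPolynomial.eval x d ≠ 0
  van : ∀ x ∈ P, ∀ l ∈ S, MvPolynomial.eval x (z l) = 0
  fac : ∀ j, d * ev f (g j) = (∏ l ∈ S, z l ^ a l) * u j
  unit : ∀ x ∈ P, ∃ j, MvPolynomial.eval x (u j) ≠ 0
  jac : d * jacd f = (∏ l ∈ S, z l ^ k l) * v
  unitv : ∀ x ∈ P, MvPolynomial.eval x v ≠ 0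
  esc : ∀ l ∈ S, a l = 0 → ∃ i, z l ∣ d * f i

/-- A family of strata in polynomial charts through which the arcs lift uniquely. -/
structure PDat (N : ℕ) {J : Type} (g : J → Pol (Fin N)) where
  /-- the index set -/
  R : Type
  [fin : Fintype R]
  /-- the strata -/
  s : R → PStr N g
  ex : ∀ b : Fin N → PS, (∀ i, b i ≠ 0) → (∃ j, ev b (g j) ≠ 0) →
    ∃ (r : R) (w : Fin N → PS), bs w ∈ (s r).P ∧ ∀ i, ev w ((s r).f i) = b i
  uniq : ∀ (r r' : R) (w w' : Fin N → PS), bs w ∈ (s r).P → bs w' ∈ (s r').P →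
    (∀ l ∈ (s r).S, ev w ((s r).z l) ≠ 0) → (∀ l ∈ (s r').S, ev w' ((s r').z l) ≠ 0) →
    (∀ i, ev w ((s r).f i) = ev w' ((s r').f i)) → r = r' ∧ w = w'

attribute [instance] PDat.fin

/-- the topological zeta function -/
noncomputable def PDat.ztop {N : ℕ} {J : Type} {g : J → Pol (Fin N)} (D : PDat N g)
    (χ : H36.Chi) : RatFunc ℂ :=
  zsum (fun r => (D.s r).S) (fun r => (D.s r).a) (fun r => (D.s r).k) fun r => χ _ (D.s r).P

/-- The monomial map of a toric chart. -/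
noncomputable def mon {N : ℕ} (M : Matrix (Fin N) (Fin N) ℕ) (i : Fin N) : Pol (Fin N) :=
  ∏ l, MvPolynomial.X l ^ M l i

/-- The strict transform in a toric chart. -/
noncomputable def hpol {N : ℕ} (g : Pol (Fin N)) (M : Matrix (Fin N) (Fin N) ℕ) : Pol (Fin N) :=
  ∑ a ∈ g.support, MvPolynomial.C (g.coeff a) *
    ∏ l, MvPolynomial.X l ^ (∑ i, M l i * a i - H36.ord g (M l))

/-! ### Statements: measures -/

/-- Point counts in a family of affine spaces. -/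
def StmtFX : Prop := ∀ (c : Ctx) (ι κ : Type) [Finite ι] [Finite κ] (S : Set (ι → ℂ))
  (B : Set (κ → ℂ)) (b : κ → ι) (e : ℕ) (W : ∀ i, Set (ι → kk i)) (V : ∀ i, Set (κ → kk i)),
  ConE c.E S → MapsTo (· ∘ b) S B →
  (∀ y ∈ B, ∃ c : Fin e → ι, BijOn (· ∘ c) {x ∈ S | x ∘ b = y} univ) →
  (c.u.v ι).Rep S W → (c.u.v κ).Rep B V → ∀ᶠ i in (uf : Filter ℕ),
    (Fx (c.σ i) 1 (W i)).ncard = (pr i ^ c.e i) ^ e * (Fx (c.σ i) 1 (V i)).ncard

/-- Counting measures exist. -/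
def StmtMM : Prop := ∀ A : Set ℂ, A.Countable → ∃ M : MM, A ⊆ M.E

/-- The Euler characteristic on arbitrary finite index types. -/
def StmtEUL : Prop := ∀ χ, IsEuler χ → ∃ χ' : H36.Chi, H36.IsEuler χ' ∧
  (∀ (n : ℕ) (S : Set (Fin n → ℂ)), ConE ⊤ S → χ' (Fin n) S = χ n S) ∧
  ∀ (M : MM) (ι : Type) [Finite ι] (S : Set (ι → ℂ)), ConE M.E S → M.ε ⟨M.μ S, M.mem S⟩ = χ' ι S

/-- Products with coordinate subspaces and tori. -/
def StmtPROD : Prop := ∀ (M : MM) (κ ι : Type) [Finite κ] [Fintype ι] (B : Set (κ → ℂ))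
  (Z U : Finset ι), ConE M.E B → Disjoint Z U →
  ConE M.E {x : κ ⊕ ι → ℂ | x ∘ Sum.inl ∈ B ∧ (∀ j ∈ Z, x (Sum.inr j) = 0) ∧
      ∀ j ∈ U, x (Sum.inr j) ≠ 0} ∧
    M.μ {x : κ ⊕ ι → ℂ | x ∘ Sum.inl ∈ B ∧ (∀ j ∈ Z, x (Sum.inr j) = 0) ∧
      ∀ j ∈ U, x (Sum.inr j) ≠ 0} * M.L ^ (Z.card + U.card) =
      M.μ B * (M.L - 1) ^ U.card * M.L ^ Fintype.card ι

/-- The limit is unique. -/
def StmtLIM : Prop := ∀ (M : MM) (F : PowerSeries Hyperreal) (Z Z' : RatFunc ℂ),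
  M.Lim F Z → M.Lim F Z' → Z = Z'

/-- From the estimates to the coefficients of the series. -/
def StmtTAIL : Prop := ∀ (M : MM) (N : ℕ) (R : Type) [Fintype R] (c : R → Hyperreal)
  (S : R → Finset (Fin N)) (a k : R → Fin N → ℕ) (y : Hyperreal) (n B : ℕ),
  (∀ r, c r ∈ M.Λ ∧ 0 ≤ c r ∧ c r ≤ M.L ^ B) → y * M.L ^ B ∈ M.Λ →
  (∀ K, n ≤ K → |y - ∑ r, c r * (M.L - 1) ^ (S r).card *
    ∑ ν ∈ FF (S r) (a r) n K, (M.L ^ ∑ l ∈ S r, (k r l + 1) * ν l)⁻¹| ≤ M.L ^ B / M.L ^ K) →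
  y = PowerSeries.coeff n (∑ r, PowerSeries.C (c r) * ∏ l ∈ S r, M.phi (a r l) (k r l + 1))

/-! ### Statements: arcs -/

/-- Lifting of arcs through etale coordinates. -/
structure StmtARC : Prop where
  lift : ∀ (N : ℕ) (C : Chart N) (φ : C.A →ₐ[ℂ] ℂ) (ζ : Fin N → PS),
    (∀ l, PowerSeries.constantCoeff (ζ l) = φ (C.z l)) →
    ∃ γ : C.A →ₐ[ℂ] PS, C.pt γ = φ ∧ ∀ l, γ (C.z l) = ζ l
  congr : ∀ (N : ℕ) (C : Chart N) (γ γ' : C.A →ₐ[ℂ] PS) (c : ℕ), C.base γ = C.base γ' →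
    (∀ l, tt ^ c ∣ γ' (C.z l) - γ (C.z l)) → ∀ h, tt ^ c ∣ γ' h - γ h
  jet : ∀ (N : ℕ) (C : Chart N) (m : ℕ) (w : C.κ → PS),
    (∀ p, ev C.y p = 0 → tt ^ (m + 1) ∣ ev w p) →
    ∃ γ : C.A →ₐ[ℂ] PS, ∀ k, tt ^ (m + 1) ∣ γ (C.y k) - w k
  taylor : ∀ (N : ℕ) (C : Chart N) (γ γ' : C.A →ₐ[ℂ] PS) (c : ℕ), (∀ h, tt ^ c ∣ γ' h - γ h) →
    ∀ h, tt ^ (2 * c) ∣ γ' h - γ h - ∑ l, γ (C.D l h) * (γ' (C.z l) - γ (C.z l))

/-- The inverse function theorem for arcs. -/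
def StmtINV : Prop := ∀ (N : ℕ) (C : Chart N) (γ : C.A →ₐ[ℂ] PS) (e m : ℕ) (b : Fin N → PS),
  (γ C.Jm.det).order = e → 2 * e ≤ m → (∀ i, tt ^ (m + 1) ∣ b i - γ (C.f i)) →
  ∃ γ' : C.A →ₐ[ℂ] PS, (∀ h, tt ^ (m + 1 - e) ∣ γ' h - γ h) ∧ γ' ∘ C.f = b

/-- The kernel of a matrix on jets. -/
def StmtKER : Prop := ∀ (N : ℕ) (A : Matrix (Fin N) (Fin N) PS) (e m : ℕ), A.det.order = e →
  e ≤ m + 1 → ∃ c : Fin e → Fin N × Fin (m + 1),
    BijOn (· ∘ c) {x : Fin N × Fin (m + 1) → ℂ | ∀ i, tt ^ (m + 1) ∣ ∑ l, A i l * ser x l} univ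

/-- Sets of jets are constructible. -/
structure StmtJET : Prop where
  poly : ∀ (E : Subfield ℂ) (ι : Type) (m c : ℕ) (p : Pol ι), PolyE E p →
    ConE E {x : ι × Fin (m + 1) → ℂ | tt ^ c ∣ ev (ser x) p}
  mem : ∀ (N : ℕ) (J : Type) (g : J → Pol (Fin N)) (n m : ℕ) (x : Fin N × Fin (m + 1) → ℂ),
    n ≤ m → (x ∈ tr m '' Cont g n ↔ ser x ∈ Cont g n)
  cont : ∀ (E : Subfield ℂ) (N : ℕ) (J : Type) [Finite J] (g : J → Pol (Fin N)) (n m : ℕ),
    (∀ j, PolyE E (g j)) → n ≤ m → ConE E (tr m '' Cont g n)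
  del : ∀ (E : Subfield ℂ) (N : ℕ) (J : Type) (g : J → Pol (Fin N)) (s : Str N g) (m : ℕ)
    (ν : Fin N → ℕ), s.Over E → (∀ l ∈ s.S, ν l ≤ m) → ConE E (s.JD m ν)
  stab : ∀ (M : MM) (N : ℕ) (J : Type) [Finite J] (g : J → Pol (Fin N)) (n m : ℕ),
    (∀ j, PolyE M.E (g j)) → n ≤ m → M.μ (tr m '' Cont g n) = M.mes g n * M.L ^ (N * m)
  defd : ∀ (N : ℕ) (J : Type) [Finite J] (g : J → Pol (Fin N)) (D : Dat N g),
    ∃ A : Set ℂ, A.Finite ∧ ∀ E : Subfield ℂ, A ⊆ E → D.Over E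

/-- The measure of the jets with given orders. -/
def StmtCNT : Prop := ∀ (M : MM) (N : ℕ) (J : Type) (g : J → Pol (Fin N)) (s : Str N g) (m : ℕ)
  (ν : Fin N → ℕ), s.Over M.E → (∀ l ∈ s.S, 1 ≤ ν l ∧ ν l ≤ m) →
  M.μ (s.JD m ν) * M.L ^ (∑ l ∈ s.S, ν l) = M.μ s.P * (M.L - 1) ^ s.S.card * M.L ^ (N * m)

/-- Arcs whose images have the same jet are close. -/
def StmtNEAR : Prop := ∀ (N : ℕ) (J : Type) (g : J → Pol (Fin N)) (s : Str N g) (m : ℕ)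
  (ν : Fin N → ℕ) (γ : s.A →ₐ[ℂ] PS) (b : Fin N → PS), s.Big m ν → γ ∈ s.Del ν →
  tr m (γ ∘ s.f) = tr m b → (γ s.Jm.det).order = s.ee ν ∧
    ∃ γ' ∈ s.Del ν, (∀ h, tt ^ (m + 1 - s.ee ν) ∣ γ' h - γ h) ∧ γ' ∘ s.f = b

/-- The change of variables formula. -/
def StmtFIB : Prop := ∀ (M : MM) (N : ℕ) (J : Type) (g : J → Pol (Fin N)) (s : Str N g) (m : ℕ)
  (ν : Fin N → ℕ), s.Over M.E → s.UA → s.Big m ν →
  ConE M.E (s.Im m ν) ∧ M.μ (s.JD m ν) = M.L ^ s.ee ν * M.μ (s.Im m ν)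

/-- The images form a partition, up to a small set. -/
structure StmtPAR : Prop where
  sub : ∀ (N : ℕ) (J : Type) (g : J → Pol (Fin N)) (s : Str N g) (m n : ℕ) (ν : Fin N → ℕ),
    ∑ l ∈ s.S, s.a l * ν l = n → s.Im m ν ⊆ tr m '' Cont g n
  disj : ∀ (N : ℕ) (J : Type) (g : J → Pol (Fin N)) (D : Dat N g) (m : ℕ) (r r' : D.R)
    (ν ν' : Fin N → ℕ) (x : Fin N × Fin (m + 1) → ℂ), (D.s r).Big m ν → x ∈ (D.s r).Im m ν →
    x ∈ (D.s r').Im m ν' → r = r' ∧ ∀ l ∈ (D.s r).S, ν l = ν' l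
  cov : ∀ (N : ℕ) (J : Type) (g : J → Pol (Fin N)) (D : Dat N g) (m n K : ℕ), n ≤ K → K ≤ m →
    ∀ x ∈ tr m '' Cont g n, (∃ r, ∃ ν ∈ FF (D.s r).S (D.s r).a n K, x ∈ (D.s r).Im m ν) ∨
      ∃ i, ∀ c : Fin (m + 1), (c : ℕ) ≤ K → x (i, c) = 0

/-- The estimate for the measure of the contact locus. -/
def StmtEST : Prop := ∀ (M : MM) (N : ℕ) (J : Type) [Finite J] (g : J → Pol (Fin N))
  (D : Dat N g) (n K : ℕ), D.Over M.E → n ≤ K →
  |M.mes g n - ∑ r, M.μ (D.s r).P * (M.L - 1) ^ (D.s r).S.card *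
    ∑ ν ∈ FF (D.s r).S (D.s r).a n K, (M.L ^ ∑ l ∈ (D.s r).S, ((D.s r).k l + 1) * ν l)⁻¹| ≤
    M.L ^ (2 * N) / M.L ^ K

/-- The formula of Denef and Loeser. -/
def StmtDL : Prop := ∀ (M : MM) (N : ℕ) (J : Type) [Finite J] (g : J → Pol (Fin N))
  (D : Dat N g), D.Over M.E → PowerSeries.mk (M.mes g) = D.zser M

/-- The contact loci of the Cayley polynomial. -/
def StmtCAY : Prop := ∀ (M : MM) (r n : ℕ) (f : Fin r → Pol (Fin n)), (∀ j, PolyE M.E (f j)) →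
  PowerSeries.X * PowerSeries.mk (M.mes fun _ : Unit => H36.cayley f) =
    PowerSeries.C (M.L ^ r) * M.phi 1 1 * PowerSeries.mk (M.mes f)

/-! ### Statements: toric charts -/

/-- Unimodular fans exist. -/
def StmtFAN : Prop := ∀ (N : ℕ) (g : Pol (Fin N)), g ≠ 0 → ∃ Φ, H36.IsFan g Φ

/-- A criterion for etale coordinates. -/
def StmtET : Prop := ∀ (N : ℕ) (A : Type) [CommRing A] [Algebra ℂ A] (z : Fin N → A)
  (D : Fin N → Derivation ℂ A A), Algebra.FormallySmooth ℂ A →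
  (∀ l m, D l (z m) = if l = m then 1 else 0) →
  (∀ (B : Type) [AddCommGroup B] [Module A B] [Module ℂ B] [IsScalarTower ℂ A B]
    (δ : Derivation ℂ A B), (∀ l, δ (z l) = 0) → δ = 0) → (ev z).toRingHom.FormallyEtale

/-- The chart attached to polynomial coordinates. -/
def StmtPCH : Prop := ∀ (N : ℕ) (z f : Fin N → Pol (Fin N)) (d : Pol (Fin N)),
  ∃ (C : Chart N) (j : Pol (Fin N) →ₐ[ℂ] C.A) (yc : Fin N → C.κ),
    (∀ l, C.y (yc l) = j (MvPolynomial.X l)) ∧ (∀ l, C.z l = j (z l)) ∧ (∀ i, C.f i = j (f i)) ∧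
    IsUnit (j (jacd z)) ∧ IsUnit (j d) ∧ C.Jm.det * j (jacd z) = j (jacd f) ∧
    ∀ (B : Type) [CommRing B] [Algebra ℂ B] (w : Fin N → B), IsUnit (ev w (jacd z)) →
      IsUnit (ev w d) → ∃! γ : C.A →ₐ[ℂ] B, ∀ l, γ (j (MvPolynomial.X l)) = w l

/-- From polynomial charts to charts. -/
def StmtPD : Prop := ∀ (N : ℕ) (J : Type) (g : J → Pol (Fin N)) (P : PDat N g),
  ∃ D : Dat N g, ∀ χ, H36.IsEuler χ → D.ztop χ = P.ztop χ

/-- Lifting of arcs through the toric charts. -/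
structure StmtTORL : Prop where
  ex : ∀ (N : ℕ) (g : Pol (Fin N)) (Φ : Finset (H36.Cone N)), H36.IsFan g Φ →
    ∀ b : Fin N → PS, (∀ i, b i ≠ 0) →
      ∃ p ∈ Φ, ∃ w : Fin N → PS, bs w ∈ H36.orbit p ∧ ∀ i, ev w (mon p.1 i) = b i
  uniq : ∀ (N : ℕ) (g : Pol (Fin N)) (Φ : Finset (H36.Cone N)), H36.IsFan g Φ →
    ∀ p ∈ Φ, ∀ p' ∈ Φ, ∀ w w' : Fin N → PS, bs w ∈ H36.orbit p → bs w' ∈ H36.orbit p' →
      (∀ l ∈ p.2, w l ≠ 0) → (∀ l ∈ p'.2, w' l ≠ 0) →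
      (∀ i, ev w (mon p.1 i) = ev w' (mon p'.1 i)) → p = p' ∧ w = w'

/-- The algebra of the toric charts. -/
structure StmtTORS : Prop where
  val : ∀ (N : ℕ) (g : Pol (Fin N)) (M : Matrix (Fin N) (Fin N) ℕ) (y : Fin N → ℂ),
    MvPolynomial.eval y (hpol g M) = H36.strict g M y
  fac : ∀ (N : ℕ) (g : Pol (Fin N)) (M : Matrix (Fin N) (Fin N) ℕ),
    ev (mon M) g = (∏ l, MvPolynomial.X l ^ H36.ord g (M l)) * hpol g M
  jac : ∀ (N : ℕ) (M : Matrix (Fin N) (Fin N) ℕ), IsUnit (M.map (Nat.cast : ℕ → ℤ)).det →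
    (∀ l, 0 < ∑ i, M l i) ∧ ∃ c : ℂ, c ≠ 0 ∧
      jacd (mon M) = MvPolynomial.C c * ∏ l, MvPolynomial.X l ^ (∑ i, M l i - 1)
  upd : ∀ (N : ℕ) (h : Pol (Fin N)) (l : Fin N),
    jacd (Function.update MvPolynomial.X l h) = MvPolynomial.pderiv l h
  smooth : ∀ (N : ℕ) (g : Pol (Fin N)) (Φ : Finset (H36.Cone N)), H36.IsFan g Φ →
    (∀ w : Fin N → ℕ, H36.SmoothInTorus (H36.face (fun i => w i) g)) → ∀ p ∈ Φ,
    ∀ y ∈ H36.orbit p, MvPolynomial.eval y (hpol g p.1) = 0 →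
      ∃ l ∉ p.2, MvPolynomial.eval y (MvPolynomial.pderiv l (hpol g p.1)) ≠ 0

/-- The strata of the toric resolution. -/
def StmtTOR : Prop := ∀ (N : ℕ) (g : Pol (Fin N)) (Φ : Finset (H36.Cone N)), H36.IsFan g Φ →
  (∀ w : Fin N → ℕ, H36.SmoothInTorus (H36.face (fun i => w i) g)) →
  ∃ P : PDat N fun _ : Unit => g, ∀ χ, H36.IsEuler χ → P.ztop χ = H36.zeta χ g Φ

/-! ### Statements: schemes -/

/-- Arcs lift uniquely through a proper birational morphism. -/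
def StmtVAL : Prop := ∀ (N : ℕ) (Y : Scheme.{0}) (π : Y ⟶ Aff N) (I : Ideal (Pol (Fin N))),
  IsProper π → IsIso (π ∣_ off I) → ∀ β : Pol (Fin N) →+* PS, (∃ p ∈ I, β p ≠ 0) →
  ∃! l : Spec (CommRingCat.of PS) ⟶ Y, l ≫ π = Spec.map (CommRingCat.ofHom β)

/-- Arcs in an affine chart. -/
structure StmtAFF : Prop where
  ex : ∀ (Y : Scheme.{0}) (U : Y.Opens) (hU : IsAffineOpen U) (l : Spec (CommRingCat.of PS) ⟶ Y),
    l (IsLocalRing.closedPoint PS) ∈ U →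
    ∃ γ : Γ(Y, U) →+* PS, Spec.map (CommRingCat.ofHom γ) ≫ hU.fromSpec = l
  inj : ∀ (Y : Scheme.{0}) (U : Y.Opens) (hU : IsAffineOpen U) (γ γ' : Γ(Y, U) →+* PS),
    Spec.map (CommRingCat.ofHom γ) ≫ hU.fromSpec = Spec.map (CommRingCat.ofHom γ') ≫ hU.fromSpec →
    γ = γ'
  comp : ∀ (N : ℕ) (Y : Scheme.{0}) (π : Y ⟶ Aff N) (U : Y.Opens) (hU : IsAffineOpen U)
    (γ : Γ(Y, U) →+* PS), (Spec.map (CommRingCat.ofHom γ) ≫ hU.fromSpec) ≫ π =
      Spec.map (CommRingCat.ofHom (γ.comp (pb π U)))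
  pt : ∀ (Y : Scheme.{0}) (U : Y.Opens) (hU : IsAffineOpen U) (γ : Γ(Y, U) →+* PS) (x : Y),
    (Spec.map (CommRingCat.ofHom γ) ≫ hU.fromSpec) (IsLocalRing.closedPoint PS) = x ↔
      x ∈ U ∧ ∀ s, PowerSeries.constantCoeff (γ s) ≠ 0 ↔ x ∈ Y.basicOpen s

/-- The coordinates of a locally closed set form a constructible set. -/
def StmtCON : Prop := ∀ (N : ℕ) (Y : Scheme.{0}) (π : Y ⟶ Aff N) (U : Y.Opens) (m : ℕ)
  (y : Fin m → Γ(Y, U)) (W : Set Y), IsAffineOpen U →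
  Subring.closure (range ((pb π U).comp MvPolynomial.C) ∪ range y) = ⊤ → IsLocallyClosed W →
  ConE ⊤ (coords π U y W)

/-- The strata of a log resolution. -/
def StmtRES : Prop := ∀ (N : ℕ) (J' : Type) (g : J' → Pol (Fin N)) (Y : Scheme.{0})
  (π : Y ⟶ Aff N) (J : Type) [Fintype J] (E : J → Set Y) (a k : J → ℕ) (χ : Set Y → ℤ),
  IsLogRes (Ideal.span (range g)) π E a k → IsChi π χ → ∃ (D : Dat N g) (χ₀ : _), IsEuler χ₀ ∧
    ∀ χ' : H36.Chi, (∀ (n : ℕ) (S : Set (Fin n → ℂ)), ConE ⊤ S → χ' (Fin n) S = χ₀ n S) →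
      D.ztop χ' = zeta E a k χ

/-- The Euler characteristic exists. -/
def StmtEXC : Prop := ∀ (N : ℕ) (Y : Scheme.{0}) (π : Y ⟶ Aff N), IsProper π → ∃ χ, IsChi π χ

end Pool.Agent.MP_ee8c61_ag.H95
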