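import Pool.Agent.MP_ee8c61_ag.H95.Kit

/-! The strata of the toric resolution. -/

namespace Pool.Agent.MP_ee8c61_ag.H95

open Set MvPolynomial
open Pool.Agent.MP_4f1c5b_al.H95 (ConE)

namespace TorA

theorem chi_biUnion {χ : H36.Chi} (H : H36.IsEuler χ) {ι α : Type} [Finite ι] (A : Finset α)
    {S : α → Set (ι → ℂ)} (h : ∀ a ∈ A, H36.Con (S a))
    (hd : ∀ a ∈ A, ∀ a' ∈ A, a ≠ a' → Disjoint (S a) (S a')) :
    χ ι (⋃ a ∈ A, S a) = ∑ a ∈ A, χ ι (S a) := by
  classical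
  induction A using Finset.induction_on with
  | empty => simpa using H.empty
  | insert a A ha ih =>
    have h1 : ∀ b ∈ A, b ∈ insert a A := fun b => Finset.mem_insert_of_mem
    rw [Finset.set_biUnion_insert, Finset.sum_insert ha, H.add ι _ _ (h a (Finset.mem_insert_self _ _))
      (conE_iff.1 (conE_biUnion A fun b hb => conE_iff.2 (h b (h1 b hb)))) (disjoint_iUnion₂_right.2
        fun b hb => hd a (Finset.mem_insert_self _ _) b (h1 b hb) fun e => ha (e ▸ hb)),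
      ih (fun b hb => h b (h1 b hb)) fun b hb c hc => hd b (h1 b hb) c (h1 c hc)]

variable {N : ℕ}

theorem jacd_X : jacd (X : Fin N → Pol (Fin N)) = 1 := by
  have : (Matrix.of fun i l : Fin N => pderiv l (X i : Pol (Fin N))) = 1 := by
    ext1 i l
    simp [pderiv_X, Matrix.one_apply, Pi.single_apply]
  rw [jacd, this, Matrix.det_one]

/-- The part of the orbit off the strict transform. -/
def P0 (g : Pol (Fin N)) (p : H36.Cone N) : Set (Fin N → ℂ) :=
  H36.orbit p ∩ {y | eval y (hpol g p.1) ≠ 0}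

/-- The part of the orbit on the strict transform where `l` is the first good direction. -/
def P1 (g : Pol (Fin N)) (p : H36.Cone N) (l : Fin N) : Set (Fin N → ℂ) :=
  H36.orbit p ∩ ({y | eval y (hpol g p.1) = 0} ∩ ({y | eval y (pderiv l (hpol g p.1)) ≠ 0} ∩
    {y | ∀ l', y ∈ {y | l' < l → l' ∉ p.2 → eval y (pderiv l' (hpol g p.1)) = 0}}))

theorem con_orbit (p : H36.Cone N) : H36.Con (H36.orbit p) :=
  (H36.Con.orb (p.2 : Set (Fin N))).of_iff fun _ => by simp [H36.orbit]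

theorem con0 (g : Pol (Fin N)) (p : H36.Cone N) : H36.Con (P0 g p) :=
  (con_orbit p).inter (H36.Con.ne _)

theorem con1 (g : Pol (Fin N)) (p : H36.Cone N) (l : Fin N) : H36.Con (P1 g p l) :=
  (con_orbit p).inter ((H36.Con.zero _).inter ((H36.Con.ne _).inter (H36.Con.all fun _ =>
    conE_iff.1 (conE_imp fun _ => conE_imp fun _ => (PolyE.top _).con))))

theorem ex1 {g : Pol (Fin N)} {p : H36.Cone N} {y : Fin N → ℂ} (hy : y ∈ H36.orbit p)
    (h0 : eval y (hpol g p.1) = 0) (h : ∃ l ∉ p.2, eval y (pderiv l (hpol g p.1)) ≠ 0) :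
    ∃ l ∉ p.2, y ∈ P1 g p l := by
  classical
  obtain ⟨l, hl, hm⟩ := (Finset.univ.filter fun l => l ∉ p.2 ∧
    eval y (pderiv l (hpol g p.1)) ≠ 0).exists_min_image id
      (h.imp fun l hl => Finset.mem_filter.2 ⟨Finset.mem_univ _, hl⟩)
  have h1 := (Finset.mem_filter.1 hl).2
  refine ⟨l, h1.1, hy, h0, h1.2, fun l' hlt hn => ?_⟩
  by_contra hne
  exact (hm l' (Finset.mem_filter.2 ⟨Finset.mem_univ _, hn, hne⟩)).not_gt hlt

theorem eq1 {g : Pol (Fin N)} {p : H36.Cone N} {y : Fin N → ℂ} {l l' : Fin N} (hl : l ∉ p.2)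
    (hl' : l' ∉ p.2) (h : y ∈ P1 g p l) (h' : y ∈ P1 g p l') : l = l' := by
  rcases lt_trichotomy l l' with e | e | e
  · exact absurd (h'.2.2.2 l e hl) h.2.2.1
  · exact e
  · exact absurd (h.2.2.2 l' e hl') h'.2.2.1

theorem prod_ne {p : H36.Cone N} {y : Fin N → ℂ} (hy : y ∈ H36.orbit p) (e : Fin N → ℕ) :
    eval y (∏ l ∈ p.2ᶜ, X l ^ e l : Pol (Fin N)) ≠ 0 := by
  rw [map_prod]
  refine Finset.prod_ne_zero_iff.2 fun l hl => ?_
  rw [map_pow, eval_X]
  exact pow_ne_zero _ fun h => Finset.mem_compl.1 hl ((hy l).1 h)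

theorem esc_X {M : Matrix (Fin N) (Fin N) ℕ} {l : Fin N} (h : 0 < ∑ i, M l i) :
    ∃ i, (X l : Pol (Fin N)) ∣ 1 * mon M i := by
  obtain ⟨i, -, hi⟩ := Finset.exists_ne_zero_of_sum_ne_zero h.ne'
  refine ⟨i, ?_⟩
  rw [one_mul, mon]
  exact (dvd_pow_self _ hi).trans (Finset.dvd_prod_of_mem (fun l => X l ^ M l i) (Finset.mem_univ l))

theorem prod_upd {S : Finset (Fin N)} {l : Fin N} (hl : l ∉ S) (h : Pol (Fin N)) (e : Fin N → ℕ)
    (n : ℕ) : ∏ l' ∈ insert l S, Function.update X l h l' ^ Function.update e l n l' =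
      h ^ n * ∏ l' ∈ S, X l' ^ e l' := by
  rw [Finset.prod_insert hl, Function.update_self, Function.update_self]
  congr 1
  refine Finset.prod_congr rfl fun l' hl' => ?_
  have : l' ≠ l := fun e => hl (e ▸ hl')
  rw [Function.update_of_ne this, Function.update_of_ne this]

/-- The data of a cone. -/
structure Gd (g : Pol (Fin N)) (p : H36.Cone N) (c : ℂ) : Prop where
  pos : ∀ l, 0 < ∑ i, p.1 l i
  ne : c ≠ 0
  jac : jacd (mon p.1) = C c * ∏ l, X l ^ (∑ i, p.1 l i - 1)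
  fac : ev (mon p.1) g = (∏ l, X l ^ H36.ord g (p.1 l)) * hpol g p.1
  upd : ∀ l, jacd (Function.update X l (hpol g p.1)) = pderiv l (hpol g p.1)

variable {g : Pol (Fin N)} {p : H36.Cone N} {c : ℂ}

/-- The stratum off the strict transform. -/
noncomputable def s0 (G : Gd g p c) : PStr N fun _ : Unit => g where
  z := X
  f := mon p.1
  d := 1
  P := P0 g p
  con := conE_iff.2 (con0 g p)
  S := p.2
  a := fun l => H36.ord g (p.1 l)
  k := fun l => ∑ i, p.1 l i - 1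
  u := fun _ => (∏ l ∈ p.2ᶜ, X l ^ H36.ord g (p.1 l)) * hpol g p.1
  v := C c * ∏ l ∈ p.2ᶜ, X l ^ (∑ i, p.1 l i - 1)
  et := fun x _ => by simp [jacd_X]
  den := fun x _ => by simp
  van := fun x hx l hl => by rw [eval_X]; exact (hx.1 l).2 hl
  fac := fun _ => by rw [one_mul, G.fac, ← mul_assoc, Finset.prod_mul_prod_compl]
  unit := fun x hx => ⟨(), by rw [map_mul]; exact mul_ne_zero (prod_ne hx.1 _) hx.2⟩
  jac := by rw [one_mul, G.jac, mul_left_comm, Finset.prod_mul_prod_compl]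
  unitv := fun x hx => by rw [map_mul, eval_C]; exact mul_ne_zero G.ne (prod_ne hx.1 _)
  esc := fun l _ _ => esc_X (G.pos l)

/-- The strata on the strict transform. -/
noncomputable def s1 (G : Gd g p c) (l : Fin N) (hl : l ∉ p.2) : PStr N fun _ : Unit => g where
  z := Function.update X l (hpol g p.1)
  f := mon p.1
  d := 1
  P := P1 g p l
  con := conE_iff.2 (con1 g p l)
  S := insert l p.2
  a := Function.update (fun l => H36.ord g (p.1 l)) l 1
  k := Function.update (fun l => ∑ i, p.1 l i - 1) l 0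
  u := fun _ => ∏ l ∈ p.2ᶜ, X l ^ H36.ord g (p.1 l)
  v := C c * ∏ l ∈ p.2ᶜ, X l ^ (∑ i, p.1 l i - 1)
  et := fun x hx => by rw [G.upd]; exact hx.2.2.1
  den := fun x _ => by simp
  van := fun x hx l' hl' => by
    rcases Finset.mem_insert.1 hl' with rfl | h
    · rw [Function.update_self]; exact hx.2.1
    · rw [Function.update_of_ne (ne_of_mem_of_not_mem h hl), eval_X]; exact (hx.1 l').2 h
  fac := fun _ => by
    rw [one_mul, G.fac, prod_upd hl, pow_one, mul_assoc, Finset.prod_mul_prod_compl, mul_comm]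
  unit := fun x hx => ⟨(), prod_ne hx.1 _⟩
  jac := by
    rw [one_mul, G.jac, prod_upd hl, pow_zero, one_mul, mul_left_comm, Finset.prod_mul_prod_compl]
  unitv := fun x hx => by rw [map_mul, eval_C]; exact mul_ne_zero G.ne (prod_ne hx.1 _)
  esc := fun l' hl' h0 => by
    rcases Finset.mem_insert.1 hl' with rfl | h
    · rw [Function.update_self] at h0; exact absurd h0 one_ne_zero
    · rw [Function.update_of_ne (ne_of_mem_of_not_mem h hl)]; exact esc_X (G.pos l')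

/-- All strata of a cone. -/
noncomputable def st (G : Gd g p c) : Option {l // l ∉ p.2} → PStr N fun _ : Unit => g
  | none => s0 G
  | some l => s1 G l.1 l.2

theorem st_f (G : Gd g p c) (o : Option {l // l ∉ p.2}) : (st G o).f = mon p.1 := by
  cases o <;> rfl

theorem st_orb (G : Gd g p c) (o : Option {l // l ∉ p.2}) {y : Fin N → ℂ} (hy : y ∈ (st G o).P) :
    y ∈ H36.orbit p := by
  cases o <;> exact hy.1

theorem st_ne (G : Gd g p c) (o : Option {l // l ∉ p.2}) {w : Fin N → PS}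
    (h : ∀ l ∈ (st G o).S, ev w ((st G o).z l) ≠ 0) : ∀ l ∈ p.2, w l ≠ 0 := by
  intro l hl
  cases o with
  | none => simpa [st, s0] using h l hl
  | some l' =>
    have h1 := h l (Finset.mem_insert_of_mem hl)
    have h2 : l ≠ l'.1 := fun e => l'.2 (e ▸ hl)
    simpa [st, s1, Function.update_of_ne h2] using h1

theorem st_eq (G : Gd g p c) {o o' : Option {l // l ∉ p.2}} {y : Fin N → ℂ}
    (h : y ∈ (st G o).P) (h' : y ∈ (st G o').P) : o = o' := by
  cases o with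
  | none =>
    cases o' with
    | none => rfl
    | some l' => exact absurd h'.2.1 h.2
  | some l =>
    cases o' with
    | none => exact absurd h.2.1 h'.2
    | some l' => rw [Subtype.ext (eq1 l.2 l'.2 h h')]

theorem sum_st (G : Gd g p c) {χ : H36.Chi} (H : H36.IsEuler χ)
    (hv : ∀ y, eval y (hpol g p.1) = H36.strict g p.1 y)
    (hs : ∀ y ∈ H36.orbit p, eval y (hpol g p.1) = 0 →
      ∃ l ∉ p.2, eval y (pderiv l (hpol g p.1)) ≠ 0) :
    ∑ o, (χ _ (st G o).P : RatFunc ℂ) * ∏ l ∈ (st G o).S,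
      1 / (((st G o).a l : RatFunc ℂ) * RatFunc.X + (((st G o).k l + 1 : ℕ) : RatFunc ℂ)) =
    ((χ _ (H36.orbit p ∩ {y | H36.strict g p.1 y ≠ 0}) : RatFunc ℂ) +
      (χ _ (H36.orbit p ∩ {y | H36.strict g p.1 y = 0}) : RatFunc ℂ) / (RatFunc.X + 1)) *
      ∏ l ∈ p.2, 1 / ((H36.ord g (p.1 l) : RatFunc ℂ) * RatFunc.X +
        ((∑ i, p.1 l i : ℕ) : RatFunc ℂ)) := by
  have hk : ∀ l, ∑ i, p.1 l i - 1 + 1 = ∑ i, p.1 l i := fun l => Nat.sub_add_cancel (G.pos l)
  have e0 : H36.orbit p ∩ {y | H36.strict g p.1 y ≠ 0} = P0 g p := by simp only [P0, hv]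
  have e1 : H36.orbit p ∩ {y | H36.strict g p.1 y = 0} =
      ⋃ l ∈ (Finset.univ : Finset {l // l ∉ p.2}), P1 g p l.1 := by
    ext y
    simp only [mem_inter_iff, mem_ofPred_eq, ← hv, Finset.mem_univ, iUnion_true, mem_iUnion]
    refine ⟨fun h => ?_, fun ⟨l, h⟩ => ⟨h.1, h.2.1⟩⟩
    obtain ⟨l, hl, h'⟩ := ex1 h.1 h.2 (hs y h.1 h.2)
    exact ⟨⟨l, hl⟩, h'⟩
  rw [e0, e1, chi_biUnion H _ (fun l _ => con1 g p l.1) fun l _ l' _ hne =>
    disjoint_left.2 fun y h h' => hne (Subtype.ext (eq1 l.2 l'.2 h h')),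
    Fintype.sum_option, add_mul, Int.cast_sum, Finset.sum_div, Finset.sum_mul]
  refine congrArg₂ (· + ·) ?_ (Finset.sum_congr rfl fun l _ => ?_)
  · simp only [st, s0, hk]
  · simp only [st, s1]
    rw [Finset.prod_insert l.2, Function.update_self, Function.update_self, div_eq_mul_one_div
      (_ : RatFunc ℂ) (RatFunc.X + 1), mul_assoc]
    refine congrArg₂ (· * ·) rfl (congrArg₂ (· * ·) (by simp) (Finset.prod_congr rfl
      fun l' hl' => ?_))
    have : l' ≠ l.1 := fun e => l.2 (e ▸ hl')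
    rw [Function.update_of_ne this, Function.update_of_ne this, hk]

end TorA

open TorA in
theorem tor (hL : StmtTORL) (hS : StmtTORS) : StmtTOR := by
  intro N g Φ hΦ hsm
  have hG : ∀ p : Φ, ∃ c, Gd g p.1 c := fun p => by
    obtain ⟨h1, c, h2, h3⟩ := hS.jac N p.1.1 (hΦ.1 p.1 p.2).1
    exact ⟨c, h1, h2, h3, hS.fac N g _, hS.upd N _⟩
  choose c G using hG
  refine ⟨{
    R := Σ p : Φ, Option {l // l ∉ p.1.2}
    s := fun r => st (G r.1) r.2
    ex := fun b hb _ => ?_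
    uniq := ?_ }, fun χ H => ?_⟩
  · obtain ⟨p, hp, w, hw, e⟩ := hL.ex N g Φ hΦ b hb
    by_cases h0 : eval (bs w) (hpol g p.1) = 0
    · obtain ⟨l, hl, h⟩ := ex1 hw h0 (hS.smooth N g Φ hΦ hsm p hp _ hw h0)
      exact ⟨⟨⟨p, hp⟩, some ⟨l, hl⟩⟩, w, h, e⟩
    · exact ⟨⟨⟨p, hp⟩, none⟩, w, ⟨hw, h0⟩, e⟩
  · rintro ⟨⟨p, hp⟩, o⟩ ⟨⟨p', hp'⟩, o'⟩ w w' h h' h1 h1' e
    simp only [st_f] at e
    obtain ⟨rfl, rfl⟩ := hL.uniq N g Φ hΦ p hp p' hp' w w' (st_orb _ o h) (st_orb _ o' h')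
      (st_ne _ o h1) (st_ne _ o' h1') e
    obtain rfl : o = o' := st_eq (G ⟨p, hp⟩) h h'
    exact ⟨rfl, rfl⟩
  · rw [PDat.ztop, zsum, H36.zeta, ← Finset.sum_coe_sort Φ]
    refine (Fintype.sum_sigma _).trans (Finset.sum_congr rfl fun p _ => ?_)
    exact sum_st (G p) H (hS.val N g _) (hS.smooth N g Φ hΦ hsm p.1 p.2)

end Pool.Agent.MP_ee8c61_ag.H95
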